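import Pool.Agent.Work.MP_b0c12c_gaps.Interface

set_option autoImplicit false

namespace Pool.LGP

open Finset

theorem p_ACT : Stmt_ACT := by
  intro π ι _ S D h3 ρ hD
  have key : (3 : ℝ) ^ act ρ ≤ (S.szn ρ : ℝ) := by
    unfold act Sys.szn
    rw [← Finset.prod_pow_eq_pow_sum, Nat.cast_prod]
    apply Finset.prod_le_prod
    · intro x _
      positivity
    · intro x _
      cases hx : ρ x with
      | none => simp [al, Sys.zl]
      | some h => simpa [al, Sys.zl] using h3 x
  have hpos : (0 : ℝ) < (3 : ℝ) ^ act ρ := by positivity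
  have h1 : Real.log ((3 : ℝ) ^ act ρ) ≤ Real.log D :=
    Real.log_le_log hpos (key.trans hD)
  rw [Real.log_pow] at h1
  have h2 : (1 : ℝ) ≤ Real.log 3 := by
    rw [Real.le_log_iff_exp_le (by norm_num)]
    have := Real.exp_one_lt_d9
    linarith
  have h3' : (act ρ : ℝ) * 1 ≤ (act ρ : ℝ) * Real.log 3 :=
    mul_le_mul_of_nonneg_left h2 (Nat.cast_nonneg _)
  linarith

end Pool.LGP
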