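import Pool.Agent.Work.MP_b0c12c_gaps.Interface
import Pool.Agent.Work.MP_b0c12c_nt_helper41.Mert

/-! # Block RNK: Rankin's bound for smooth numbers -/

set_option autoImplicit false

namespace Pool.LGP

open Finset Filter Topology

/-- the completely multiplicative function `n ^ (-θ)` -/
noncomputable def RNK_f (θ : ℝ) : ℕ →* ℝ where
  toFun n := (n : ℝ) ^ (-θ)
  map_one' := by simp
  map_mul' a b := by
    push_cast
    exact Real.mul_rpow (Nat.cast_nonneg a) (Nat.cast_nonneg b)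

theorem RNK_f_apply (θ : ℝ) (n : ℕ) : RNK_f θ n = (n : ℝ) ^ (-θ) := rfl

/-- Rankin's inequality -/
theorem RNK_rankin (θ : ℝ) (hθ : 0 < θ) (H N : ℕ) (A : Finset ℕ) (hA : A ⊆ Icc 1 H)
    (hs : ∀ n ∈ A, ∀ p : ℕ, p.Prime → p ∣ n → p < N) :
    (A.card : ℝ) ≤ (H : ℝ) ^ θ * ∏ p ∈ N.primesBelow, (1 - (p : ℝ) ^ (-θ))⁻¹ := by
  classical
  have hlt : ∀ {p : ℕ}, p.Prime → ‖RNK_f θ p‖ < 1 := by
    intro p hp
    rw [RNK_f_apply, Real.norm_eq_abs, abs_of_nonneg (Real.rpow_nonneg (Nat.cast_nonneg p) _)]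
    exact Real.rpow_lt_one_of_one_lt_of_neg (by exact_mod_cast hp.one_lt) (by linarith)
  obtain ⟨-, hsum⟩ :=
    EulerProduct.summable_and_hasSum_smoothNumbers_prod_primesBelow_geometric hlt N
  have h0 : ∀ m : N.smoothNumbers, 0 ≤ RNK_f θ m := fun m =>
    Real.rpow_nonneg (Nat.cast_nonneg _) _
  have hmem : ∀ n ∈ A, n ∈ N.smoothNumbers := by
    intro n hn
    rw [Nat.mem_smoothNumbers']
    exact hs n hn
  have h1 : ∑ n ∈ A, RNK_f θ n ≤ ∏ p ∈ N.primesBelow, (1 - RNK_f θ p)⁻¹ := by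
    have h2 : ∑ n ∈ A, RNK_f θ n
        = ∑ m ∈ A.attach.image (fun a => (⟨a.1, hmem a.1 a.2⟩ : N.smoothNumbers)),
          RNK_f θ m := by
      rw [Finset.sum_image]
      · rw [Finset.sum_attach A (fun n => RNK_f θ n)]
      · intro a _ b _ h
        simp only [Subtype.mk.injEq] at h
        exact Subtype.ext h
    rw [h2]
    exact sum_le_hasSum _ (fun m _ => h0 m) hsum
  have h3 : (A.card : ℝ) ≤ (H : ℝ) ^ θ * ∑ n ∈ A, RNK_f θ n := by
    rw [Finset.mul_sum, ← nsmul_one, ← Finset.sum_const]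
    refine Finset.sum_le_sum fun n hn => ?_
    have hn' := Finset.mem_Icc.mp (hA hn)
    have hn0 : (0 : ℝ) < n := by exact_mod_cast hn'.1
    rw [RNK_f_apply, Real.rpow_neg hn0.le, ← div_eq_mul_inv,
      ← Real.div_rpow (Nat.cast_nonneg H) hn0.le]
    apply Real.one_le_rpow _ hθ.le
    rw [le_div_iff₀ hn0, one_mul]
    exact_mod_cast hn'.2
  calc (A.card : ℝ) ≤ (H : ℝ) ^ θ * ∑ n ∈ A, RNK_f θ n := h3
    _ ≤ _ := mul_le_mul_of_nonneg_left h1 (Real.rpow_nonneg (Nat.cast_nonneg H) _)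

/-- the product is at most an exponential -/
theorem RNK_prod (θ : ℝ) (hθ : 3 / 4 ≤ θ) (N : ℕ) :
    ∏ p ∈ N.primesBelow, (1 - (p : ℝ) ^ (-θ))⁻¹ ≤
      Real.exp (∑ p ∈ N.primesBelow, ((p : ℝ) ^ (-θ) + 4 * (p : ℝ) ^ (-(3 / 2) : ℝ))) := by
  rw [Real.exp_sum]
  refine Finset.prod_le_prod ?_ ?_
  · intro p hp
    have hpp := Nat.prime_of_mem_primesBelow hp
    have h1 : (p : ℝ) ^ (-θ) < 1 :=
      Real.rpow_lt_one_of_one_lt_of_neg (by exact_mod_cast hpp.one_lt) (by linarith)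
    exact inv_nonneg.mpr (by linarith)
  · intro p hp
    have hpp := Nat.prime_of_mem_primesBelow hp
    have hp0 : (0 : ℝ) < p := by exact_mod_cast hpp.pos
    have hp1 : (1 : ℝ) ≤ p := by exact_mod_cast hpp.one_lt.le
    set x := (p : ℝ) ^ (-θ) with hx
    have hx0 : 0 ≤ x := Real.rpow_nonneg hp0.le _
    have hx1 : x ≤ 3 / 4 := by
      have h2 : x ≤ (2 : ℝ) ^ (-θ) := by
        rw [hx]
        apply Real.rpow_le_rpow_of_nonpos (by norm_num) (by exact_mod_cast hpp.two_le) (by linarith)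
      have h3 : (2 : ℝ) ^ (-θ) ≤ (2 : ℝ) ^ (-(3 / 4) : ℝ) :=
        Real.rpow_le_rpow_of_exponent_le (by norm_num) (by linarith)
      have h4 : (2 : ℝ) ^ (-(3 / 4) : ℝ) ≤ 3 / 4 := by
        rw [Real.rpow_neg (by norm_num)]
        have h5 : (4 / 3 : ℝ) ≤ (2 : ℝ) ^ (3 / 4 : ℝ) := by
          have h6 : (4 / 3 : ℝ) = ((4 / 3 : ℝ) ^ (4 : ℝ)) ^ (1 / 4 : ℝ) := by
            rw [← Real.rpow_mul (by norm_num)]; norm_num
          have h7 : (2 : ℝ) ^ (3 / 4 : ℝ) = ((2 : ℝ) ^ (3 : ℝ)) ^ (1 / 4 : ℝ) := by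
            rw [← Real.rpow_mul (by norm_num)]; norm_num
          rw [h6, h7]
          apply Real.rpow_le_rpow (by positivity) _ (by norm_num)
          rw [show (4 : ℝ) = ((4 : ℕ) : ℝ) by norm_num, show (3 : ℝ) = ((3 : ℕ) : ℝ) by norm_num,
            Real.rpow_natCast, Real.rpow_natCast]
          norm_num
        have h8 := inv_anti₀ (by norm_num) h5
        calc ((2 : ℝ) ^ (3 / 4 : ℝ))⁻¹ ≤ (4 / 3)⁻¹ := h8
          _ = 3 / 4 := by norm_num
      linarith
    have hxx : x ^ 2 ≤ (p : ℝ) ^ (-(3 / 2) : ℝ) := by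
      rw [hx, ← Real.rpow_natCast, ← Real.rpow_mul hp0.le]
      apply Real.rpow_le_rpow_of_exponent_le hp1
      push_cast
      linarith
    have h1x : 0 < 1 - x := by linarith
    have h9 : (1 - x)⁻¹ ≤ Real.exp (x / (1 - x)) := by
      have := Real.add_one_le_exp (x / (1 - x))
      have h10 : x / (1 - x) + 1 = (1 - x)⁻¹ := by
        field_simp
        ring
      linarith
    refine h9.trans (Real.exp_le_exp.mpr ?_)
    rw [div_le_iff₀ h1x]
    nlinarith

theorem RNK_sum32 : ∃ C : ℝ, 0 ≤ C ∧ ∀ N : ℕ,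
    ∑ p ∈ N.primesBelow, (p : ℝ) ^ (-(3 / 2) : ℝ) ≤ C := by
  have hs : Summable (fun n : ℕ => (n : ℝ) ^ (-(3 / 2) : ℝ)) :=
    Real.summable_nat_rpow.mpr (by norm_num)
  refine ⟨∑' n : ℕ, (n : ℝ) ^ (-(3 / 2) : ℝ), tsum_nonneg fun n =>
    Real.rpow_nonneg (Nat.cast_nonneg n) _, fun N => ?_⟩
  exact hs.sum_le_tsum _ (fun n _ => Real.rpow_nonneg (Nat.cast_nonneg n) _)

/-- convexity -/
theorem RNK_convex {s U : ℝ} (hs0 : 0 ≤ s) (hs1 : s ≤ 1) :
    Real.exp (s * U) ≤ 1 + s * (Real.exp U - 1) := by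
  have h := convexOn_exp.2 (Set.mem_univ (0 : ℝ)) (Set.mem_univ U) (by linarith : 0 ≤ 1 - s) hs0
    (by ring)
  simp only [smul_eq_mul, mul_zero, zero_add, Real.exp_zero, mul_one] at h
  linarith

/-- sum over the primes below `N` -/
theorem RNK_primes (N : ℕ) (hN : 1 ≤ N) (F : ℕ → ℝ) :
    ∑ p ∈ N.primesBelow, F p = ∑ p ∈ (Icc 1 (N - 1)).filter Nat.Prime, F p := by
  apply Finset.sum_congr _ fun _ _ => rfl
  ext p
  rw [Nat.mem_primesBelow, Finset.mem_filter, Finset.mem_Icc]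
  constructor
  · rintro ⟨h1, h2⟩
    exact ⟨⟨h2.one_lt.le, by omega⟩, h2⟩
  · rintro ⟨⟨h1, h2⟩, h3⟩
    exact ⟨by omega, h3⟩

theorem RNK_mertens : ∃ C : ℝ, 0 ≤ C ∧ ∀ v : ℕ, 2 ≤ v →
    ∑ p ∈ (Icc 1 v).filter Nat.Prime, 1 / (p : ℝ) ≤ Real.log (Real.log v) + C := by
  obtain ⟨C, hC, h⟩ := Pool.Agent.Work.MP_b0c12c_nt_helper41.mertens2
  refine ⟨1 + C / Real.log 2 + |Real.log (Real.log 2)|, ?_, fun v hv => ?_⟩
  · have : 0 < Real.log 2 := Real.log_pos (by norm_num)
    positivity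
  have h1 := h 2 v le_rfl hv
  have h2 : ∑ p ∈ (Icc 1 v).filter Nat.Prime, 1 / (p : ℝ)
      ≤ 1 + ∑ p ∈ (Ioc 2 v).filter Nat.Prime, 1 / (p : ℝ) := by
    have h3 : (Icc 1 v).filter Nat.Prime ⊆ insert 2 ((Ioc 2 v).filter Nat.Prime) := by
      intro p hp
      rw [Finset.mem_filter, Finset.mem_Icc] at hp
      rw [Finset.mem_insert, Finset.mem_filter, Finset.mem_Ioc]
      have := hp.2.two_le
      rcases Nat.eq_or_lt_of_le this with h4 | h4
      · exact Or.inl h4.symm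
      · exact Or.inr ⟨⟨h4, hp.1.2⟩, hp.2⟩
    calc ∑ p ∈ (Icc 1 v).filter Nat.Prime, 1 / (p : ℝ)
        ≤ ∑ p ∈ insert 2 ((Ioc 2 v).filter Nat.Prime), 1 / (p : ℝ) :=
          Finset.sum_le_sum_of_subset_of_nonneg h3 fun _ _ _ => by positivity
      _ = 1 / ((2 : ℕ) : ℝ) + ∑ p ∈ (Ioc 2 v).filter Nat.Prime, 1 / (p : ℝ) := by
          rw [Finset.sum_insert]
          simp
      _ ≤ _ := by
          have : 1 / ((2 : ℕ) : ℝ) ≤ 1 := by norm_num
          linarith
  have h5 := (abs_le.mp h1).2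
  have h6 : -Real.log (Real.log ((2 : ℕ) : ℝ)) ≤ |Real.log (Real.log 2)| := by
    push_cast
    exact neg_le_abs _
  push_cast at h5 h6 ⊢
  linarith

/-- the sum of `p ^ (-θ)` over `p ≤ v`, with `v ≤ y` -/
theorem RNK_main_sum : ∃ C : ℝ, 0 ≤ C ∧ ∀ (v : ℕ) (T U : ℝ), 2 ≤ v → Real.log v ≤ T → 6 ≤ T →
    0 ≤ U → U ≤ T →
    ∑ p ∈ (Icc 1 v).filter Nat.Prime, (p : ℝ) ^ (-(1 - U / T)) ≤
      Real.log T + 2 * (Real.exp U - 1) + C := by
  obtain ⟨C, hC, h⟩ := RNK_mertens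
  refine ⟨C, hC, fun v T U hv hvT hT hU hUT => ?_⟩
  have hT0 : 0 < T := by linarith
  have h1 : ∀ p ∈ (Icc 1 v).filter Nat.Prime, (p : ℝ) ^ (-(1 - U / T)) ≤
      1 / (p : ℝ) + (Real.exp U - 1) / T * (Real.log p / p) := by
    intro p hp
    rw [Finset.mem_filter, Finset.mem_Icc] at hp
    have hp0 : (0 : ℝ) < p := by exact_mod_cast hp.2.pos
    have hp1 : (1 : ℝ) ≤ p := by exact_mod_cast hp.1.1
    have hlp0 : 0 ≤ Real.log p := Real.log_nonneg hp1
    have hlp1 : Real.log p ≤ T :=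
      (Real.log_le_log hp0 (by exact_mod_cast hp.1.2)).trans hvT
    have e1 : (p : ℝ) ^ (-(1 - U / T)) = 1 / p * Real.exp (Real.log p / T * U) := by
      rw [show -(1 - U / T) = -1 + U / T by ring, Real.rpow_add hp0, Real.rpow_neg_one,
        Real.rpow_def_of_pos hp0]
      congr 1
      · rw [one_div]
      · congr 1
        ring
    have e2 := RNK_convex (s := Real.log p / T) (U := U) (div_nonneg hlp0 hT0.le)
      ((div_le_one hT0).mpr hlp1)
    rw [e1]
    calc 1 / (p : ℝ) * Real.exp (Real.log p / T * U)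
        ≤ 1 / p * (1 + Real.log p / T * (Real.exp U - 1)) :=
          mul_le_mul_of_nonneg_left e2 (by positivity)
      _ = 1 / (p : ℝ) + (Real.exp U - 1) / T * (Real.log p / p) := by
          field_simp
  have h2 : ∑ p ∈ (Icc 1 v).filter Nat.Prime, Real.log p / p ≤ Real.log v + 6 :=
    Pool.Agent.Work.MP_b0c12c_nt_helper41.FF_le (by omega)
  have hv1 : (1 : ℝ) < Real.log v + 1 := by
    have : 0 < Real.log v := Real.log_pos (by exact_mod_cast (by omega : 1 < v))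
    linarith
  have hlv : 0 < Real.log v := by linarith
  have hE : 0 ≤ Real.exp U - 1 := by
    have := Real.one_le_exp hU
    linarith
  calc ∑ p ∈ (Icc 1 v).filter Nat.Prime, (p : ℝ) ^ (-(1 - U / T))
      ≤ ∑ p ∈ (Icc 1 v).filter Nat.Prime,
        (1 / (p : ℝ) + (Real.exp U - 1) / T * (Real.log p / p)) := Finset.sum_le_sum h1
    _ = ∑ p ∈ (Icc 1 v).filter Nat.Prime, 1 / (p : ℝ)
        + (Real.exp U - 1) / T * ∑ p ∈ (Icc 1 v).filter Nat.Prime, Real.log p / p := by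
        rw [Finset.sum_add_distrib, Finset.mul_sum]
    _ ≤ (Real.log (Real.log v) + C) + (Real.exp U - 1) / T * (2 * T) := by
        apply add_le_add (h v hv)
        apply mul_le_mul_of_nonneg_left _ (div_nonneg hE hT0.le)
        linarith
    _ = Real.log (Real.log v) + 2 * (Real.exp U - 1) + C := by
        field_simp
        ring
    _ ≤ _ := by
        have := Real.log_le_log hlv hvT
        linarith

theorem p_RNK : Stmt_RNK := by
  obtain ⟨C, hC0, hC⟩ := RNK_main_sum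
  obtain ⟨C₁, hC₁0, hC₁⟩ := RNK_sum32
  have t1 : Tendsto (fun w : ℕ => Real.log (w : ℝ)) atTop atTop :=
    Real.tendsto_log_atTop.comp tendsto_natCast_atTop_atTop
  have t2 : Tendsto (fun w : ℕ => Real.log (Real.log (w : ℝ))) atTop atTop :=
    Real.tendsto_log_atTop.comp t1
  have t3 : Tendsto (fun w : ℕ => Real.log (Real.log (Real.log (w : ℝ)))) atTop atTop :=
    Real.tendsto_log_atTop.comp t2
  have o1 : ∀ᶠ w : ℕ in atTop, 48 * Real.log (Real.log (w : ℝ)) ≤ Real.log (w : ℝ) := by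
    have h := Real.isLittleO_log_id_atTop.bound (show (0 : ℝ) < 1 / 48 by norm_num)
    have h' := t1.eventually h
    filter_upwards [h', t1.eventually_ge_atTop 0, t2.eventually_ge_atTop 0] with w hw hw0 hw2
    simp only [id, Real.norm_eq_abs] at hw
    rw [abs_of_nonneg hw2, abs_of_nonneg hw0] at hw
    linarith
  have o2 : ∀ᶠ w : ℕ in atTop, Real.log (Real.log (Real.log (w : ℝ))) ≤
      Real.log (Real.log (w : ℝ)) := by
    filter_upwards [t2.eventually_ge_atTop 1] with w hw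
    have := Real.log_le_sub_one_of_pos (show 0 < Real.log (Real.log (w : ℝ)) by linarith)
    linarith
  filter_upwards [o1, o2, t3.eventually_ge_atTop 1, t2.eventually_ge_atTop 1,
    t1.eventually_ge_atTop 48, t1.eventually_ge_atTop (Real.exp (C + 4 * C₁)),
    eventually_ge_atTop 2] with w hw1 hw2 hw3 hw4 hw5 hw6 hw7
  intro H A hwH hA hsm
  set l := Real.log (w : ℝ) with hl
  set l2 := Real.log l with hl2
  set l3 := Real.log l2 with hl3
  have hl0 : 0 < l := by linarith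
  have hl20 : 0 < l2 := by linarith
  have hw0 : (0 : ℝ) < w := by
    have : 0 < w := by omega
    exact_mod_cast this
  -- the parameters
  set T := l * l3 / (8 * l2) with hT
  have hyy : yy w = Real.exp T := rfl
  have hT6 : 6 ≤ T := by
    rw [hT, le_div_iff₀ (by positivity)]
    nlinarith
  have hTl : T ≤ l / 8 := by
    rw [hT, div_le_div_iff₀ (by positivity) (by norm_num)]
    nlinarith
  have hU : l3 ≤ T := by
    rw [hT, le_div_iff₀ (by positivity)]
    nlinarith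
  set β := 8 * l2 / l with hβ
  have hβT : l3 / T = β := by
    rw [hT, hβ]
    have : l3 ≠ 0 := by linarith
    field_simp
  have hβ4 : β ≤ 1 / 4 := by
    rw [hβ, div_le_iff₀ hl0]
    linarith
  have hβ0 : 0 ≤ β := by positivity
  set v := ⌊Real.exp T⌋₊ with hv
  have hv2 : 2 ≤ v := by
    rw [hv]
    apply Nat.le_floor
    have := Real.add_one_le_exp T
    push_cast
    linarith
  have hlv : Real.log v ≤ T := by
    have h1 : (v : ℝ) ≤ Real.exp T := Nat.floor_le (Real.exp_pos T).le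
    have h2 : (0 : ℝ) < v := by exact_mod_cast (by omega : 0 < v)
    calc Real.log v ≤ Real.log (Real.exp T) := Real.log_le_log h2 h1
      _ = T := Real.log_exp T
  have hrank := RNK_rankin (1 - β) (by linarith) H (v + 1) A hA (by
    intro n hn p hp hpn
    have h1 := hsm n hn p hp hpn
    rw [hyy] at h1
    have h2 : p ≤ v := Nat.le_floor h1
    omega)
  have hprod := RNK_prod (1 - β) (by linarith) (v + 1)
  have hsum : ∑ p ∈ (v + 1).primesBelow, ((p : ℝ) ^ (-(1 - β)) + 4 * (p : ℝ) ^ (-(3 / 2) : ℝ))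
      ≤ 3 * l2 + C + 4 * C₁ := by
    rw [Finset.sum_add_distrib, ← Finset.mul_sum]
    have h1 : ∑ p ∈ (v + 1).primesBelow, (p : ℝ) ^ (-(1 - β)) ≤ 3 * l2 + C := by
      rw [RNK_primes (v + 1) (by omega), Nat.add_sub_cancel]
      have h2 := hC v T l3 hv2 hlv hT6 (by linarith) hU
      rw [hβT] at h2
      have h3 : Real.exp l3 = l2 := Real.exp_log hl20
      rw [h3] at h2
      have h4 : Real.log T ≤ l2 := by
        rw [hl2]
        apply Real.log_le_log (by linarith)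
        linarith
      linarith
    have h2 := hC₁ (v + 1)
    linarith
  have hH0 : (0 : ℝ) < H := by
    have : 0 < H := by omega
    exact_mod_cast this
  have hHb : (H : ℝ) ^ (1 - β) ≤ H * Real.exp (-(8 * l2)) := by
    rw [Real.rpow_sub hH0, Real.rpow_one, div_eq_mul_inv]
    apply mul_le_mul_of_nonneg_left _ hH0.le
    rw [Real.exp_neg]
    apply inv_anti₀ (Real.exp_pos _)
    rw [Real.rpow_def_of_pos hH0]
    apply Real.exp_le_exp.mpr
    have h1 : l ≤ Real.log H := Real.log_le_log hw0 (by exact_mod_cast hwH)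
    calc 8 * l2 = l * β := by
          rw [hβ]; field_simp
      _ ≤ Real.log H * β := mul_le_mul_of_nonneg_right h1 hβ0
  have hexp8 : Real.exp (-(8 * l2)) * Real.exp (3 * l2 + C + 4 * C₁)
      = Real.exp (C + 4 * C₁) / l ^ 5 := by
    rw [← Real.exp_add]
    have h1 : l ^ 5 = Real.exp (5 * l2) := by
      rw [hl2, mul_comm, Real.exp_mul, Real.exp_log hl0]
      norm_num
    rw [h1, ← Real.exp_sub]
    congr 1
    ring
  calc (A.card : ℝ) ≤ (H : ℝ) ^ (1 - β) * ∏ p ∈ (v + 1).primesBelow,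
        (1 - (p : ℝ) ^ (-(1 - β)))⁻¹ := hrank
    _ ≤ (H * Real.exp (-(8 * l2))) * Real.exp (3 * l2 + C + 4 * C₁) := by
        apply mul_le_mul hHb (hprod.trans (Real.exp_le_exp.mpr hsum)) _ (by positivity)
        refine Finset.prod_nonneg fun p hp => ?_
        have hpp := Nat.prime_of_mem_primesBelow hp
        have h1 : (p : ℝ) ^ (-(1 - β)) < 1 :=
          Real.rpow_lt_one_of_one_lt_of_neg (by exact_mod_cast hpp.one_lt) (by linarith)
        exact inv_nonneg.mpr (by linarith)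
    _ = H * (Real.exp (C + 4 * C₁) / l ^ 5) := by rw [mul_assoc, hexp8]
    _ ≤ H * (1 / l ^ 3) := by
        apply mul_le_mul_of_nonneg_left _ hH0.le
        rw [div_le_div_iff₀ (by positivity) (by positivity), one_mul]
        have h1 : Real.exp (C + 4 * C₁) ≤ l ^ 2 := by nlinarith
        calc Real.exp (C + 4 * C₁) * l ^ 3 ≤ l ^ 2 * l ^ 3 :=
              mul_le_mul_of_nonneg_right h1 (by positivity)
          _ = l ^ 5 := by ring
    _ = H / l ^ 3 := by ring

end Pool.LGP
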