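import Pool.Agent.Work.MP_b0c12c_gaps.FSb

/-! # First step (Erdős–Rankin), part c: the number of survivors (helper85) -/

set_option autoImplicit false

open Finset Filter

namespace Pool.Agent.Work.MP_b0c12c_gaps.FS

open Pool.Agent.Work.MP_b0c12c_nt_helper41

theorem cheb (n : ℕ) (hn : 2 ≤ n) : (Nat.primeCounting n : ℝ) ≤ 5 * n / Real.log n := by
  have hn1 : (1 : ℝ) < n := by exact_mod_cast (by omega : 1 < n)
  have hn0 : (0 : ℝ) < n := by linarith
  have hl : 0 < Real.log n := Real.log_pos hn1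
  have h := Chebyshev.pi_le_log4_mul_div hn1
  rw [Nat.floor_natCast, Real.log_sqrt hn0.le] at h
  have hs0 : 0 < Real.sqrt n := Real.sqrt_pos.2 hn0
  have hss : Real.sqrt n * Real.sqrt n = n := Real.mul_self_sqrt hn0.le
  have hlog : Real.log n ≤ 2 * Real.sqrt n := by
    have h1 : Real.log n = 2 * Real.log (Real.sqrt n) := by
      rw [Real.log_sqrt hn0.le]; ring
    have h2 := Real.log_le_sub_one_of_pos hs0
    linarith
  have h3 : Real.sqrt n ≤ 2 * n / Real.log n := by
    rw [le_div_iff₀ hl]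
    nlinarith
  have h4 : Real.log 4 ≤ 3 / 2 := by
    have : Real.log 4 = 2 * Real.log 2 := by
      rw [show (4 : ℝ) = 2 ^ 2 by norm_num, Real.log_pow]; norm_num
    rw [this]
    linarith [Real.log_two_lt_d9]
  have h5 : Real.log 4 * n / (Real.log n / 2) ≤ 3 * n / Real.log n := by
    rw [div_le_div_iff₀ (by positivity) hl]
    nlinarith [mul_pos hn0 hl]
  have h6 : 3 * (n : ℝ) / Real.log n + 2 * n / Real.log n = 5 * n / Real.log n := by ring
  linarith

theorem harm (M : ℕ) : ∑ m ∈ Icc 1 M, 1 / (m : ℝ) ≤ 1 + Real.log M := by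
  have h := harmonic_le_one_add_log M
  rw [harmonic_eq_sum_Icc] at h
  push_cast at h
  simpa [one_div] using h

/-- the survivors of the classes zero -/
theorem count_T (y w H : ℕ) (hw : 2 ≤ w) :
    (((Icc 1 H).filter fun h => ∀ p ∈ (Ioc y w).filter Nat.Prime, ¬ p ∣ h).card : ℝ) ≤
      (((Icc 1 H).filter fun n => n ∈ Nat.smoothNumbers (y + 1)).card : ℝ) +
        5 * H / Real.log w * (1 + Real.log ((H / w : ℕ) : ℝ)) := by
  classical
  have hwl : 0 < Real.log w := Real.log_pos (by exact_mod_cast (by omega : 1 < w))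
  set T := (Icc 1 H).filter fun h => ∀ p ∈ (Ioc y w).filter Nat.Prime, ¬ p ∣ h with hT
  set S := (Icc 1 H).filter fun n => n ∈ Nat.smoothNumbers (y + 1) with hS
  have hsub : T ⊆ S ∪ (Icc 1 (H / w)).biUnion fun m =>
      ((Icc 1 (H / m)).filter Nat.Prime).image fun q => m * q := by
    intro h hh
    rw [hT, mem_filter, mem_Icc] at hh
    rw [mem_union]
    by_cases hsm : h ∈ Nat.smoothNumbers (y + 1)
    · left
      rw [hS, mem_filter, mem_Icc]
      exact ⟨hh.1, hsm⟩
    · right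
      rw [Nat.mem_smoothNumbers'] at hsm
      push Not at hsm
      obtain ⟨q, hq, hqh, hqy⟩ := hsm
      have hqw : w < q := by
        by_contra hcon
        exact hh.2 q (by rw [mem_filter, mem_Ioc]; exact ⟨⟨by omega, by omega⟩, hq⟩) hqh
      obtain ⟨m, hm⟩ := hqh
      have hm0 : 0 < m := by
        rcases Nat.eq_zero_or_pos m with h0 | h0
        · subst h0; omega
        · exact h0
      have hq0 : 0 < q := hq.pos
      rw [mem_biUnion]
      refine ⟨m, ?_, ?_⟩
      · rw [mem_Icc]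
        refine ⟨hm0, ?_⟩
        rw [Nat.le_div_iff_mul_le (by omega)]
        calc m * w ≤ m * q := Nat.mul_le_mul_left _ hqw.le
          _ = h := by rw [hm]; ring
          _ ≤ H := hh.1.2
      · rw [mem_image]
        refine ⟨q, ?_, by rw [hm]; ring⟩
        rw [mem_filter, mem_Icc]
        refine ⟨⟨hq0, ?_⟩, hq⟩
        rw [Nat.le_div_iff_mul_le hm0]
        rw [← hm]; exact hh.1.2
  have hcard : (T.card : ℝ) ≤ S.card + ∑ m ∈ Icc 1 (H / w), (Nat.primeCounting (H / m) : ℝ) := by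
    have h1 : T.card ≤ S.card + ∑ m ∈ Icc 1 (H / w), Nat.primeCounting (H / m) := by
      calc T.card ≤ _ := Finset.card_le_card hsub
        _ ≤ _ := Finset.card_union_le _ _
        _ ≤ _ := by
          refine Nat.add_le_add_left ?_ _
          refine Finset.card_biUnion_le.trans (Finset.sum_le_sum fun m _ => ?_)
          refine Finset.card_image_le.trans ?_
          rw [Nat.primeCounting, Nat.primeCounting', Nat.count_eq_card_filter_range]
          refine Finset.card_le_card fun p hp => ?_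
          rw [mem_filter, mem_Icc] at hp
          rw [mem_filter, mem_range]
          exact ⟨by omega, hp.2⟩
    exact_mod_cast h1
  have hsum : ∑ m ∈ Icc 1 (H / w), (Nat.primeCounting (H / m) : ℝ) ≤
      5 * H / Real.log w * (1 + Real.log ((H / w : ℕ) : ℝ)) := by
    have h1 : ∀ m ∈ Icc 1 (H / w), (Nat.primeCounting (H / m) : ℝ) ≤
        5 * H / Real.log w * (1 / (m : ℝ)) := by
      intro m hm
      rw [mem_Icc] at hm
      have hm0 : (0 : ℝ) < m := by exact_mod_cast hm.1
      have hmw : w ≤ H / m := by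
        rw [Nat.le_div_iff_mul_le hm.1]
        have := (Nat.le_div_iff_mul_le (by omega : 0 < w)).1 hm.2
        linarith [Nat.mul_comm w m]
      have h2 := cheb (H / m) (by omega)
      have h3 : Real.log w ≤ Real.log ((H / m : ℕ) : ℝ) :=
        Real.log_le_log (by exact_mod_cast (by omega : 0 < w)) (by exact_mod_cast hmw)
      have h4 : ((H / m : ℕ) : ℝ) ≤ H / m := Nat.cast_div_le
      calc (Nat.primeCounting (H / m) : ℝ) ≤ 5 * ((H / m : ℕ) : ℝ) / Real.log ((H / m : ℕ) : ℝ) := h2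
        _ ≤ 5 * ((H / m : ℕ) : ℝ) / Real.log w :=
            div_le_div_of_nonneg_left (by positivity) hwl h3
        _ ≤ 5 * ((H : ℝ) / m) / Real.log w := by gcongr
        _ = _ := by ring
    calc _ ≤ ∑ m ∈ Icc 1 (H / w), 5 * H / Real.log w * (1 / (m : ℝ)) := Finset.sum_le_sum h1
      _ = 5 * H / Real.log w * ∑ m ∈ Icc 1 (H / w), 1 / (m : ℝ) := by rw [Finset.mul_sum]
      _ ≤ _ := mul_le_mul_of_nonneg_left (harm _) (by positivity)
  linarith

theorem prod_small : ∃ C : ℝ, 0 < C ∧ ∀ y : ℕ, 2 ≤ y →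
    ∏ p ∈ (Icc 1 y).filter Nat.Prime, (1 - 1 / (p : ℝ)) ≤ C / Real.log y := by
  obtain ⟨C, hC, h⟩ := sum_inv
  refine ⟨Real.exp C, Real.exp_pos _, fun y hy => ?_⟩
  have hly : 0 < Real.log y := Real.log_pos (by exact_mod_cast (by omega : 1 < y))
  have h1 := (abs_le.1 (h y hy)).1
  calc ∏ p ∈ (Icc 1 y).filter Nat.Prime, (1 - 1 / (p : ℝ))
      ≤ ∏ p ∈ (Icc 1 y).filter Nat.Prime, Real.exp (-(1 / (p : ℝ))) := by
        refine Finset.prod_le_prod (fun p hp => ?_) (fun p _ => ?_)
        · rw [mem_filter] at hp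
          have : (1 : ℝ) ≤ p := by exact_mod_cast hp.2.one_lt.le
          rw [sub_nonneg, div_le_one (by linarith)]; exact this
        · have := Real.add_one_le_exp (-(1 / (p : ℝ)))
          linarith
    _ = Real.exp (-∑ p ∈ (Icc 1 y).filter Nat.Prime, 1 / (p : ℝ)) := by
        rw [← Real.exp_sum, Finset.sum_neg_distrib]
    _ ≤ Real.exp (C + -Real.log (Real.log y)) := Real.exp_le_exp.2 (by linarith)
    _ = Real.exp C / Real.log y := by
        rw [Real.exp_add, Real.exp_neg, Real.exp_log hly]; rfl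

/-- **First step.**  Residue classes (through `v`) modulo the primes `p ≤ w` which leave at most
`C H (log log w)^2 / ((log w)^2 log log log w)` elements of `[1,H]`, `w ≤ H ≤ w (log w)^2`. -/
theorem first_step : ∃ C : ℝ, 0 < C ∧ ∃ w₀ : ℕ, ∀ w : ℕ, w₀ ≤ w → ∀ H : ℕ, w ≤ H →
    (H : ℝ) ≤ w * (Real.log w) ^ 2 →
    ∃ v : ℕ, v < primorial w ∧ ∃ S : Finset ℕ, S ⊆ Icc 1 H ∧
      (∀ h ∈ Icc 1 H, h ∉ S → ∃ p : ℕ, p.Prime ∧ p ≤ w ∧ p ∣ v + h) ∧
      (S.card : ℝ) ≤ C * H * (Real.log (Real.log w)) ^ 2 /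
          ((Real.log w) ^ 2 * Real.log (Real.log (Real.log w))) := by
  classical
  obtain ⟨C1, hC1, hR⟩ := rankin
  obtain ⟨C2, hC2, hS⟩ := prod_small
  -- limits
  have t1 : Tendsto (fun w : ℕ => Real.log w) atTop atTop :=
    Real.tendsto_log_atTop.comp tendsto_natCast_atTop_atTop
  have t2 : Tendsto (fun w : ℕ => Real.log (Real.log w)) atTop atTop :=
    Real.tendsto_log_atTop.comp t1
  have t3 : Tendsto (fun w : ℕ => Real.log (Real.log (Real.log w))) atTop atTop :=
    Real.tendsto_log_atTop.comp t2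
  have t4 : ∀ᶠ w : ℕ in atTop, Real.log (Real.log w) ≤ 1 / 24 * Real.log w := by
    have h := Real.isLittleO_log_id_atTop.bound (show (0 : ℝ) < 1 / 24 by norm_num)
    have h' := t1.eventually h
    filter_upwards [h', t1.eventually_ge_atTop 1, t2.eventually_ge_atTop 0] with w h1 h2 h3
    simp only [id] at h1
    rw [Real.norm_of_nonneg h3, Real.norm_of_nonneg (by linarith)] at h1
    exact h1
  have hev : ∀ᶠ w : ℕ in atTop, 2 ≤ w ∧ 1 ≤ Real.log (Real.log (Real.log w)) ∧
      Real.log (Real.log w) ≤ 1 / 24 * Real.log w ∧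
      8 * C1 ≤ Real.sqrt (Real.log (Real.log w)) ∧ 8 * C1 ≤ Real.log (Real.log w) ∧
      1 ≤ Real.log (Real.log w) := by
    have t5 : Tendsto (fun w : ℕ => Real.sqrt (Real.log (Real.log w))) atTop atTop :=
      Real.tendsto_sqrt_atTop.comp t2
    filter_upwards [eventually_ge_atTop 2, t3.eventually_ge_atTop 1, t4,
      t5.eventually_ge_atTop (8 * C1), t2.eventually_ge_atTop (8 * C1),
      t2.eventually_ge_atTop 1] with w h1 h2 h3 h4 h5 h6
    exact ⟨h1, h2, h3, h4, h5, h6⟩
  obtain ⟨w₀, hw₀⟩ := eventually_atTop.1 hev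
  refine ⟨384 * C2, by positivity, w₀, fun w hw H hwH hH => ?_⟩
  obtain ⟨hw2, hL3, hL21, hC1a, hC1b, hL2⟩ := hw₀ w hw
  set L1 := Real.log w with hL1d
  set L2 := Real.log L1 with hL2d
  set L3 := Real.log L2 with hL3d
  have hL1 : 24 ≤ L1 := by linarith
  have hL10 : 0 < L1 := by linarith
  have hL20 : 0 < L2 := by linarith
  have hL30 : 0 < L3 := by linarith
  have hL32 : L3 ≤ L2 := by
    have := Real.log_le_sub_one_of_pos hL20
    linarith
  have hexpL2 : Real.exp L2 = L1 := Real.exp_log hL10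
  have hexpL3 : Real.exp L3 = L2 := Real.exp_log hL20
  have hw0 : (0 : ℝ) < w := by exact_mod_cast (by omega : 0 < w)
  have hHw : (w : ℝ) ≤ H := by exact_mod_cast hwH
  have hH0 : (0 : ℝ) < H := by linarith
  -- the level `y`
  set K := L1 * L3 / (12 * L2) with hK
  have hK2 : 2 ≤ K := by
    rw [hK, le_div_iff₀ (by positivity)]
    nlinarith
  have hKL : K ≤ L1 := by
    rw [hK, div_le_iff₀ (by positivity)]
    nlinarith
  set y := ⌊Real.exp K⌋₊ with hy
  have hyK : (y : ℝ) ≤ Real.exp K := Nat.floor_le (Real.exp_pos _).le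
  have hexpK : 2 ≤ Real.exp K := by
    have := Real.add_one_le_exp K
    linarith
  have hy2 : 2 ≤ y := Nat.le_floor (by exact_mod_cast hexpK)
  have hy2' : Real.exp K / 2 ≤ y := by
    have := Nat.lt_floor_add_one (Real.exp K)
    rw [← hy] at this
    linarith
  have hy0 : (0 : ℝ) < y := by exact_mod_cast (by omega : 0 < y)
  have hlogy : K / 2 ≤ Real.log y := by
    have h1 : Real.log (Real.exp K / 2) ≤ Real.log y := Real.log_le_log (by positivity) hy2'
    rw [Real.log_div (Real.exp_pos _).ne' (by norm_num), Real.log_exp] at h1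
    have := Real.log_two_lt_d9
    linarith
  have hlogy' : Real.log y ≤ K := by
    have := Real.log_le_log hy0 hyK
    rwa [Real.log_exp] at this
  have hyw : y ≤ w := by
    have : (y : ℝ) ≤ w := by
      calc (y : ℝ) ≤ Real.exp K := hyK
        _ ≤ Real.exp L1 := Real.exp_le_exp.2 hKL
        _ = w := Real.exp_log hw0
    exact_mod_cast this
  have hlly : Real.log (Real.log y) ≤ L2 := by
    refine Real.log_le_log (by linarith) (by linarith)
  -- Rankin
  set D := 6 * L2 / L1 with hD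
  have hD0 : 0 ≤ D := by positivity
  have hD2 : D ≤ 1 / 2 := by
    rw [hD, div_le_iff₀ hL10]
    linarith
  have hsm : (((Icc 1 H).filter fun n => n ∈ Nat.smoothNumbers (y + 1)).card : ℝ) ≤ H * L2 / L1 := by
    have h1 := hR y H D hy2 hD0 hD2
    have hDy : D * Real.log y ≤ L3 / 2 := by
      calc D * Real.log y ≤ D * K := mul_le_mul_of_nonneg_left hlogy' hD0
        _ = L3 / 2 := by rw [hD, hK]; field_simp; norm_num
    have hE : Real.exp (D * Real.log y) ≤ Real.sqrt L2 := by
      have h2 : Real.sqrt L2 = Real.exp (L3 / 2) := by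
        rw [Real.exp_half, hexpL3]
      rw [h2]
      exact Real.exp_le_exp.2 hDy
    have hexp : 4 * (Real.log (Real.log y) + C1 + C1 * Real.exp (D * Real.log y)) ≤ 5 * L2 := by
      have h3 : C1 * Real.exp (D * Real.log y) ≤ C1 * Real.sqrt L2 :=
        mul_le_mul_of_nonneg_left hE hC1.le
      have h4 : Real.sqrt L2 * Real.sqrt L2 = L2 := Real.mul_self_sqrt hL20.le
      have h5 : 0 ≤ Real.sqrt L2 := Real.sqrt_nonneg _
      nlinarith
    have hpow : (H : ℝ) ^ (1 - D) ≤ H * Real.exp (-(6 * L2)) := by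
      have h3 : (H : ℝ) ^ (1 - D) = H * Real.exp (-(D * Real.log H)) := by
        rw [Real.rpow_def_of_pos hH0]
        have : Real.log H * (1 - D) = Real.log H + -(D * Real.log H) := by ring
        rw [this, Real.exp_add, Real.exp_log hH0]
      rw [h3]
      refine mul_le_mul_of_nonneg_left (Real.exp_le_exp.2 ?_) hH0.le
      have h4 : L1 ≤ Real.log H := Real.log_le_log hw0 hHw
      have h5 : D * L1 ≤ D * Real.log H := mul_le_mul_of_nonneg_left h4 hD0
      have h6 : D * L1 = 6 * L2 := by rw [hD]; field_simp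
      linarith
    calc _ ≤ _ := h1
      _ ≤ (H * Real.exp (-(6 * L2))) * Real.exp (5 * L2) := by
          refine mul_le_mul hpow (Real.exp_le_exp.2 hexp) (Real.exp_pos _).le (by positivity)
      _ = H / L1 := by
          rw [mul_assoc, ← Real.exp_add]
          have : -(6 * L2) + 5 * L2 = -L2 := by ring
          rw [this, Real.exp_neg, hexpL2]; rfl
      _ ≤ H * L2 / L1 := by
          refine div_le_div_of_nonneg_right ?_ hL10.le
          nlinarith
  -- the set `T`
  set T := (Icc 1 H).filter fun h => ∀ p ∈ (Ioc y w).filter Nat.Prime, ¬ p ∣ h with hT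
  have hTc : (T.card : ℝ) ≤ 16 * H * L2 / L1 := by
    have h1 := count_T y w H hw2
    have h2 : Real.log ((H / w : ℕ) : ℝ) ≤ 2 * L2 := by
      have h3 : ((H / w : ℕ) : ℝ) ≤ L1 ^ 2 := by
        have h4 : ((H / w : ℕ) : ℝ) ≤ (H : ℝ) / w := Nat.cast_div_le
        have h5 : (H : ℝ) / w ≤ L1 ^ 2 := by
          rw [div_le_iff₀ hw0]; linarith [mul_comm (w : ℝ) (L1 ^ 2)]
        linarith
      have h6 : 0 < H / w := Nat.div_pos hwH (by omega)
      have h7 := Real.log_le_log (by exact_mod_cast h6) h3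
      rw [Real.log_pow] at h7
      push_cast at h7
      exact h7
    have h3 : 5 * (H : ℝ) / L1 * (1 + Real.log ((H / w : ℕ) : ℝ)) ≤ 5 * H / L1 * (3 * L2) :=
      mul_le_mul_of_nonneg_left (by linarith) (by positivity)
    have h4 : 5 * (H : ℝ) / L1 * (3 * L2) = 15 * H * L2 / L1 := by ring
    have h5 : 16 * (H : ℝ) * L2 / L1 = H * L2 / L1 + 15 * H * L2 / L1 := by ring
    linarith
  -- greedy
  obtain ⟨a, ha⟩ := greedy ((Icc 1 y).filter Nat.Prime)
    (fun p hp => (mem_filter.1 hp).2.pos) T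
  obtain ⟨v, hv1, hv2⟩ := crt ((Icc 1 w).filter Nat.Prime) (fun p hp => (mem_filter.1 hp).2)
    (fun p => if p ≤ y then a p else 0)
  have hprim : primorial w = ∏ p ∈ (Icc 1 w).filter Nat.Prime, p := by
    unfold primorial
    refine Finset.prod_congr ?_ fun _ _ => rfl
    ext p
    simp only [mem_filter, mem_range, mem_Icc]
    constructor
    · rintro ⟨h1, h2⟩; exact ⟨⟨h2.one_lt.le, by omega⟩, h2⟩
    · rintro ⟨⟨h1, h2⟩, h3⟩; exact ⟨by omega, h3⟩
  refine ⟨v, by rw [hprim]; exact hv1,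
    (Icc 1 H).filter fun h => ∀ p : ℕ, p.Prime → p ≤ w → ¬ p ∣ v + h, filter_subset _ _,
    fun h hh hhS => ?_, ?_⟩
  · by_contra hcon
    push Not at hcon
    exact hhS (mem_filter.2 ⟨hh, hcon⟩)
  have hsub : ((Icc 1 H).filter fun h => ∀ p : ℕ, p.Prime → p ≤ w → ¬ p ∣ v + h) ⊆
      T.filter fun h => ∀ p ∈ (Icc 1 y).filter Nat.Prime, ¬ p ∣ a p + h := by
    intro h hh
    rw [mem_filter] at hh
    rw [mem_filter, hT, mem_filter]
    refine ⟨⟨hh.1, fun p hp hph => ?_⟩, fun p hp hph => ?_⟩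
    · rw [mem_filter, mem_Ioc] at hp
      refine hh.2 p hp.2 hp.1.2 ?_
      rw [hv2 p (by rw [mem_filter, mem_Icc]; exact ⟨⟨hp.2.one_lt.le, hp.1.2⟩, hp.2⟩) h]
      simp only [if_neg (not_le.2 hp.1.1), zero_add]
      exact hph
    · rw [mem_filter, mem_Icc] at hp
      refine hh.2 p hp.2 (hp.1.2.trans hyw) ?_
      rw [hv2 p (by rw [mem_filter, mem_Icc]; exact ⟨⟨hp.1.1, hp.1.2.trans hyw⟩, hp.2⟩) h]
      simp only [if_pos hp.1.2]
      exact hph
  have hlogy0 : 0 < Real.log y := by linarith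
  calc (((Icc 1 H).filter fun h => ∀ p : ℕ, p.Prime → p ≤ w → ¬ p ∣ v + h).card : ℝ)
      ≤ ((T.filter fun h => ∀ p ∈ (Icc 1 y).filter Nat.Prime, ¬ p ∣ a p + h).card : ℝ) := by
        exact_mod_cast Finset.card_le_card hsub
    _ ≤ T.card * ∏ p ∈ (Icc 1 y).filter Nat.Prime, (1 - 1 / (p : ℝ)) := ha
    _ ≤ T.card * (C2 / Real.log y) := mul_le_mul_of_nonneg_left (hS y hy2) (Nat.cast_nonneg _)
    _ ≤ (16 * H * L2 / L1) * (C2 / (K / 2)) := by
        refine mul_le_mul hTc ?_ (by positivity) (by positivity)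
        exact div_le_div_of_nonneg_left hC2.le (by positivity) hlogy
    _ = 384 * C2 * H * L2 ^ 2 / (L1 ^ 2 * L3) := by
        rw [hK]
        field_simp
        ring

end Pool.Agent.Work.MP_b0c12c_gaps.FS
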