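import Pool.Agent.Work.MP_b0c12c_gaps.Interface

/-! # Block BBD (helper95) -/

set_option autoImplicit false

namespace Pool.LGP

open Finset

theorem p_BBD (h1 : Stmt_BST) (h2 : Stmt_ACT) : Stmt_BBD := by
  classical
  intro π ι _ _ _ _ S u a b C K D z hu hz hpr hK hb hbD m σ
  have hD1 : 1 ≤ D := hb.trans hbD
  have hD0 : 0 ≤ D := by linarith
  have hlog : 0 ≤ Real.log D := Real.log_nonneg hD1
  have hz0 : 0 < z := by linarith
  have hE : 0 ≤ Real.log D * K / z := by positivity
  obtain ⟨hA, hB⟩ := h1 π ι S u D m σ
  by_cases hex : ∃ x, σ x = some m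
  · rw [hA hex]
    refine ⟨?_, fun h => absurd rfl h⟩
    rw [abs_zero]
    apply mul_nonneg (Finset.prod_nonneg fun h _ => abs_nonneg _)
    split_ifs <;> linarith
  · have hex' : ∀ x, σ x ≠ some m := fun x hx => hex ⟨x, hx⟩
    have hpush := hB hex'
    have hfm : fib σ m = ∅ := by
      ext x
      simp [fib, hex' x]
    have hprod : ∏ h, |gg u (fib σ h)| = ∏ h ∈ univ.erase m, |gg u (fib σ h)| := by
      rw [← Finset.mul_prod_erase univ _ (mem_univ m), hfm]
      simp [gg]
    have hwt : ∀ T, 1 ≤ S.wt T := by
      intro T
      unfold Sys.wt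
      calc (1 : ℝ) = ∏ x ∈ T, (1 : ℝ) := by rw [Finset.prod_const_one]
        _ ≤ ∏ x ∈ T, (S.pr x : ℝ) :=
          Finset.prod_le_prod (fun _ _ => zero_le_one) (fun x _ => by linarith [hpr x])
    obtain ⟨Br, hBr⟩ : ∃ Br : ℝ, Br = ∑ T : Finset π, open Classical in
          if (∀ x ∈ T, σ x = none) ∧ (S.szn σ : ℝ) * S.wt T ≤ D then gg u T else 0 := ⟨_, rfl⟩
    rw [← hBr] at hpush
    have hBr0 : D < S.szn σ → Br = 0 := by
      intro h
      rw [hBr]
      apply Finset.sum_eq_zero
      intro T _
      rw [if_neg]
      rintro ⟨_, h3⟩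
      have h4 : (S.szn σ : ℝ) * 1 ≤ (S.szn σ : ℝ) * S.wt T :=
        mul_le_mul_of_nonneg_left (hwt T) (Nat.cast_nonneg _)
      linarith
    have hBr1 : (S.szn σ : ℝ) ≤ D → Br = ∑ T : Finset π,
        if ¬ ((∀ x ∈ T, σ x = none) ∧ (S.szn σ : ℝ) * S.wt T ≤ D) then u T else 0 := by
      intro h
      have e0 : ∀ T : Finset π, (open Classical in
          if (∀ x ∈ T, σ x = none) ∧ (S.szn σ : ℝ) * S.wt T ≤ D then gg u T else 0) =
          (if T = ∅ then 1 else 0) - u T +
          (if ¬ ((∀ x ∈ T, σ x = none) ∧ (S.szn σ : ℝ) * S.wt T ≤ D) then u T else 0) := by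
        intro T
        by_cases hT : T = ∅
        · subst hT
          have hc : (∀ x ∈ (∅ : Finset π), σ x = none) ∧ (S.szn σ : ℝ) * S.wt ∅ ≤ D := by
            refine ⟨by simp, ?_⟩
            simpa [Sys.wt] using h
          rw [if_pos hc, if_neg (not_not.mpr hc), if_pos rfl, hu.empty]
          simp [gg]
        · have hg : gg u T = - u T := by simp [gg, hT]
          by_cases hc : (∀ x ∈ T, σ x = none) ∧ (S.szn σ : ℝ) * S.wt T ≤ D
          · rw [if_pos hc, if_neg (not_not.mpr hc), if_neg hT, hg]
            ring
          · rw [if_neg hc, if_pos hc, if_neg hT]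
            ring
      rw [hBr, Finset.sum_congr rfl (fun T _ => e0 T), Finset.sum_add_distrib,
        Finset.sum_sub_distrib, hu.mass]
      simp
    have hnn : ∀ T : Finset π, 0 ≤
        (if ¬ ((∀ x ∈ T, σ x = none) ∧ (S.szn σ : ℝ) * S.wt T ≤ D) then u T else 0) := by
      intro T
      split_ifs
      · exact le_rfl
      · exact hu.nonneg T
    have hmain : |Br| ≤ Real.log D * K / z +
        (open Classical in if D / b < S.szn σ then 1 else 0) := by
      by_cases hs : D < S.szn σ
      · rw [hBr0 hs, abs_zero]
        split_ifs <;> linarith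
      · rw [not_lt] at hs
        have hBrnn : 0 ≤ Br := by
          rw [hBr1 hs]
          exact Finset.sum_nonneg fun T _ => hnn T
        rw [abs_of_nonneg hBrnn]
        by_cases hs2 : D / b < S.szn σ
        · rw [if_pos hs2]
          have h5 : Br ≤ 1 := by
            rw [hBr1 hs, ← hu.mass]
            refine Finset.sum_le_sum fun T _ => ?_
            split_ifs
            · exact hu.nonneg T
            · exact le_rfl
          linarith
        · rw [if_neg hs2, add_zero]
          rw [not_lt] at hs2
          have hact := h2 π ι S D (fun x => hz.trans (hpr x)) σ hs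
          have h6 : Br ≤ ∑ x : π, ((al (σ x) : ℕ) : ℝ) *
              ∑ T : Finset π, (if x ∈ T then u T else 0) := by
            rw [hBr1 hs]
            simp_rw [Finset.mul_sum]
            rw [Finset.sum_comm]
            refine Finset.sum_le_sum fun T _ => ?_
            have hterm : ∀ x : π, 0 ≤ ((al (σ x) : ℕ) : ℝ) * (if x ∈ T then u T else 0) := by
              intro x
              apply mul_nonneg (Nat.cast_nonneg _)
              split_ifs
              · exact hu.nonneg T
              · exact le_rfl
            split_ifs with hc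
            · exact Finset.sum_nonneg fun x _ => hterm x
            · by_cases huT : u T = 0
              · rw [huT] at hterm ⊢
                exact Finset.sum_nonneg fun x _ => hterm x
              · have h7 : (S.szn σ : ℝ) * S.wt T ≤ D := by
                  have h8 := hu.hi T huT
                  have hb0 : 0 < b := by linarith
                  calc (S.szn σ : ℝ) * S.wt T ≤ (D / b) * b :=
                        mul_le_mul hs2 h8 (by linarith [hwt T]) (by positivity)
                    _ = D := by field_simp
                have h9 : ∃ x ∈ T, σ x ≠ none := by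
                  by_contra hcon
                  apply hc
                  refine ⟨fun x hx => ?_, h7⟩
                  by_contra h10
                  exact hcon ⟨x, hx, h10⟩
                obtain ⟨x, hx, hxn⟩ := h9
                have h11 : u T ≤ ((al (σ x) : ℕ) : ℝ) * (if x ∈ T then u T else 0) := by
                  obtain ⟨h, hh⟩ := Option.ne_none_iff_exists'.mp hxn
                  rw [hh, if_pos hx]
                  simp [al]
                exact h11.trans (Finset.single_le_sum (f := fun x : π =>
                  ((al (σ x) : ℕ) : ℝ) * (if x ∈ T then u T else 0))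
                  (fun x _ => hterm x) (mem_univ x))
          have h12 : ∑ x : π, ((al (σ x) : ℕ) : ℝ) *
              ∑ T : Finset π, (if x ∈ T then u T else 0) ≤
              ∑ x : π, ((al (σ x) : ℕ) : ℝ) * (K / z) := by
            refine Finset.sum_le_sum fun x _ => ?_
            apply mul_le_mul_of_nonneg_left _ (Nat.cast_nonneg _)
            exact (hu.div x).trans (div_le_div_of_nonneg_left hK hz0 (hpr x))
          have h13 : ∑ x : π, ((al (σ x) : ℕ) : ℝ) * (K / z) = (act σ : ℝ) * (K / z) := by
            rw [← Finset.sum_mul, act, Nat.cast_sum]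
          have h14 : (act σ : ℝ) * (K / z) ≤ Real.log D * (K / z) :=
            mul_le_mul_of_nonneg_right hact (by positivity)
          have h15 : Real.log D * (K / z) = Real.log D * K / z := by ring
          linarith
    refine ⟨?_, ?_⟩
    · rw [hpush, abs_mul, Finset.abs_prod, hprod]
      exact mul_le_mul_of_nonneg_left hmain (Finset.prod_nonneg fun h _ => abs_nonneg _)
    · intro hne
      by_contra hcon
      rw [not_le] at hcon
      apply hne
      rw [hpush, hBr0 hcon, mul_zero]

end Pool.LGP
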