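import Pool.Agent.Work.MP_b0c12c_gaps.Interface

/-! # Block BST (helper95) -/

set_option autoImplicit false

namespace Pool.LGP

open Finset

theorem p_BST : Stmt_BST := by
  classical
  intro π ι _ _ _ _ S u D m σ
  constructor
  · rintro ⟨x, hx⟩
    unfold push
    apply Finset.sum_eq_zero
    intro ρ _
    rw [if_neg]
    intro h
    have h2 := congrFun h x
    simp only [er] at h2
    split_ifs at h2 with h1
    · rw [hx] at h2; cases h2
    · rw [hx] at h2; exact h1 h2
  · intro hσ
    have hfm : ∀ T : Finset π, fib (fun x => if x ∈ T then some m else σ x) m = T := by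
      intro T
      ext x
      simp only [fib, mem_filter, mem_univ, true_and]
      split_ifs with h
      · simp [h]
      · simp [h, hσ x]
    have hfh : ∀ T : Finset π, (∀ x ∈ T, σ x = none) → ∀ h, h ≠ m →
        fib (fun x => if x ∈ T then some m else σ x) h = fib σ h := by
      intro T hT h hh
      ext x
      simp only [fib, mem_filter, mem_univ, true_and]
      split_ifs with hx
      · rw [hT x hx]
        simp [Ne.symm hh]
      · rfl
    have hsz : ∀ T : Finset π, (∀ x ∈ T, σ x = none) →
        ((S.szn (fun x => if x ∈ T then some m else σ x) : ℕ) : ℝ) = (S.szn σ : ℝ) * S.wt T := by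
      intro T hT
      unfold Sys.szn Sys.wt
      rw [Nat.cast_prod, Nat.cast_prod]
      have h1 : ∏ x ∈ T, (S.pr x : ℝ) = ∏ x, (if x ∈ T then (S.pr x : ℝ) else 1) := by
        rw [Finset.prod_ite_mem, Finset.univ_inter]
      rw [h1, ← Finset.prod_mul_distrib]
      refine Finset.prod_congr rfl ?_
      intro x _
      by_cases hx : x ∈ T
      · simp [hx, hT x hx, Sys.zl]
      · simp [hx]
    have key : ∀ T : Finset π, (∀ x ∈ T, σ x = none) →
        S.aa u D (fun x => if x ∈ T then some m else σ x) =
        (∏ h ∈ univ.erase m, gg u (fib σ h)) *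
          (if (S.szn σ : ℝ) * S.wt T ≤ D then gg u T else 0) := by
      intro T hT
      unfold Sys.aa
      rw [hsz T hT]
      by_cases hD : (S.szn σ : ℝ) * S.wt T ≤ D
      · rw [if_pos hD, if_pos hD, ← Finset.mul_prod_erase univ _ (mem_univ m), hfm T, mul_comm]
        congr 1
        refine Finset.prod_congr rfl ?_
        intro h hh
        rw [hfh T hT h (Finset.ne_of_mem_erase hh)]
      · rw [if_neg hD, if_neg hD, mul_zero]
    unfold push
    rw [← Finset.sum_filter, Finset.mul_sum]
    have hR : ∑ T : Finset π, ((∏ h ∈ univ.erase m, gg u (fib σ h)) *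
          (open Classical in if (∀ x ∈ T, σ x = none) ∧ (S.szn σ : ℝ) * S.wt T ≤ D
            then gg u T else 0)) =
        ∑ T ∈ univ.filter (fun T : Finset π => ∀ x ∈ T, σ x = none),
          (∏ h ∈ univ.erase m, gg u (fib σ h)) *
          (if (S.szn σ : ℝ) * S.wt T ≤ D then gg u T else 0) := by
      rw [Finset.sum_filter]
      refine Finset.sum_congr rfl ?_
      intro T _
      by_cases hT : ∀ x ∈ T, σ x = none
      · rw [if_pos hT]
        by_cases hD : (S.szn σ : ℝ) * S.wt T ≤ D
        · rw [if_pos ⟨hT, hD⟩, if_pos hD]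
        · rw [if_neg (fun h => hD h.2), if_neg hD]
      · rw [if_neg hT, if_neg (fun h => hT h.1), mul_zero]
    rw [hR]
    have her : ∀ T : Finset π, (∀ x ∈ T, σ x = none) →
        er m (fun x => if x ∈ T then some m else σ x) = σ := by
      intro T hT
      funext x
      simp only [er]
      by_cases hx : x ∈ T
      · rw [if_pos hx, if_pos rfl, hT x hx]
      · rw [if_neg hx, if_neg (hσ x)]
    have hfib : ∀ ρ : π → Option ι, er m ρ = σ → ∀ x ∈ fib ρ m, σ x = none := by
      intro ρ hρ x hx
      rw [← hρ]
      have h1 : ρ x = some m := by simpa [fib] using hx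
      simp [er, h1]
    have hback : ∀ ρ : π → Option ι, er m ρ = σ →
        (fun x => if x ∈ fib ρ m then some m else σ x) = ρ := by
      intro ρ hρ
      funext x
      by_cases hx : x ∈ fib ρ m
      · have h1 : ρ x = some m := by simpa [fib] using hx
        rw [if_pos hx, h1]
      · have h1 : ρ x ≠ some m := by simpa [fib] using hx
        rw [if_neg hx, ← hρ]
        simp [er, h1]
    refine Finset.sum_nbij' (fun ρ => fib ρ m) (fun T x => if x ∈ T then some m else σ x)
      ?_ ?_ ?_ ?_ ?_
    · intro ρ hρ
      rw [mem_filter] at hρ ⊢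
      exact ⟨mem_univ _, hfib ρ hρ.2⟩
    · intro T hT
      rw [mem_filter] at hT ⊢
      exact ⟨mem_univ _, her T hT.2⟩
    · intro ρ hρ
      rw [mem_filter] at hρ
      exact hback ρ hρ.2
    · intro T hT
      exact hfm T
    · intro ρ hρ
      rw [mem_filter] at hρ
      rw [← key _ (hfib ρ hρ.2), hback ρ hρ.2]

end Pool.LGP
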