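import Pool.Agent.Work.MP_b0c12c_gaps.Interface

/-! Block BUP (helper50). -/

set_option autoImplicit false

namespace Pool.LGP

open Finset Filter

theorem p_BUP (hB : Stmt_BBD) (hT : Stmt_TAI) (hI : Stmt_INJ) (hW : Stmt_WTF) (hQ : Stmt_QSM) :
    Stmt_BUP := by
  intro π ι _ _ _ _ S u a b C K D z hU hz hpr hK hC hb hbD h1 m
  classical
  have hb0 : 0 < b := by linarith
  have hpos : ∀ x, 0 < S.pr x := by
    intro x
    have h := hpr x
    have h2 : (0 : ℝ) < S.pr x := by linarith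
    exact_mod_cast h2
  obtain ⟨q1, q2, q3⟩ := hQ π ι S u a b C K hU hpos
  have hDb : 1 ≤ D / b := by rw [le_div_iff₀ hb0]; linarith
  have htai := hT π ι S u a b C K (D / b) hU hpos hb hDb hC h1
  have hinj := hI π ι (fun T => S.qq u T) q1
  have hQ1 : S.Q1 u = ∑ T, S.qq u T := rfl
  rw [← hQ1] at hinj
  set Q := S.Q1 u ^ Fintype.card ι with hQd
  set δ := Real.log D * K / z with hδ
  have hpt : ∀ σ : π → Option ι, push m (S.aa u D) σ ^ 2 * S.szn σ ≤
      2 * δ ^ 2 * ∏ h, S.qq u (fib σ h) +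
        2 * (open Classical in if D / b < S.szn σ then ∏ h, S.qq u (fib σ h) else 0) := by
    intro σ
    have h2 := (hW π ι S σ).2 u
    have h3 := (hB π ι S u a b C K D z hU hz hpr hK hb.le hbD m σ).1
    have h4 : 0 ≤ (S.szn σ : ℝ) := Nat.cast_nonneg _
    have h5 : push m (S.aa u D) σ ^ 2 ≤ ((∏ h, |gg u (fib σ h)|) *
      (δ + open Classical in if D / b < S.szn σ then 1 else 0)) ^ 2 := by
      rw [← sq_abs]
      exact pow_le_pow_left₀ (abs_nonneg _) h3 2
    have h6 : (∏ h, |gg u (fib σ h)|) ^ 2 = (∏ h, gg u (fib σ h)) ^ 2 := by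
      rw [← Finset.abs_prod, sq_abs]
    have h7 : (δ + open Classical in if D / b < S.szn σ then (1 : ℝ) else 0) ^ 2 ≤
        2 * δ ^ 2 + 2 * (open Classical in if D / b < S.szn σ then (1 : ℝ) else 0) := by
      split_ifs
      · nlinarith [sq_nonneg (δ - 1)]
      · nlinarith [sq_nonneg δ]
    calc push m (S.aa u D) σ ^ 2 * S.szn σ
        ≤ ((∏ h, |gg u (fib σ h)|) *
          (δ + open Classical in if D / b < S.szn σ then 1 else 0)) ^ 2 * S.szn σ :=
          mul_le_mul_of_nonneg_right h5 h4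
      _ = (∏ h, S.qq u (fib σ h)) *
          (δ + open Classical in if D / b < S.szn σ then 1 else 0) ^ 2 := by
          rw [mul_pow, h6, ← h2]; ring
      _ ≤ (∏ h, S.qq u (fib σ h)) *
          (2 * δ ^ 2 + 2 * (open Classical in if D / b < S.szn σ then (1 : ℝ) else 0)) :=
          mul_le_mul_of_nonneg_left h7 (Finset.prod_nonneg fun h _ => q1 _)
      _ = 2 * δ ^ 2 * ∏ h, S.qq u (fib σ h) +
        2 * (open Classical in if D / b < S.szn σ then ∏ h, S.qq u (fib σ h) else 0) := by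
          split_ifs <;> ring
  calc ∑ σ, push m (S.aa u D) σ ^ 2 * S.szn σ
      ≤ ∑ σ : π → Option ι, (2 * δ ^ 2 * ∏ h, S.qq u (fib σ h) +
        2 * (open Classical in if D / b < S.szn σ then ∏ h, S.qq u (fib σ h) else 0)) :=
        Finset.sum_le_sum fun σ _ => hpt σ
    _ = 2 * δ ^ 2 * ∑ σ : π → Option ι, ∏ h, S.qq u (fib σ h) +
        2 * ∑ σ : π → Option ι,
          (open Classical in if D / b < S.szn σ then ∏ h, S.qq u (fib σ h) else 0) := by
        rw [Finset.sum_add_distrib, ← Finset.mul_sum, ← Finset.mul_sum]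
    _ ≤ 2 * δ ^ 2 * Q + 2 * (Real.exp (-(Real.log (D / b) / Real.log b)) * Q) := by
        have : 0 ≤ 2 * δ ^ 2 := by positivity
        have h8 := mul_le_mul_of_nonneg_left hinj this
        linarith
    _ = 2 * (δ ^ 2 + Real.exp (-(Real.log (D / b) / Real.log b))) * Q := by ring

end Pool.LGP
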