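import Pool.Agent.Work.MP_b0c12c_gaps.Interface

set_option autoImplicit false

namespace Pool.LGP

open Finset

theorem p_CHB : Stmt_CHB := by
  refine ⟨2 * Real.log 4 + 4, by positivity, ?_⟩
  intro x hx
  have hx1 : (1 : ℝ) < x := by linarith
  have hlog : 0 < Real.log x := Real.log_pos hx1
  have h := Chebyshev.pi_le_log4_mul_div hx1
  have hs : Real.log (Real.sqrt x) = Real.log x / 2 := Real.log_sqrt (by linarith)
  have h1 : Real.log 4 * x / Real.log (Real.sqrt x) = 2 * Real.log 4 * (x / Real.log x) := by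
    rw [hs]
    field_simp
  have h2 : Real.sqrt x ≤ 4 * (x / Real.log x) := by
    rw [← mul_div_assoc, le_div_iff₀ hlog]
    have h3 : Real.log x ≤ 2 * Real.sqrt x := by
      have h4 := Real.log_le_sub_one_of_pos (Real.sqrt_pos.2 (by linarith : (0 : ℝ) < x))
      rw [hs] at h4
      linarith
    have h5 : Real.sqrt x * Real.sqrt x = x := Real.mul_self_sqrt (by linarith)
    have h6 : 0 ≤ Real.sqrt x := Real.sqrt_nonneg x
    nlinarith [mul_le_mul_of_nonneg_left h3 h6]
  calc (Nat.primeCounting ⌊x⌋₊ : ℝ) ≤ Real.log 4 * x / Real.log (Real.sqrt x) + Real.sqrt x := h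
    _ ≤ 2 * Real.log 4 * (x / Real.log x) + 4 * (x / Real.log x) := by rw [h1]; linarith
    _ = (2 * Real.log 4 + 4) * (x / Real.log x) := by ring

end Pool.LGP
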