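import Pool.Agent.Work.MP_b0c12c_gaps.Interface

set_option autoImplicit false

namespace Pool.LGP

open Finset Filter

theorem CNT_szn_pos {π ι : Type} [Fintype π] (S : Sys π ι) (hS : S.Good) (ρ : π → Option ι) :
    0 < S.szn ρ := by
  unfold Sys.szn
  refine Finset.prod_pos fun x _ => ?_
  cases h : ρ x with
  | none => simp [Sys.zl]
  | some a => simpa [Sys.zl] using (hS.prime x).pos

theorem CNT_prod_il {π ι : Type} [Fintype π] (S : Sys π ι) (ρ : π → Option ι) (y : ℕ) :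
    (∏ x, S.il x (ρ x) y) =
      open Classical in if (∀ x h, ρ x = some h → S.pr x ∣ S.N h y) then (1 : ℝ) else 0 := by
  classical
  split_ifs with hc
  · refine Finset.prod_eq_one fun x _ => ?_
    cases h : ρ x with
    | none => simp [Sys.il]
    | some a => simp [Sys.il, hc x a h]
  · push Not at hc
    obtain ⟨x, a, hx, hd⟩ := hc
    refine Finset.prod_eq_zero (Finset.mem_univ x) ?_
    rw [hx]
    simp [Sys.il, hd]

theorem p_CNT (h1 : Stmt_CRT) : Stmt_CNT := by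
  classical
  intro π ι _ S hS ρ Y
  obtain ⟨c, hc⟩ := h1 π ι S hS ρ
  have hm := CNT_szn_pos S hS ρ
  have e1 : ∑ y ∈ Ioc Y (2 * Y), ∏ x, S.il x (ρ x) y =
      (({y ∈ Ioc Y (2 * Y) | y ≡ c [MOD S.szn ρ]} : Finset ℕ).card : ℝ) := by
    rw [Finset.card_filter, Nat.cast_sum]
    refine Finset.sum_congr rfl fun y _ => ?_
    rw [CNT_prod_il]
    by_cases h : y ≡ c [MOD S.szn ρ]
    · rw [if_pos ((hc y).2 h), if_pos h]; simp
    · rw [if_neg (fun h' => h ((hc y).1 h')), if_neg h]; simp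
  rw [e1]
  have e2 := Nat.Ioc_filter_modEq_card Y (2 * Y) hm c
  have hmq : (0 : ℚ) < (S.szn ρ : ℚ) := by exact_mod_cast hm
  set m : ℚ := (S.szn ρ : ℚ) with hmdef
  set α : ℚ := ((Y : ℚ) - c) / m with hα
  set β : ℚ := (((2 * Y : ℕ) : ℚ) - c) / m with hβ
  have hab : β - α = (Y : ℚ) / m := by
    rw [hα, hβ]; push_cast; ring
  have hYm : 0 ≤ (Y : ℚ) / m := by positivity
  have hfl : ⌊α⌋ ≤ ⌊β⌋ := Int.floor_le_floor (by linarith)
  rw [max_eq_left (by omega)] at e2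
  have hcardq : ((({y ∈ Ioc Y (2 * Y) | y ≡ c [MOD S.szn ρ]} : Finset ℕ).card : ℤ) : ℚ) =
      (⌊β⌋ : ℚ) - (⌊α⌋ : ℚ) := by rw [e2]; push_cast; ring
  have f1 := Int.floor_le α
  have f2 := Int.lt_floor_add_one α
  have f3 := Int.floor_le β
  have f4 := Int.lt_floor_add_one β
  have key : |((({y ∈ Ioc Y (2 * Y) | y ≡ c [MOD S.szn ρ]} : Finset ℕ).card : ℤ) : ℚ) -
      (Y : ℚ) / m| ≤ 1 := by
    rw [hcardq, abs_le]
    constructor <;> linarith
  have key' : ((|((({y ∈ Ioc Y (2 * Y) | y ≡ c [MOD S.szn ρ]} : Finset ℕ).card : ℤ) : ℚ) -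
      (Y : ℚ) / m| : ℚ) : ℝ) ≤ ((1 : ℚ) : ℝ) := by exact_mod_cast key
  rw [hmdef] at key'
  push_cast at key'
  exact key'

end Pool.LGP
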