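import Pool.Agent.Work.MP_b0c12c_gaps.Interface

/-! # Block CORE: some `y` gives every shift a prime factor from the family (helper39) -/

set_option autoImplicit false

namespace Pool.LGP

open Finset

theorem p_CORE (hL2 : Stmt_L2) (hRGH : Stmt_RGH) (hPEZ : Stmt_PEZ) (hQLO : Stmt_QLO)
    (hBUP : Stmt_BUP) (hERR : Stmt_ERR) (hBBD : Stmt_BBD) (hACT : Stmt_ACT)
    (hQSM : Stmt_QSM) : Stmt_CORE := by
  intro π ι _ _ _ _ S hS u a b C K D z s Y hu hz hpr hK hC hs ha hb hbD hz1 hz2 hkC hη hka hY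
  by_contra hcon
  push Not at hcon
  have hD1 : 1 ≤ D := by linarith
  have hD0 : 0 < D := by linarith
  have hb0 : 0 < b := by linarith
  have hlb : 0 < Real.log b := Real.log_pos hb
  have hprpos : ∀ x, 0 < S.pr x := fun x => (hS.prime x).pos
  have hpr3 : ∀ x, (3 : ℝ) ≤ S.pr x := fun x => hz.trans (hpr x)
  -- the number of labels
  obtain ⟨k, hk⟩ : ∃ k : ℝ, k = (Fintype.card ι : ℝ) := ⟨_, rfl⟩
  have hk0 : 0 ≤ k := by rw [hk]; positivity
  have hYpos : (0 : ℝ) < Y := by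
    refine lt_of_le_of_lt ?_ hY
    positivity
  have hYnat : 0 < Y := by exact_mod_cast hYpos
  have hk1 : 1 ≤ k := by
    obtain ⟨h, -⟩ := hcon (2 * Y) (Finset.mem_Ioc.mpr ⟨by omega, le_rfl⟩)
    rw [hk]
    have : 0 < Fintype.card ι := Fintype.card_pos_iff.mpr ⟨h⟩
    exact_mod_cast this
  rw [← hk] at hz1 hz2 hkC hη hka hY
  -- the two error quantities
  obtain ⟨η, hηdef⟩ : ∃ η : ℝ, η = (Real.log D * K / z) ^ 2 +
      Real.exp (-(Real.log (D / b) / Real.log b)) := ⟨_, rfl⟩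
  rw [← hηdef] at hη
  obtain ⟨Q, hQdef⟩ : ∃ Q : ℝ, Q = S.Q1 u ^ Fintype.card ι := ⟨_, rfl⟩
  obtain ⟨E, hEdef⟩ : ∃ E : ℝ, E = ∑ ρ, |S.aa u D ρ| * S.ez ρ := ⟨_, rfl⟩
  have hez0 : ∀ ρ : π → Option ι, 0 ≤ S.ez ρ := by
    intro ρ
    unfold Sys.ez
    refine Finset.prod_nonneg (fun x _ => ?_)
    rcases ρ x with _ | h
    · simp [Sys.el]
    · simp only [Sys.el]
      positivity
  have hE0 : 0 ≤ E := by
    rw [hEdef]
    exact Finset.sum_nonneg (fun ρ _ => mul_nonneg (abs_nonneg _) (hez0 ρ))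
  have hη0 : 0 ≤ η := by rw [hηdef]; positivity
  have hQ1 : 1 ≤ S.Q1 u := (hQSM π ι S u a b C K hu hprpos).2.1
  have hQ : 1 ≤ Q := by rw [hQdef]; exact one_le_pow₀ hQ1
  -- supports
  have hsupp : ∀ ρ : π → Option ι, (S.szn ρ : ℝ) ≤ D →
      8 * (act ρ : ℝ) * (Fintype.card ι + 1) ≤ z := by
    intro ρ hρ
    have h1 := hACT π ι S D hpr3 ρ hρ
    refine le_trans ?_ hz1
    rw [← hk]
    have h2 : 8 * (act ρ : ℝ) ≤ 8 * Real.log D := by linarith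
    exact mul_le_mul_of_nonneg_right h2 (by linarith)
  have hsa : ∀ ρ : π → Option ι, S.aa u D ρ ≠ 0 →
      8 * (act ρ : ℝ) * (Fintype.card ι + 1) ≤ z := by
    intro ρ hρ
    apply hsupp
    by_contra hlt
    exact hρ (by unfold Sys.aa; rw [if_neg hlt])
  have hsb : ∀ (m : ι) (σ : π → Option ι), push m (S.aa u D) σ ≠ 0 →
      8 * (act σ : ℝ) * (Fintype.card ι + 1) ≤ z := by
    intro m σ hσ
    apply hsupp
    exact (hBBD π ι S u a b C K D z hu hz hpr hK hb.le hbD m σ).2 hσ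
  -- lower bound
  have hlogDb : Real.log (D / b) ≤ Real.log D := by
    rw [Real.log_div hD0.ne' hb0.ne']
    linarith
  have hηexp : Real.exp (-(Real.log (D / b) / Real.log b)) ≤ 1 / 32 := by
    have h1 : Real.exp (-(Real.log (D / b) / Real.log b)) ≤ η := by
      rw [hηdef]
      have := sq_nonneg (Real.log D * K / z)
      linarith
    have h2 : η ≤ k * η := by nlinarith
    linarith
  have hexpD : Real.exp (-(Real.log D / Real.log b)) ≤ 1 / 4 := by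
    have h1 : Real.exp (-(Real.log D / Real.log b)) ≤
        Real.exp (-(Real.log (D / b) / Real.log b)) := by
      apply Real.exp_le_exp.mpr
      apply neg_le_neg
      exact div_le_div_of_nonneg_right hlogDb hlb.le
    linarith
  have hlow := hQLO π ι S hS u a b C K D z hu hz hpr hK hC hb hD1
    (by rw [← hk]; linarith) hexpD (by rw [← hk]; exact hz2)
  rw [← hQdef] at hlow
  have hL2a := (hL2 π ι S hS z hz hpr (S.aa u D) hsa Y).2
  rw [← hEdef] at hL2a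
  have hlow2 : (Y : ℝ) / 4 * Q - E ^ 2 ≤
      ∑ y ∈ Ioc Y (2 * Y), (∑ ρ, S.aa u D ρ * S.psi ρ y) ^ 2 := by
    refine le_trans ?_ hL2a
    have h1 : (Y : ℝ) / 2 * (Q / 2) ≤ (Y : ℝ) / 2 * ∑ ρ, S.aa u D ρ ^ 2 * S.szn ρ :=
      mul_le_mul_of_nonneg_left hlow (by positivity)
    linarith
  -- upper bound for each label
  have hup : ∀ m : ι, ∑ y ∈ Ioc Y (2 * Y), (∑ σ, push m (S.aa u D) σ * S.psi σ y) ^ 2 ≤
      4 * Y * η * Q + E ^ 2 := by
    intro m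
    have h1 := (hL2 π ι S hS z hz hpr (push m (S.aa u D)) (hsb m) Y).1
    have h2 := hBUP π ι S u a b C K D z hu hz hpr hK hC hb hbD (by rw [← hk]; exact hkC) m
    rw [← hQdef, ← hηdef] at h2
    have h3 := hPEZ π ι S (S.aa u D) m
    rw [← hEdef] at h3
    have h4 : 0 ≤ ∑ σ, |push m (S.aa u D) σ| * S.ez σ :=
      Finset.sum_nonneg (fun σ _ => mul_nonneg (abs_nonneg _) (hez0 σ))
    have h5 : (∑ σ, |push m (S.aa u D) σ| * S.ez σ) ^ 2 ≤ E ^ 2 := pow_le_pow_left₀ h4 h3 2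
    have h6 : 2 * (Y : ℝ) * ∑ σ, push m (S.aa u D) σ ^ 2 * S.szn σ ≤ 2 * Y * (2 * η * Q) :=
      mul_le_mul_of_nonneg_left h2 (by positivity)
    linarith
  -- the pointwise bound
  have hpoint : ∀ y ∈ Ioc Y (2 * Y), (∑ ρ, S.aa u D ρ * S.psi ρ y) ^ 2 ≤
      ∑ m, (∑ σ, push m (S.aa u D) σ * S.psi σ y) ^ 2 := by
    intro y hy
    obtain ⟨m, hm⟩ := hcon y hy
    rw [hRGH π ι S (S.aa u D) m y hm]
    exact Finset.single_le_sum (f := fun m => (∑ σ, push m (S.aa u D) σ * S.psi σ y) ^ 2)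
      (fun m _ => sq_nonneg _) (Finset.mem_univ m)
  have hup2 : ∑ y ∈ Ioc Y (2 * Y), (∑ ρ, S.aa u D ρ * S.psi ρ y) ^ 2 ≤
      k * (4 * Y * η * Q + E ^ 2) := by
    calc ∑ y ∈ Ioc Y (2 * Y), (∑ ρ, S.aa u D ρ * S.psi ρ y) ^ 2
        ≤ ∑ y ∈ Ioc Y (2 * Y), ∑ m, (∑ σ, push m (S.aa u D) σ * S.psi σ y) ^ 2 :=
          Finset.sum_le_sum hpoint
      _ = ∑ m, ∑ y ∈ Ioc Y (2 * Y), (∑ σ, push m (S.aa u D) σ * S.psi σ y) ^ 2 :=
          Finset.sum_comm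
      _ ≤ ∑ _m : ι, (4 * Y * η * Q + E ^ 2) := Finset.sum_le_sum (fun m _ => hup m)
      _ = k * (4 * Y * η * Q + E ^ 2) := by
          rw [Finset.sum_const, Finset.card_univ, nsmul_eq_mul, hk]
  -- the error
  have hE := hERR π ι S hS u a b C K D z s hu hz hpr hs ha hD1 (by rw [← hk]; exact hka)
    (by rw [← hk]; exact hz1)
  rw [← hEdef] at hE
  obtain ⟨B, hB⟩ : ∃ B : ℝ, B = 2 * Real.exp 1 * D ^ (1 + s) := ⟨_, rfl⟩
  rw [← hB] at hE hY
  have hE2 : E ^ 2 ≤ B ^ 2 := pow_le_pow_left₀ hE0 hE 2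
  have h7 : k * (4 * Y * η * Q) ≤ Y * Q / 8 := by
    have h8 : 0 ≤ 4 * (Y : ℝ) * Q := by positivity
    have h9 := mul_le_mul_of_nonneg_left hη h8
    calc k * (4 * Y * η * Q) = 4 * Y * Q * (k * η) := by ring
      _ ≤ 4 * Y * Q * (1 / 32) := h9
      _ = Y * Q / 8 := by ring
  have h10 : (Y : ℝ) * Q / 8 ≤ (k + 1) * E ^ 2 := by linarith
  have h11 : (Y : ℝ) ≤ Y * Q := by nlinarith
  have h12 : (k + 1) * E ^ 2 ≤ (k + 1) * B ^ 2 := mul_le_mul_of_nonneg_left hE2 (by linarith)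
  linarith

end Pool.LGP
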