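import Pool.Agent.Work.MP_b0c12c_gaps.Interface

/-! # Block CRT (helper89) -/

set_option autoImplicit false

namespace Pool.LGP

open Finset Filter

theorem CRT_one (p W v : ℕ) (hc : p.Coprime W) (hp : 0 < p) :
    ∃ c : ℕ, ∀ y, p ∣ W * y + v ↔ y ≡ c [MOD p] := by
  obtain ⟨w, hw⟩ : ∃ w : ℕ, W * w ≡ 1 [MOD p] := by
    rcases Nat.lt_or_ge 1 p with h1 | h1
    · obtain ⟨m, -, hm⟩ := Nat.exists_mul_mod_eq_one_of_coprime hc.symm h1
      refine ⟨m, ?_⟩
      unfold Nat.ModEq
      rw [hm, Nat.mod_eq_of_lt h1]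
    · have h2 : p = 1 := by omega
      subst h2
      exact ⟨0, Nat.modEq_one⟩
  refine ⟨w * ((p - 1) * v), fun y => ?_⟩
  have h1 : W * (w * ((p - 1) * v)) + v ≡ 0 [MOD p] := by
    have h2 : W * (w * ((p - 1) * v)) ≡ 1 * ((p - 1) * v) [MOD p] := by
      rw [← mul_assoc]
      exact Nat.ModEq.mul_right _ hw
    have h3 : W * (w * ((p - 1) * v)) + v ≡ 1 * ((p - 1) * v) + v [MOD p] :=
      Nat.ModEq.add_right v h2
    refine h3.trans ?_
    have h4 : 1 * ((p - 1) * v) + v = p * v := by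
      obtain ⟨q, rfl⟩ : ∃ q, p = q + 1 := ⟨p - 1, by omega⟩
      simp only [Nat.add_sub_cancel]
      ring
    rw [h4]
    exact (Nat.modEq_zero_iff_dvd).2 (dvd_mul_right _ _)
  rw [← Nat.modEq_zero_iff_dvd]
  constructor
  · intro h
    have h5 : W * y + v ≡ W * (w * ((p - 1) * v)) + v [MOD p] := h.trans h1.symm
    have h6 : W * y ≡ W * (w * ((p - 1) * v)) [MOD p] := Nat.ModEq.add_right_cancel' v h5
    exact Nat.ModEq.cancel_left_of_coprime hc h6
  · intro h
    exact ((Nat.ModEq.mul_left W h).add_right v).trans h1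

theorem CRT_prod {π : Type} (s : Finset π) (m : π → ℕ) (c : ℕ)
    (hm : ∀ x ∈ s, ∀ y ∈ s, x ≠ y → (m x).Coprime (m y)) (y : ℕ) :
    (∀ x ∈ s, y ≡ c [MOD m x]) ↔ y ≡ c [MOD ∏ x ∈ s, m x] := by
  classical
  induction s using Finset.induction_on with
  | empty => simp [Nat.modEq_one]
  | insert a s ha ih =>
    rw [Finset.prod_insert ha]
    have hcop : (m a).Coprime (∏ x ∈ s, m x) := by
      refine Nat.Coprime.prod_right fun x hx => ?_
      refine hm a (mem_insert_self _ _) x (mem_insert_of_mem hx) ?_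
      rintro rfl
      exact ha hx
    rw [← Nat.modEq_and_modEq_iff_modEq_mul hcop, Finset.forall_mem_insert,
      ih (fun x hx y hy => hm x (mem_insert_of_mem hx) y (mem_insert_of_mem hy))]

theorem p_CRT : Stmt_CRT := by
  intro π ι _ S hS ρ
  classical
  have hloc : ∀ x : π, ∃ c : ℕ, ∀ y, (∀ h, ρ x = some h → S.pr x ∣ S.N h y) ↔
      y ≡ c [MOD S.zl x (ρ x)] := by
    intro x
    rcases hx : ρ x with _ | h
    · refine ⟨0, fun y => ⟨fun _ => Nat.modEq_one, fun _ h hh => ?_⟩⟩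
      cases hh
    · obtain ⟨c, hc⟩ := CRT_one (S.pr x) S.W (S.v h) (hS.cop x) (hS.prime x).pos
      refine ⟨c, fun y => ?_⟩
      rw [show S.zl x (some h) = S.pr x from rfl, ← hc y]
      constructor
      · intro h1
        exact h1 h rfl
      · intro h1 h' hh'
        cases hh'
        exact h1
  choose c hc using hloc
  have hpos : ∀ x : π, S.zl x (ρ x) ≠ 0 := by
    intro x
    rcases hx : ρ x with _ | h
    · exact one_ne_zero
    · exact (hS.prime x).ne_zero
  have hcop : ∀ x y : π, x ≠ y → (S.zl x (ρ x)).Coprime (S.zl y (ρ y)) := by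
    intro x y hxy
    rcases hx : ρ x with _ | h
    · exact Nat.coprime_one_left _
    · rcases hy : ρ y with _ | h'
      · exact Nat.coprime_one_right _
      · exact (Nat.coprime_primes (hS.prime x) (hS.prime y)).2 fun he => hxy (hS.inj he)
  obtain ⟨k, hk⟩ := Nat.chineseRemainderOfFinset c (fun x => S.zl x (ρ x)) univ
    (fun x _ => hpos x) (fun x _ y _ hxy => hcop x y hxy)
  refine ⟨k, fun y => ?_⟩
  unfold Sys.szn
  rw [← CRT_prod univ _ k (fun x _ y _ hxy => hcop x y hxy) y]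
  constructor
  · intro h x _
    exact ((hc x y).1 (fun h' hh' => h x h' hh')).trans (hk x (mem_univ x)).symm
  · intro h x h' hh'
    exact (hc x y).2 ((h x (mem_univ x)).trans (hk x (mem_univ x))) h' hh'

end Pool.LGP
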