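import Pool.Agent.Work.MP_b0c12c_gaps.Interface

/-! # Block ERR: the error weight of the coefficients (helper82) -/

set_option autoImplicit false

namespace Pool.LGP

open Finset

theorem p_ERR (h1 : Stmt_INJ) (h2 : Stmt_WTF) (h3 : Stmt_NUM) (h4 : Stmt_ACT) : Stmt_ERR := by
  intro π ι _ _ _ _ S hS u a b C K D z s hu hz hpr hs ha hD hk hzD
  set k := Fintype.card ι with hkdef
  have ha0 : (0 : ℝ) < a := by linarith
  have hD0 : (0 : ℝ) < D := by linarith
  have hpr3 : ∀ x, (3 : ℝ) ≤ S.pr x := fun x => hz.trans (hpr x)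
  have hwt1 : ∀ T : Finset π, 1 ≤ S.wt T := by
    intro T
    unfold Sys.wt
    calc (1 : ℝ) = ∏ x ∈ T, (1 : ℝ) := by simp
      _ ≤ ∏ x ∈ T, (S.pr x : ℝ) :=
        Finset.prod_le_prod (fun _ _ => zero_le_one) (fun x _ => by linarith [hpr3 x])
  have hwt0 : ∀ T : Finset π, 0 < S.wt T := fun T => lt_of_lt_of_le one_pos (hwt1 T)
  set f : Finset π → ℝ := fun T => |gg u T| * S.wt T ^ (-s) with hf
  have hf0 : ∀ T, 0 ≤ f T := fun T => mul_nonneg (abs_nonneg _) (Real.rpow_nonneg (hwt0 T).le _)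
  -- the bound for one configuration
  have key : ∀ ρ : π → Option ι, |S.aa u D ρ| * S.ez ρ ≤
      2 * D ^ (1 + s) * ∏ h, f (fib ρ h) := by
    intro ρ
    have hR : 0 ≤ 2 * D ^ (1 + s) * ∏ h, f (fib ρ h) := by
      have := Finset.prod_nonneg (s := (univ : Finset ι)) (fun h _ => hf0 (fib ρ h))
      positivity
    by_cases hsz : (S.szn ρ : ℝ) ≤ D
    · have haa : S.aa u D ρ = ∏ h, gg u (fib ρ h) := by
        unfold Sys.aa
        rw [if_pos hsz]
      have hact : (act ρ : ℝ) ≤ Real.log D := h4 π ι S D hpr3 ρ hsz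
      have hkp : (0 : ℝ) ≤ (k : ℝ) + 1 := by positivity
      have hz8 : 8 * (act ρ : ℝ) * ((k : ℝ) + 1) ≤ z := by
        refine le_trans ?_ hzD
        nlinarith
      have hez : S.ez ρ ≤ 2 * S.szn ρ := (h3 π ι S hS k z hz hpr ρ hz8).2.2
      have hsw : (S.szn ρ : ℝ) = ∏ h, S.wt (fib ρ h) := (h2 π ι S ρ).1
      have hs0 : (0 : ℝ) < S.szn ρ := by
        rw [hsw]
        exact Finset.prod_pos fun h _ => hwt0 _
      have hpow : (S.szn ρ : ℝ) ≤ D ^ (1 + s) * (S.szn ρ : ℝ) ^ (-s) := by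
        calc (S.szn ρ : ℝ) = (S.szn ρ : ℝ) ^ (1 + s) * (S.szn ρ : ℝ) ^ (-s) := by
              rw [← Real.rpow_add hs0]
              ring_nf
              rw [Real.rpow_one]
          _ ≤ D ^ (1 + s) * (S.szn ρ : ℝ) ^ (-s) := by
              apply mul_le_mul_of_nonneg_right _ (Real.rpow_nonneg hs0.le _)
              exact Real.rpow_le_rpow hs0.le hsz (by linarith)
      have hprod : (S.szn ρ : ℝ) ^ (-s) = ∏ h, S.wt (fib ρ h) ^ (-s) := by
        rw [hsw, Real.finset_prod_rpow]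
        intro h _
        exact (hwt0 _).le
      have hff : ∏ h, f (fib ρ h) = |∏ h, gg u (fib ρ h)| * (S.szn ρ : ℝ) ^ (-s) := by
        rw [hprod, Finset.abs_prod, ← Finset.prod_mul_distrib]
      rw [haa, hff]
      have hA := abs_nonneg (∏ h, gg u (fib ρ h))
      calc |∏ h, gg u (fib ρ h)| * S.ez ρ
          ≤ |∏ h, gg u (fib ρ h)| * (2 * (D ^ (1 + s) * (S.szn ρ : ℝ) ^ (-s))) := by
            apply mul_le_mul_of_nonneg_left _ hA
            linarith
        _ = _ := by ring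
    · have haa : S.aa u D ρ = 0 := by
        unfold Sys.aa
        rw [if_neg hsz]
      rw [haa, abs_zero, zero_mul]
      exact hR
  have hsum : ∑ T, f T ≤ 1 + a ^ (-s) := by
    have hT : ∀ T : Finset π, f T ≤ (if T = ∅ then 1 else 0) + u T * a ^ (-s) := by
      intro T
      simp only [hf]
      unfold gg
      by_cases hT0 : T = ∅
      · subst hT0
        rw [if_pos rfl, if_pos rfl, hu.empty]
        have : S.wt (∅ : Finset π) = 1 := by simp [Sys.wt]
        rw [this]
        simp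
      · rw [if_neg hT0, if_neg hT0, abs_neg, abs_of_nonneg (hu.nonneg T), zero_add]
        by_cases hu0 : u T = 0
        · rw [hu0]; simp
        · apply mul_le_mul_of_nonneg_left _ (hu.nonneg T)
          exact Real.rpow_le_rpow_of_nonpos ha0 (hu.lo T hu0) (by linarith)
    calc ∑ T, f T ≤ ∑ T : Finset π, ((if T = ∅ then 1 else 0) + u T * a ^ (-s)) :=
          sum_le_sum fun T _ => hT T
      _ = 1 + a ^ (-s) := by
          rw [sum_add_distrib, ← Finset.sum_mul, hu.mass, one_mul]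
          simp
  have hsum0 : 0 ≤ ∑ T, f T := sum_nonneg fun T _ => hf0 T
  have hpos : 0 < a ^ s := Real.rpow_pos_of_pos ha0 s
  have hpowe : (∑ T, f T) ^ k ≤ Real.exp 1 := by
    calc (∑ T, f T) ^ k ≤ (1 + a ^ (-s)) ^ k := pow_le_pow_left₀ hsum0 hsum k
      _ ≤ (Real.exp (a ^ (-s))) ^ k := by
          apply pow_le_pow_left₀
          · have := Real.rpow_pos_of_pos ha0 (-s)
            linarith
          · have := Real.add_one_le_exp (a ^ (-s))
            linarith
      _ = Real.exp (k * a ^ (-s)) := by rw [← Real.exp_nat_mul]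
      _ ≤ Real.exp 1 := by
          apply Real.exp_le_exp.mpr
          rw [Real.rpow_neg ha0.le, ← div_eq_mul_inv, div_le_one hpos]
          exact hk
  have hI := h1 π ι f hf0
  calc ∑ ρ, |S.aa u D ρ| * S.ez ρ ≤ ∑ ρ, 2 * D ^ (1 + s) * ∏ h, f (fib ρ h) :=
        sum_le_sum fun ρ _ => key ρ
    _ = 2 * D ^ (1 + s) * ∑ ρ : π → Option ι, ∏ h, f (fib ρ h) := by rw [Finset.mul_sum]
    _ ≤ 2 * D ^ (1 + s) * Real.exp 1 := by
        apply mul_le_mul_of_nonneg_left (hI.trans hpowe)
        have := Real.rpow_pos_of_pos hD0 (1 + s)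
        positivity
    _ = 2 * Real.exp 1 * D ^ (1 + s) := by ring

end Pool.LGP
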