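import Pool.Agent.Work.MP_b0c12c_gaps.Interface

/-! # Block EXP: products of local functions (helper82) -/

set_option autoImplicit false

namespace Pool.LGP

open Finset

/-- expansion of a product over `π` of sums over `Option ι` -/
theorem EXP_expand {π ι : Type} [Fintype π] [DecidableEq π] [Fintype ι]
    (α : π → ℝ) (β : π → ι → ℝ) (f : π → Option ι → ℝ) :
    ∏ x, (α x * f x none + ∑ h, β x h * f x (some h)) =
      ∑ ρ : π → Option ι, ∏ x, ((ρ x).elim (α x) (β x) * f x (ρ x)) := by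
  have h1 : ∀ x : π, α x * f x none + ∑ h, β x h * f x (some h) =
      ∑ o : Option ι, (o.elim (α x) (β x) * f x o) := by
    intro x
    rw [Fintype.sum_option]
    rfl
  rw [prod_congr rfl (fun x _ => h1 x), Finset.prod_univ_sum, Fintype.piFinset_univ]

theorem p_EXP (h1 : Stmt_CNT) : Stmt_EXP := by
  intro π ι _ _ _ S hS α β Y
  have e1 : ∀ y : ℕ, ∏ x, (α x + ∑ h, β x h * S.il x (some h) y) =
      ∑ ρ : π → Option ι, (∏ x, (ρ x).elim (α x) (β x)) * ∏ x, S.il x (ρ x) y := by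
    intro y
    have h2 := EXP_expand α β (fun x o => S.il x o y)
    have h3 : ∀ x : π, S.il x (none : Option ι) y = 1 := fun x => rfl
    simp only [h3, mul_one, prod_mul_distrib] at h2
    exact h2
  have e2 : ∏ x, (α x + ∑ h, β x h / S.pr x) =
      ∑ ρ : π → Option ι, (∏ x, (ρ x).elim (α x) (β x)) * (1 / (S.szn ρ : ℝ)) := by
    have h2 := EXP_expand α β (fun x o => 1 / (S.zl x o : ℝ))
    have h3 : ∀ x : π, (1 : ℝ) / (S.zl x (none : Option ι) : ℝ) = 1 := by
      intro x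
      change (1 : ℝ) / ((1 : ℕ) : ℝ) = 1
      simp
    have h4 : ∀ (x : π) (h : ι), β x h * (1 / (S.zl x (some h) : ℝ)) = β x h / S.pr x := by
      intro x h
      change β x h * (1 / (S.pr x : ℝ)) = β x h / S.pr x
      ring
    simp only [h3, h4, mul_one] at h2
    rw [h2]
    apply sum_congr rfl
    intro ρ _
    rw [prod_mul_distrib]
    congr 1
    rw [Sys.szn, Nat.cast_prod]
    simp only [one_div]
    rw [Finset.prod_inv_distrib]
  have e3 : ∏ x, (|α x| + ∑ h, |β x h|) =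
      ∑ ρ : π → Option ι, |∏ x, (ρ x).elim (α x) (β x)| := by
    have h2 := EXP_expand (fun x => |α x|) (fun x h => |β x h|) (fun _ _ => (1 : ℝ))
    simp only [mul_one] at h2
    rw [h2]
    apply sum_congr rfl
    intro ρ _
    rw [Finset.abs_prod]
    apply prod_congr rfl
    intro x _
    cases ρ x <;> rfl
  simp only [e1]
  rw [e2, e3, Finset.sum_comm, Finset.mul_sum, ← Finset.sum_sub_distrib]
  refine (Finset.abs_sum_le_sum_abs _ _).trans (sum_le_sum fun ρ _ => ?_)
  rw [← Finset.mul_sum]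
  have h5 : (∏ x, (ρ x).elim (α x) (β x)) * ∑ y ∈ Ioc Y (2 * Y), ∏ x, S.il x (ρ x) y -
      (Y : ℝ) * ((∏ x, (ρ x).elim (α x) (β x)) * (1 / (S.szn ρ : ℝ))) =
      (∏ x, (ρ x).elim (α x) (β x)) *
        (∑ y ∈ Ioc Y (2 * Y), ∏ x, S.il x (ρ x) y - (Y : ℝ) / S.szn ρ) := by
    ring
  rw [h5, abs_mul]
  have h6 := h1 π ι S hS ρ Y
  have h7 := abs_nonneg (∏ x, (ρ x).elim (α x) (β x))
  nlinarith

end Pool.LGP
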