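import Pool.Agent.Work.MP_b0c12c_gaps.Interface

/-! # Large gaps between primes: block FINA (helper87) -/

set_option autoImplicit false

namespace Pool.LGP

open Finset Filter Topology

theorem FINA_size : ∀ᶠ L : ℝ in atTop, 8 * Real.exp (31 / 40 * L) + 2 * L ^ 2 ≤ Real.exp L := by
  have h1 : ∀ᶠ L : ℝ in atTop, 16 ≤ Real.exp (9 / 40 * L) := by
    have : Tendsto (fun L : ℝ => Real.exp (9 / 40 * L)) atTop atTop :=
      Real.tendsto_exp_atTop.comp (tendsto_id.const_mul_atTop (by norm_num))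
    exact this.eventually_ge_atTop 16
  have h2 : ∀ᶠ L : ℝ in atTop, ‖L ^ 2‖ ≤ (1 / 4) * ‖Real.exp L‖ :=
    (Real.isLittleO_pow_exp_atTop (n := 2)).def (by norm_num)
  filter_upwards [h1, h2] with L h1 h2
  rw [Real.norm_of_nonneg (sq_nonneg L), Real.norm_of_nonneg (Real.exp_pos L).le] at h2
  have h3 : Real.exp L = Real.exp (31 / 40 * L) * Real.exp (9 / 40 * L) := by
    rw [← Real.exp_add]; ring_nf
  have h4 : 0 < Real.exp (31 / 40 * L) := Real.exp_pos _
  nlinarith

theorem FINA_log {c : ℝ} (hc : 0 < c) : ∀ᶠ L : ℝ in atTop, Real.log L ≤ c * L := by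
  have h := Real.isLittleO_log_id_atTop.def hc
  filter_upwards [h, eventually_ge_atTop (0 : ℝ)] with L h h0
  simp only [id] at h
  rw [Real.norm_of_nonneg h0] at h
  exact (Real.le_norm_self _).trans h

/-- elements of `[1, H]` coprime to a primorial -/
theorem FINA_prime {M H h : ℕ} {L : ℝ} (hM : M = ⌊L / 8⌋₊) (hL : 0 < L)
    (hH : (H : ℝ) < (L / 8) ^ 2) (h1 : 1 ≤ h) (hh : h ≤ H) (hc : h.Coprime (primorial M)) :
    h = 1 ∨ h.Prime := by
  by_contra hcon
  push Not at hcon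
  obtain ⟨hne, hnp⟩ := hcon
  have hp : h.minFac.Prime := Nat.minFac_prime hne
  have hsq : h.minFac ^ 2 ≤ h := Nat.minFac_sq_le_self h1 hnp
  have h2 : (h.minFac : ℝ) < L / 8 := by
    have h3 : ((h.minFac : ℝ)) ^ 2 < (L / 8) ^ 2 := by
      calc ((h.minFac : ℝ)) ^ 2 = ((h.minFac ^ 2 : ℕ) : ℝ) := by push_cast; ring
        _ ≤ (h : ℝ) := by exact_mod_cast hsq
        _ ≤ (H : ℝ) := by exact_mod_cast hh
        _ < _ := hH
    exact lt_of_pow_lt_pow_left₀ 2 (by positivity) h3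
  have h4 : h.minFac ≤ M := by
    rw [hM]
    exact Nat.le_floor h2.le
  have h5 : h.minFac ∣ primorial M := (hp.dvd_primorial_iff).2 h4
  have h6 : h.minFac ∣ 1 := by
    rw [← Nat.Coprime.gcd_eq_one hc]
    exact Nat.dvd_gcd (Nat.minFac_dvd h) h5
  exact hp.one_lt.ne' (Nat.dvd_one.1 h6)

theorem p_FINA (h1 : Stmt_SC) (h2 : Stmt_CHB) (h3 : Stmt_GAP) : Stmt_FINA := by
  obtain ⟨κ, L₀, hκ, hSC⟩ := h1
  obtain ⟨C, hC, hCHB⟩ := h2
  obtain ⟨k, hk⟩ : ∃ k, k = κ / (2 * C) := ⟨_, rfl⟩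
  have hkpos : 0 < k := by rw [hk]; positivity
  refine ⟨k / 2, by positivity, ?_⟩
  have hL : Tendsto (fun X : ℕ => Real.log X) atTop atTop :=
    Real.tendsto_log_atTop.comp tendsto_natCast_atTop_atTop
  filter_upwards [hL.eventually (eventually_ge_atTop L₀), hL.eventually (eventually_ge_atTop 3),
    hL.eventually (Real.tendsto_log_atTop.eventually_ge_atTop (1 / k)),
    hL.eventually (FINA_log (c := 1 / (65 * k)) (by positivity)),
    hL.eventually (eventually_ge_atTop (2 / κ)), hL.eventually (eventually_ge_atTop (2 / k)),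
    hL.eventually FINA_size, eventually_ge_atTop 1] with X e1 e2 e3 e4 e5 e6 e7 hX1
  obtain ⟨L, hLdef⟩ : ∃ L, L = Real.log X := ⟨_, rfl⟩
  rw [← hLdef] at e1 e2 e3 e4 e5 e6 e7 ⊢
  have hX : Real.exp L = X := by
    rw [hLdef]; exact Real.exp_log (by exact_mod_cast hX1)
  have hL0 : 0 < L := by linarith
  have hlog1 : 1 ≤ Real.log L := by
    rw [← Real.log_exp 1]
    exact Real.log_le_log (Real.exp_pos 1) (by linarith [Real.exp_one_lt_d9])
  have e3' : 1 ≤ k * Real.log L := by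
    rw [div_le_iff₀ hkpos] at e3; linarith
  have e4' : k * Real.log L ≤ L / 65 := by
    calc k * Real.log L ≤ k * (1 / (65 * k) * L) := mul_le_mul_of_nonneg_left e4 hkpos.le
      _ = L / 65 := by field_simp
  have e5' : 2 ≤ κ * L := by rw [div_le_iff₀ hκ] at e5; linarith
  have e6' : 2 ≤ k * L := by rw [div_le_iff₀ hkpos] at e6; linarith
  have hT : L ≤ k * L * Real.log L := by nlinarith
  have hT2 : k * L * Real.log L < (L / 8) ^ 2 := by nlinarith
  obtain ⟨M, hM⟩ : ∃ M, M = ⌊L / 8⌋₊ := ⟨_, rfl⟩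
  obtain ⟨Y, hY⟩ : ∃ Y, Y = ⌈Real.exp (3 / 5 * L)⌉₊ := ⟨_, rfl⟩
  obtain ⟨H, hH⟩ : ∃ H, H = ⌊k * L * Real.log L⌋₊ := ⟨_, rfl⟩
  have hHle : (H : ℝ) ≤ k * L * Real.log L := by
    rw [hH]; exact Nat.floor_le (by linarith)
  have hHge : k * L * Real.log L - 1 < H := by
    rw [hH]; have := Nat.lt_floor_add_one (k * L * Real.log L); linarith
  obtain ⟨W, hW⟩ : ∃ W, W = primorial M := ⟨_, rfl⟩
  have hWpos : 0 < W := by rw [hW]; exact primorial_pos M
  have hWle : (W : ℝ) ≤ Real.exp (7 / 40 * L) := by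
    have h4 : (W : ℝ) ≤ (4 : ℝ) ^ M := by
      rw [hW]; exact_mod_cast primorial_le_four_pow M
    have h5 : (4 : ℝ) ^ M = Real.exp (M * Real.log 4) := by
      rw [mul_comm, Real.exp_mul, Real.exp_log (by norm_num), Real.rpow_natCast]
    have h6 : Real.log 4 ≤ 7 / 5 := by
      have : Real.log 4 = 2 * Real.log 2 := by
        rw [show (4 : ℝ) = 2 ^ 2 by norm_num, Real.log_pow]; norm_num
      rw [this]; linarith [Real.log_two_lt_d9]
    have h7 : (M : ℝ) ≤ L / 8 := by rw [hM]; exact Nat.floor_le (by positivity)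
    rw [h5] at h4
    refine h4.trans (Real.exp_le_exp.2 ?_)
    have h8 : (0 : ℝ) ≤ M := Nat.cast_nonneg M
    have h9 : 0 ≤ Real.log 4 := Real.log_nonneg (by norm_num)
    nlinarith
  obtain ⟨A, hA⟩ : ∃ A, A = (Icc 1 H).filter (fun h => h.Coprime W) := ⟨_, rfl⟩
  have hAprime : ∀ h ∈ A, h = 1 ∨ h.Prime := by
    intro h hh
    rw [hA, mem_filter, mem_Icc] at hh
    refine FINA_prime hM hL0 (lt_of_le_of_lt hHle hT2) hh.1.1 hh.1.2 ?_
    rw [← hW]; exact hh.2
  have hAcard : (A.card : ℝ) ≤ κ * L := by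
    have s1 : A ⊆ insert 1 ((range (H + 1)).filter Nat.Prime) := by
      intro h hh
      rcases hAprime h hh with h0 | h0
      · rw [h0]; exact mem_insert_self _ _
      · rw [hA, mem_filter, mem_Icc] at hh
        exact mem_insert_of_mem (mem_filter.2 ⟨mem_range.2 (by omega), h0⟩)
    have s2 : A.card ≤ 1 + Nat.primeCounting H := by
      refine (card_le_card s1).trans ((card_insert_le _ _).trans ?_)
      have e : ((range (H + 1)).filter Nat.Prime).card = Nat.primeCounting H := by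
        rw [Nat.primeCounting, Nat.primeCounting', Nat.count_eq_card_filter_range]
      omega
    have s3 : (Nat.primeCounting H : ℝ) ≤ κ * L / 2 := by
      have t1 := hCHB (k * L * Real.log L) (by linarith)
      rw [← hH] at t1
      have t2 : Real.log L ≤ Real.log (k * L * Real.log L) := Real.log_le_log hL0 hT
      have t3 : k * L * Real.log L / Real.log (k * L * Real.log L) ≤ k * L := by
        rw [div_le_iff₀ (by linarith)]
        exact mul_le_mul_of_nonneg_left t2 (by positivity)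
      calc (Nat.primeCounting H : ℝ) ≤ C * (k * L) :=
            t1.trans (mul_le_mul_of_nonneg_left t3 hC.le)
        _ = κ * L / 2 := by rw [hk]; field_simp
    have s4 : (A.card : ℝ) ≤ 1 + Nat.primeCounting H := by exact_mod_cast s2
    linarith
  have hHL2 : (H : ℝ) ≤ L ^ 2 := by
    refine hHle.trans ?_
    nlinarith
  obtain ⟨y, hy, hyp⟩ := hSC L W 0 Y A e1 (by
      intro p hp hpW
      rw [hW, hp.dvd_primorial_iff] at hpW
      have h7 : (M : ℝ) ≤ L / 8 := by rw [hM]; exact Nat.floor_le (by positivity)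
      have h8 : (p : ℝ) ≤ M := by exact_mod_cast hpW
      have h9 : L ≤ L ^ 3 := by nlinarith [sq_nonneg (L - 1), mul_pos hL0 hL0]
      linarith) (by
      intro h hh
      rw [hA, mem_filter, mem_Icc] at hh
      have : (h : ℝ) ≤ H := by exact_mod_cast hh.1.2
      linarith) hAcard (by rw [hY]; exact Nat.le_ceil _)
  rw [mem_Ioc] at hy
  have hYge : Real.exp (3 / 5 * L) ≤ Y := by rw [hY]; exact Nat.le_ceil _
  have hYle : (Y : ℝ) ≤ 2 * Real.exp (3 / 5 * L) := by
    have h4 : (Y : ℝ) < Real.exp (3 / 5 * L) + 1 := by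
      rw [hY]; exact Nat.ceil_lt_add_one (Real.exp_pos _).le
    have h5 : 1 ≤ Real.exp (3 / 5 * L) := Real.one_le_exp (by positivity)
    linarith
  have hY2 : 2 ≤ Y := by
    have h4 : (1 : ℝ) + 3 / 5 * L ≤ Real.exp (3 / 5 * L) := by
      linarith [Real.add_one_le_exp (3 / 5 * L)]
    have h5 : (2 : ℝ) ≤ Y := by linarith
    exact_mod_cast h5
  have hyW : Y < W * y := lt_of_lt_of_le hy.1 (Nat.le_mul_of_pos_left y hWpos)
  have hWy : (W : ℝ) * y ≤ 4 * Real.exp (31 / 40 * L) := by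
    have h4 : (y : ℝ) ≤ 2 * Y := by exact_mod_cast hy.2
    have h5 : (y : ℝ) ≤ 4 * Real.exp (3 / 5 * L) := by linarith
    have h6 : Real.exp (31 / 40 * L) = Real.exp (7 / 40 * L) * Real.exp (3 / 5 * L) := by
      rw [← Real.exp_add]; ring_nf
    calc (W : ℝ) * y ≤ Real.exp (7 / 40 * L) * (4 * Real.exp (3 / 5 * L)) :=
          mul_le_mul hWle h5 (Nat.cast_nonneg y) (Real.exp_pos _).le
      _ = 4 * Real.exp (31 / 40 * L) := by rw [h6]; ring
  obtain ⟨n, hn1, hn2⟩ := h3 (W * y) H X (by omega) (by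
      have h4 : ((2 * (W * y + H) : ℕ) : ℝ) ≤ X := by
        push_cast
        rw [← hX]
        linarith
      exact_mod_cast h4) (by
      intro n hn hnp
      rw [mem_Ioc] at hn
      obtain ⟨h, rfl⟩ : ∃ h, n = W * y + h := ⟨n - W * y, by omega⟩
      have hh1 : 1 ≤ h := by omega
      have hh2 : h ≤ H := by omega
      -- a prime divisor less than n
      obtain ⟨p, hp, hpd, hpn⟩ : ∃ p : ℕ, p.Prime ∧ p ∣ W * y + h ∧ p < W * y + h := by
        by_cases hc : h.Coprime W
        · obtain ⟨p, hp, -, hple, hpd⟩ := hyp h (by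
            rw [hA, mem_filter, mem_Icc]; exact ⟨⟨hh1, hh2⟩, hc⟩)
          refine ⟨p, hp, by simpa using hpd, ?_⟩
          have h4 : L / (100 * Real.log L) ≤ 3 / 5 * L := by
            rw [div_le_iff₀ (by linarith)]
            nlinarith
          have h5 : (p : ℝ) ≤ Y := hple.trans ((Real.exp_le_exp.2 h4).trans hYge)
          have h6 : p ≤ Y := by exact_mod_cast h5
          omega
        · obtain ⟨p, hp, hp1, hp2⟩ := Nat.Prime.not_coprime_iff_dvd.1 hc
          refine ⟨p, hp, Nat.dvd_add (Dvd.dvd.mul_right hp2 y) hp1, ?_⟩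
          have h4 : p ≤ h := Nat.le_of_dvd (by omega) hp1
          omega
      rcases (Nat.dvd_prime hnp).1 hpd with h4 | h4
      · exact hp.one_lt.ne' h4
      · omega)
  refine ⟨n, hn1, le_trans ?_ hn2⟩
  nlinarith

end Pool.LGP
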