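import Pool.Agent.Work.MP_b0c12c_gaps.FINcore

/-! # Large gaps between primes: Theorem B (helper47) -/

set_option autoImplicit false

namespace Pool.LGP

open Finset Filter

/-- the real inequalities for Theorem B -/
theorem finb_real (C κ : ℝ) (hC : 0 < C) (hκ : 0 < κ) :
    ∀ᶠ L : ℝ in atTop, 256 ≤ L ∧
      let l := Real.log L
      let E := L * l ^ 2 * Real.log (Real.log l) / Real.log l ^ 2
      let c₀ := κ / (8 * C)
      let H := ⌊c₀ * E⌋₊
      let w := ⌊L / 8⌋₊
      w ≤ H ∧ (H : ℝ) ≤ w * Real.log w ^ 2 ∧ (H : ℝ) ≤ L ^ 2 ∧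
      C * (H * Real.log (Real.log w) ^ 2 /
        (Real.log w ^ 2 * Real.log (Real.log (Real.log w)))) ≤ κ * L ∧
      c₀ / 2 * E ≤ H := by
  set c₀ := κ / (8 * C) with hc₀
  have hc₀pos : 0 < c₀ := by positivity
  have T1 := Real.tendsto_log_atTop
  have T2 := Real.tendsto_log_atTop.comp T1
  have T3 := Real.tendsto_log_atTop.comp T2
  have F2 : ∀ᶠ x : ℝ in atTop, Real.log x ^ 2 ≤ x := by
    have := (Real.isLittleO_pow_log_id_atTop (n := 2)).bound (show (0 : ℝ) < 1 by norm_num)
    filter_upwards [this, eventually_ge_atTop 0] with x hx hx0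
    simpa [Real.norm_eq_abs, abs_of_nonneg hx0] using hx
  have F3 : ∀ᶠ x : ℝ in atTop, 128 * c₀ * Real.log x ≤ x := by
    have := (Real.isLittleO_log_id_atTop).bound (show (0 : ℝ) < 1 / (128 * c₀) by positivity)
    filter_upwards [this, eventually_ge_atTop 1] with x hx hx0
    rw [Real.norm_of_nonneg (Real.log_nonneg hx0), id, Real.norm_of_nonneg (by linarith)] at hx
    have h := mul_le_mul_of_nonneg_left hx (show (0 : ℝ) ≤ 128 * c₀ by positivity)
    calc 128 * c₀ * Real.log x ≤ 128 * c₀ * (1 / (128 * c₀) * x) := h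
      _ = x := by field_simp
  have F5 : ∀ᶠ x : ℝ in atTop, Real.log x ^ 3 ≤ x := by
    have := (Real.isLittleO_pow_log_id_atTop (n := 3)).bound (show (0 : ℝ) < 1 by norm_num)
    filter_upwards [this, eventually_ge_atTop 1] with x hx hx0
    have h0 := Real.log_nonneg hx0
    rw [Real.norm_of_nonneg (by positivity), id, Real.norm_of_nonneg (by linarith), one_mul] at hx
    exact hx
  filter_upwards [eventually_ge_atTop 256, T1.eventually_ge_atTop (max 2 (max (1 / (8 * c₀)) (2 / c₀))),
    T2.eventually_ge_atTop (max 2 (64 * c₀)), T3.eventually_ge_atTop 2, T1.eventually F2,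
    T1.eventually F3, F5] with L hL hl hl2 hl3 hF2 hF3 hF5
  refine ⟨hL, ?_⟩
  intro l E c₁ H w
  simp only [Function.comp] at hl2 hl3
  have hL0 : 0 < L := by linarith
  have hl_2 : 2 ≤ l := (le_max_left _ _).trans hl
  have hl_a : 1 / (8 * c₀) ≤ l := ((le_max_left _ _).trans (le_max_right _ _)).trans hl
  have hl_b : 2 / c₀ ≤ l := ((le_max_right _ _).trans (le_max_right _ _)).trans hl
  have hl0 : 0 < l := by linarith
  have hm2 : 2 ≤ Real.log l := (le_max_left _ _).trans hl2
  have hm64 : 64 * c₀ ≤ Real.log l := (le_max_right _ _).trans hl2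
  have hn2 : 2 ≤ Real.log (Real.log l) := hl3
  have hm0 : 0 < Real.log l := by linarith
  have hn0 : 0 < Real.log (Real.log l) := by linarith
  have hnm : Real.log (Real.log l) ≤ Real.log l := (Real.log_le_self hm0.le)
  have hE1 : L * l ≤ E := by
    show L * l ≤ L * l ^ 2 * Real.log (Real.log l) / Real.log l ^ 2
    rw [le_div_iff₀ (by positivity)]
    have : Real.log l ^ 2 ≤ l := hF2
    calc L * l * Real.log l ^ 2 ≤ L * l * l := by gcongr
      _ = L * l ^ 2 * 1 := by ring
      _ ≤ L * l ^ 2 * Real.log (Real.log l) := by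
        gcongr
        linarith
  have hE2 : E ≤ L * l ^ 2 * Real.log l := by
    show L * l ^ 2 * Real.log (Real.log l) / Real.log l ^ 2 ≤ _
    rw [div_le_iff₀ (by positivity)]
    have : 1 ≤ Real.log l ^ 2 := by nlinarith
    calc L * l ^ 2 * Real.log (Real.log l) ≤ L * l ^ 2 * Real.log l := by gcongr
      _ = L * l ^ 2 * Real.log l * 1 := by ring
      _ ≤ L * l ^ 2 * Real.log l * Real.log l ^ 2 := by gcongr
  have hE0 : 0 < E := lt_of_lt_of_le (by positivity) hE1
  have hHle : (H : ℝ) ≤ c₀ * E := Nat.floor_le (by positivity)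
  have hwle : (w : ℝ) ≤ L / 8 := Nat.floor_le (by positivity)
  have hwge : L / 16 ≤ w := by
    have := Nat.lt_floor_add_one (L / 8)
    linarith
  have hlogw : l / 2 ≤ Real.log w := by
    have hs : Real.sqrt L ≤ w := by
      have h1 : Real.sqrt L * 16 ≤ L := by
        have h2 : (16 : ℝ) ≤ Real.sqrt L := by
          apply Real.le_sqrt_of_sq_le
          norm_num
          exact hL
        have h3 := Real.mul_self_sqrt hL0.le
        nlinarith
      linarith
    have h4 : Real.log (Real.sqrt L) = l / 2 := Real.log_sqrt hL0.le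
    rw [← h4]
    exact Real.log_le_log (Real.sqrt_pos.2 hL0) hs
  have hw0 : (0 : ℝ) < w := by linarith
  have hlogwle : Real.log w ≤ l := Real.log_le_log hw0 (by linarith)
  have hkey : c₀ * E ≤ L * l ^ 3 / 128 := by
    calc c₀ * E ≤ c₀ * (L * l ^ 2 * Real.log l) := by gcongr
      _ = L * l ^ 2 * (128 * c₀ * Real.log l) / 128 := by ring
      _ ≤ L * l ^ 2 * l / 128 := by
        gcongr
      _ = L * l ^ 3 / 128 := by ring
  have hkey2 : c₀ * E ≤ L * l ^ 2 / 64 := by
    have h8 : E ≤ L * l ^ 2 / Real.log l := by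
      show L * l ^ 2 * Real.log (Real.log l) / Real.log l ^ 2 ≤ _
      rw [div_le_div_iff₀ (by positivity) hm0]
      calc L * l ^ 2 * Real.log (Real.log l) * Real.log l
          ≤ L * l ^ 2 * Real.log l * Real.log l := by gcongr
        _ = L * l ^ 2 * Real.log l ^ 2 := by ring
    calc c₀ * E ≤ c₀ * (L * l ^ 2 / Real.log l) := by gcongr
      _ = L * l ^ 2 * (64 * c₀) / (64 * Real.log l) := by field_simp
      _ ≤ L * l ^ 2 * Real.log l / (64 * Real.log l) := by gcongr
      _ = L * l ^ 2 / 64 := by field_simp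
  refine ⟨?_, ?_, ?_, ?_, ?_⟩
  · apply Nat.floor_le_floor
    show L / 8 ≤ c₀ * E
    calc L / 8 = c₀ * (L * (1 / (8 * c₀))) := by field_simp
      _ ≤ c₀ * (L * l) := by gcongr
      _ ≤ c₀ * E := by gcongr
  · calc (H : ℝ) ≤ c₀ * E := hHle
      _ ≤ L * l ^ 2 / 64 := hkey2
      _ = L / 16 * (l / 2) ^ 2 := by ring
      _ ≤ w * Real.log w ^ 2 := by gcongr
  · calc (H : ℝ) ≤ c₀ * E := hHle
      _ ≤ L * l ^ 3 / 128 := hkey
      _ ≤ L * L / 128 := by
        gcongr
      _ ≤ L ^ 2 := by nlinarith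
  · have g1 : Real.log l / 2 ≤ Real.log (Real.log w) := by
      have h5 : Real.log (l / 2) ≤ Real.log (Real.log w) :=
        Real.log_le_log (by positivity) hlogw
      rw [Real.log_div hl0.ne' (by norm_num)] at h5
      have := Real.log_two_lt_d9
      linarith
    have g2 : Real.log (Real.log w) ≤ Real.log l :=
      Real.log_le_log (by linarith) hlogwle
    have g3 : Real.log (Real.log l) / 2 ≤ Real.log (Real.log (Real.log w)) := by
      have h5 : Real.log (Real.log l / 2) ≤ Real.log (Real.log (Real.log w)) :=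
        Real.log_le_log (by positivity) g1
      rw [Real.log_div hm0.ne' (by norm_num)] at h5
      have := Real.log_two_lt_d9
      linarith
    have g4 : 0 ≤ Real.log (Real.log w) := by linarith
    calc C * (H * Real.log (Real.log w) ^ 2 /
        (Real.log w ^ 2 * Real.log (Real.log (Real.log w))))
        ≤ C * (c₀ * E * Real.log l ^ 2 / ((l / 2) ^ 2 * (Real.log (Real.log l) / 2))) := by
          gcongr
      _ = κ * L := by
        show C * (κ / (8 * C) * (L * l ^ 2 * Real.log (Real.log l) / Real.log l ^ 2) *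
          Real.log l ^ 2 / ((l / 2) ^ 2 * (Real.log (Real.log l) / 2))) = κ * L
        field_simp
        ring
  · have h6 := Nat.lt_floor_add_one (c₀ * E)
    have h7 : 2 ≤ c₀ * E := by
      calc (2 : ℝ) = c₀ * (1 * (2 / c₀)) := by field_simp
        _ ≤ c₀ * (L * l) := by
          gcongr
          linarith
        _ ≤ c₀ * E := by gcongr
    show c₀ / 2 * E ≤ (⌊c₀ * E⌋₊ : ℝ)
    linarith

theorem p_FINB (h1 : Stmt_SC) (h2 : Stmt_STG) (h3 : Stmt_GAP) : Stmt_FINB := by
  obtain ⟨κ, hκ, hcore⟩ := fin_core h1 h3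
  obtain ⟨C, hC, hSTG⟩ := h2
  have hfl : Tendsto (fun L : ℝ => ⌊L / 8⌋₊) atTop atTop :=
    tendsto_nat_floor_atTop.comp (tendsto_id.atTop_div_const (by norm_num))
  refine ⟨κ / (8 * C) / 2, by positivity, ?_⟩
  have hlogX : Tendsto (fun X : ℕ => Real.log (X : ℝ)) atTop atTop :=
    Real.tendsto_log_atTop.comp tendsto_natCast_atTop_atTop
  have hall := (hcore.and (finb_real C κ hC hκ)).and (hfl.eventually hSTG)
  filter_upwards [hlogX.eventually hall] with X hX
  obtain ⟨⟨hc, hL, hwH, hHw, hHL, hcard, hlow⟩, hS⟩ := hX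
  obtain ⟨v, hv⟩ := hS _ hwH hHw
  obtain ⟨n, hn1, hn2⟩ := hc _ v X rfl hHL (fun A hA hA2 => (hv A hA hA2).trans hcard)
  refine ⟨n, hn1, le_trans (le_of_eq ?_) (hlow.trans hn2)⟩
  ring

end Pool.LGP
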