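import Pool.Agent.Work.MP_b0c12c_gaps.InterfaceC

/-! # Block FINC (helper54, after helper47's FINcore and B_FINB): every interval
`(x, x + x ^ ε]` contains a long run of composite numbers -/

set_option autoImplicit false

namespace Pool.LGP

open Finset Filter

theorem FINC_a1 (q L δ : ℝ) (h3 : q * q = L) (h4 : 2 ≤ δ * q) (h5 : 0 ≤ q) :
    2 * q ≤ δ * L := by
  rw [← h3]
  nlinarith [mul_le_mul_of_nonneg_right h4 h5]

theorem FINC_a2 (a : ℝ) (h : 2 ≤ a) : a ≤ a ^ 2 := by nlinarith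

theorem FINC_a3 (L : ℝ) : 1 * L * L / 8 ≤ L ^ 2 := by nlinarith [sq_nonneg L]

theorem FINC_a4 (w l δ L : ℝ) (h : 0 ≤ w) (h6 : l ≤ 1.4) (hw : w ≤ δ * L) (hδ : 0 < δ)
    (hL : 0 < L) : w * l ≤ 2 * δ * L := by
  nlinarith [mul_le_mul_of_nonneg_left h6 h, mul_pos hδ hL]

theorem FINC_a5 (p w d L : ℝ) (h7 : p ≤ w) (h8 : w ≤ d) (h9 : d ≤ L) (h10 : 1 ≤ L ^ 2)
    (h11 : 0 < L) : p ≤ L ^ 3 := by
  nlinarith [mul_le_mul_of_nonneg_left h10 h11.le]

/-- the real inequalities, with `w = ⌊δ L⌋` -/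
theorem finc_real (C κ δ : ℝ) (hC : 0 < C) (hκ : 0 < κ) (hδ : 0 < δ) (hδ1 : δ ≤ 1) :
    ∀ᶠ L : ℝ in atTop,
      let l := Real.log L
      let E := L * l ^ 2 * Real.log (Real.log l) / Real.log l ^ 2
      let c₀ := κ / (8 * C)
      let H := ⌊c₀ * E⌋₊
      let w := ⌊δ * L⌋₊
      w ≤ H ∧ (H : ℝ) ≤ w * Real.log w ^ 2 ∧ (H : ℝ) ≤ L ^ 2 ∧
      C * (H * Real.log (Real.log w) ^ 2 /
        (Real.log w ^ 2 * Real.log (Real.log (Real.log w)))) ≤ κ * L ∧
      c₀ / 2 * E ≤ H := by
  set c₀ := κ / (8 * C) with hc₀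
  have hc₀pos : 0 < c₀ := by positivity
  have T1 := Real.tendsto_log_atTop
  have T2 := Real.tendsto_log_atTop.comp T1
  have T3 := Real.tendsto_log_atTop.comp T2
  have F2 : ∀ᶠ x : ℝ in atTop, Real.log x ^ 2 ≤ x := by
    have := (Real.isLittleO_pow_log_id_atTop (n := 2)).bound (show (0 : ℝ) < 1 by norm_num)
    filter_upwards [this, eventually_ge_atTop 0] with x hx hx0
    simpa [Real.norm_eq_abs, abs_of_nonneg hx0] using hx
  have F3 : ∀ᶠ x : ℝ in atTop, 8 * c₀ * Real.log x ≤ δ * x := by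
    have := (Real.isLittleO_log_id_atTop).bound (show (0 : ℝ) < δ / (8 * c₀) by positivity)
    filter_upwards [this, eventually_ge_atTop 1] with x hx hx0
    rw [Real.norm_of_nonneg (Real.log_nonneg hx0), id, Real.norm_of_nonneg (by linarith)] at hx
    have h := mul_le_mul_of_nonneg_left hx (show (0 : ℝ) ≤ 8 * c₀ by positivity)
    calc 8 * c₀ * Real.log x ≤ 8 * c₀ * (δ / (8 * c₀) * x) := h
      _ = δ * x := by field_simp
  have F5 : ∀ᶠ x : ℝ in atTop, Real.log x ^ 3 ≤ x := by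
    have := (Real.isLittleO_pow_log_id_atTop (n := 3)).bound (show (0 : ℝ) < 1 by norm_num)
    filter_upwards [this, eventually_ge_atTop 1] with x hx hx0
    have h0 := Real.log_nonneg hx0
    rw [Real.norm_of_nonneg (by positivity), id, Real.norm_of_nonneg (by linarith), one_mul] at hx
    exact hx
  filter_upwards [eventually_ge_atTop (max 256 (4 / δ ^ 2)),
    T1.eventually_ge_atTop (max 2 (max (1 / c₀) (2 / c₀))),
    T2.eventually_ge_atTop 2, T3.eventually_ge_atTop 2, T1.eventually F2, T2.eventually F3, F5]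
    with L hLm hl hl2 hl3 hF2 hF3 hF5
  have hL : 256 ≤ L := (le_max_left _ _).trans hLm
  have hLδ : 4 / δ ^ 2 ≤ L := (le_max_right _ _).trans hLm
  intro l E c₁ H w
  simp only [Function.comp] at hl2 hl3 hF3
  have hL0 : 0 < L := by linarith
  have hl_2 : 2 ≤ l := (le_max_left _ _).trans hl
  have hl_a : 1 / c₀ ≤ l := ((le_max_left _ _).trans (le_max_right _ _)).trans hl
  have hl_b : 2 / c₀ ≤ l := ((le_max_right _ _).trans (le_max_right _ _)).trans hl
  have hl0 : 0 < l := by linarith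
  have hm2 : 2 ≤ Real.log l := hl2
  have hn2 : 2 ≤ Real.log (Real.log l) := hl3
  have hm0 : 0 < Real.log l := by linarith
  have hn0 : 0 < Real.log (Real.log l) := by linarith
  have hnm : Real.log (Real.log l) ≤ Real.log l := (Real.log_le_self hm0.le)
  have hE1 : L * l ≤ E := by
    show L * l ≤ L * l ^ 2 * Real.log (Real.log l) / Real.log l ^ 2
    rw [le_div_iff₀ (by positivity)]
    have : Real.log l ^ 2 ≤ l := hF2
    calc L * l * Real.log l ^ 2 ≤ L * l * l := by gcongr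
      _ = L * l ^ 2 * 1 := by ring
      _ ≤ L * l ^ 2 * Real.log (Real.log l) := by
        gcongr
        linarith
  have hE0 : 0 < E := lt_of_lt_of_le (by positivity) hE1
  have hHle : (H : ℝ) ≤ c₀ * E := Nat.floor_le (by positivity)
  have hwle : (w : ℝ) ≤ δ * L := Nat.floor_le (by positivity)
  have hwleL : (w : ℝ) ≤ L := hwle.trans (mul_le_of_le_one_left hL0.le hδ1)
  -- `2 √L ≤ δ L`
  have hsqrt : 2 * Real.sqrt L ≤ δ * L := by
    have h2 : 2 / δ ≤ Real.sqrt L := by
      apply Real.le_sqrt_of_sq_le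
      rw [div_pow]
      norm_num
      exact hLδ
    have h3 := Real.mul_self_sqrt hL0.le
    have h4 : 2 ≤ δ * Real.sqrt L := by
      rw [div_le_iff₀ hδ] at h2
      linarith
    have h5 : 0 ≤ Real.sqrt L := Real.sqrt_nonneg _
    exact FINC_a1 _ _ _ h3 h4 h5
  have hsq16 : (16 : ℝ) ≤ Real.sqrt L := by
    apply Real.le_sqrt_of_sq_le
    norm_num
    exact hL
  have hwge : δ * L / 2 ≤ w := by
    have := Nat.lt_floor_add_one (δ * L)
    have h6 : (⌊δ * L⌋₊ : ℝ) = w := rfl
    linarith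
  have hlogw : l / 2 ≤ Real.log w := by
    have hs : Real.sqrt L ≤ w := by linarith
    have h4 : Real.log (Real.sqrt L) = l / 2 := Real.log_sqrt hL0.le
    rw [← h4]
    exact Real.log_le_log (Real.sqrt_pos.2 hL0) hs
  have hw0 : (0 : ℝ) < w := by linarith
  have hlogwle : Real.log w ≤ l := Real.log_le_log hw0 hwleL
  have hkey : c₀ * E ≤ δ * L * l ^ 2 / 8 := by
    have h1 : 8 * c₀ * Real.log (Real.log l) ≤ δ * Real.log l ^ 2 := by
      have : Real.log l ≤ Real.log l ^ 2 := FINC_a2 _ hm2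
      calc 8 * c₀ * Real.log (Real.log l) ≤ δ * Real.log l := hF3
        _ ≤ δ * Real.log l ^ 2 := by gcongr
    show c₀ * (L * l ^ 2 * Real.log (Real.log l) / Real.log l ^ 2) ≤ _
    rw [← mul_div_assoc, div_le_iff₀ (by positivity)]
    calc c₀ * (L * l ^ 2 * Real.log (Real.log l))
        = L * l ^ 2 * (8 * c₀ * Real.log (Real.log l)) / 8 := by ring
      _ ≤ L * l ^ 2 * (δ * Real.log l ^ 2) / 8 := by gcongr
      _ = δ * L * l ^ 2 / 8 * Real.log l ^ 2 := by ring
  refine ⟨?_, ?_, ?_, ?_, ?_⟩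
  · apply Nat.floor_le_floor
    show δ * L ≤ c₀ * E
    calc δ * L ≤ 1 * L := by gcongr
      _ = c₀ * (L * (1 / c₀)) := by field_simp
      _ ≤ c₀ * (L * l) := by gcongr
      _ ≤ c₀ * E := by gcongr
  · calc (H : ℝ) ≤ c₀ * E := hHle
      _ ≤ δ * L * l ^ 2 / 8 := hkey
      _ = δ * L / 2 * (l / 2) ^ 2 := by ring
      _ ≤ w * Real.log w ^ 2 := by gcongr
  · have h2 : l ^ 2 ≤ L := by
      have h3 : l ^ 3 ≤ L := hF5
      have h4 : l ^ 2 ≤ l ^ 3 := pow_le_pow_right₀ (by linarith) (by norm_num)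
      linarith
    calc (H : ℝ) ≤ c₀ * E := hHle
      _ ≤ δ * L * l ^ 2 / 8 := hkey
      _ ≤ 1 * L * L / 8 := by
        gcongr
      _ ≤ L ^ 2 := FINC_a3 L
  · have g1 : Real.log l / 2 ≤ Real.log (Real.log w) := by
      have h5 : Real.log (l / 2) ≤ Real.log (Real.log w) :=
        Real.log_le_log (by positivity) hlogw
      rw [Real.log_div hl0.ne' (by norm_num)] at h5
      have := Real.log_two_lt_d9
      linarith
    have g2 : Real.log (Real.log w) ≤ Real.log l :=
      Real.log_le_log (by linarith) hlogwle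
    have g3 : Real.log (Real.log l) / 2 ≤ Real.log (Real.log (Real.log w)) := by
      have h5 : Real.log (Real.log l / 2) ≤ Real.log (Real.log (Real.log w)) :=
        Real.log_le_log (by positivity) g1
      rw [Real.log_div hm0.ne' (by norm_num)] at h5
      have := Real.log_two_lt_d9
      linarith
    have g4 : 0 ≤ Real.log (Real.log w) := by linarith
    calc C * (H * Real.log (Real.log w) ^ 2 /
        (Real.log w ^ 2 * Real.log (Real.log (Real.log w))))
        ≤ C * (c₀ * E * Real.log l ^ 2 / ((l / 2) ^ 2 * (Real.log (Real.log l) / 2))) := by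
          gcongr
      _ = κ * L := by
        show C * (κ / (8 * C) * (L * l ^ 2 * Real.log (Real.log l) / Real.log l ^ 2) *
          Real.log l ^ 2 / ((l / 2) ^ 2 * (Real.log (Real.log l) / 2))) = κ * L
        field_simp
        ring
  · have h6 := Nat.lt_floor_add_one (c₀ * E)
    have h7 : 2 ≤ c₀ * E := by
      calc (2 : ℝ) = c₀ * (1 * (2 / c₀)) := by field_simp
        _ ≤ c₀ * (L * l) := by
          gcongr
          linarith
        _ ≤ c₀ * E := by gcongr
    show c₀ / 2 * E ≤ (⌊c₀ * E⌋₊ : ℝ)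
    linarith

theorem p_FINC (h1 : Stmt_SCE) (h2 : Stmt_STG) : Stmt_FINC := by
  classical
  intro ε hε
  set δ : ℝ := min ε 1 / 8 with hδ
  have hδpos : 0 < δ := by
    have : 0 < min ε 1 := lt_min hε one_pos
    positivity
  have hδ8 : 8 * δ ≤ ε := by
    rw [hδ]; linarith [min_le_left ε 1]
  have hδ1 : 8 * δ ≤ 1 := by
    rw [hδ]; linarith [min_le_right ε 1]
  obtain ⟨κ, L₀, hκ, hSC⟩ := h1 (2 * δ) (by positivity)
  obtain ⟨C, hC, hSTG⟩ := h2
  have hfl : Tendsto (fun L : ℝ => ⌊δ * L⌋₊) atTop atTop :=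
    tendsto_nat_floor_atTop.comp (tendsto_id.const_mul_atTop hδpos)
  refine ⟨κ / (8 * C) / 2, by positivity, ?_⟩
  have hlogX : Tendsto (fun X : ℕ => Real.log (X : ℝ)) atTop atTop :=
    Real.tendsto_log_atTop.comp tendsto_natCast_atTop_atTop
  have hexp : ∀ᶠ L : ℝ in atTop, (16 : ℝ) ≤ Real.exp (δ * L) :=
    (Real.tendsto_exp_atTop.comp (tendsto_id.const_mul_atTop hδpos)).eventually_ge_atTop 16
  have hsq : ∀ᶠ L : ℝ in atTop, L ^ 2 ≤ Real.exp (δ * L) := by
    have h := (isLittleO_pow_exp_pos_mul_atTop (b := δ) 2 (by positivity)).bound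
      (c := 1) one_pos
    filter_upwards [h] with L hL
    rw [Real.norm_eq_abs, Real.norm_eq_abs, abs_of_nonneg (by positivity),
      abs_of_nonneg (Real.exp_pos _).le, one_mul] at hL
    exact hL
  have hll : ∀ᶠ L : ℝ in atTop, 2 ≤ Real.log L :=
    Real.tendsto_log_atTop.eventually_ge_atTop 2
  have hall := (((finc_real C κ δ hC hκ hδpos (by linarith)).and (hfl.eventually hSTG)).and
    (hexp.and hsq)).and ((eventually_ge_atTop (max L₀ 16)).and hll)
  filter_upwards [hlogX.eventually hall, eventually_ge_atTop 2] with x hx hx2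
  obtain ⟨⟨⟨⟨hwH, hHw, hHL, hcard, hlow⟩, hS⟩, hex, hsqL⟩, hLL, hlog2⟩ := hx
  set L : ℝ := Real.log x with hL
  have hL0 : L₀ ≤ L := (le_max_left _ _).trans hLL
  have hL16 : 16 ≤ L := (le_max_right _ _).trans hLL
  have hLpos : 0 < L := by linarith
  obtain ⟨v, hv⟩ := hS _ hwH hHw
  set H := ⌊κ / (8 * C) * (L * Real.log L ^ 2 * Real.log (Real.log (Real.log L)) /
    Real.log (Real.log L) ^ 2)⌋₊ with hHdef
  set w := ⌊δ * L⌋₊ with hw
  set W := primorial w with hW
  set A := (Icc 1 H).filter (fun h => ∀ p : ℕ, p.Prime → p ≤ w → ¬ p ∣ v + h) with hAdef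
  have hWpos : 0 < W := primorial_pos w
  have hwL : (w : ℝ) ≤ δ * L := Nat.floor_le (by positivity)
  have hpW : ∀ p : ℕ, p.Prime → p ≤ w → p ∣ W := by
    intro p hp hpw
    rw [hW, primorial]
    exact dvd_prod_of_mem _ (mem_filter.2 ⟨mem_range.2 (by omega), hp⟩)
  have hWp : ∀ p : ℕ, p.Prime → p ∣ W → p ≤ w := by
    intro p hp hpW'
    rw [hW, primorial] at hpW'
    obtain ⟨q, hq, hpq⟩ := (hp.prime.dvd_finsetProd_iff _).1 hpW'
    have hq' := mem_filter.1 hq
    have : p = q := (Nat.prime_dvd_prime_iff_eq hp hq'.2).1 hpq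
    have := mem_range.1 hq'.1
    omega
  have hWexp : (W : ℝ) ≤ Real.exp (2 * δ * L) := by
    have h4 : (W : ℝ) ≤ 4 ^ w := by exact_mod_cast primorial_le_four_pow w
    have h6 : Real.log 4 ≤ 1.4 := by
      rw [show (4 : ℝ) = 2 ^ 2 by norm_num, Real.log_pow]
      have := Real.log_two_lt_d9
      push_cast
      linarith
    calc (W : ℝ) ≤ 4 ^ w := h4
      _ = Real.exp (w * Real.log 4) := by
        rw [Real.exp_nat_mul, Real.exp_log (by norm_num)]
      _ ≤ Real.exp (2 * δ * L) := by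
        apply Real.exp_le_exp.2
        have : (0 : ℝ) ≤ w := by positivity
        exact FINC_a4 _ _ _ _ this h6 hwL hδpos hLpos
  have hcardA : (A.card : ℝ) ≤ κ * L :=
    (hv A (filter_subset _ _) (fun h hh => (mem_filter.1 hh).2)).trans hcard
  set Y := ⌈Real.exp (2 * δ * L)⌉₊ with hY
  have hYge : Real.exp (2 * δ * L) ≤ Y := Nat.le_ceil _
  have hexp1 : (1 : ℝ) ≤ Real.exp (2 * δ * L) := Real.one_le_exp (by positivity)
  have hYle : (Y : ℝ) ≤ 2 * Real.exp (2 * δ * L) := by
    have := Nat.ceil_lt_add_one (Real.exp_pos (2 * δ * L)).le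
    linarith
  -- the translation
  set t := x / W + 1 with ht
  have htx : x ≤ W * t := by
    have := Nat.div_add_mod x W
    have h2 := Nat.mod_lt x hWpos
    rw [ht, Nat.mul_add]
    omega
  have htx' : W * t ≤ x + W := by
    rw [ht, Nat.mul_add, Nat.mul_one]
    have := Nat.mul_div_le x W
    omega
  obtain ⟨y, hy, hyA⟩ := hSC L W (W * t + v % W) Y A hL0 (by
    intro p hp hpd
    have h7 : (p : ℝ) ≤ w := by exact_mod_cast hWp p hp hpd
    have h8 : (1 : ℝ) ≤ L ^ 2 := one_le_pow₀ (by linarith)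
    have h9 : δ * L ≤ L := mul_le_of_le_one_left hLpos.le (by linarith)
    exact FINC_a5 _ _ _ _ h7 hwL h9 h8 hLpos) (by
    intro h hh
    have h9 : h ≤ H := (mem_Icc.1 (mem_filter.1 hh).1).2
    have : (h : ℝ) ≤ H := by exact_mod_cast h9
    linarith) hcardA hYge
  rw [mem_Ioc] at hy
  have hvW : v % W < W := Nat.mod_lt _ hWpos
  have hxpos : (0 : ℝ) < x := by
    have : (2 : ℝ) ≤ x := by exact_mod_cast hx2
    linarith
  have hxe : (x : ℝ) = Real.exp L := by rw [hL, Real.exp_log hxpos]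
  refine ⟨W * y + (W * t + v % W), H, ?_, ?_, ?_, ?_⟩
  · omega
  · have e1 : (y : ℝ) ≤ 2 * Y := by exact_mod_cast hy.2
    have e2 : ((v % W : ℕ) : ℝ) ≤ W := by exact_mod_cast hvW.le
    have e3 : (W : ℝ) * y ≤ 4 * Real.exp (4 * δ * L) := by
      calc (W : ℝ) * y ≤ Real.exp (2 * δ * L) * (2 * (2 * Real.exp (2 * δ * L))) := by
            gcongr
            linarith
        _ = 4 * Real.exp (4 * δ * L) := by
          rw [show (4 * δ * L : ℝ) = 2 * δ * L + 2 * δ * L by ring, Real.exp_add]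
          ring
    have e4 : (W : ℝ) ≤ Real.exp (4 * δ * L) :=
      hWexp.trans (Real.exp_le_exp.2 (by linarith [mul_pos hδpos hLpos]))
    have e5 : ((W * t : ℕ) : ℝ) ≤ x + W := by exact_mod_cast htx'
    have e6 : (H : ℝ) ≤ Real.exp (4 * δ * L) :=
      hHL.trans (hsqL.trans (Real.exp_le_exp.2 (by linarith [mul_pos hδpos hLpos])))
    have e7 : (7 : ℝ) * Real.exp (4 * δ * L) ≤ Real.exp (8 * δ * L) := by
      have : Real.exp (8 * δ * L) = Real.exp (4 * δ * L) * Real.exp (4 * δ * L) := by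
        rw [← Real.exp_add]; congr 1; ring
      rw [this]
      have h16 : (16 : ℝ) ≤ Real.exp (4 * δ * L) :=
        hex.trans (Real.exp_le_exp.2 (by linarith [mul_pos hδpos hLpos]))
      have := Real.exp_pos (4 * δ * L)
      exact mul_le_mul_of_nonneg_right (by linarith) this.le
    have e8 : Real.exp (8 * δ * L) ≤ (x : ℝ) ^ ε := by
      rw [Real.rpow_def_of_pos hxpos, ← hL]
      apply Real.exp_le_exp.2
      exact (mul_le_mul_of_nonneg_right hδ8 hLpos.le).trans (le_of_eq (by ring))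
    push_cast
    push_cast at e5
    linarith
  · intro n hn hnp
    rw [mem_Ioc] at hn
    obtain ⟨h, rfl⟩ : ∃ h, n = W * y + (W * t + v % W) + h :=
      ⟨n - (W * y + (W * t + v % W)), by omega⟩
    have hh : h ∈ Icc 1 H := mem_Icc.2 ⟨by omega, by omega⟩
    have hfin : ∀ p : ℕ, p.Prime → (p : ℝ) < Real.exp L →
        ¬ p ∣ W * y + (W * t + v % W) + h := by
      intro p hp hpe hpd
      have h14 : p < x := by
        rw [← hxe] at hpe
        exact_mod_cast hpe
      rcases (Nat.dvd_prime hnp).1 hpd with h15 | h15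
      · exact hp.one_lt.ne' h15
      · omega
    by_cases hhA : h ∈ A
    · obtain ⟨p, hp, hple, hpd⟩ := hyA h hhA
      refine hfin p hp (lt_of_le_of_lt hple ?_) hpd
      apply Real.exp_lt_exp.2
      rw [div_lt_iff₀ (by linarith)]
      exact lt_mul_of_one_lt_right hLpos (by linarith)
    · have : ∃ p : ℕ, p.Prime ∧ p ≤ w ∧ p ∣ v + h := by
        by_contra hcon
        push Not at hcon
        exact hhA (mem_filter.2 ⟨hh, hcon⟩)
      obtain ⟨p, hp, hpw, hpd⟩ := this
      refine hfin p hp ?_ ?_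
      · have h16 : (p : ℝ) ≤ w := by exact_mod_cast hpw
        have h17 := Real.add_one_le_exp L
        linarith [mul_le_of_le_one_left hLpos.le (show δ ≤ 1 by linarith)]
      · have h18 : W * y + (W * t + v % W) + h ≡ v + h [MOD p] := by
          have h19 : W * y ≡ 0 [MOD p] :=
            (Nat.modEq_zero_iff_dvd.2 ((hpW p hp hpw).mul_right y))
          have h19' : W * t ≡ 0 [MOD p] :=
            (Nat.modEq_zero_iff_dvd.2 ((hpW p hp hpw).mul_right t))
          have h20 : v % W ≡ v [MOD p] := (Nat.mod_modEq v W).of_dvd (hpW p hp hpw)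
          have := (h19.add (h19'.add h20)).add (Nat.ModEq.refl h)
          simpa using this
        exact (Nat.modEq_zero_iff_dvd.1 (h18.trans (Nat.modEq_zero_iff_dvd.2 hpd)))
  · refine le_trans (le_of_eq ?_) hlow
    ring

end Pool.LGP
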