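import Pool.Agent.Work.MP_b0c12c_gaps.Interface

set_option autoImplicit false

namespace Pool.LGP

open Finset Filter

theorem p_GAP : Stmt_GAP := by
  intro a H X ha hX hnp
  have hinf : (setOf Nat.Prime).Infinite := Nat.infinite_setOf_prime
  have hc : 0 < Nat.count Nat.Prime (a + 1) := by
    rw [Nat.count_eq_card_filter_range]
    apply Finset.card_pos.mpr
    exact ⟨2, by simp [Nat.prime_two]; omega⟩
  have h1 : Nat.nth Nat.Prime (Nat.count Nat.Prime (a + 1) - 1) < a + 1 :=
    Nat.nth_lt_of_lt_count (by omega)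
  have h2 : a + 1 ≤ Nat.nth Nat.Prime (Nat.count Nat.Prime (a + 1)) :=
    Nat.le_nth_count hinf (a + 1)
  have h3 : (Nat.nth Nat.Prime (Nat.count Nat.Prime (a + 1))).Prime :=
    Nat.nth_mem_of_infinite hinf _
  have h4 : a + H < Nat.nth Nat.Prime (Nat.count Nat.Prime (a + 1)) := by
    by_contra hcon
    exact hnp _ (by rw [Finset.mem_Ioc]; omega) h3
  obtain ⟨p, hp, hp1, hp2⟩ := Nat.exists_prime_lt_and_le_two_mul (a + H) (by omega)
  have h5 : Nat.nth Nat.Prime (Nat.count Nat.Prime (a + 1)) ≤ p := by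
    have h6 : Nat.count Nat.Prime (a + 1) ≤ Nat.count Nat.Prime p :=
      Nat.count_monotone _ (by omega)
    have h7 := (Nat.nth_monotone hinf) h6
    rwa [Nat.nth_count hp] at h7
  refine ⟨Nat.count Nat.Prime (a + 1) - 1, ?_, ?_⟩
  · rw [Nat.sub_add_cancel hc]
    omega
  · rw [Nat.sub_add_cancel hc]
    have h8 : Nat.nth Nat.Prime (Nat.count Nat.Prime (a + 1) - 1) + H ≤
        Nat.nth Nat.Prime (Nat.count Nat.Prime (a + 1)) := by omega
    have h9 : ((Nat.nth Nat.Prime (Nat.count Nat.Prime (a + 1) - 1) + H : ℕ) : ℝ) ≤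
        (Nat.nth Nat.Prime (Nat.count Nat.Prime (a + 1)) : ℝ) := by exact_mod_cast h8
    push_cast at h9
    linarith

end Pool.LGP
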