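import Pool.Agent.Work.MP_b0c12c_gaps.Interface

/-! # Large gaps between primes, block GRE: greedy choice of residues -/

set_option autoImplicit false

namespace Pool.LGP

open Finset

theorem GRE_step (B : Finset ℕ) (q : ℕ) (hq : 0 < q) :
    ∃ a : ℕ, ((B.filter (fun n => ¬ n ≡ a [MOD q])).card : ℝ) ≤ B.card * (1 - 1 / (q : ℝ)) := by
  have hq' : (0 : ℝ) < q := Nat.cast_pos.2 hq
  have hsum : ∑ a ∈ range q, ((B.filter (fun n => n % q = a)).card : ℝ) = B.card := by
    have h := Finset.card_eq_sum_card_fiberwise (s := B) (t := range q) (f := fun n => n % q)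
      (fun n _ => by
        simp only [Finset.coe_range, Set.mem_Iio]
        exact Nat.mod_lt n hq)
    rw [h]
    push_cast
    rfl
  have hex : ∃ a ∈ range q, (B.card : ℝ) / q ≤ ((B.filter (fun n => n % q = a)).card : ℝ) := by
    by_contra hcon
    push Not at hcon
    have hne : (range q).Nonempty := ⟨0, mem_range.2 hq⟩
    have h := Finset.sum_lt_sum_of_nonempty hne hcon
    rw [hsum, sum_const, card_range, nsmul_eq_mul, mul_div_cancel₀ _ hq'.ne'] at h
    exact lt_irrefl _ h
  obtain ⟨a, ha, h⟩ := hex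
  refine ⟨a, ?_⟩
  have hsplit : ((B.filter (fun n => n ≡ a [MOD q])).card : ℝ) +
      ((B.filter (fun n => ¬ n ≡ a [MOD q])).card : ℝ) = B.card := by
    exact_mod_cast Finset.card_filter_add_card_filter_not (s := B) (fun n => n ≡ a [MOD q])
  have hEq : B.filter (fun n => n % q = a) = B.filter (fun n => n ≡ a [MOD q]) := by
    apply Finset.filter_congr
    intro n _
    rw [Nat.ModEq, Nat.mod_eq_of_lt (mem_range.1 ha)]
  rw [hEq] at h
  have e : (B.card : ℝ) * (1 - 1 / q) = B.card - B.card / q := by ring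
  rw [e]
  linarith

theorem p_GRE : Stmt_GRE := by
  intro A Q
  induction Q using Finset.induction_on with
  | empty =>
    intro _
    exact ⟨fun _ => 0, by simp⟩
  | insert q Q hq ih =>
    intro hpos
    obtain ⟨r, hr⟩ := ih fun p hp => hpos p (mem_insert_of_mem hp)
    obtain ⟨a, ha⟩ := GRE_step (A.filter (fun n => ∀ p ∈ Q, ¬ n ≡ r p [MOD p])) q
      (hpos q (mem_insert_self _ _))
    refine ⟨Function.update r q a, ?_⟩
    have hEq : A.filter (fun n => ∀ p ∈ insert q Q, ¬ n ≡ Function.update r q a p [MOD p])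
        = (A.filter (fun n => ∀ p ∈ Q, ¬ n ≡ r p [MOD p])).filter
          (fun n => ¬ n ≡ a [MOD q]) := by
      rw [Finset.filter_filter]
      apply Finset.filter_congr
      intro n _
      rw [Finset.forall_mem_insert, Function.update_self, and_comm]
      refine and_congr_left fun _ => ?_
      refine forall₂_congr fun p hp => ?_
      have hne : p ≠ q := fun h => hq (h ▸ hp)
      rw [Function.update_of_ne hne]
    rw [hEq, Finset.prod_insert hq]
    have h1 : (1 : ℝ) ≤ q := by exact_mod_cast hpos q (mem_insert_self _ _)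
    have h2 : (0 : ℝ) ≤ 1 - 1 / (q : ℝ) := by
      rw [sub_nonneg, div_le_one (by linarith)]; exact h1
    calc _ ≤ _ := ha
      _ ≤ (A.card * ∏ p ∈ Q, (1 - 1 / (p : ℝ))) * (1 - 1 / (q : ℝ)) :=
        mul_le_mul_of_nonneg_right hr h2
      _ = _ := by ring

end Pool.LGP
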