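import Pool.Agent.Work.MP_b0c12c_gaps.Interface

/-! # Block GRM (helper89) -/

set_option autoImplicit false

namespace Pool.LGP

open Finset Filter

/-- local coefficients of the product of two local factors -/
noncomputable def GRM_b {ι : Type} [DecidableEq ι] (p : ℝ) (o o' : Option ι) (h : ι) : ℝ :=
  (if o = some h then -p else 0) + (if o' = some h then -p else 0) +
    (if o = some h ∧ o' = some h then p ^ 2 else 0)

theorem GRM_sum {ι : Type} [Fintype ι] [DecidableEq ι] (g : ι) (f : ι → ℝ) :
    ∑ h, (if some g = some h then f h else 0) = f g := by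
  have h1 : ∀ h, (if some g = some h then f h else 0) = if g = h then f h else 0 := by
    intro h
    by_cases hh : g = h
    · subst hh; simp
    · rw [if_neg hh, if_neg (fun he => hh (Option.some.inj he))]
  rw [Finset.sum_congr rfl (fun h _ => h1 h), Finset.sum_ite_eq]
  simp

theorem GRM_sum0 {ι : Type} [Fintype ι] [DecidableEq ι] (f : ι → ℝ) :
    ∑ h, (if (none : Option ι) = some h then f h else 0) = 0 := by
  simp

theorem GRM_split {ι : Type} [Fintype ι] [DecidableEq ι] (p : ℝ) (o o' : Option ι) (f : ι → ℝ) :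
    ∑ h, GRM_b p o o' h * f h = ∑ h, (if o = some h then -p * f h else 0) +
      ∑ h, (if o' = some h then -p * f h else 0) +
      ∑ h, (if o = some h then (if o' = some h then p ^ 2 * f h else 0) else 0) := by
  rw [← Finset.sum_add_distrib, ← Finset.sum_add_distrib]
  refine Finset.sum_congr rfl fun h _ => ?_
  unfold GRM_b
  by_cases h1 : o = some h
  · by_cases h2 : o' = some h
    · simp only [h1, h2, if_true, and_self]; ring
    · simp only [h1, h2, if_true, if_false, and_false]; ring
  · by_cases h2 : o' = some h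
    · simp only [h1, h2, if_true, if_false, false_and]; ring
    · simp only [h1, h2, if_false, false_and]; ring

theorem GRM_loc {π ι : Type} [Fintype ι] [DecidableEq ι] (S : Sys π ι) (hS : S.Good) (x : π)
    (o o' : Option ι) (y : ℕ) :
    S.loc x o y * S.loc x o' y = 1 + ∑ h, GRM_b (S.pr x) o o' h * S.il x (some h) y := by
  rw [GRM_split]
  have hl : ∀ h, S.loc x (some h) y = 1 - S.pr x * S.il x (some h) y := by
    intro h
    unfold Sys.loc Sys.il
    by_cases hd : S.pr x ∣ S.N h y
    · simp [hd]
    · simp [hd]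
  have hsq : ∀ h, S.il x (some h) y * S.il x (some h) y = S.il x (some h) y := by
    intro h
    unfold Sys.il
    by_cases hd : S.pr x ∣ S.N h y
    · simp [hd]
    · simp [hd]
  have hex : ∀ h h', h ≠ h' → S.il x (some h) y * S.il x (some h') y = 0 := by
    intro h h' hne
    unfold Sys.il
    by_cases hd : S.pr x ∣ S.N h y
    · have := hS.excl x h h' y hne hd
      simp [this]
    · simp [hd]
  have hn : S.loc x none y = 1 := rfl
  rcases o with _ | g
  · rcases o' with _ | g'
    · rw [hn]; simp
    · rw [hn, hl, GRM_sum0, GRM_sum, GRM_sum0]; ring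
  · rcases o' with _ | g'
    · rw [hn, hl, GRM_sum, GRM_sum0, GRM_sum]; simp; ring
    · rw [hl, hl, GRM_sum, GRM_sum, GRM_sum]
      by_cases hg : g = g'
      · subst hg
        rw [if_pos rfl]
        linear_combination ((S.pr x : ℝ) ^ 2) * hsq g
      · rw [if_neg (fun he => hg (Option.some.inj he).symm)]
        linear_combination ((S.pr x : ℝ) ^ 2) * hex g g' hg

theorem GRM_mean {π ι : Type} [Fintype ι] [DecidableEq ι] (S : Sys π ι) (hS : S.Good) (x : π)
    (o o' : Option ι) :
    1 + ∑ h, GRM_b (S.pr x) o o' h / S.pr x = S.gl x o o' := by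
  have hp : (S.pr x : ℝ) ≠ 0 := by exact_mod_cast (hS.prime x).ne_zero
  have h0 : ∑ h, GRM_b (S.pr x) o o' h / S.pr x = ∑ h, GRM_b (S.pr x) o o' h * (1 / S.pr x) :=
    Finset.sum_congr rfl fun h _ => by ring
  rw [h0, GRM_split]
  rcases o with _ | g
  · rcases o' with _ | g'
    · simp [Sys.gl]
    · rw [GRM_sum0, GRM_sum, GRM_sum0]
      unfold Sys.gl
      field_simp
      ring
  · rcases o' with _ | g'
    · rw [GRM_sum, GRM_sum0, GRM_sum]
      unfold Sys.gl
      simp only [reduceCtorEq, if_false]
      field_simp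
      ring
    · have hgl : S.gl x (some g) (some g') = if g = g' then (S.pr x : ℝ) - 1 else -1 := rfl
      rw [GRM_sum, GRM_sum, GRM_sum, hgl]
      by_cases hg : g = g'
      · subst hg
        simp only [if_true]
        field_simp
        ring
      · rw [if_neg (fun he => hg (Option.some.inj he).symm), if_neg hg]
        field_simp
        ring

theorem GRM_bound {π ι : Type} [Fintype ι] [DecidableEq ι] (S : Sys π ι) (x : π)
    (o o' : Option ι) :
    |(1 : ℝ)| + ∑ h, |GRM_b (S.pr x) o o' h| ≤ S.el x o * S.el x o' := by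
  have hp : (0 : ℝ) ≤ S.pr x := Nat.cast_nonneg _
  have h1 : ∑ h, |GRM_b (S.pr x) o o' h| ≤ ∑ h, (if o = some h then (S.pr x : ℝ) else 0) +
      ∑ h, (if o' = some h then (S.pr x : ℝ) else 0) +
      ∑ h, (if o = some h then (if o' = some h then (S.pr x : ℝ) ^ 2 else 0) else 0) := by
    rw [← Finset.sum_add_distrib, ← Finset.sum_add_distrib]
    refine Finset.sum_le_sum fun h _ => ?_
    unfold GRM_b
    refine (abs_add_three _ _ _).trans ?_
    refine add_le_add (add_le_add ?_ ?_) ?_
    · split_ifs
      · rw [abs_neg, abs_of_nonneg hp]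
      · simp
    · split_ifs
      · rw [abs_neg, abs_of_nonneg hp]
      · simp
    · by_cases h1 : o = some h
      · by_cases h2 : o' = some h
        · simp only [h1, h2, and_self, if_true]
          rw [abs_of_nonneg (sq_nonneg _)]
        · simp only [h1, h2, and_false, if_true, if_false, abs_zero, le_refl]
      · simp only [h1, false_and, if_false, abs_zero, le_refl]
  rw [abs_one]
  refine (add_le_add_right h1 1).trans ?_
  rcases o with _ | g
  · rcases o' with _ | g'
    · simp [Sys.el]
    · rw [GRM_sum0, GRM_sum, GRM_sum0]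
      unfold Sys.el
      linarith
  · rcases o' with _ | g'
    · rw [GRM_sum, GRM_sum0, GRM_sum]
      unfold Sys.el
      simp only [reduceCtorEq, if_false]
      linarith
    · rw [GRM_sum, GRM_sum, GRM_sum]
      unfold Sys.el
      split_ifs
      · nlinarith
      · nlinarith

theorem p_GRM (hEXP : Stmt_EXP) : Stmt_GRM := by
  intro π ι _ _ _ _ S hS ρ σ Y
  have h := hEXP π ι S hS (fun _ => 1) (fun x => GRM_b (S.pr x) (ρ x) (σ x)) Y
  have h1 : ∀ y, ∏ x, (1 + ∑ h, GRM_b (S.pr x) (ρ x) (σ x) h * S.il x (some h) y) =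
      S.psi ρ y * S.psi σ y := by
    intro y
    unfold Sys.psi
    rw [← Finset.prod_mul_distrib]
    exact Finset.prod_congr rfl fun x _ => (GRM_loc S hS x (ρ x) (σ x) y).symm
  have h2 : ∏ x, (1 + ∑ h, GRM_b (S.pr x) (ρ x) (σ x) h / S.pr x) = S.Gm ρ σ := by
    unfold Sys.Gm
    exact Finset.prod_congr rfl fun x _ => GRM_mean S hS x (ρ x) (σ x)
  simp only [h1, h2] at h
  refine h.trans ?_
  unfold Sys.ez
  rw [← Finset.prod_mul_distrib]
  refine Finset.prod_le_prod (fun x _ => ?_) (fun x _ => GRM_bound S x (ρ x) (σ x))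
  positivity

end Pool.LGP
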