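import Pool.Agent.Work.MP_b0c12c_gaps.Interface

set_option autoImplicit false

namespace Pool.LGP

open Finset

theorem GSH_symm {π ι : Type} [Fintype π] [DecidableEq ι] (S : Sys π ι) (ρ σ : π → Option ι) :
    S.Gm ρ σ = S.Gm σ ρ := by
  unfold Sys.Gm
  refine Finset.prod_congr rfl fun x _ => ?_
  rcases ρ x with _ | h <;> rcases σ x with _ | h'
  · rfl
  · rfl
  · rfl
  · simp only [Sys.gl]
    by_cases hh : h = h'
    · subst hh; rfl
    · rw [if_neg hh, if_neg (Ne.symm hh)]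

theorem p_GSH (h1 : Stmt_ROW) : Stmt_GSH := by
  intro π ι _ _ _ _ S hS a
  have hrow := h1 π ι S hS
  have hA : ∑ ρ, ∑ σ, a ρ ^ 2 * |S.Gm ρ σ| = ∑ ρ, a ρ ^ 2 * S.row (Fintype.card ι) ρ := by
    refine Finset.sum_congr rfl fun ρ _ => ?_
    rw [← Finset.mul_sum, hrow]
  have hB : ∑ ρ, ∑ σ, a σ ^ 2 * |S.Gm ρ σ| = ∑ ρ, a ρ ^ 2 * S.row (Fintype.card ι) ρ := by
    rw [Finset.sum_comm, ← hA]
    refine Finset.sum_congr rfl fun σ _ => Finset.sum_congr rfl fun ρ _ => ?_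
    rw [GSH_symm S ρ σ]
  have key : ∀ x y G : ℝ, |x * y * G| ≤ (x ^ 2 * |G| + y ^ 2 * |G|) / 2 := by
    intro x y G
    rw [abs_mul, abs_mul]
    have h := sq_nonneg (|x| - |y|)
    have h2 : |x| * |y| ≤ (x ^ 2 + y ^ 2) / 2 := by
      have := sq_abs x
      have := sq_abs y
      nlinarith
    have h3 := mul_le_mul_of_nonneg_right h2 (abs_nonneg G)
    linarith
  constructor
  · calc ∑ ρ, ∑ σ, a ρ * a σ * S.Gm ρ σ
        ≤ ∑ ρ, ∑ σ, (a ρ ^ 2 * |S.Gm ρ σ| + a σ ^ 2 * |S.Gm ρ σ|) / 2 :=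
          Finset.sum_le_sum fun ρ _ => Finset.sum_le_sum fun σ _ =>
            (le_abs_self _).trans (key _ _ _)
      _ = (∑ ρ, ∑ σ, a ρ ^ 2 * |S.Gm ρ σ| + ∑ ρ, ∑ σ, a σ ^ 2 * |S.Gm ρ σ|) / 2 := by
          simp only [← Finset.sum_div, Finset.sum_add_distrib]
      _ = _ := by rw [hA, hB]; ring
  · have hD : ∑ ρ, ∑ σ, (if ρ = σ then 2 * (a ρ ^ 2 * S.Gm ρ ρ) else 0) =
        ∑ ρ, 2 * (a ρ ^ 2 * S.Gm ρ ρ) := by
      refine Finset.sum_congr rfl fun ρ _ => ?_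
      rw [Finset.sum_ite_eq Finset.univ ρ]
      simp
    calc ∑ ρ, a ρ ^ 2 * (2 * S.Gm ρ ρ - S.row (Fintype.card ι) ρ)
        = ∑ ρ, ∑ σ, (if ρ = σ then 2 * (a ρ ^ 2 * S.Gm ρ ρ) else 0) -
          (∑ ρ, ∑ σ, a ρ ^ 2 * |S.Gm ρ σ| + ∑ ρ, ∑ σ, a σ ^ 2 * |S.Gm ρ σ|) / 2 := by
          rw [hA, hB, hD, ← Finset.sum_add_distrib, Finset.sum_div, ← Finset.sum_sub_distrib]
          refine Finset.sum_congr rfl fun ρ _ => ?_
          ring
      _ = ∑ ρ, ∑ σ, ((if ρ = σ then 2 * (a ρ ^ 2 * S.Gm ρ ρ) else 0) -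
          (a ρ ^ 2 * |S.Gm ρ σ| + a σ ^ 2 * |S.Gm ρ σ|) / 2) := by
          simp only [Finset.sum_sub_distrib, ← Finset.sum_div, Finset.sum_add_distrib]
      _ ≤ _ := by
          refine Finset.sum_le_sum fun ρ _ => Finset.sum_le_sum fun σ _ => ?_
          by_cases h : ρ = σ
          · subst h
            rw [if_pos rfl]
            have h0 : 0 ≤ a ρ ^ 2 := sq_nonneg _
            have h2 := mul_le_mul_of_nonneg_left (le_abs_self (S.Gm ρ ρ)) h0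
            nlinarith
          · rw [if_neg h]
            have h2 := key (a ρ) (a σ) (S.Gm ρ σ)
            have h3 := neg_abs_le (a ρ * a σ * S.Gm ρ σ)
            linarith

end Pool.LGP
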