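import Pool.Agent.Work.MP_b0c12c_gaps.Interface

set_option autoImplicit false

namespace Pool.LGP

open Finset Filter

/-- Configurations are determined by their fibres. -/
theorem INJ_fib_injective {π ι : Type} [Fintype π] [DecidableEq ι] :
    Function.Injective (fun ρ : π → Option ι => fib ρ) := by
  intro ρ σ h
  funext x
  have key : ∀ i : ι, ρ x = some i ↔ σ x = some i := by
    intro i
    have h1 := congrFun h i
    have h2 : x ∈ fib ρ i ↔ x ∈ fib σ i := by
      have h3 : fib ρ i = fib σ i := h1
      rw [h3]
    simpa [fib] using h2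
  cases hx : ρ x with
  | none =>
    cases hy : σ x with
    | none => rfl
    | some j =>
      have := (key j).2 hy
      rw [hx] at this
      cases this
  | some i =>
    exact ((key i).1 hx).symm

theorem p_INJ : Stmt_INJ := by
  intro π ι _ _ _ _ f hf
  classical
  have h1 : ∑ ρ : π → Option ι, ∏ h, f (fib ρ h) =
      ∑ t ∈ (univ : Finset (π → Option ι)).image (fun ρ => fib ρ), ∏ h, f (t h) := by
    rw [Finset.sum_image]
    intro a _ b _ hab
    exact INJ_fib_injective hab
  have h2 : ∑ t ∈ (univ : Finset (π → Option ι)).image (fun ρ => fib ρ), ∏ h, f (t h) ≤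
      ∑ t : ι → Finset π, ∏ h, f (t h) :=
    Finset.sum_le_sum_of_subset_of_nonneg (Finset.subset_univ _)
      (fun t _ _ => Finset.prod_nonneg (fun h _ => hf _))
  have h3 : ∑ t : ι → Finset π, ∏ h, f (t h) = (∑ T, f T) ^ Fintype.card ι := by
    have h4 := Finset.prod_univ_sum (fun _ : ι => (univ : Finset (Finset π)))
      (fun _ T => f T)
    rw [Finset.prod_const, Finset.card_univ, Fintype.piFinset_univ] at h4
    exact h4.symm
  rw [h1, ← h3]
  exact h2

end Pool.LGP
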