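import Pool.Agent.Work.MP_b0c12c_gaps.Interface

/-! # Block L2: mean squares over `(Y, 2Y]` (helper91) -/

set_option autoImplicit false

namespace Pool.LGP

open Finset

/-- Expanding the square. -/
theorem L2_expand {R : Type} [Fintype R] (a : R → ℝ) (P : R → ℕ → ℝ) (s : Finset ℕ) :
    ∑ y ∈ s, (∑ ρ, a ρ * P ρ y) ^ 2 = ∑ ρ, ∑ σ, a ρ * a σ * ∑ y ∈ s, P ρ y * P σ y := by
  have h : ∀ y ∈ s, (∑ ρ, a ρ * P ρ y) ^ 2 = ∑ ρ, ∑ σ, a ρ * a σ * (P ρ y * P σ y) := by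
    intro y _
    rw [sq, Finset.sum_mul_sum]
    refine Finset.sum_congr rfl fun ρ _ => Finset.sum_congr rfl fun σ _ => ?_
    ring
  rw [Finset.sum_congr rfl h, Finset.sum_comm]
  refine Finset.sum_congr rfl fun ρ _ => ?_
  rw [Finset.sum_comm]
  refine Finset.sum_congr rfl fun σ _ => ?_
  rw [Finset.mul_sum]

/-- The error of the whole quadratic form. -/
theorem L2_err {R : Type} [Fintype R] (a e : R → ℝ) (M G : R → R → ℝ) (Y : ℝ)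
    (h : ∀ ρ σ, |M ρ σ - Y * G ρ σ| ≤ e ρ * e σ) :
    |∑ ρ, ∑ σ, a ρ * a σ * M ρ σ - Y * ∑ ρ, ∑ σ, a ρ * a σ * G ρ σ| ≤
      (∑ ρ, |a ρ| * e ρ) ^ 2 := by
  have h1 : ∑ ρ, ∑ σ, a ρ * a σ * M ρ σ - Y * ∑ ρ, ∑ σ, a ρ * a σ * G ρ σ =
      ∑ ρ, ∑ σ, a ρ * a σ * (M ρ σ - Y * G ρ σ) := by
    rw [Finset.mul_sum, ← Finset.sum_sub_distrib]
    refine Finset.sum_congr rfl fun ρ _ => ?_
    rw [Finset.mul_sum, ← Finset.sum_sub_distrib]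
    refine Finset.sum_congr rfl fun σ _ => ?_
    ring
  rw [h1, sq, Finset.sum_mul_sum]
  refine (Finset.abs_sum_le_sum_abs _ _).trans (Finset.sum_le_sum fun ρ _ => ?_)
  refine (Finset.abs_sum_le_sum_abs _ _).trans (Finset.sum_le_sum fun σ _ => ?_)
  rw [abs_mul, abs_mul]
  calc |a ρ| * |a σ| * |M ρ σ - Y * G ρ σ|
      ≤ |a ρ| * |a σ| * (e ρ * e σ) := by
        exact mul_le_mul_of_nonneg_left (h ρ σ) (by positivity)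
    _ = |a ρ| * e ρ * (|a σ| * e σ) := by ring

theorem p_L2 (h1 : Stmt_GRM) (h2 : Stmt_GSH) (h3 : Stmt_NUM) : Stmt_L2 := by
  intro π ι _ _ _ _ S hS z hz hx a ha Y
  have hE := L2_err a S.ez (fun ρ σ => ∑ y ∈ Ioc Y (2 * Y), S.psi ρ y * S.psi σ y) S.Gm Y
    (fun ρ σ => h1 π ι S hS ρ σ Y)
  rw [← L2_expand a S.psi (Ioc Y (2 * Y))] at hE
  obtain ⟨hG1, hG2⟩ := h2 π ι S hS a
  have hY : (0 : ℝ) ≤ Y := Nat.cast_nonneg Y
  have hn : ∀ ρ, a ρ ^ 2 * S.row (Fintype.card ι) ρ ≤ 2 * (a ρ ^ 2 * S.szn ρ) ∧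
      a ρ ^ 2 * S.szn ρ / 2 ≤ a ρ ^ 2 * (2 * S.Gm ρ ρ - S.row (Fintype.card ι) ρ) := by
    intro ρ
    by_cases h0 : a ρ = 0
    · simp [h0]
    · obtain ⟨hr, hg, _⟩ := h3 π ι S hS (Fintype.card ι) z hz hx ρ (ha ρ h0)
      have hp : 0 ≤ a ρ ^ 2 := sq_nonneg _
      constructor
      · nlinarith [mul_le_mul_of_nonneg_left hr hp]
      · nlinarith [mul_le_mul_of_nonneg_left hg hp]
  have hU : ∑ ρ, a ρ ^ 2 * S.row (Fintype.card ι) ρ ≤ 2 * ∑ ρ, a ρ ^ 2 * S.szn ρ := by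
    rw [Finset.mul_sum]
    exact Finset.sum_le_sum fun ρ _ => (hn ρ).1
  have hL : (∑ ρ, a ρ ^ 2 * S.szn ρ) / 2 ≤
      ∑ ρ, a ρ ^ 2 * (2 * S.Gm ρ ρ - S.row (Fintype.card ι) ρ) := by
    rw [Finset.sum_div]
    exact Finset.sum_le_sum fun ρ _ => (hn ρ).2
  have hU2 := mul_le_mul_of_nonneg_left (hG1.trans hU) hY
  have hL2 := mul_le_mul_of_nonneg_left (hL.trans hG2) hY
  obtain ⟨hE1, hE2⟩ := abs_le.mp hE
  constructor <;> linarith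

end Pool.LGP
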