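import Pool.Agent.Work.MP_b0c12c_gaps.Interface

/-! # Large gaps between primes: block MKV (helper7) -/

set_option autoImplicit false

namespace Pool.LGP

open Finset Filter

theorem MKV_sum (P : Finset ℕ) :
    ∑ T ∈ P.powerset, 1 / (∏ p ∈ T, (p : ℝ)) = ∏ p ∈ P, (1 + 1 / (p : ℝ)) := by
  rw [Finset.prod_one_add]
  refine Finset.sum_congr rfl fun T _ => ?_
  rw [Finset.prod_div_distrib, Finset.prod_const_one]

theorem MKV_mult (P : Finset ℕ) (hP : ∀ p ∈ P, 1 ≤ p) (p : ℕ) (hp : p ∈ P) :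
    ∑ T ∈ P.powerset, (if p ∈ T then 1 / (∏ q ∈ T, (q : ℝ)) else 0) ≤
      1 / p * ∏ q ∈ P, (1 + 1 / (q : ℝ)) := by
  classical
  have hp1 : (1 : ℝ) ≤ p := by exact_mod_cast hP p hp
  have e : ∑ T ∈ P.powerset, (if p ∈ T then 1 / (∏ q ∈ T, (q : ℝ)) else 0)
      = ∑ T ∈ (insert p (P.erase p)).powerset,
        (if p ∈ T then 1 / (∏ q ∈ T, (q : ℝ)) else 0) := by
    rw [Finset.insert_erase hp]
  rw [e, Finset.sum_powerset_insert (Finset.notMem_erase p P)]
  have h1 : ∑ T ∈ (P.erase p).powerset, (if p ∈ T then 1 / (∏ q ∈ T, (q : ℝ)) else 0) = 0 := by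
    refine Finset.sum_eq_zero fun T hT => ?_
    rw [Finset.mem_powerset] at hT
    rw [if_neg fun h => Finset.notMem_erase p P (hT h)]
  have h2 : ∑ T ∈ (P.erase p).powerset,
      (if p ∈ insert p T then 1 / (∏ q ∈ insert p T, (q : ℝ)) else 0)
      = 1 / p * ∏ q ∈ P.erase p, (1 + 1 / (q : ℝ)) := by
    rw [← MKV_sum, Finset.mul_sum]
    refine Finset.sum_congr rfl fun T hT => ?_
    rw [Finset.mem_powerset] at hT
    rw [if_pos (Finset.mem_insert_self p T),
      Finset.prod_insert fun h => Finset.notMem_erase p P (hT h), div_mul_div_comm, one_mul]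
  rw [h1, h2, zero_add]
  have h3 : ∏ q ∈ P, (1 + 1 / (q : ℝ)) = (1 + 1 / (p : ℝ)) * ∏ q ∈ P.erase p, (1 + 1 / (q : ℝ)) := by
    rw [Finset.mul_prod_erase P (fun q : ℕ => 1 + 1 / (q : ℝ)) hp]
  rw [h3]
  have h4 : 0 ≤ ∏ q ∈ P.erase p, (1 + 1 / (q : ℝ)) := Finset.prod_nonneg fun q _ => by positivity
  have h5 : 0 ≤ 1 / (p : ℝ) := by positivity
  refine mul_le_mul_of_nonneg_left ?_ h5
  nlinarith

theorem p_MKV : Stmt_MKV := by
  classical
  intro P R G hP hR hG hGR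
  set Q := ∏ p ∈ P, (1 + 1 / (p : ℝ)) with hQ
  have hQ0 : 0 ≤ Q := Finset.prod_nonneg fun q _ => by positivity
  have hlogR : 0 < Real.log R := Real.log_pos hR
  have hpos : ∀ T ∈ P.powerset, 1 ≤ ∏ p ∈ T, (p : ℝ) := by
    intro T hT
    rw [Finset.mem_powerset] at hT
    have : ∀ p ∈ T, (1 : ℝ) ≤ p := fun p hp => by exact_mod_cast hP p (hT hp)
    calc (1 : ℝ) = ∏ p ∈ T, (1 : ℝ) := by rw [Finset.prod_const_one]
      _ ≤ _ := Finset.prod_le_prod (fun _ _ => zero_le_one) this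
  -- the logarithmic mean
  have h1 : ∑ T ∈ P.powerset, Real.log (∏ p ∈ T, (p : ℝ)) / (∏ p ∈ T, (p : ℝ)) ≤ G * Q := by
    have e : ∀ T ∈ P.powerset, Real.log (∏ p ∈ T, (p : ℝ)) / (∏ p ∈ T, (p : ℝ))
        = ∑ p ∈ P, Real.log p * (if p ∈ T then 1 / (∏ q ∈ T, (q : ℝ)) else 0) := by
      intro T hT
      have hT' := Finset.mem_powerset.1 hT
      have hne : ∀ p ∈ T, (p : ℝ) ≠ 0 := fun p hp => by
        have : (1 : ℝ) ≤ p := by exact_mod_cast hP p (hT' hp)
        linarith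
      rw [Real.log_prod hne, Finset.sum_div]
      simp only [mul_ite, mul_zero]
      rw [← Finset.sum_filter, Finset.filter_mem_eq_inter, Finset.inter_eq_right.2 hT']
      refine Finset.sum_congr rfl fun p _ => ?_
      ring
    rw [Finset.sum_congr rfl e, Finset.sum_comm]
    simp only [← Finset.mul_sum]
    calc ∑ p ∈ P, Real.log p * ∑ T ∈ P.powerset, (if p ∈ T then 1 / (∏ q ∈ T, (q : ℝ)) else 0)
        ≤ ∑ p ∈ P, Real.log p * (1 / p * Q) := by
          refine Finset.sum_le_sum fun p hp => ?_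
          refine mul_le_mul_of_nonneg_left (MKV_mult P hP p hp) ?_
          exact Real.log_nonneg (by exact_mod_cast hP p hp)
      _ = (∑ p ∈ P, Real.log p / p) * Q := by
          rw [Finset.sum_mul]
          refine Finset.sum_congr rfl fun p _ => ?_
          ring
      _ ≤ G * Q := mul_le_mul_of_nonneg_right hG hQ0
  -- Markov
  have h2 : ∑ T ∈ P.powerset, (if R < (∏ p ∈ T, (p : ℝ)) then 1 / (∏ p ∈ T, (p : ℝ)) else 0)
      ≤ Q / 2 := by
    have h3 : ∑ T ∈ P.powerset, (if R < (∏ p ∈ T, (p : ℝ)) then 1 / (∏ p ∈ T, (p : ℝ)) else 0)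
        * Real.log R ≤ G * Q := by
      refine le_trans (Finset.sum_le_sum fun T hT => ?_) h1
      have h4 := hpos T hT
      by_cases h : R < ∏ p ∈ T, (p : ℝ)
      · rw [if_pos h, div_mul_eq_mul_div, one_mul]
        refine div_le_div_of_nonneg_right ?_ (by linarith)
        exact Real.log_le_log (by linarith) h.le
      · rw [if_neg h, zero_mul]
        exact div_nonneg (Real.log_nonneg h4) (by linarith)
    rw [← Finset.sum_mul] at h3
    have h5 : (∑ T ∈ P.powerset, (if R < (∏ p ∈ T, (p : ℝ)) then 1 / (∏ p ∈ T, (p : ℝ)) else 0))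
        * Real.log R ≤ Q / 2 * Real.log R := by
      refine h3.trans ?_
      nlinarith
    exact le_of_mul_le_mul_right h5 hlogR
  have h3 : Q = ∑ T ∈ P.powerset, (if (∏ p ∈ T, (p : ℝ)) ≤ R then 1 / (∏ p ∈ T, (p : ℝ)) else 0)
      + ∑ T ∈ P.powerset, (if R < (∏ p ∈ T, (p : ℝ)) then 1 / (∏ p ∈ T, (p : ℝ)) else 0) := by
    rw [hQ, ← MKV_sum, ← Finset.sum_add_distrib]
    refine Finset.sum_congr rfl fun T _ => ?_
    by_cases h : (∏ p ∈ T, (p : ℝ)) ≤ R
    · rw [if_pos h, if_neg (not_lt.2 h), add_zero]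
    · rw [if_neg h, if_pos (not_le.1 h), zero_add]
  have h4 : Q / 2 ≤
      ∑ T ∈ P.powerset, (if (∏ p ∈ T, (p : ℝ)) ≤ R then 1 / (∏ p ∈ T, (p : ℝ)) else 0) := by
    linarith
  refine h4.trans (le_of_eq ?_)
  refine Finset.sum_congr rfl fun T _ => ?_
  by_cases h : (∏ p ∈ T, (p : ℝ)) ≤ R
  · simp only [if_pos h]
  · simp only [if_neg h]

end Pool.LGP
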