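import Pool.Agent.Work.MP_b0c12c_gaps.Interface

/-! # Block NCO (helper70) -/

set_option autoImplicit false

namespace Pool.LGP

open Finset

theorem NCO_tot {π ι : Type} [Fintype π] [DecidableEq π] [Fintype ι] [DecidableEq ι]
    (g : ι → Finset π → ℝ) :
    ∑ t : ι → Finset π, ∏ h, g h (t h) = ∏ h, ∑ T, g h T := by
  have h := Finset.prod_univ_sum (fun _ : ι => (Finset.univ : Finset (Finset π))) g
  rw [Fintype.piFinset_univ] at h
  exact h.symm

/-- pairwise disjoint tuples -/
def NCO_PD {π ι : Type} (t : ι → Finset π) : Prop := ∀ i j, i ≠ j → Disjoint (t i) (t j)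

open Classical in
/-- the labelling of a tuple -/
noncomputable def NCO_lab {π ι : Type} (t : ι → Finset π) : π → Option ι := fun x =>
  if h : ∃ i, x ∈ t i then some h.choose else none

theorem NCO_fib {π ι : Type} [Fintype π] [DecidableEq ι] (t : ι → Finset π)
    (ht : NCO_PD t) (i : ι) : fib (NCO_lab t) i = t i := by
  classical
  ext x
  unfold fib
  rw [mem_filter]
  simp only [mem_univ, true_and]
  unfold NCO_lab
  constructor
  · intro h
    split_ifs at h with h1
    · have h2 := h1.choose_spec
      rw [Option.some.inj h] at h2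
      exact h2
  · intro h
    have h1 : ∃ i, x ∈ t i := ⟨i, h⟩
    rw [dif_pos h1]
    congr 1
    by_contra hne
    exact Finset.disjoint_left.mp (ht _ _ hne) h1.choose_spec h

theorem NCO_pair {π ι : Type} [Fintype π] [DecidableEq π] [Fintype ι] [DecidableEq ι]
    (f : Finset π → ℝ) (hf : ∀ T, 0 ≤ f T) (hF : 1 ≤ ∑ T, f T) (x : π) (i j : ι) (hij : i ≠ j) :
    ∑ t : ι → Finset π, (if x ∈ t i ∧ x ∈ t j then ∏ h, f (t h) else 0) ≤
      (∑ T, if x ∈ T then f T else 0) ^ 2 * (∑ T, f T) ^ Fintype.card ι := by
  classical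
  set G : ℝ := ∑ T, if x ∈ T then f T else 0 with hG
  set F : ℝ := ∑ T, f T with hFd
  have hG0 : 0 ≤ G := Finset.sum_nonneg fun T _ => by split_ifs <;> simp [hf]
  have e1 : ∀ t : ι → Finset π, (if x ∈ t i ∧ x ∈ t j then ∏ h, f (t h) else 0) =
      ∏ h, (if h = i ∨ h = j then (if x ∈ t h then f (t h) else 0) else f (t h)) := by
    intro t
    by_cases hx : x ∈ t i ∧ x ∈ t j
    · rw [if_pos hx]
      refine Finset.prod_congr rfl fun h _ => ?_
      by_cases hh : h = i ∨ h = j
      · rw [if_pos hh]
        rcases hh with rfl | rfl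
        · rw [if_pos hx.1]
        · rw [if_pos hx.2]
      · rw [if_neg hh]
    · rw [if_neg hx]
      by_cases hi : x ∈ t i
      · have hj : x ∉ t j := fun hj => hx ⟨hi, hj⟩
        symm
        refine Finset.prod_eq_zero (Finset.mem_univ j) ?_
        simp [hj]
      · symm
        refine Finset.prod_eq_zero (Finset.mem_univ i) ?_
        simp [hi]
  rw [Finset.sum_congr rfl fun t _ => e1 t]
  rw [NCO_tot (fun h T => if h = i ∨ h = j then (if x ∈ T then f T else 0) else f T)]
  have e2 : ∀ h : ι, (∑ T : Finset π, if h = i ∨ h = j then (if x ∈ T then f T else 0) else f T) =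
      if h = i ∨ h = j then G else F := by
    intro h
    by_cases hh : h = i ∨ h = j
    · simp [hh, hG]
    · simp [hh, hFd]
  rw [Finset.prod_congr rfl fun h _ => e2 h, Finset.prod_ite]
  rw [Finset.prod_const, Finset.prod_const]
  have hc : (Finset.univ.filter fun h : ι => h = i ∨ h = j).card = 2 := by
    have : (Finset.univ.filter fun h : ι => h = i ∨ h = j) = {i, j} := by
      ext h; simp
    rw [this, Finset.card_pair hij]
  rw [hc]
  refine mul_le_mul_of_nonneg_left ?_ (sq_nonneg _)
  refine pow_le_pow_right₀ hF ?_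
  rw [← Finset.card_univ]
  exact Finset.card_le_card (Finset.filter_subset _ _)

theorem p_NCO : Stmt_NCO := by
  intro π ι _ _ _ _ f hf hF
  classical
  set F : ℝ := ∑ T, f T with hFd
  set k : ℝ := (Fintype.card ι : ℝ) with hk
  have hF0 : 0 ≤ F := le_trans zero_le_one hF
  have tot : ∑ t : ι → Finset π, ∏ h, f (t h) = F ^ Fintype.card ι := by
    rw [NCO_tot (fun _ T => f T), Finset.prod_const, Finset.card_univ]
  have hpos : ∀ t : ι → Finset π, 0 ≤ ∏ h, f (t h) := fun t => Finset.prod_nonneg fun h _ => hf _
  -- the disjoint tuples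
  have h1 : ∑ t ∈ Finset.univ.filter (fun t : ι → Finset π => NCO_PD t), ∏ h, f (t h) ≤
      ∑ ρ : π → Option ι, ∏ h, f (fib ρ h) := by
    have hinj : Set.InjOn (fun t : ι → Finset π => NCO_lab t)
        (Finset.univ.filter (fun t : ι → Finset π => NCO_PD t) : Finset (ι → Finset π)) := by
      intro t ht t' ht' he
      simp only [coe_filter, mem_univ, true_and, Set.mem_ofPred_eq] at ht ht'
      funext i
      rw [← NCO_fib t ht i, ← NCO_fib t' ht' i]
      simp only at he
      rw [he]
    calc ∑ t ∈ Finset.univ.filter (fun t : ι → Finset π => NCO_PD t), ∏ h, f (t h)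
        = ∑ t ∈ Finset.univ.filter (fun t : ι → Finset π => NCO_PD t), ∏ h, f (fib (NCO_lab t) h) := by
          refine Finset.sum_congr rfl fun t ht => ?_
          refine Finset.prod_congr rfl fun h _ => ?_
          rw [NCO_fib t (by simpa using ht)]
      _ = ∑ ρ ∈ (Finset.univ.filter (fun t : ι → Finset π => NCO_PD t)).image
            (fun t => NCO_lab t), ∏ h, f (fib ρ h) := by
          rw [Finset.sum_image hinj]
      _ ≤ ∑ ρ : π → Option ι, ∏ h, f (fib ρ h) := by
          refine Finset.sum_le_univ_sum_of_nonneg fun ρ => ?_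
          exact Finset.prod_nonneg fun h _ => hf _
  -- the others
  have h2 : ∑ t ∈ Finset.univ.filter (fun t : ι → Finset π => ¬ NCO_PD t), ∏ h, f (t h) ≤
      F ^ Fintype.card ι * (k ^ 2 * ∑ x, (∑ T, if x ∈ T then f T else 0) ^ 2) := by
    calc ∑ t ∈ Finset.univ.filter (fun t : ι → Finset π => ¬ NCO_PD t), ∏ h, f (t h)
        ≤ ∑ t ∈ Finset.univ.filter (fun t : ι → Finset π => ¬ NCO_PD t),
            ∑ x : π, ∑ i : ι, ∑ j : ι,
              (if i ≠ j then (if x ∈ t i ∧ x ∈ t j then ∏ h, f (t h) else 0) else 0) := by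
          refine Finset.sum_le_sum fun t ht => ?_
          have ht' : ¬ NCO_PD t := by simpa using ht
          unfold NCO_PD at ht'
          push Not at ht'
          obtain ⟨i, j, hij, hd⟩ := ht'
          rw [Finset.not_disjoint_iff] at hd
          obtain ⟨x, hxi, hxj⟩ := hd
          have hn : ∀ (x : π) (i j : ι), 0 ≤
              (if i ≠ j then (if x ∈ t i ∧ x ∈ t j then ∏ h, f (t h) else 0) else (0 : ℝ)) := by
            intro x i j
            split_ifs <;> first | exact hpos t | exact le_refl _
          calc ∏ h, f (t h)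
              = (if i ≠ j then (if x ∈ t i ∧ x ∈ t j then ∏ h, f (t h) else 0) else 0) := by
                rw [if_pos hij, if_pos ⟨hxi, hxj⟩]
            _ ≤ ∑ j : ι, (if i ≠ j then (if x ∈ t i ∧ x ∈ t j then ∏ h, f (t h) else 0) else 0) :=
                Finset.single_le_sum
                  (f := fun j => (if i ≠ j then (if x ∈ t i ∧ x ∈ t j then ∏ h, f (t h) else 0) else 0))
                  (fun j _ => hn x i j) (Finset.mem_univ j)
            _ ≤ ∑ i : ι, ∑ j : ι,
                  (if i ≠ j then (if x ∈ t i ∧ x ∈ t j then ∏ h, f (t h) else 0) else 0) :=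
                Finset.single_le_sum
                  (f := fun i => ∑ j : ι,
                    (if i ≠ j then (if x ∈ t i ∧ x ∈ t j then ∏ h, f (t h) else 0) else 0))
                  (fun i _ => Finset.sum_nonneg fun j _ => hn x i j) (Finset.mem_univ i)
            _ ≤ _ :=
                Finset.single_le_sum
                  (f := fun x => ∑ i : ι, ∑ j : ι,
                    (if i ≠ j then (if x ∈ t i ∧ x ∈ t j then ∏ h, f (t h) else 0) else 0))
                  (fun x _ => Finset.sum_nonneg fun i _ => Finset.sum_nonneg fun j _ => hn x i j)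
                  (Finset.mem_univ x)
      _ ≤ ∑ t : ι → Finset π, ∑ x : π, ∑ i : ι, ∑ j : ι,
              (if i ≠ j then (if x ∈ t i ∧ x ∈ t j then ∏ h, f (t h) else 0) else 0) := by
          refine Finset.sum_le_sum_of_subset_of_nonneg (Finset.filter_subset _ _) fun t _ _ => ?_
          refine Finset.sum_nonneg fun x _ => Finset.sum_nonneg fun i _ =>
            Finset.sum_nonneg fun j _ => ?_
          split_ifs <;> first | exact hpos t | exact le_refl _
      _ = ∑ x : π, ∑ i : ι, ∑ j : ι, ∑ t : ι → Finset π,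
              (if i ≠ j then (if x ∈ t i ∧ x ∈ t j then ∏ h, f (t h) else 0) else 0) := by
          rw [Finset.sum_comm]
          refine Finset.sum_congr rfl fun x _ => ?_
          rw [Finset.sum_comm]
          refine Finset.sum_congr rfl fun i _ => ?_
          rw [Finset.sum_comm]
      _ ≤ ∑ x : π, ∑ _i : ι, ∑ _j : ι,
            (∑ T, if x ∈ T then f T else 0) ^ 2 * F ^ Fintype.card ι := by
          refine Finset.sum_le_sum fun x _ => Finset.sum_le_sum fun i _ =>
            Finset.sum_le_sum fun j _ => ?_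
          by_cases hij : i ≠ j
          · simp only [if_pos hij]
            exact NCO_pair f hf hF x i j hij
          · simp only [if_neg hij, Finset.sum_const_zero]
            positivity
      _ = F ^ Fintype.card ι * (k ^ 2 * ∑ x, (∑ T, if x ∈ T then f T else 0) ^ 2) := by
          simp only [Finset.sum_const, Finset.card_univ, nsmul_eq_mul]
          rw [Finset.mul_sum, Finset.mul_sum]
          refine Finset.sum_congr rfl fun x _ => ?_
          rw [hk]; ring
  have h3 : ∑ t ∈ Finset.univ.filter (fun t : ι → Finset π => NCO_PD t), ∏ h, f (t h) +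
      ∑ t ∈ Finset.univ.filter (fun t : ι → Finset π => ¬ NCO_PD t), ∏ h, f (t h) =
      F ^ Fintype.card ι := by
    rw [Finset.sum_filter_add_sum_filter_not, tot]
  calc F ^ Fintype.card ι * (1 - k ^ 2 * ∑ x, (∑ T, if x ∈ T then f T else 0) ^ 2)
      = F ^ Fintype.card ι -
          F ^ Fintype.card ι * (k ^ 2 * ∑ x, (∑ T, if x ∈ T then f T else 0) ^ 2) := by ring
    _ ≤ ∑ ρ : π → Option ι, ∏ h, f (fib ρ h) := by linarith

end Pool.LGP
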