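import Pool.Agent.Work.MP_b0c12c_gaps.Interface

/-! # Large gaps between primes: block NUM (helper7) -/

set_option autoImplicit false

namespace Pool.LGP

open Finset Filter

theorem NUM_pow_le (n : ℕ) (t : ℝ) (ht : 0 ≤ t) (h : 8 * (n * t) ≤ 1) : (1 + t) ^ n ≤ 8 / 7 := by
  have h1 : (1 + t) ^ n ≤ Real.exp (n * t) := by
    rw [Real.exp_nat_mul]
    refine pow_le_pow_left₀ (by linarith) ?_ n
    rw [add_comm]
    exact Real.add_one_le_exp t
  have h2 : 7 / 8 ≤ Real.exp (-(n * t)) := by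
    have := Real.add_one_le_exp (-(n * t))
    linarith
  have h3 : Real.exp (n * t) * Real.exp (-(n * t)) = 1 := by
    rw [← Real.exp_add, add_neg_cancel, Real.exp_zero]
  have h4 : 0 < Real.exp (n * t) := Real.exp_pos _
  nlinarith

theorem p_NUM : Stmt_NUM := by
  intro π ι _ _ S hS k z hz hzp ρ hρ
  have hz0 : 0 < z := by linarith
  have hk : (0 : ℝ) ≤ k := Nat.cast_nonneg k
  set t : ℝ := (k + 1) / z with ht
  have ht0 : 0 ≤ t := by positivity
  have hnt : 8 * ((act ρ : ℕ) * t) ≤ 1 := by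
    rw [ht, ← mul_div_assoc, ← mul_div_assoc, div_le_one hz0]
    linarith
  have hpow := NUM_pow_le (act ρ) t ht0 hnt
  have hP : (S.szn ρ : ℝ) = ∏ x, (S.zl x (ρ x) : ℝ) := by
    unfold Sys.szn
    push_cast
    rfl
  have hP0 : (0 : ℝ) ≤ S.szn ρ := Nat.cast_nonneg _
  have hpp : ∏ x, (1 + t) ^ al (ρ x) = (1 + t) ^ act ρ := by
    unfold act
    rw [Finset.prod_pow_eq_pow_sum]
  have key : ∀ p : ℝ, z ≤ p → p * (k / z) ≥ k ∧ p * (1 / z) ≥ 1 := by
    intro p hp
    constructor
    · rw [ge_iff_le, ← mul_div_assoc, le_div_iff₀ hz0]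
      nlinarith
    · rw [ge_iff_le, ← mul_div_assoc, le_div_iff₀ hz0]
      linarith
  have hts : t = k / z + 1 / z := by rw [ht, add_div]
  have hkz : 0 ≤ k / z := by positivity
  have h1z : 0 ≤ 1 / z := by positivity
  -- row
  have hrow : S.row k ρ ≤ S.szn ρ * (8 / 7) := by
    calc S.row k ρ = ∏ x, S.rl k x (ρ x) := rfl
      _ ≤ ∏ x, ((S.zl x (ρ x) : ℝ) * (1 + t) ^ al (ρ x)) := by
        refine Finset.prod_le_prod (fun x _ => ?_) fun x _ => ?_
        · have := hzp x
          rcases ρ x with _ | h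
          · exact zero_le_one
          · show 0 ≤ (S.pr x : ℝ) - 2 + k
            linarith
        · have h1 := hzp x
          rcases ρ x with _ | h
          · show (1 : ℝ) ≤ ((1 : ℕ) : ℝ) * (1 + t) ^ 0
            norm_num
          · show (S.pr x : ℝ) - 2 + k ≤ (S.pr x : ℝ) * (1 + t) ^ 1
            obtain ⟨h2, h3⟩ := key _ h1
            rw [pow_one, hts]
            nlinarith
      _ = S.szn ρ * (1 + t) ^ act ρ := by rw [Finset.prod_mul_distrib, hpp, hP]
      _ ≤ S.szn ρ * (8 / 7) := mul_le_mul_of_nonneg_left hpow hP0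
  have hez : S.ez ρ ≤ S.szn ρ * (8 / 7) := by
    calc S.ez ρ = ∏ x, S.el x (ρ x) := rfl
      _ ≤ ∏ x, ((S.zl x (ρ x) : ℝ) * (1 + t) ^ al (ρ x)) := by
        refine Finset.prod_le_prod (fun x _ => ?_) fun x _ => ?_
        · have := hzp x
          rcases ρ x with _ | h
          · exact zero_le_one
          · show 0 ≤ (S.pr x : ℝ) + 1
            linarith
        · have h1 := hzp x
          rcases ρ x with _ | h
          · show (1 : ℝ) ≤ ((1 : ℕ) : ℝ) * (1 + t) ^ 0
            norm_num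
          · show (S.pr x : ℝ) + 1 ≤ (S.pr x : ℝ) * (1 + t) ^ 1
            obtain ⟨h2, h3⟩ := key _ h1
            rw [pow_one, hts]
            nlinarith
      _ = S.szn ρ * (1 + t) ^ act ρ := by rw [Finset.prod_mul_distrib, hpp, hP]
      _ ≤ S.szn ρ * (8 / 7) := mul_le_mul_of_nonneg_left hpow hP0
  have hz1 : 1 / z ≤ 1 := by
    rw [div_le_one hz0]; linarith
  have hG : S.szn ρ * (7 / 8) ≤ S.Gm ρ ρ := by
    calc S.szn ρ * (7 / 8) ≤ S.szn ρ * (1 + -(1 / z)) ^ act ρ := by
          refine mul_le_mul_of_nonneg_left ?_ hP0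
          have h1 := one_add_mul_le_pow (a := -(1 / z)) (by linarith) (act ρ)
          have h2 : (act ρ : ℝ) * (1 / z) ≤ (act ρ : ℝ) * t :=
            mul_le_mul_of_nonneg_left (by rw [hts]; linarith) (Nat.cast_nonneg _)
          nlinarith
      _ = ∏ x, ((S.zl x (ρ x) : ℝ) * (1 + -(1 / z)) ^ al (ρ x)) := by
          rw [Finset.prod_mul_distrib, Finset.prod_pow_eq_pow_sum, hP]
          rfl
      _ ≤ ∏ x, S.gl x (ρ x) (ρ x) := by
        refine Finset.prod_le_prod (fun x _ => ?_) fun x _ => ?_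
        · exact mul_nonneg (Nat.cast_nonneg _) (pow_nonneg (by linarith) _)
        · have h1 := hzp x
          rcases ρ x with _ | h
          · show ((1 : ℕ) : ℝ) * (1 + -(1 / z)) ^ 0 ≤ 1
            norm_num
          · show (S.pr x : ℝ) * (1 + -(1 / z)) ^ 1 ≤ if h = h then (S.pr x : ℝ) - 1 else -1
            obtain ⟨h2, h3⟩ := key _ h1
            rw [if_pos rfl, pow_one]
            nlinarith
      _ = S.Gm ρ ρ := rfl
  refine ⟨?_, ?_, ?_⟩
  · linarith
  · linarith
  · linarith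

end Pool.LGP
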