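import Pool.Agent.Work.MP_b0c12c_gaps.Interface

/-! # Block PEZ: pushing forward does not increase the error weight -/

set_option autoImplicit false

namespace Pool.LGP

open Finset

theorem PEZ_el_nonneg {π ι : Type} (S : Sys π ι) (x : π) (o : Option ι) : 0 ≤ S.el x o := by
  cases o with
  | none => simp [Sys.el]
  | some h => simp only [Sys.el]; positivity

theorem PEZ_ez_er {π ι : Type} [Fintype π] [DecidableEq ι] (S : Sys π ι) (m : ι)
    (ρ : π → Option ι) : S.ez (er m ρ) ≤ S.ez ρ := by
  unfold Sys.ez er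
  apply Finset.prod_le_prod
  · intro x _
    exact PEZ_el_nonneg S x _
  · intro x _
    split_ifs with h
    · rw [h]
      simp [Sys.el]
    · exact le_rfl

theorem p_PEZ : Stmt_PEZ := by
  intro π ι _ _ _ _ S a m
  have hez : ∀ ρ : π → Option ι, 0 ≤ S.ez ρ := fun ρ =>
    Finset.prod_nonneg (fun x _ => PEZ_el_nonneg S x _)
  calc ∑ σ, |push m a σ| * S.ez σ
      ≤ ∑ σ, ∑ ρ, (if er m ρ = σ then |a ρ| * S.ez σ else 0) := by
        apply Finset.sum_le_sum
        intro σ _
        unfold push
        calc |∑ ρ, if er m ρ = σ then a ρ else 0| * S.ez σ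
            ≤ (∑ ρ, |if er m ρ = σ then a ρ else 0|) * S.ez σ :=
              mul_le_mul_of_nonneg_right (Finset.abs_sum_le_sum_abs _ _) (hez σ)
          _ = ∑ ρ, (if er m ρ = σ then |a ρ| * S.ez σ else 0) := by
              rw [Finset.sum_mul]
              apply Finset.sum_congr rfl
              intro ρ _
              split_ifs <;> simp
    _ = ∑ ρ, ∑ σ, (if er m ρ = σ then |a ρ| * S.ez σ else 0) := Finset.sum_comm
    _ = ∑ ρ, |a ρ| * S.ez (er m ρ) := by
        apply Finset.sum_congr rfl
        intro ρ _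
        simp
    _ ≤ ∑ ρ, |a ρ| * S.ez ρ :=
        Finset.sum_le_sum (fun ρ _ => mul_le_mul_of_nonneg_left (PEZ_ez_er S m ρ) (abs_nonneg _))

end Pool.LGP
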