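import Pool.Agent.Work.MP_b0c12c_gaps.Interface
import Pool.Agent.Work.MP_b0c12c_nt_helper41.Mert

/-! # Block PRD (helper86): Mertens product up to constants -/

set_option autoImplicit false

namespace Pool.LGP

open Finset

theorem p_PRD : Stmt_PRD := by
  obtain ⟨C0, hC0, hM⟩ := Pool.Agent.Work.MP_b0c12c_nt_helper41.mertens2
  have hl2 : 0 < Real.log 2 := Real.log_pos (by norm_num)
  refine ⟨Real.exp (-(C0 / Real.log 2) - 1), Real.exp (C0 / Real.log 2), Real.exp_pos _,
    Real.exp_pos _, ?_⟩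
  intro z R hz hzR
  have hz2 : (2 : ℝ) ≤ z := by exact_mod_cast hz
  have hz0 : (0 : ℝ) < z := by linarith
  have hR2 : (2 : ℝ) ≤ R := by exact_mod_cast hz.trans hzR
  have hlz : 0 < Real.log z := Real.log_pos (by linarith)
  have hlR : 0 < Real.log R := Real.log_pos (by linarith)
  have hl2z : Real.log 2 ≤ Real.log z := Real.log_le_log (by norm_num) hz2
  have hq : 0 < Real.log R / Real.log z := div_pos hlR hlz
  have hmz := hM z R hz hzR
  set Sp : ℝ := ∑ p ∈ (Ioc z R).filter Nat.Prime, 1 / (p : ℝ) with hSp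
  have hCz : C0 / Real.log z ≤ C0 / Real.log 2 := by
    exact div_le_div_of_nonneg_left hC0.le hl2 hl2z
  have hlog : Real.log (Real.log R / Real.log z) =
      Real.log (Real.log R) - Real.log (Real.log z) := Real.log_div hlR.ne' hlz.ne'
  rw [← hlog] at hmz
  have habs := abs_le.mp hmz
  have hpos : ∀ p ∈ (Ioc z R).filter Nat.Prime, (0 : ℝ) < p := by
    intro p hp
    have := (mem_filter.mp hp).2.pos
    exact_mod_cast this
  constructor
  · -- lower bound
    have h1 : ∀ p ∈ (Ioc z R).filter Nat.Prime,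
        Real.exp (1 / (p : ℝ) - ((p : ℝ) ^ 2)⁻¹) ≤ 1 + 1 / (p : ℝ) := by
      intro p hp
      have hp0 := hpos p hp
      have hx : 0 < 1 / (p : ℝ) := by positivity
      have h2 := Real.one_sub_inv_le_log_of_pos (show (0 : ℝ) < 1 + 1 / (p : ℝ) by positivity)
      have h3 : 1 / (p : ℝ) - ((p : ℝ) ^ 2)⁻¹ ≤ 1 - (1 + 1 / (p : ℝ))⁻¹ := by
        have h4 : 1 - (1 + 1 / (p : ℝ))⁻¹ = 1 / ((p : ℝ) + 1) := by
          field_simp
          ring
        rw [h4]
        have h5 : 1 / (p : ℝ) - ((p : ℝ) ^ 2)⁻¹ = ((p : ℝ) - 1) / (p : ℝ) ^ 2 := by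
          field_simp
        rw [h5, div_le_div_iff₀ (by positivity) (by positivity)]
        nlinarith
      calc Real.exp (1 / (p : ℝ) - ((p : ℝ) ^ 2)⁻¹)
          ≤ Real.exp (Real.log (1 + 1 / (p : ℝ))) := Real.exp_le_exp.mpr (h3.trans h2)
        _ = 1 + 1 / (p : ℝ) := Real.exp_log (by positivity)
    have hsq : ∑ p ∈ (Ioc z R).filter Nat.Prime, ((p : ℝ) ^ 2)⁻¹ ≤ 1 := by
      have h6 : ∑ p ∈ (Ioc z R).filter Nat.Prime, ((p : ℝ) ^ 2)⁻¹ ≤
          ∑ p ∈ Ioc z R, ((p : ℝ) ^ 2)⁻¹ :=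
        sum_le_sum_of_subset_of_nonneg (filter_subset _ _) (fun _ _ _ => by positivity)
      have h7 := sum_Ioc_inv_sq_le_sub (α := ℝ) (k := z) (n := R) (by omega) hzR
      have h8 : (z : ℝ)⁻¹ ≤ 1 := by
        rw [inv_le_one₀ hz0]; linarith
      have h9 : 0 ≤ (R : ℝ)⁻¹ := by positivity
      linarith
    have hprod : Real.exp (∑ p ∈ (Ioc z R).filter Nat.Prime, (1 / (p : ℝ) - ((p : ℝ) ^ 2)⁻¹)) ≤
        ∏ p ∈ (Ioc z R).filter Nat.Prime, (1 + 1 / (p : ℝ)) := by
      rw [Real.exp_sum]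
      exact prod_le_prod (fun _ _ => (Real.exp_pos _).le) h1
    refine le_trans ?_ hprod
    rw [sum_sub_distrib, ← hSp]
    have h10 : Real.exp (-(C0 / Real.log 2) - 1) * (Real.log R / Real.log z) =
        Real.exp (-(C0 / Real.log 2) - 1 + Real.log (Real.log R / Real.log z)) := by
      rw [Real.exp_add, Real.exp_log hq]
    rw [h10]
    apply Real.exp_le_exp.mpr
    linarith [habs.1]
  · -- upper bound
    have h1 : ∏ p ∈ (Ioc z R).filter Nat.Prime, (1 + 1 / (p : ℝ)) ≤ Real.exp Sp := by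
      rw [hSp, Real.exp_sum]
      apply prod_le_prod
      · intro p hp
        have := hpos p hp
        positivity
      · intro p _
        rw [add_comm]
        exact Real.add_one_le_exp _
    refine h1.trans ?_
    have h10 : Real.exp (C0 / Real.log 2) * (Real.log R / Real.log z) =
        Real.exp (C0 / Real.log 2 + Real.log (Real.log R / Real.log z)) := by
      rw [Real.exp_add, Real.exp_log hq]
    rw [h10]
    apply Real.exp_le_exp.mpr
    linarith [habs.2]

end Pool.LGP
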