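import Pool.Agent.Work.MP_b0c12c_gaps.Interface
import Pool.Agent.Work.MP_b0c12c_nt_helper41.Mert

/-! Block PSM (helper29): primes between the fourth root and the square root. -/

set_option autoImplicit false

namespace Pool.LGP

open Finset

theorem p_PSM : Stmt_PSM := by
  obtain ⟨C, hC0, hC⟩ := Pool.Agent.Work.MP_b0c12c_nt_helper41.mertens2
  refine ⟨Real.exp (80 + 80 * C), fun R hR => ?_⟩
  have hR0 : 0 < R := lt_of_lt_of_le (Real.exp_pos _) hR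
  have hl : 80 + 80 * C ≤ Real.log R := by
    rw [Real.le_log_iff_exp_le hR0]; exact hR
  have hR1 : 1 ≤ R := le_trans (Real.one_le_exp (by positivity)) hR
  set l := Real.log R with hl0
  set U := R ^ (1 / 4 : ℝ) with hU
  set V := R ^ (1 / 2 : ℝ) with hV
  have hUpos : 0 < U := Real.rpow_pos_of_pos hR0 _
  have hVpos : 0 < V := Real.rpow_pos_of_pos hR0 _
  have hUlog : Real.log U = l / 4 := by rw [hU, Real.log_rpow hR0]; ring
  have hVlog : Real.log V = l / 2 := by rw [hV, Real.log_rpow hR0]; ring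
  have hU4 : 4 ≤ U := by
    have h1 : (20 : ℝ) ≤ Real.log U := by rw [hUlog]; linarith
    have h2 : Real.exp 20 ≤ U := by rwa [Real.le_log_iff_exp_le hUpos] at h1
    have h3 : (20 : ℝ) + 1 ≤ Real.exp 20 := Real.add_one_le_exp 20
    linarith
  have hUV : U ≤ V := Real.rpow_le_rpow_of_exponent_le hR1 (by norm_num)
  have hu1 : U / 2 ≤ ((⌊U⌋₊ : ℕ) : ℝ) := by
    have := Nat.lt_floor_add_one U
    linarith
  have hu2 : ((⌊U⌋₊ : ℕ) : ℝ) ≤ U := Nat.floor_le hUpos.le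
  have hv1 : V / 2 ≤ ((⌊V⌋₊ : ℕ) : ℝ) := by
    have := Nat.lt_floor_add_one V
    linarith
  have huv : ⌊U⌋₊ ≤ ⌊V⌋₊ := Nat.floor_le_floor hUV
  have h2u : 2 ≤ ⌊U⌋₊ := Nat.le_floor (by push_cast; linarith)
  have hmer := hC ⌊U⌋₊ ⌊V⌋₊ h2u huv
  have l2a := Real.log_two_lt_d9
  have l2b := Real.log_two_gt_d9
  have lu1 : l / 8 ≤ Real.log ((⌊U⌋₊ : ℕ) : ℝ) := by
    calc l / 8 ≤ l / 4 - Real.log 2 := by linarith
      _ = Real.log (U / 2) := by rw [Real.log_div hUpos.ne' (by norm_num), hUlog]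
      _ ≤ _ := Real.log_le_log (by positivity) hu1
  have hu0 : (0 : ℝ) < ((⌊U⌋₊ : ℕ) : ℝ) := by linarith
  have lu2 : Real.log ((⌊U⌋₊ : ℕ) : ℝ) ≤ l / 4 := by
    rw [← hUlog]; exact Real.log_le_log hu0 hu2
  have lv : l / 2 - Real.log 2 ≤ Real.log ((⌊V⌋₊ : ℕ) : ℝ) := by
    rw [← hVlog, ← Real.log_div hVpos.ne' (by norm_num)]
    exact Real.log_le_log (by positivity) hv1
  have hlu0 : 0 < Real.log ((⌊U⌋₊ : ℕ) : ℝ) := by linarith
  have h19 : (0.64 : ℝ) ≤ Real.log 1.9 := by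
    have e : Real.log 1.9 = Real.log 2 + Real.log 0.95 := by
      rw [← Real.log_mul (by norm_num) (by norm_num)]; norm_num
    have e2 := Real.one_sub_inv_le_log_of_pos (show (0 : ℝ) < 0.95 by norm_num)
    have e3 : (-0.053 : ℝ) ≤ 1 - (0.95 : ℝ)⁻¹ := by norm_num
    rw [e]; linarith
  have hdiff : (0.64 : ℝ) ≤ Real.log (Real.log ((⌊V⌋₊ : ℕ) : ℝ)) -
      Real.log (Real.log ((⌊U⌋₊ : ℕ) : ℝ)) := by
    have e : Real.log (1.9 * Real.log ((⌊U⌋₊ : ℕ) : ℝ)) ≤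
        Real.log (Real.log ((⌊V⌋₊ : ℕ) : ℝ)) :=
      Real.log_le_log (by positivity) (by linarith)
    rw [Real.log_mul (by norm_num) hlu0.ne'] at e
    linarith
  have hCl : C / Real.log ((⌊U⌋₊ : ℕ) : ℝ) ≤ 0.1 := by
    rw [div_le_iff₀ hlu0]; linarith
  rw [abs_le] at hmer
  linarith [hmer.1]

end Pool.LGP
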