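import Pool.Agent.Work.MP_b0c12c_gaps.Interface

/-! Block QLO (helper50). -/

set_option autoImplicit false

namespace Pool.LGP

open Finset Filter

theorem QLO_aa {π ι : Type} [Fintype π] [DecidableEq π] [Fintype ι] [DecidableEq ι]
    (hW : Stmt_WTF) (S : Sys π ι) (u : Finset π → ℝ) (D : ℝ) (ρ : π → Option ι) :
    S.aa u D ρ ^ 2 * S.szn ρ = (∏ h, S.qq u (fib ρ h)) -
      (open Classical in if D < S.szn ρ then ∏ h, S.qq u (fib ρ h) else 0) := by
  classical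
  have h2 := (hW π ι S ρ).2 u
  unfold Sys.aa
  by_cases h : (S.szn ρ : ℝ) ≤ D
  · rw [if_pos h, if_neg (not_lt.mpr h), h2]; ring
  · rw [if_neg h, if_pos (not_le.mp h)]; ring

theorem QLO_sq {π : Type} [Fintype π] (f : π → ℕ) (hf : Function.Injective f) (z : ℝ)
    (hz : 3 ≤ z) (hfz : ∀ x, z ≤ f x) : ∑ x, (1 / (f x : ℝ)) ^ 2 ≤ 2 / z := by
  classical
  obtain ⟨k, hk⟩ : ∃ k : ℕ, ⌈z⌉₊ = k + 1 := by
    have : 0 < ⌈z⌉₊ := Nat.ceil_pos.mpr (by linarith)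
    exact ⟨⌈z⌉₊ - 1, by omega⟩
  have hk2 : z ≤ (k : ℝ) + 1 := by
    have := Nat.le_ceil z
    rw [hk] at this
    push_cast at this
    exact this
  have hk3 : (0 : ℝ) < k := by linarith
  have hk0 : k ≠ 0 := by
    intro h; rw [h] at hk3; simp at hk3
  set n := k + ∑ x, f x with hn
  have himg : (univ.image f) ⊆ Ioc k n := by
    intro m hm
    rw [mem_image] at hm
    obtain ⟨x, _, rfl⟩ := hm
    rw [mem_Ioc]
    constructor
    · have h1 : ⌈z⌉₊ ≤ f x := Nat.ceil_le.mpr (hfz x)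
      omega
    · have := Finset.single_le_sum (f := f) (fun i _ => Nat.zero_le _) (mem_univ x)
      omega
  have h1 : ∑ x, (1 / (f x : ℝ)) ^ 2 = ∑ m ∈ univ.image f, ((m : ℝ) ^ 2)⁻¹ := by
    rw [Finset.sum_image (fun a _ b _ h => hf h)]
    refine Finset.sum_congr rfl fun x _ => ?_
    rw [one_div, inv_pow]
  rw [h1]
  calc ∑ m ∈ univ.image f, ((m : ℝ) ^ 2)⁻¹ ≤ ∑ m ∈ Ioc k n, ((m : ℝ) ^ 2)⁻¹ :=
        Finset.sum_le_sum_of_subset_of_nonneg himg (fun i _ _ => by positivity)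
    _ ≤ (k : ℝ)⁻¹ - (n : ℝ)⁻¹ := sum_Ioc_inv_sq_le_sub hk0 (by omega)
    _ ≤ (k : ℝ)⁻¹ := by
        have : (0 : ℝ) ≤ (n : ℝ)⁻¹ := by positivity
        linarith
    _ ≤ 2 / z := by
        rw [inv_eq_one_div, div_le_div_iff₀ hk3 (by linarith)]
        linarith

theorem p_QLO (hN : Stmt_NCO) (hT : Stmt_TAI) (hQ : Stmt_QSM) (hW : Stmt_WTF) : Stmt_QLO := by
  intro π ι _ _ _ _ S hS u a b C K D z hU hz hpr hK hC hb hD h1 h2 h3
  classical
  have hpos : ∀ x, 0 < S.pr x := fun x => (hS.prime x).pos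
  obtain ⟨q1, q2, q3⟩ := hQ π ι S u a b C K hU hpos
  have hQ1 : S.Q1 u = ∑ T, S.qq u T := rfl
  have hnco := hN π ι (fun T => S.qq u T) q1 (by rw [← hQ1]; exact q2)
  have htai := hT π ι S u a b C K D hU hpos hb hD hC h1
  rw [← hQ1] at hnco
  set k : ℝ := (Fintype.card ι : ℝ) with hk
  set Q := S.Q1 u ^ Fintype.card ι with hQd
  have hQp : 0 ≤ Q := pow_nonneg (by linarith) _
  have hsum : ∑ x, (∑ T, if x ∈ T then S.qq u T else 0) ^ 2 ≤ K ^ 2 * (2 / z) := by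
    calc ∑ x, (∑ T, if x ∈ T then S.qq u T else 0) ^ 2
        ≤ ∑ x, K ^ 2 * (1 / (S.pr x : ℝ)) ^ 2 := by
          refine Finset.sum_le_sum fun x _ => ?_
          have h4 := q3 x
          have h5 : 0 ≤ ∑ T, (if x ∈ T then S.qq u T else 0) := by
            refine Finset.sum_nonneg fun T _ => ?_
            split_ifs
            · exact q1 T
            · exact le_rfl
          calc (∑ T, if x ∈ T then S.qq u T else 0) ^ 2 ≤ (K / S.pr x) ^ 2 :=
                pow_le_pow_left₀ h5 h4 2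
            _ = K ^ 2 * (1 / (S.pr x : ℝ)) ^ 2 := by ring
      _ = K ^ 2 * ∑ x, (1 / (S.pr x : ℝ)) ^ 2 := by rw [Finset.mul_sum]
      _ ≤ K ^ 2 * (2 / z) :=
          mul_le_mul_of_nonneg_left (QLO_sq S.pr hS.inj z hz hpr) (by positivity)
  have hz0 : 0 < z := by linarith
  have hk8 : k ^ 2 * ∑ x, (∑ T, if x ∈ T then S.qq u T else 0) ^ 2 ≤ 1 / 8 := by
    calc k ^ 2 * ∑ x, (∑ T, if x ∈ T then S.qq u T else 0) ^ 2 ≤ k ^ 2 * (K ^ 2 * (2 / z)) :=
          mul_le_mul_of_nonneg_left hsum (by positivity)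
      _ = (16 * k ^ 2 * K ^ 2) / z / 8 := by ring
      _ ≤ z / z / 8 := by gcongr
      _ = 1 / 8 := by rw [div_self hz0.ne']
  have hsplit : ∑ ρ, S.aa u D ρ ^ 2 * S.szn ρ = ∑ ρ : π → Option ι, ∏ h, S.qq u (fib ρ h) -
      ∑ ρ : π → Option ι,
        (open Classical in if D < S.szn ρ then ∏ h, S.qq u (fib ρ h) else 0) := by
    rw [← Finset.sum_sub_distrib]
    exact Finset.sum_congr rfl fun ρ _ => QLO_aa hW S u D ρ
  rw [hsplit]
  have e1 : Q * (1 - 1 / 8) ≤ ∑ ρ : π → Option ι, ∏ h, S.qq u (fib ρ h) := by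
    refine le_trans ?_ hnco
    exact mul_le_mul_of_nonneg_left (by linarith) hQp
  have e2 : ∑ ρ : π → Option ι,
        (open Classical in if D < S.szn ρ then ∏ h, S.qq u (fib ρ h) else 0) ≤ 1 / 4 * Q :=
    htai.trans (mul_le_mul_of_nonneg_right h2 hQp)
  linarith

end Pool.LGP
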