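import Pool.Agent.Work.MP_b0c12c_gaps.Interface

set_option autoImplicit false

namespace Pool.LGP

open Finset Filter

theorem p_QSM : Stmt_QSM := by
  intro π ι _ _ S u a b C K hu hpr
  have hw : ∀ T : Finset π, 0 ≤ S.wt T := fun T => Finset.prod_nonneg fun x _ => Nat.cast_nonneg _
  have hq : ∀ T, 0 ≤ S.qq u T := by
    intro T
    unfold Sys.qq
    split_ifs
    · norm_num
    · exact mul_nonneg (sq_nonneg _) (hw T)
  refine ⟨hq, ?_, ?_⟩
  · have h1 : S.qq u ∅ = 1 := by unfold Sys.qq; rw [if_pos rfl]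
    have h2 : S.qq u ∅ ≤ S.Q1 u :=
      Finset.single_le_sum (f := fun T => S.qq u T) (fun T _ => hq T) (Finset.mem_univ ∅)
    rwa [h1] at h2
  · intro x
    refine le_trans (Finset.sum_le_sum fun T _ => ?_) (hu.div x)
    split_ifs with hx
    · have hT : T ≠ ∅ := by rintro rfl; simp at hx
      unfold Sys.qq
      rw [if_neg hT]
      have h3 := mul_le_mul_of_nonneg_left (hu.le_one T) (hu.nonneg T)
      calc u T ^ 2 * S.wt T = u T * (u T * S.wt T) := by ring
        _ ≤ u T * 1 := h3
        _ = u T := mul_one _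
    · exact le_rfl

end Pool.LGP
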