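import Pool.Agent.Work.MP_b0c12c_gaps.Interface

/-! Block RGH (helper29): erasing a label. -/

set_option autoImplicit false

namespace Pool.LGP

open Finset

theorem p_RGH : Stmt_RGH := by
  intro π ι _ _ _ _ S a m y h
  have key : ∀ ρ : π → Option ι, S.psi ρ y = S.psi (er m ρ) y := by
    intro ρ
    unfold Sys.psi
    refine Finset.prod_congr rfl fun x _ => ?_
    unfold er
    by_cases hx : ρ x = some m
    · rw [if_pos hx, hx]
      simp [Sys.loc, h x]
    · rw [if_neg hx]
  unfold push
  simp only [Finset.sum_mul]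
  rw [Finset.sum_comm]
  refine Finset.sum_congr rfl fun ρ _ => ?_
  rw [key ρ]
  simp [ite_mul]

end Pool.LGP
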