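import Pool.Agent.Work.MP_b0c12c_gaps.Interface

set_option autoImplicit false

namespace Pool.LGP

open Finset Filter

theorem ROW_local {π ι : Type} [Fintype ι] [DecidableEq ι] (S : Sys π ι) (x : π)
    (hp : (S.pr x).Prime) (o : Option ι) :
    ∑ o' : Option ι, |S.gl x o o'| = S.rl (Fintype.card ι) x o := by
  rw [Fintype.sum_option]
  cases o with
  | none => simp [Sys.gl, Sys.rl]
  | some h =>
    have hp1 : (1 : ℝ) ≤ (S.pr x : ℝ) := by exact_mod_cast hp.one_lt.le
    have h0 : |S.gl x (some h) none| = 0 := by simp [Sys.gl]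
    have h1 : ∀ h' : ι, |S.gl x (some h) (some h')| =
        1 + if h = h' then (S.pr x : ℝ) - 2 else 0 := by
      intro h'
      show |if h = h' then (S.pr x : ℝ) - 1 else -1| = _
      split_ifs
      · rw [abs_of_nonneg (by linarith)]; ring
      · simp
    rw [h0]
    simp only [h1]
    rw [Finset.sum_add_distrib, Finset.sum_const, Finset.card_univ, nsmul_eq_mul,
      Finset.sum_ite_eq]
    simp only [Finset.mem_univ, if_true, Sys.rl]
    ring

theorem p_ROW : Stmt_ROW := by
  intro π ι _ _ _ _ S hS ρ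
  have h1 : ∀ σ : π → Option ι, |S.Gm ρ σ| = ∏ x, |S.gl x (ρ x) (σ x)| := fun σ =>
    Finset.abs_prod _ _
  simp only [h1]
  have h2 := Finset.prod_univ_sum (fun _ : π => (Finset.univ : Finset (Option ι)))
    (fun x o => |S.gl x (ρ x) o|)
  rw [Fintype.piFinset_univ] at h2
  rw [← h2]
  exact Finset.prod_congr rfl fun x _ => ROW_local S x (hS.prime x) (ρ x)

end Pool.LGP
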