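import Pool.Agent.Work.MP_b0c12c_gaps.Interface

/-! # Block SC (helper4): kappa L prescribed shifts can be made composite -/

set_option autoImplicit false

namespace Pool.LGP

open Finset

theorem SC_a1 (L : ℝ) (h : 3 ≤ L) : 9 ≤ L ^ 2 := by nlinarith

theorem SC_a2 (L : ℝ) (h : 3 ≤ L) : L ^ 2 ≤ L ^ 3 := by nlinarith [sq_nonneg L]

theorem SC_a3 (c κ L : ℝ) (h : c ≤ κ * L) (hL : 0 < L) :
    8 * (L / 4) * (c + 1) ≤ 2 * L * (κ * L + 1) := by
  nlinarith [mul_le_mul_of_nonneg_left h hL.le]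

theorem SC_a4 (κ L : ℝ) (h : 3 ≤ L) (h3 : 2 * κ + 2 ≤ L) : 2 * L * (κ * L + 1) ≤ L ^ 3 := by
  nlinarith [mul_le_mul_of_nonneg_left h3 (sq_nonneg L)]

theorem SC_a5 (κ K L : ℝ) (h : 16 * κ ^ 2 * K ^ 2 ≤ L) : 16 * (κ * L) ^ 2 * K ^ 2 ≤ L ^ 3 := by
  nlinarith [mul_le_mul_of_nonneg_left h (sq_nonneg L)]

theorem SC_a6 (κ K L : ℝ) (h : 3 ≤ L) (h5 : 32 * κ * (K ^ 2 / 16 + 3) ≤ L) :
    κ * (K ^ 2 / 16 + 3) ≤ 1 / 32 * L ^ 3 := by
  nlinarith [SC_a2 L h, sq_nonneg L]

theorem SC_a7 (e : ℝ) (h0 : 0 < e) (h : e < 2.7182818286) : e ^ 2 < 8 := by nlinarith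

theorem SC_a8 (κ L : ℝ) (h0 : 0 < κ) (h : 3 ≤ L) (h11 : 60000 * (κ + 1) * L ≤ L * L) :
    8 * (κ * L + 1) * 32 < 0.0045125 * L ^ 2 := by
  nlinarith [mul_pos h0 (show 0 < L by linarith)]

theorem p_SC (h1 : Stmt_CORE) (h2 : Stmt_UEX) (h3 : Stmt_TRF) : Stmt_SC := by
  obtain ⟨C, K, L1, hC, hK, hU⟩ := h2
  have he := Real.exp_pos 1
  have he2 : Real.exp 1 < 2.7182818286 := Real.exp_one_lt_d9
  have hE : (0 : ℝ) < Real.exp 2 := Real.exp_pos 2
  have hE2 : Real.exp 2 = Real.exp 1 ^ 2 := by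
    rw [← Real.exp_nat_mul]; norm_num
  set κ : ℝ := 1 / (20 * Real.exp 2 * C) with hκ
  have hκ0 : 0 < κ := by rw [hκ]; positivity
  have hK0 : 0 < K := by linarith
  refine ⟨κ, |L1| + 3 + (2 * κ + 2) + 16 * κ ^ 2 * K ^ 2 + 32 * κ * (K ^ 2 / 16 + 3) +
    (6000000 * K ^ 3 * κ) ^ 2 + 60000 * (κ + 1), hκ0, ?_⟩
  intro L W v Y H hL hW hH hcard hY
  have t0 : L1 ≤ |L1| := le_abs_self L1
  have t00 : 0 ≤ |L1| := abs_nonneg L1
  have t1 : 0 ≤ 16 * κ ^ 2 * K ^ 2 := by positivity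
  have t2 : 0 ≤ 32 * κ * (K ^ 2 / 16 + 3) := by positivity
  have t3 : 0 ≤ (6000000 * K ^ 3 * κ) ^ 2 := by positivity
  have t4 : 0 ≤ 60000 * (κ + 1) := by positivity
  have t5 : 0 ≤ 2 * κ + 2 := by positivity
  have l1 : L1 ≤ L := by linarith
  have l2 : 3 ≤ L := by linarith
  have l3 : 2 * κ + 2 ≤ L := by linarith
  have l4 : 16 * κ ^ 2 * K ^ 2 ≤ L := by linarith
  have l5 : 32 * κ * (K ^ 2 / 16 + 3) ≤ L := by linarith
  have l6 : (6000000 * K ^ 3 * κ) ^ 2 ≤ L := by linarith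
  have l7 : 60000 * (κ + 1) ≤ L := by linarith
  clear t0 t00 t1 t2 t3 t4 t5 hL
  have hL0 : 0 < L := by linarith
  have hlog1 : 1 ≤ Real.log L := by
    rw [Real.le_log_iff_exp_le hL0]; linarith
  have hlog0 : 0 < Real.log L := by linarith
  set b : ℝ := Real.exp (L / (100 * Real.log L)) with hb
  set D : ℝ := Real.exp (L / 4) with hD
  have hlb : Real.log b = L / (100 * Real.log L) := by rw [hb, Real.log_exp]
  have hlD : Real.log D = L / 4 := by rw [hD, Real.log_exp]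
  have hlb0 : 0 < L / (100 * Real.log L) := by positivity
  have hlb1 : L / (100 * Real.log L) ≤ L / 100 := by
    apply div_le_div_of_nonneg_left hL0.le (by norm_num)
    linarith
  have hlDb : Real.log (D / b) = L / 4 - L / (100 * Real.log L) := by
    rw [Real.log_div (Real.exp_pos _).ne' (Real.exp_pos _).ne', hlb, hlD]
  have hb1 : 1 < b := by rw [hb]; exact Real.one_lt_exp_iff.2 hlb0
  have hbD : b ≤ D := by
    rw [hb, hD]; apply Real.exp_le_exp.2; linarith
  have hk0 : (0 : ℝ) ≤ H.card := Nat.cast_nonneg _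
  have hL2 : 9 ≤ L ^ 2 := SC_a1 L l2
  have hL3 : L ^ 2 ≤ L ^ 3 := SC_a2 L l2
  -- the primes
  set P : Finset ℕ := (Finset.range (⌊b⌋₊ + 1)).filter (fun p => p.Prime ∧ ⌈L ^ 3⌉₊ < p) with hP
  have hPmem : ∀ p : ℕ, p ∈ P ↔ p.Prime ∧ ⌈L ^ 3⌉₊ < p ∧ (p : ℝ) ≤ b := by
    intro p
    rw [hP, Finset.mem_filter, Finset.mem_range]
    have hh : p < ⌊b⌋₊ + 1 ↔ (p : ℝ) ≤ b := by
      rw [Nat.lt_succ_iff, Nat.le_floor_iff (by linarith : (0 : ℝ) ≤ b)]
    rw [hh]; tauto
  have hPz : ∀ x ∈ P, L ^ 3 < (x : ℝ) := by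
    intro x hx
    have := ((hPmem x).1 hx).2.1
    exact Nat.lt_of_ceil_lt this
  obtain ⟨u, u1, u2, u3, u4, u5, u6, u7, u8⟩ := hU L l1 P hPmem
  set S : Sys P H := { pr := fun x => (x : ℕ), W := W, v := fun h => v + (h : ℕ) } with hS
  have hgood : S.Good := by
    refine ⟨?_, ?_, ?_, ?_⟩
    · intro x; exact ((hPmem _).1 x.2).1
    · intro x x' hxx; exact Subtype.ext hxx
    · intro x
      have hp := ((hPmem _).1 x.2).1
      refine (Nat.Prime.coprime_iff_not_dvd hp).2 ?_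
      intro hd
      have h5 := hW _ hp hd
      have h6 := hPz _ x.2
      exact absurd h5 (not_le.2 h6)
    · intro x h h' y hne hd hd'
      have hp := ((hPmem _).1 x.2).1
      have h6 := hPz _ x.2
      have e1 : (x : ℕ) ∣ W * y + (v + (h : ℕ)) := hd
      have e2 : (x : ℕ) ∣ W * y + (v + (h' : ℕ)) := hd'
      have hv : (h : ℕ) ≠ (h' : ℕ) := fun hc => hne (Subtype.ext hc)
      have b1 := hH _ h.2
      have b2 := hH _ h'.2
      have b3 : ((h : ℕ) : ℝ) < ((x : ℕ) : ℝ) := by linarith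
      have b4 : ((h' : ℕ) : ℝ) < ((x : ℕ) : ℝ) := by linarith
      have b5 : (h : ℕ) < (x : ℕ) := by exact_mod_cast b3
      have b6 : (h' : ℕ) < (x : ℕ) := by exact_mod_cast b4
      rcases lt_or_gt_of_ne hv with hlt | hlt
      · have := Nat.dvd_sub e2 e1
        have h7 : W * y + (v + (h' : ℕ)) - (W * y + (v + (h : ℕ))) = (h' : ℕ) - h := by omega
        rw [h7] at this
        have := Nat.le_of_dvd (by omega) this
        omega
      · have := Nat.dvd_sub e1 e2
        have h7 : W * y + (v + (h : ℕ)) - (W * y + (v + (h' : ℕ))) = (h : ℕ) - h' := by omega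
        rw [h7] at this
        have := Nat.le_of_dvd (by omega) this
        omega
  have hUok : Uok S (fun T => u (T.map (Function.Embedding.subtype _)))
      (Real.exp (Real.sqrt L / K)) b C K :=
    h3 P H S (fun _ => rfl) u _ b C K u1 u2 u3 u4 u5 u6 u7 u8
  have hcardH : (Fintype.card H : ℝ) = H.card := by rw [Fintype.card_coe]
  have hsq : 0 < Real.sqrt L := Real.sqrt_pos.2 hL0
  have hexp25 : Real.exp (-(Real.log (D / b) / Real.log b)) ≤ Real.exp 1 / L ^ 4 := by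
    have e1 : Real.log (D / b) / Real.log b = 25 * Real.log L - 1 := by
      rw [hlDb, hlb]; field_simp; ring
    have e2 : Real.exp 1 / L ^ 4 = Real.exp (1 - 4 * Real.log L) := by
      rw [Real.exp_sub, mul_comm, Real.exp_mul, Real.exp_log hL0]
      congr 1
      norm_cast
    rw [e1, e2]
    apply Real.exp_le_exp.2; linarith
  have hmain := h1 P H S hgood (fun T => u (T.map (Function.Embedding.subtype _)))
    (Real.exp (Real.sqrt L / K)) b C K D (L ^ 3) (1 / 100) Y hUok (by linarith)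
    (fun x => (hPz _ x.2).le) hK0.le hC.le (by norm_num)
    (Real.one_le_exp (by positivity)) hb1 hbD
    (by
      rw [hcardH, hlD]
      have : 8 * (L / 4) * ((H.card : ℝ) + 1) ≤ 2 * L * (κ * L + 1) := SC_a3 _ _ _ hcard hL0
      refine this.trans ?_
      exact SC_a4 _ _ l2 l3)
    (by
      rw [hcardH]
      have h5 : (H.card : ℝ) ^ 2 ≤ (κ * L) ^ 2 := pow_le_pow_left₀ hk0 hcard 2
      have h6 : 16 * (H.card : ℝ) ^ 2 * K ^ 2 ≤ 16 * (κ * L) ^ 2 * K ^ 2 := by
        apply mul_le_mul_of_nonneg_right _ (by positivity)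
        linarith
      refine h6.trans ?_
      exact SC_a5 _ _ _ l4)
    (by
      rw [hcardH, hlDb]
      have h5 : (H.card : ℝ) * Real.exp 2 * C ≤ κ * L * Real.exp 2 * C := by gcongr
      have h6 : κ * L * Real.exp 2 * C = L / 20 := by
        rw [hκ]; field_simp
      rw [h6] at h5
      linarith)
    (by
      rw [hcardH, hlD]
      have h5 : (L / 4 * K / L ^ 3) ^ 2 = K ^ 2 / 16 / L ^ 4 := by field_simp; ring
      have h6 : (L / 4 * K / L ^ 3) ^ 2 + Real.exp (-(Real.log (D / b) / Real.log b)) ≤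
          (K ^ 2 / 16 + 3) / L ^ 4 := by
        rw [h5, add_div]
        have : Real.exp 1 / L ^ 4 ≤ 3 / L ^ 4 := by
          apply div_le_div_of_nonneg_right (by linarith) (by positivity)
        linarith
      calc (H.card : ℝ) * ((L / 4 * K / L ^ 3) ^ 2 +
            Real.exp (-(Real.log (D / b) / Real.log b)))
          ≤ κ * L * ((K ^ 2 / 16 + 3) / L ^ 4) := by
            apply mul_le_mul hcard h6 (by positivity) (by positivity)
        _ = κ * (K ^ 2 / 16 + 3) / L ^ 3 := by field_simp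
        _ ≤ 1 / 32 := by
            rw [div_le_iff₀ (by positivity)]
            exact SC_a6 _ _ _ l2 l5)
    (by
      rw [hcardH, ← Real.exp_mul]
      have h5 := Real.pow_div_factorial_le_exp (Real.sqrt L / K * (1 / 100)) (by positivity) 3
      refine le_trans ?_ h5
      have h6 : 6000000 * K ^ 3 * κ ≤ Real.sqrt L := Real.le_sqrt_of_sq_le l6
      have h7 : Real.sqrt L ^ 2 = L := Real.sq_sqrt hL0.le
      have h8 : (Real.sqrt L / K * (1 / 100)) ^ 3 / (Nat.factorial 3 : ℝ) =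
          L * Real.sqrt L / (6000000 * K ^ 3) := by
        rw [← h7]
        have : Nat.factorial 3 = 6 := rfl
        rw [this]
        field_simp
        push_cast
        rw [Real.sqrt_sq hsq.le]
        ring
      rw [h8, le_div_iff₀ (by positivity)]
      calc (H.card : ℝ) * (6000000 * K ^ 3) ≤ κ * L * (6000000 * K ^ 3) := by gcongr
        _ = L * (6000000 * K ^ 3 * κ) := by ring
        _ ≤ L * Real.sqrt L := by gcongr)
    (by
      rw [hcardH]
      have h5 : (2 * Real.exp 1 * D ^ ((1 : ℝ) + 1 / 100)) ^ 2 =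
          4 * Real.exp 1 ^ 2 * Real.exp (0.505 * L) := by
        have e1 : (D ^ ((1 : ℝ) + 1 / 100)) ^ 2 = Real.exp (0.505 * L) := by
          rw [hD, ← Real.exp_mul, pow_two, ← Real.exp_add]
          congr 1; ring
        rw [mul_pow, mul_pow, e1]
        norm_num
      rw [h5]
      refine lt_of_lt_of_le ?_ hY
      have h6 : Real.exp (3 / 5 * L) = Real.exp (0.095 * L) * Real.exp (0.505 * L) := by
        rw [← Real.exp_add]; congr 1; ring
      rw [h6, ← mul_assoc]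
      apply mul_lt_mul_of_pos_right _ (Real.exp_pos _)
      have h7 : Real.exp 1 ^ 2 < 8 := SC_a7 _ (Real.exp_pos 1) Real.exp_one_lt_d9
      have h8 := Real.pow_div_factorial_le_exp (0.095 * L) (by positivity) 2
      have h9 : (0.095 * L) ^ 2 / (Nat.factorial 2 : ℝ) = 0.0045125 * L ^ 2 := by
        have : Nat.factorial 2 = 2 := rfl
        rw [this]; push_cast; ring
      rw [h9] at h8
      refine lt_of_lt_of_le ?_ h8
      have h10 : 8 * ((H.card : ℝ) + 1) * (4 * Real.exp 1 ^ 2) ≤ 8 * (κ * L + 1) * 32 := by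
        apply mul_le_mul _ (by linarith) (by positivity) (by positivity)
        linarith
      refine lt_of_le_of_lt h10 ?_
      have h11 := mul_le_mul_of_nonneg_right l7 hL0.le
      exact SC_a8 _ _ hκ0 l2 h11)
  obtain ⟨y, hy, hyy⟩ := hmain
  refine ⟨y, hy, ?_⟩
  intro h hh
  obtain ⟨x, hx⟩ := hyy ⟨h, hh⟩
  refine ⟨(x : ℕ), ((hPmem _).1 x.2).1, hPz _ x.2, ((hPmem _).1 x.2).2.2, ?_⟩
  have : S.N ⟨h, hh⟩ y = W * y + v + h := by
    show W * y + (v + h) = W * y + v + h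
    ring
  rw [← this]; exact hx

end Pool.LGP
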