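import Pool.Agent.Work.MP_b0c12c_gaps.InterfaceC

/-! # Block SCE (helper54): prescribed shifts can be made composite, `Y ≥ exp (η L)` -/

set_option autoImplicit false

namespace Pool.LGP

open Finset Filter

theorem SCE_a1 (e : ℝ) (h0 : 0 < e) (h : e < 2.7182818286) : e ^ 2 < 7.5 := by nlinarith

theorem SCE_a2 (e L : ℝ) (h : e ^ 2 < 7.5) (hL : 300 ≤ L) : 32 * e ^ 2 * (L + 1) < L ^ 2 := by
  nlinarith

theorem SCE_a3 (L x a : ℝ) (hL : 300 ≤ L) (h1 : L ^ 3 < x) (h2 : x ≤ a) (h3 : a ≤ L ^ 2) :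
    False := by
  nlinarith [sq_nonneg L]

theorem SCE_a4 (L : ℝ) (hL : 300 ≤ L) : 3 ≤ L ^ 3 := by nlinarith [sq_nonneg L]

theorem SCE_a5 (L : ℝ) (hL : 300 ≤ L) : 1 * L * (L + 1) ≤ L ^ 3 := by nlinarith [sq_nonneg L]

theorem SCE_a6 (c K L : ℝ) (h : c ^ 2 ≤ L ^ 2) : 16 * c ^ 2 * K ^ 2 ≤ 16 * K ^ 2 * L ^ 2 := by
  nlinarith [mul_le_mul_of_nonneg_left h (sq_nonneg K)]

theorem SCE_a7 (t : ℝ) (h0 : 0 < t) (h : t ≤ 1) : t ^ 2 ≤ 1 := by nlinarith

theorem SCE_a8 (a K L : ℝ) (h : a ^ 2 ≤ K ^ 2) (h2 : 16 * K ^ 2 ≤ L) : a ^ 2 ≤ L := by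
  nlinarith [sq_nonneg K]

theorem SCE_a9 (a L : ℝ) (hL : 0 < L) (h : a ≤ L * L ^ 3) : a ≤ 1 * (8 * L ^ 2) ^ 2 := by
  nlinarith [pow_pos hL 4]

theorem SCE_a10 (L : ℝ) (hL : 300 ≤ L) : 4 * 32 ≤ 1 * L ^ 2 := by nlinarith

/-- The elementary inequalities for large `L`. -/
theorem SCE_large (η K : ℝ) (hη : 0 < η) (hK : 1 ≤ K) :
    ∀ᶠ L : ℝ in atTop, 300 ≤ L ∧ 16 * K ^ 2 ≤ L ∧ L ≤ Real.exp (Real.sqrt L / K) ∧
      32 * Real.exp 1 ^ 2 * (L + 1) < Real.exp (η / 2 * L) := by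
  have hK0 : 0 < K := by linarith
  have h1 : ∀ᶠ L : ℝ in atTop, 300 ≤ L := eventually_ge_atTop 300
  have h2 : ∀ᶠ L : ℝ in atTop, 16 * K ^ 2 ≤ L := eventually_ge_atTop _
  have h3 : ∀ᶠ L : ℝ in atTop, L ≤ Real.exp (Real.sqrt L / K) := by
    have h := (isLittleO_pow_exp_pos_mul_atTop (b := 1 / K) 2 (by positivity)).bound
      (c := 1) one_pos
    have h' := Real.tendsto_sqrt_atTop.eventually h
    filter_upwards [h', eventually_ge_atTop 0] with L hL h0
    rw [Real.norm_eq_abs, Real.norm_eq_abs, abs_of_nonneg (by positivity),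
      abs_of_nonneg (Real.exp_pos _).le, Real.sq_sqrt h0, one_mul] at hL
    rw [show Real.sqrt L / K = 1 / K * Real.sqrt L by ring]
    exact hL
  have h4 : ∀ᶠ L : ℝ in atTop, L ^ 2 ≤ Real.exp (η / 2 * L) := by
    have h := (isLittleO_pow_exp_pos_mul_atTop (b := η / 2) 2 (by positivity)).bound
      (c := 1) one_pos
    filter_upwards [h] with L hL
    rw [Real.norm_eq_abs, Real.norm_eq_abs, abs_of_nonneg (by positivity),
      abs_of_nonneg (Real.exp_pos _).le, one_mul] at hL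
    exact hL
  filter_upwards [h1, h2, h3, h4] with L a1 a2 a3 a4
  refine ⟨a1, a2, a3, lt_of_lt_of_le ?_ a4⟩
  have he : Real.exp 1 < 2.7182818286 := Real.exp_one_lt_d9
  have he0 : 0 < Real.exp 1 := Real.exp_pos 1
  have he2 : Real.exp 1 ^ 2 < 7.5 := SCE_a1 _ he0 he
  exact SCE_a2 _ _ he2 a1

theorem p_SCE (hT : Stmt_TRF) (hU : Stmt_UEXM) (hC : Stmt_CORE) : Stmt_SCE := by
  intro η0 hη0
  set η : ℝ := min η0 1 with hη
  have hη1 : η ≤ 1 := min_le_right _ _
  have hηη : η ≤ η0 := min_le_left _ _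
  have hηpos : 0 < η := lt_min hη0 one_pos
  set M : ℝ := 24 / η with hM
  have hM1 : 1 ≤ M := by
    rw [hM, le_div_iff₀ hηpos]; linarith
  obtain ⟨C, K, L₁, hCpos, hK1, HU⟩ := hU M hM1
  obtain ⟨L₂, HL₂⟩ := eventually_atTop.1 (SCE_large η K hηpos hK1)
  set κ : ℝ := min 1 (η / (32 * Real.exp 2 * C)) with hκ
  have he2 : 0 < Real.exp 2 := Real.exp_pos 2
  have hκpos : 0 < κ := lt_min one_pos (by positivity)
  have hκ1 : κ ≤ 1 := min_le_left _ _
  have hκ2 : κ ≤ η / (32 * Real.exp 2 * C) := min_le_right _ _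
  refine ⟨κ, max L₁ L₂, hκpos, ?_⟩
  intro L W v Y H hL hW hH hcard hY
  have hL1 : L₁ ≤ L := (le_max_left _ _).trans hL
  obtain ⟨b1, b2, b3, b4⟩ := HL₂ L ((le_max_right _ _).trans hL)
  have hL0 : 0 < L := by linarith
  have hlog1 : 1 ≤ Real.log L := by
    rw [Real.le_log_iff_exp_le hL0]
    have : Real.exp 1 < 2.7182818286 := Real.exp_one_lt_d9
    linarith
  have hlog0 : 0 < Real.log L := by linarith
  have hM0 : 0 < M := by linarith
  have hK0 : 0 < K := by linarith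
  -- the set of primes
  set P : Finset ℕ := (Icc 0 ⌊Real.exp (L / (M * Real.log L))⌋₊).filter
    (fun p => p.Prime ∧ ⌈L ^ 3⌉₊ < p) with hP
  have hPmem : ∀ p : ℕ, p ∈ P ↔ p.Prime ∧ ⌈L ^ 3⌉₊ < p ∧
      (p : ℝ) ≤ Real.exp (L / (M * Real.log L)) := by
    intro p
    simp only [hP, mem_filter, mem_Icc, zero_le, true_and]
    rw [Nat.le_floor_iff (Real.exp_pos _).le]
    tauto
  obtain ⟨u, u1, u2, u3, u4, u5, u6, u7, u8⟩ := HU L hL1 P hPmem
  let S : Sys P H := { pr := fun x => (x : ℕ), W := W, v := fun h => v + (h : ℕ) }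
  have hUok : Uok S (fun T => u (T.map (Function.Embedding.subtype _)))
      (Real.exp (Real.sqrt L / K)) (Real.exp (L / (M * Real.log L))) C K :=
    hT P H S (fun x => rfl) u _ _ C K u1 u2 u3 u4 u5 u6 u7 u8
  have hlarge : ∀ x : P, L ^ 3 < (x : ℕ) := by
    intro x
    have h1 := ((hPmem x).1 x.2).2.1
    have h2 : L ^ 3 ≤ (⌈L ^ 3⌉₊ : ℝ) := Nat.le_ceil _
    have h3 : (⌈L ^ 3⌉₊ : ℝ) < (x : ℕ) := by exact_mod_cast h1
    linarith
  have hGood : S.Good := by
    refine ⟨fun x => ((hPmem x).1 x.2).1, fun x y h => Subtype.ext h, fun x => ?_, ?_⟩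
    · have hp : (x : ℕ).Prime := ((hPmem x).1 x.2).1
      change (x : ℕ).Coprime W
      rw [Nat.Prime.coprime_iff_not_dvd hp]
      intro hd
      have := hW x hp hd
      linarith [hlarge x]
    · intro x h h' y hne hd hd'
      change (x : ℕ) ∣ W * y + (v + (h : ℕ)) at hd
      change (x : ℕ) ∣ W * y + (v + (h' : ℕ)) at hd'
      have key : ((x : ℕ) : ℤ) ∣ ((h : ℕ) : ℤ) - ((h' : ℕ) : ℤ) := by
        have e1 : ((x : ℕ) : ℤ) ∣ ((W * y + (v + (h : ℕ)) : ℕ) : ℤ) := by exact_mod_cast hd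
        have e2 : ((x : ℕ) : ℤ) ∣ ((W * y + (v + (h' : ℕ)) : ℕ) : ℤ) := by exact_mod_cast hd'
        have e3 := dvd_sub e1 e2
        have e4 : ((W * y + (v + (h : ℕ)) : ℕ) : ℤ) - ((W * y + (v + (h' : ℕ)) : ℕ) : ℤ) =
            ((h : ℕ) : ℤ) - ((h' : ℕ) : ℤ) := by push_cast; ring
        rwa [e4] at e3
      have hne' : ((h : ℕ) : ℤ) - ((h' : ℕ) : ℤ) ≠ 0 := by
        intro h0
        apply hne
        apply Subtype.ext
        have : ((h : ℕ) : ℤ) = ((h' : ℕ) : ℤ) := by linarith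
        exact_mod_cast this
      have hle := Int.le_of_dvd (abs_pos.2 hne') ((dvd_abs _ _).2 key)
      have hb : |((h : ℕ) : ℝ) - ((h' : ℕ) : ℝ)| ≤ L ^ 2 := by
        have q1 := hH h h.2
        have q2 := hH h' h'.2
        have q3 : (0 : ℝ) ≤ ((h : ℕ) : ℝ) := Nat.cast_nonneg _
        have q4 : (0 : ℝ) ≤ ((h' : ℕ) : ℝ) := Nat.cast_nonneg _
        rw [abs_le]; constructor <;> linarith
      have hle' : ((x : ℕ) : ℝ) ≤ |((h : ℕ) : ℝ) - ((h' : ℕ) : ℝ)| := by
        have := (Int.cast_le (R := ℝ)).2 hle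
        push_cast at this
        exact this
      have hx := hlarge x
      exact SCE_a3 L _ _ (by linarith) hx hle' hb
  -- the parameters
  have hcardι : (Fintype.card H : ℝ) = H.card := by simp
  have hkL : (Fintype.card H : ℝ) ≤ L := by
    rw [hcardι]
    calc (H.card : ℝ) ≤ κ * L := hcard
      _ ≤ 1 * L := by gcongr
      _ = L := one_mul _
  have hk0 : (0 : ℝ) ≤ Fintype.card H := Nat.cast_nonneg _
  set D : ℝ := Real.exp (η * L / 8) with hD
  have hlogD : Real.log D = η * L / 8 := Real.log_exp _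
  set b : ℝ := Real.exp (L / (M * Real.log L)) with hb
  have hlogb : Real.log b = L / (M * Real.log L) := Real.log_exp _
  have hbval : L / (M * Real.log L) = η * L / (24 * Real.log L) := by
    rw [hM]; field_simp
  have hbpos : 0 < L / (M * Real.log L) := by positivity
  have hble : L / (M * Real.log L) ≤ η * L / 24 := by
    rw [hbval]
    apply div_le_div_of_nonneg_left (by positivity) (by norm_num)
    linarith
  have hDb : Real.log (D / b) = η * L / 8 - L / (M * Real.log L) := by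
    rw [Real.log_div (Real.exp_pos _).ne' (Real.exp_pos _).ne', hlogD, hlogb]
  have hηL : 0 < η * L := by positivity
  have hDb16 : η * L / 16 ≤ Real.log (D / b) := by
    rw [hDb]; linarith
  have hz3 : (3 : ℝ) ≤ L ^ 3 := SCE_a4 L b1
  have hL3 : L ^ 3 = L * L * L := by ring
  obtain ⟨y, hy, Hy⟩ := hC P H S hGood _ (Real.exp (Real.sqrt L / K)) b C K D (L ^ 3) 1 Y hUok
    hz3 (fun x => (hlarge x).le) hK0.le hCpos.le one_pos (Real.one_le_exp (by positivity))
    (Real.one_lt_exp_iff.2 hbpos) (Real.exp_le_exp.2 (by linarith))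
    (by
      rw [hlogD]
      have h1 : 8 * (η * L / 8) * ((Fintype.card H : ℝ) + 1) ≤ 1 * L * (L + 1) := by
        have : 8 * (η * L / 8) = η * L := by ring
        rw [this]
        gcongr
      exact h1.trans (SCE_a5 L b1))
    (by
      have h1 : (Fintype.card H : ℝ) ^ 2 ≤ L ^ 2 := by gcongr
      have h2 : 16 * (Fintype.card H : ℝ) ^ 2 * K ^ 2 ≤ (16 * K ^ 2) * L ^ 2 := by
        exact SCE_a6 _ _ _ h1
      have h3 : (16 * K ^ 2) * L ^ 2 ≤ L * L ^ 2 := by gcongr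
      exact (h2.trans h3).trans (by rw [hL3]; linarith [show L * L ^ 2 = L * L * L by ring]))
    (by
      have h1 : (Fintype.card H : ℝ) ≤ η / (32 * Real.exp 2 * C) * L := by
        rw [hcardι]
        exact hcard.trans (by gcongr)
      have h2 : (Fintype.card H : ℝ) * Real.exp 2 * C ≤
          η / (32 * Real.exp 2 * C) * L * Real.exp 2 * C := by gcongr
      have h3 : η / (32 * Real.exp 2 * C) * L * Real.exp 2 * C = η * L / 32 := by
        field_simp
      linarith)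
    (by
      have hq : Real.log (D / b) / Real.log b = 3 * Real.log L - 1 := by
        rw [hDb, hlogb, hM]
        field_simp
        ring
      rw [hq, hlogD]
      have e1 : Real.exp (-(3 * Real.log L - 1)) = Real.exp 1 / L ^ 3 := by
        rw [show -(3 * Real.log L - 1) = 1 - 3 * Real.log L by ring, Real.exp_sub,
          show 3 * Real.log L = ((3 : ℕ) : ℝ) * Real.log L by norm_num, Real.exp_nat_mul,
          Real.exp_log hL0]
      rw [e1]
      have e2 : (η * L / 8 * K / L ^ 3) ^ 2 ≤ 1 / L ^ 3 := by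
        have : η * L / 8 * K / L ^ 3 = η * K / (8 * L ^ 2) := by field_simp
        rw [this, div_pow, div_le_div_iff₀ (by positivity) (by positivity)]
        have h1 : (η * K) ^ 2 ≤ K ^ 2 := by
          have : (η * K) ^ 2 = η ^ 2 * K ^ 2 := by ring
          rw [this]
          have : η ^ 2 ≤ 1 := SCE_a7 η hηpos hη1
          exact mul_le_of_le_one_left (sq_nonneg K) this
        have h2 : (η * K) ^ 2 ≤ L := SCE_a8 _ _ _ h1 b2
        have h3 : (η * K) ^ 2 * L ^ 3 ≤ L * L ^ 3 := by gcongr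
        exact SCE_a9 _ _ hL0 h3
      have e3 : Real.exp 1 < 2.7182818286 := Real.exp_one_lt_d9
      calc (Fintype.card H : ℝ) * ((η * L / 8 * K / L ^ 3) ^ 2 + Real.exp 1 / L ^ 3)
          ≤ L * (1 / L ^ 3 + 3 / L ^ 3) := by
            gcongr
            linarith
        _ = 4 / L ^ 2 := by field_simp; ring
        _ ≤ 1 / 32 := by
            rw [div_le_div_iff₀ (by positivity) (by norm_num)]
            exact SCE_a10 L b1)
    (by
      rw [Real.rpow_one]
      exact hkL.trans b3)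
    (by
      have h1 : D ^ ((1 : ℝ) + 1) = Real.exp (η * L / 4) := by
        rw [hD, ← Real.exp_mul]
        congr 1; ring
      rw [h1]
      have h2 : 8 * ((Fintype.card H : ℝ) + 1) * (2 * Real.exp 1 * Real.exp (η * L / 4)) ^ 2 ≤
          (32 * Real.exp 1 ^ 2 * (L + 1)) * Real.exp (η / 2 * L) := by
        have : (2 * Real.exp 1 * Real.exp (η * L / 4)) ^ 2 =
            4 * Real.exp 1 ^ 2 * Real.exp (η / 2 * L) := by
          rw [mul_pow, mul_pow, ← Real.exp_nat_mul (η * L / 4) 2]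
          norm_num
          ring
        rw [this]
        have h3 : 8 * ((Fintype.card H : ℝ) + 1) ≤ 8 * (L + 1) := by linarith
        have h4 : 0 ≤ 4 * Real.exp 1 ^ 2 * Real.exp (η / 2 * L) := by positivity
        exact (mul_le_mul_of_nonneg_right h3 h4).trans (le_of_eq (by ring))
      refine lt_of_le_of_lt h2 (lt_of_lt_of_le ?_ hY)
      calc 32 * Real.exp 1 ^ 2 * (L + 1) * Real.exp (η / 2 * L)
          < Real.exp (η / 2 * L) * Real.exp (η / 2 * L) := by
            gcongr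
        _ = Real.exp (η * L) := by rw [← Real.exp_add]; congr 1; ring
        _ ≤ Real.exp (η0 * L) := by
            apply Real.exp_le_exp.2
            gcongr)
  refine ⟨y, hy, fun h hh => ?_⟩
  obtain ⟨x, hx⟩ := Hy ⟨h, hh⟩
  refine ⟨x, ((hPmem x).1 x.2).1, ?_, ?_⟩
  · refine ((hPmem x).1 x.2).2.2.trans (Real.exp_le_exp.2 ?_)
    apply div_le_div_of_nonneg_left hL0.le hlog0
    exact le_mul_of_one_le_left hlog0.le hM1
  · change (x : ℕ) ∣ W * y + (v + h) at hx
    rwa [← add_assoc] at hx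

end Pool.LGP
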