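import Pool.Agent.Work.MP_b0c12c_gaps.Interface
import Pool.Agent.Work.MP_b0c12c_gaps.FSc

/-! # STG: the first stage of Theorem B (helper85) -/

set_option autoImplicit false

namespace Pool.LGP

open Finset Filter

theorem p_STG : Stmt_STG := by
  obtain ⟨C, hC, w₀, h⟩ := Pool.Agent.Work.MP_b0c12c_gaps.FS.first_step
  refine ⟨C, hC, eventually_atTop.2 ⟨w₀, fun w hw H hwH hH => ?_⟩⟩
  obtain ⟨v, -, S, -, hS2, hS3⟩ := h w hw H hwH hH
  refine ⟨v, fun A hA hAp => ?_⟩
  have hsub : A ⊆ S := by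
    intro x hx
    by_contra hxS
    obtain ⟨p, hp1, hp2, hp3⟩ := hS2 x (hA hx) hxS
    exact hAp x hx p hp1 hp2 hp3
  have h1 : (A.card : ℝ) ≤ S.card := by exact_mod_cast Finset.card_le_card hsub
  rw [← mul_div_assoc, ← mul_assoc]
  exact h1.trans hS3

end Pool.LGP
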