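import Pool.Agent.Work.MP_b0c12c_gaps.Interface

/-! # Block TAI: the tail (helper39) -/

set_option autoImplicit false

namespace Pool.LGP

open Finset

theorem exp_sub_one_le_mul_exp (x : ℝ) : Real.exp x - 1 ≤ x * Real.exp x := by
  have h := Real.add_one_le_exp (-x)
  have hpos := Real.exp_pos x
  have h2 : (-x + 1) * Real.exp x ≤ Real.exp (-x) * Real.exp x :=
    mul_le_mul_of_nonneg_right h hpos.le
  rw [← Real.exp_add, neg_add_cancel, Real.exp_zero] at h2
  nlinarith

theorem p_TAI (h1 : Stmt_INJ) (h2 : Stmt_WTF) (h3 : Stmt_QSM) : Stmt_TAI := by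
  intro π ι _ _ _ _ S u a b C K D hu hpr hb hD hC hk
  obtain ⟨hq0, hQ1, -⟩ := h3 π ι S u a b C K hu hpr
  have hlb : 0 < Real.log b := Real.log_pos hb
  have hlD : 0 ≤ Real.log D := Real.log_nonneg hD
  have hD0 : 0 < D := by linarith
  obtain ⟨s, hs⟩ : ∃ s : ℝ, s = 2 / Real.log b := ⟨_, rfl⟩
  have hs0 : 0 < s := by rw [hs]; positivity
  have hsb : s * Real.log b = 2 := by rw [hs]; field_simp
  have hwt1 : ∀ T, 1 ≤ S.wt T := by
    intro T
    unfold Sys.wt
    exact Finset.prod_induction (fun x => (S.pr x : ℝ)) (fun y => 1 ≤ y)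
      (fun _ _ ha hb => one_le_mul_of_one_le_of_one_le ha hb) le_rfl
      (fun x _ => by exact_mod_cast hpr x)
  have hf0 : ∀ T, 0 ≤ S.qq u T * S.wt T ^ s := fun T =>
    mul_nonneg (hq0 T) (Real.rpow_nonneg (by linarith [hwt1 T]) s)
  have hpt : ∀ ρ : π → Option ι,
      (open Classical in if D < S.szn ρ then ∏ h, S.qq u (fib ρ h) else 0) ≤
        D ^ (-s) * ∏ h, (S.qq u (fib ρ h) * S.wt (fib ρ h) ^ s) := by
    intro ρ
    have e1 := (h2 π ι S ρ).1
    have e2 : ∏ h, (S.qq u (fib ρ h) * S.wt (fib ρ h) ^ s) =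
        (∏ h, S.qq u (fib ρ h)) * (S.szn ρ : ℝ) ^ s := by
      rw [Finset.prod_mul_distrib, e1, Real.finsetProd_rpow]
      intro h _
      linarith [hwt1 (fib ρ h)]
    have hprod : 0 ≤ ∏ h, S.qq u (fib ρ h) := Finset.prod_nonneg (fun h _ => hq0 _)
    split_ifs with hlt
    · rw [e2]
      have h4 : 1 ≤ D ^ (-s) * (S.szn ρ : ℝ) ^ s := by
        rw [Real.rpow_neg hD0.le, ← div_eq_inv_mul, one_le_div (Real.rpow_pos_of_pos hD0 s)]
        exact Real.rpow_le_rpow hD0.le hlt.le hs0.le
      calc ∏ h, S.qq u (fib ρ h) = (∏ h, S.qq u (fib ρ h)) * 1 := by ring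
        _ ≤ (∏ h, S.qq u (fib ρ h)) * (D ^ (-s) * (S.szn ρ : ℝ) ^ s) :=
            mul_le_mul_of_nonneg_left h4 hprod
        _ = _ := by ring
    · exact mul_nonneg (Real.rpow_nonneg hD0.le _) (Finset.prod_nonneg (fun h _ => hf0 _))
  have hsum : ∑ T, S.qq u T * S.wt T ^ s ≤ S.Q1 u + s * Real.exp 2 * C := by
    have hterm : ∀ T, S.qq u T * S.wt T ^ s ≤
        S.qq u T + s * Real.exp 2 * (u T ^ 2 * S.wt T * Real.log (S.wt T)) := by
      intro T
      have hlw : 0 ≤ Real.log (S.wt T) := Real.log_nonneg (hwt1 T)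
      have hw0 : 0 < S.wt T := by linarith [hwt1 T]
      by_cases hT : T = ∅
      · subst hT
        simp [Sys.wt]
      · have hqq : S.qq u T = u T ^ 2 * S.wt T := by
          unfold Sys.qq
          rw [if_neg hT]
        by_cases hu0 : u T = 0
        · rw [hqq, hu0]; simp
        · have hwb : S.wt T ≤ b := hu.hi T hu0
          have hlwb : Real.log (S.wt T) ≤ Real.log b := Real.log_le_log hw0 hwb
          have hx2 : Real.log (S.wt T) * s ≤ 2 := by nlinarith
          have hpow : S.wt T ^ s = Real.exp (Real.log (S.wt T) * s) :=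
            Real.rpow_def_of_pos hw0 s
          have h5 := exp_sub_one_le_mul_exp (Real.log (S.wt T) * s)
          have h6 : Real.exp (Real.log (S.wt T) * s) ≤ Real.exp 2 := Real.exp_le_exp.mpr hx2
          have h7 : S.wt T ^ s ≤ 1 + Real.log (S.wt T) * s * Real.exp 2 := by
            rw [hpow]
            have : Real.log (S.wt T) * s * Real.exp (Real.log (S.wt T) * s) ≤
                Real.log (S.wt T) * s * Real.exp 2 :=
              mul_le_mul_of_nonneg_left h6 (by positivity)
            linarith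
          have h8 : 0 ≤ u T ^ 2 * S.wt T := by positivity
          rw [hqq]
          calc u T ^ 2 * S.wt T * S.wt T ^ s
              ≤ u T ^ 2 * S.wt T * (1 + Real.log (S.wt T) * s * Real.exp 2) :=
                mul_le_mul_of_nonneg_left h7 h8
            _ = _ := by ring
    calc ∑ T, S.qq u T * S.wt T ^ s ≤
        ∑ T, (S.qq u T + s * Real.exp 2 * (u T ^ 2 * S.wt T * Real.log (S.wt T))) :=
          Finset.sum_le_sum (fun T _ => hterm T)
      _ = S.Q1 u + s * Real.exp 2 * ∑ T, u T ^ 2 * S.wt T * Real.log (S.wt T) := by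
          rw [Finset.sum_add_distrib, ← Finset.mul_sum]
          rfl
      _ ≤ S.Q1 u + s * Real.exp 2 * C := by
          have : 0 ≤ s * Real.exp 2 := by positivity
          have := mul_le_mul_of_nonneg_left hu.cost this
          linarith
  have hQ0 : 0 ≤ S.Q1 u := by linarith
  have hsC : 0 ≤ s * Real.exp 2 * C := by positivity
  have hpow : (∑ T, S.qq u T * S.wt T ^ s) ^ Fintype.card ι ≤
      S.Q1 u ^ Fintype.card ι * Real.exp (s * (Real.log D / 2)) := by
    calc (∑ T, S.qq u T * S.wt T ^ s) ^ Fintype.card ι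
        ≤ (S.Q1 u + s * Real.exp 2 * C) ^ Fintype.card ι :=
          pow_le_pow_left₀ (Finset.sum_nonneg (fun T _ => hf0 T)) hsum _
      _ ≤ (S.Q1 u * Real.exp (s * Real.exp 2 * C)) ^ Fintype.card ι := by
          apply pow_le_pow_left₀ (by linarith)
          have h9 := Real.add_one_le_exp (s * Real.exp 2 * C)
          nlinarith
      _ = S.Q1 u ^ Fintype.card ι * Real.exp (Fintype.card ι * (s * Real.exp 2 * C)) := by
          rw [mul_pow, ← Real.exp_nat_mul]
      _ ≤ S.Q1 u ^ Fintype.card ι * Real.exp (s * (Real.log D / 2)) := by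
          apply mul_le_mul_of_nonneg_left _ (pow_nonneg hQ0 _)
          apply Real.exp_le_exp.mpr
          have := mul_le_mul_of_nonneg_left hk hs0.le
          calc (Fintype.card ι : ℝ) * (s * Real.exp 2 * C)
              = s * (Fintype.card ι * Real.exp 2 * C) := by ring
            _ ≤ _ := this
  calc ∑ ρ : π → Option ι,
        (open Classical in if D < S.szn ρ then ∏ h, S.qq u (fib ρ h) else 0)
      ≤ ∑ ρ : π → Option ι, D ^ (-s) * ∏ h, (S.qq u (fib ρ h) * S.wt (fib ρ h) ^ s) :=
        Finset.sum_le_sum (fun ρ _ => hpt ρ)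
    _ = D ^ (-s) * ∑ ρ : π → Option ι, ∏ h, (S.qq u (fib ρ h) * S.wt (fib ρ h) ^ s) := by
        rw [Finset.mul_sum]
    _ ≤ D ^ (-s) * (∑ T, S.qq u T * S.wt T ^ s) ^ Fintype.card ι :=
        mul_le_mul_of_nonneg_left (h1 π ι (fun T => S.qq u T * S.wt T ^ s) hf0)
          (Real.rpow_nonneg hD0.le _)
    _ ≤ D ^ (-s) * (S.Q1 u ^ Fintype.card ι * Real.exp (s * (Real.log D / 2))) :=
        mul_le_mul_of_nonneg_left hpow (Real.rpow_nonneg hD0.le _)
    _ = Real.exp (-(Real.log D / Real.log b)) * S.Q1 u ^ Fintype.card ι := by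
        rw [Real.rpow_def_of_pos hD0]
        have e3 : Real.exp (Real.log D * -s) * (S.Q1 u ^ Fintype.card ι *
            Real.exp (s * (Real.log D / 2))) =
            (Real.exp (Real.log D * -s) * Real.exp (s * (Real.log D / 2))) *
              S.Q1 u ^ Fintype.card ι := by ring
        rw [e3, ← Real.exp_add]
        congr 2
        rw [hs]
        field_simp
        ring

end Pool.LGP
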