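import Pool.Agent.Work.MP_b0c12c_gaps.Interface

set_option autoImplicit false

namespace Pool.LGP

open Finset Filter

theorem TRF_sum (P : Finset ℕ) (g : Finset ℕ → ℝ) :
    ∑ T : Finset P, g (T.map (Function.Embedding.subtype _)) = ∑ T ∈ P.powerset, g T := by
  refine Finset.sum_bij (fun T _ => T.map (Function.Embedding.subtype _)) ?_ ?_ ?_ ?_
  · intro T _
    rw [Finset.mem_powerset]
    intro x hx
    rw [Finset.mem_map] at hx
    obtain ⟨y, _, rfl⟩ := hx
    exact y.2
  · intro T _ T' _ h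
    exact Finset.map_injective _ h
  · intro T hT
    exact ⟨T.subtype (· ∈ P), Finset.mem_univ _,
      Finset.subtype_map_of_mem (fun x hx => Finset.mem_powerset.mp hT hx)⟩
  · intro T _
    rfl

theorem TRF_mem (P : Finset ℕ) (T : Finset P) :
    T.map (Function.Embedding.subtype _) ∈ P.powerset := by
  rw [Finset.mem_powerset]
  intro x hx
  rw [Finset.mem_map] at hx
  obtain ⟨y, _, rfl⟩ := hx
  exact y.2

theorem TRF_wt {P : Finset ℕ} {ι : Type} (S : Sys P ι) (hS : ∀ x : P, S.pr x = (x : ℕ))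
    (T : Finset P) :
    S.wt T = ∏ p ∈ T.map (Function.Embedding.subtype _), (p : ℝ) := by
  rw [Finset.prod_map]
  unfold Sys.wt
  refine Finset.prod_congr rfl (fun x _ => ?_)
  rw [hS x]
  rfl

theorem p_TRF : Stmt_TRF := by
  intro P ι S hS u a b C K h0 hemp hmass hlo hhi hle hcost hdiv
  refine ⟨fun T => h0 _, ?_, ?_, ?_, ?_, ?_, ?_, ?_⟩
  · rw [Finset.map_empty]
    exact hemp
  · exact (TRF_sum P u).trans hmass
  · intro T hT
    rw [TRF_wt S hS]
    exact hlo _ (TRF_mem P T) hT
  · intro T hT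
    rw [TRF_wt S hS]
    exact hhi _ (TRF_mem P T) hT
  · intro T
    rw [TRF_wt S hS]
    exact hle _ (TRF_mem P T)
  · refine le_trans (le_of_eq ?_) hcost
    rw [← TRF_sum P (fun T => u T ^ 2 * (∏ p ∈ T, (p : ℝ)) * Real.log (∏ p ∈ T, (p : ℝ)))]
    refine Finset.sum_congr rfl (fun T _ => ?_)
    rw [TRF_wt S hS]
  · intro x
    have h := hdiv (x : ℕ) x.2
    rw [hS x]
    refine le_trans (le_of_eq ?_) h
    rw [← TRF_sum P (fun T => if (x : ℕ) ∈ T then u T else 0)]
    refine Finset.sum_congr rfl (fun T _ => ?_)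
    have hiff : ((x : ℕ) ∈ T.map (Function.Embedding.subtype _)) ↔ x ∈ T := by
      constructor
      · intro hx
        rw [Finset.mem_map] at hx
        obtain ⟨y, hy, hyx⟩ := hx
        have : y = x := Subtype.ext hyx
        rwa [this] at hy
      · intro hx
        exact Finset.mem_map.mpr ⟨x, hx, rfl⟩
    by_cases hx : x ∈ T
    · rw [if_pos hx, if_pos (hiff.mpr hx)]
    · rw [if_neg hx, if_neg (fun h => hx (hiff.mp h))]

end Pool.LGP
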