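import Pool.Agent.Work.MP_b0c12c_gaps.Interface

set_option autoImplicit false

namespace Pool.LGP

open Finset Filter

/-- the weight of one scale -/
noncomputable def UAB_g (R : ℕ → ℝ) (j : ℕ) (T : Finset ℕ) : ℝ :=
  open Classical in
  if R (j + 1) < (∏ p ∈ T, (p : ℝ)) ∧ (∏ p ∈ T, (p : ℝ)) ≤ R j then 1 / (∏ p ∈ T, (p : ℝ)) else 0

theorem p_UAB : Stmt_UAB := by
  classical
  intro P J R V c C ℓ hJ hc hC hℓ hP hRJ hR hV hVc hV1 hx
  have hJr : (0 : ℝ) < J := by exact_mod_cast hJ
  have hmono : ∀ i j, i ≤ j → j ≤ J → R j ≤ R i := by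
    intro i j hij
    induction j, hij using Nat.le_induction with
    | base => intro _; exact le_rfl
    | succ j hij ih =>
      intro hj
      exact (hR j (by omega)).le.trans (ih (by omega))
  have hw0 : ∀ T : Finset ℕ, 0 ≤ ∏ p ∈ T, (p : ℝ) := fun T => prod_nonneg fun p _ => Nat.cast_nonneg p
  have hwP : ∀ T ∈ P.powerset, 1 ≤ ∏ p ∈ T, (p : ℝ) := by
    intro T hT
    rw [mem_powerset] at hT
    have h1 : ∏ p ∈ T, (1 : ℝ) ≤ ∏ p ∈ T, (p : ℝ) :=
      prod_le_prod (fun _ _ => zero_le_one) (fun p hp => by exact_mod_cast hP p (hT hp))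
    simpa using h1
  have hV0 : ∀ j < J, 0 < V j := fun j hj => lt_of_lt_of_le one_pos (hV1 j hj)
  have hg0 : ∀ j T, 0 ≤ UAB_g R j T := by
    intro j T
    unfold UAB_g
    split_ifs
    · exact one_div_nonneg.2 (hw0 T)
    · exact le_rfl
  have hVg : ∀ j < J, V j = ∑ T ∈ P.powerset, UAB_g R j T := fun j hj => hV j hj
  -- log R j ≤ V j * ℓ / c
  have hlog : ∀ j < J, Real.log (R j) ≤ V j * ℓ / c := by
    intro j hj
    have h1 := hVc j hj
    rw [le_div_iff₀ hc]
    have h2 : c * (Real.log (R j) / ℓ) * ℓ ≤ V j * ℓ := mul_le_mul_of_nonneg_right h1 hℓ.le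
    have h3 : c * (Real.log (R j) / ℓ) * ℓ = Real.log (R j) * c := by field_simp
    linarith
  have hR1 : ∀ j ≤ J, 1 ≤ R j := fun j hj => hRJ.trans (hmono j J hj le_rfl)
  set u : Finset ℕ → ℝ := fun T => ∑ j ∈ range J, 1 / (J * V j) * UAB_g R j T with hu
  have hcoef : ∀ j < J, 0 ≤ 1 / (J * V j) := fun j hj =>
    one_div_nonneg.2 (mul_nonneg hJr.le (hV0 j hj).le)
  have hterm : ∀ T, ∀ j ∈ range J, 0 ≤ 1 / (J * V j) * UAB_g R j T := fun T j hj =>
    mul_nonneg (hcoef j (mem_range.1 hj)) (hg0 j T)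
  have hu0 : ∀ T, 0 ≤ u T := fun T => sum_nonneg (hterm T)
  -- a nonzero weight comes from a scale
  have hex : ∀ T, u T ≠ 0 → ∃ j < J, R (j + 1) < (∏ p ∈ T, (p : ℝ)) ∧ (∏ p ∈ T, (p : ℝ)) ≤ R j := by
    intro T hT
    obtain ⟨j, hj, hne⟩ := exists_ne_zero_of_sum_ne_zero hT
    refine ⟨j, mem_range.1 hj, ?_⟩
    by_contra hcon
    apply hne
    have : UAB_g R j T = 0 := by
      unfold UAB_g
      rw [if_neg hcon]
    rw [this, mul_zero]
  -- only one scale
  have huniq : ∀ T, ∀ i < J, ∀ j < J, i ≠ j → UAB_g R i T * UAB_g R j T = 0 := by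
    intro T i hi j hj hij
    unfold UAB_g
    by_cases h1 : R (i + 1) < (∏ p ∈ T, (p : ℝ)) ∧ (∏ p ∈ T, (p : ℝ)) ≤ R i
    · by_cases h2 : R (j + 1) < (∏ p ∈ T, (p : ℝ)) ∧ (∏ p ∈ T, (p : ℝ)) ≤ R j
      · exfalso
        rcases lt_or_gt_of_ne hij with h | h
        · have := hmono (i + 1) j (by omega) (by omega)
          linarith [h1.1, h2.2]
        · have := hmono (j + 1) i (by omega) (by omega)
          linarith [h2.1, h1.2]
      · rw [if_neg h2, mul_zero]
    · rw [if_neg h1, zero_mul]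
  have hsq : ∀ T, u T ^ 2 = ∑ j ∈ range J, (1 / (J * V j) * UAB_g R j T) ^ 2 := by
    intro T
    rw [hu, sq, sum_mul_sum]
    refine sum_congr rfl fun i hi => ?_
    rw [sum_eq_single i]
    · rw [sq]
    · intro j hj hji
      have h1 := huniq T i (mem_range.1 hi) j (mem_range.1 hj) (Ne.symm hji)
      have : 1 / (J * V i) * UAB_g R i T * (1 / (J * V j) * UAB_g R j T) =
          1 / (J * V i) * (1 / (J * V j)) * (UAB_g R i T * UAB_g R j T) := by ring
      rw [this, h1, mul_zero]
    · intro h; exact absurd hi h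
  refine ⟨u, hu0, ?_, ?_, ?_, ?_, ?_, ?_, ?_⟩
  · by_contra hne
    obtain ⟨j, hj, h1, -⟩ := hex ∅ hne
    rw [prod_empty] at h1
    have := hR1 (j + 1) (by omega)
    linarith
  · rw [hu, sum_comm]
    have : ∀ j ∈ range J, ∑ T ∈ P.powerset, 1 / (J * V j) * UAB_g R j T = 1 / J := by
      intro j hj
      have hj' := mem_range.1 hj
      rw [← mul_sum, ← hVg j hj']
      have := (hV0 j hj').ne'
      field_simp
    rw [sum_congr rfl this, sum_const, card_range, nsmul_eq_mul]
    field_simp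
  · intro T _ hT
    obtain ⟨j, hj, h1, -⟩ := hex T hT
    exact (hmono (j + 1) J (by omega) le_rfl).trans h1.le
  · intro T _ hT
    obtain ⟨j, hj, -, h2⟩ := hex T hT
    exact h2.trans (hmono 0 j (Nat.zero_le _) hj.le)
  · intro T hT
    have hw := hwP T hT
    have hwpos : 0 < ∏ p ∈ T, (p : ℝ) := by linarith
    rw [hu]
    show (∑ j ∈ range J, 1 / (J * V j) * UAB_g R j T) * ∏ p ∈ T, (p : ℝ) ≤ 1
    rw [sum_mul]
    have hb : ∀ j ∈ range J, 1 / (J * V j) * UAB_g R j T * ∏ p ∈ T, (p : ℝ) ≤ 1 / J := by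
      intro j hj
      have hj' := mem_range.1 hj
      have h1 : UAB_g R j T * ∏ p ∈ T, (p : ℝ) ≤ 1 := by
        unfold UAB_g
        split_ifs
        · rw [one_div_mul_cancel hwpos.ne']
        · rw [zero_mul]; exact zero_le_one
      have h2 : 1 / (J * V j) ≤ 1 / J := by
        apply one_div_le_one_div_of_le hJr
        have := hV1 j hj'
        nlinarith
      calc 1 / (J * V j) * UAB_g R j T * ∏ p ∈ T, (p : ℝ)
          = 1 / (J * V j) * (UAB_g R j T * ∏ p ∈ T, (p : ℝ)) := by ring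
        _ ≤ 1 / (J * V j) * 1 := mul_le_mul_of_nonneg_left h1 (hcoef j hj')
        _ ≤ 1 / J := by rw [mul_one]; exact h2
    refine (sum_le_sum hb).trans ?_
    rw [sum_const, card_range, nsmul_eq_mul]
    exact le_of_eq (by field_simp)
  · -- the cost
    have h1 : ∀ T ∈ P.powerset, u T ^ 2 * (∏ p ∈ T, (p : ℝ)) * Real.log (∏ p ∈ T, (p : ℝ)) ≤
        ∑ j ∈ range J, Real.log (R j) / (J * V j) ^ 2 * UAB_g R j T := by
      intro T hT
      have hw := hwP T hT
      have hwpos : 0 < ∏ p ∈ T, (p : ℝ) := by linarith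
      rw [hsq, sum_mul, sum_mul]
      refine sum_le_sum fun j hj => ?_
      have hj' := mem_range.1 hj
      have hJV : 0 < (J * V j) ^ 2 := by
        have := hV0 j hj'
        positivity
      by_cases hI : R (j + 1) < (∏ p ∈ T, (p : ℝ)) ∧ (∏ p ∈ T, (p : ℝ)) ≤ R j
      · have hgv : UAB_g R j T = 1 / (∏ p ∈ T, (p : ℝ)) := by
          unfold UAB_g
          rw [if_pos hI]
        rw [hgv]
        have hl : Real.log (∏ p ∈ T, (p : ℝ)) ≤ Real.log (R j) := Real.log_le_log hwpos hI.2
        have e1 : (1 / (J * V j) * (1 / ∏ p ∈ T, (p : ℝ))) ^ 2 * (∏ p ∈ T, (p : ℝ)) *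
            Real.log (∏ p ∈ T, (p : ℝ)) = Real.log (∏ p ∈ T, (p : ℝ)) *
              (1 / (J * V j) ^ 2 * (1 / ∏ p ∈ T, (p : ℝ))) := by
          field_simp
        have e2 : Real.log (R j) / (J * V j) ^ 2 * (1 / ∏ p ∈ T, (p : ℝ)) =
            Real.log (R j) * (1 / (J * V j) ^ 2 * (1 / ∏ p ∈ T, (p : ℝ))) := by ring
        rw [e1, e2]
        exact mul_le_mul_of_nonneg_right hl (by positivity)
      · have hgv : UAB_g R j T = 0 := by
          unfold UAB_g
          rw [if_neg hI]
        rw [hgv]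
        simp
    refine (sum_le_sum h1).trans ?_
    rw [sum_comm]
    have h2 : ∀ j ∈ range J, ∑ T ∈ P.powerset, Real.log (R j) / (J * V j) ^ 2 * UAB_g R j T ≤
        ℓ / (c * J) / J := by
      intro j hj
      have hj' := mem_range.1 hj
      rw [← mul_sum, ← hVg j hj']
      have hv := hV0 j hj'
      have hl := hlog j hj'
      have e1 : Real.log (R j) / (J * V j) ^ 2 * V j = Real.log (R j) * (1 / (J ^ 2 * V j)) := by
        field_simp
      have e2 : ℓ / (c * J) / J = (V j * ℓ / c) * (1 / (J ^ 2 * V j)) := by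
        field_simp
      rw [e1, e2]
      exact mul_le_mul_of_nonneg_right hl (by positivity)
    refine (sum_le_sum h2).trans ?_
    rw [sum_const, card_range, nsmul_eq_mul]
    exact le_of_eq (by field_simp)
  · intro x hxP
    have hxpos : (0 : ℝ) < x := by
      have := hP x hxP
      exact_mod_cast this
    have e0 : ∀ T ∈ P.powerset, (if x ∈ T then u T else 0) =
        ∑ j ∈ range J, 1 / (J * V j) * (if x ∈ T then UAB_g R j T else 0) := by
      intro T _
      split_ifs
      · rfl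
      · simp
    rw [sum_congr rfl e0, sum_comm]
    have h2 : ∀ j ∈ range J, ∑ T ∈ P.powerset, 1 / (J * V j) * (if x ∈ T then UAB_g R j T else 0) ≤
        C / c / x / J := by
      intro j hj
      have hj' := mem_range.1 hj
      have hv := hV0 j hj'
      rw [← mul_sum]
      have h3 : ∑ T ∈ P.powerset, (if x ∈ T then UAB_g R j T else 0) ≤
          C / x * (Real.log (R j) / ℓ) := by
        refine le_trans (sum_le_sum fun T hT => ?_) (hx j hj' x hxP)
        have hw := hwP T hT
        unfold UAB_g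
        by_cases hxT : x ∈ T
        · by_cases hI : R (j + 1) < (∏ p ∈ T, (p : ℝ)) ∧ (∏ p ∈ T, (p : ℝ)) ≤ R j
          · rw [if_pos hxT, if_pos hI, if_pos ⟨hxT, hI.2⟩]
          · rw [if_pos hxT, if_neg hI]
            split_ifs
            · exact one_div_nonneg.2 (hw0 T)
            · exact le_rfl
        · rw [if_neg hxT]
          split_ifs
          · exact one_div_nonneg.2 (hw0 T)
          · exact le_rfl
      have hl : Real.log (R j) / ℓ ≤ V j / c := by
        rw [div_le_iff₀ hℓ]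
        have := hlog j hj'
        calc Real.log (R j) ≤ V j * ℓ / c := this
          _ = V j / c * ℓ := by ring
      calc 1 / (J * V j) * ∑ T ∈ P.powerset, (if x ∈ T then UAB_g R j T else 0)
          ≤ 1 / (J * V j) * (C / x * (V j / c)) := by
            refine mul_le_mul_of_nonneg_left (h3.trans ?_) (hcoef j hj')
            exact mul_le_mul_of_nonneg_left hl (by positivity)
        _ = C / c / x / J := by field_simp
    refine (sum_le_sum h2).trans ?_
    rw [sum_const, card_range, nsmul_eq_mul]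
    exact le_of_eq (by field_simp)

end Pool.LGP
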