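import Pool.Agent.Work.MP_b0c12c_gaps.Interface

set_option autoImplicit false

namespace Pool.LGP

open Finset Filter

/-- elementary inequalities for large `L` -/
theorem UEX_large (c R₀ : ℝ) (hc : 0 < c) : ∃ L₀ : ℝ, ∀ L : ℝ, L₀ ≤ L →
    16 ≤ Real.log L ∧ 100 * Real.log L ≤ L ^ (1 / 4 : ℝ) ∧ 64 * Real.log L ≤ Real.sqrt L ∧
      R₀ ≤ Real.exp (Real.sqrt L) ∧ 4 * Real.log L ≤ c * Real.sqrt L ∧ 2 ≤ L := by
  have h1 : ∀ᶠ L : ℝ in atTop, 16 ≤ Real.log L := Real.tendsto_log_atTop.eventually_ge_atTop 16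
  have h2 : ∀ᶠ L : ℝ in atTop, ‖Real.log L‖ ≤ (1 / 100) * ‖L ^ (1 / 4 : ℝ)‖ :=
    (isLittleO_log_rpow_atTop (by norm_num : (0 : ℝ) < 1 / 4)).bound (by norm_num)
  have h3 : ∀ᶠ L : ℝ in atTop, ‖Real.log L‖ ≤ (min (1 / 64) (c / 4)) * ‖L ^ (1 / 2 : ℝ)‖ :=
    (isLittleO_log_rpow_atTop (by norm_num : (0 : ℝ) < 1 / 2)).bound (by positivity)
  have h4 : ∀ᶠ L : ℝ in atTop, R₀ ≤ Real.exp (Real.sqrt L) :=
    (Real.tendsto_exp_atTop.comp Real.tendsto_sqrt_atTop).eventually_ge_atTop R₀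
  have h5 : ∀ᶠ L : ℝ in atTop, (2 : ℝ) ≤ L := eventually_ge_atTop 2
  obtain ⟨L₀, h⟩ := eventually_atTop.1 (h1.and (h2.and (h3.and (h4.and h5))))
  refine ⟨L₀, fun L hL => ?_⟩
  obtain ⟨g1, g2, g3, g4, g5⟩ := h L hL
  have hl0 : 0 ≤ Real.log L := by linarith
  rw [Real.norm_of_nonneg hl0, Real.norm_of_nonneg (by positivity)] at g2 g3
  rw [← Real.sqrt_eq_rpow] at g3
  have hs : 0 ≤ Real.sqrt L := Real.sqrt_nonneg L
  have m1 : min (1 / 64) (c / 4) ≤ 1 / 64 := min_le_left _ _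
  have m2 : min (1 / 64) (c / 4) ≤ c / 4 := min_le_right _ _
  refine ⟨g1, by linarith, ?_, g4, ?_, g5⟩
  · have := mul_le_mul_of_nonneg_right m1 hs
    linarith
  · have := mul_le_mul_of_nonneg_right m2 hs
    linarith

theorem p_UEX (hVLO : Stmt_VLO) (hVUP : Stmt_VUP) (hUAB : Stmt_UAB) : Stmt_UEX := by
  classical
  obtain ⟨c, R₀, hc, hlo⟩ := hVLO
  obtain ⟨C, hC, hup⟩ := hVUP
  obtain ⟨L₀, hL₀⟩ := UEX_large c R₀ hc
  refine ⟨64 / c, max 1 (C / c), L₀, by positivity, le_max_left _ _, ?_⟩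
  intro L hL P hP
  obtain ⟨g1, g2, g3, g4, g5, g6⟩ := hL₀ L hL
  have hLpos : 0 < L := by linarith
  have hl : 0 < Real.log L := by linarith
  set b : ℝ := L / (100 * Real.log L) with hb
  have hbpos : 0 < b := by positivity
  set z : ℕ := ⌈L ^ 3⌉₊ with hz
  have hL3 : (8 : ℝ) ≤ L ^ 3 := by
    have : (2 : ℝ) ^ 3 ≤ L ^ 3 := by gcongr
    linarith
  have hz1 : L ^ 3 ≤ z := Nat.le_ceil _
  have hz2 : (z : ℝ) ≤ L ^ 3 + 1 := (Nat.ceil_lt_add_one (by positivity)).le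
  have hz8 : (8 : ℝ) ≤ z := hL3.trans hz1
  have hzN : 2 ≤ z := by
    have : (2 : ℝ) ≤ z := by linarith
    exact_mod_cast this
  have hzpos : (0 : ℝ) < z := by linarith
  have hz4 : (z : ℝ) ≤ L ^ 4 := by
    have : L ^ 4 = L ^ 3 * L := by ring
    nlinarith
  have hlogz : Real.log z ≤ 4 * Real.log L := by
    have h1 := Real.log_le_log hzpos hz4
    rw [Real.log_pow] at h1
    exact_mod_cast h1
  have hlogz0 : 0 < Real.log z := Real.log_pos (by linarith)
  -- the number of scales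
  set J : ℕ := ⌊Real.log L / 8⌋₊ with hJ
  have hJ1 : (J : ℝ) ≤ Real.log L / 8 := Nat.floor_le (by positivity)
  have hJ2 : Real.log L / 8 < J + 1 := Nat.lt_floor_add_one _
  have hJ3 : Real.log L / 16 ≤ J := by linarith
  have hJpos : 0 < J := by
    have : (0 : ℝ) < J := by linarith
    exact_mod_cast this
  have hJr : (0 : ℝ) < J := by exact_mod_cast hJpos
  have h4J : (4 : ℝ) ^ J ≤ L ^ (1 / 4 : ℝ) := by
    have e1 : (4 : ℝ) ^ J = Real.exp (J * Real.log 4) := by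
      rw [mul_comm, Real.exp_mul, Real.exp_log (by norm_num), Real.rpow_natCast]
    have e2 : L ^ (1 / 4 : ℝ) = Real.exp (Real.log L * (1 / 4)) :=
      Real.rpow_def_of_pos hLpos _
    rw [e1, e2]
    apply Real.exp_le_exp.2
    have h2 : Real.log 4 ≤ 2 := by
      have : Real.log 4 = 2 * Real.log 2 := by
        rw [show (4 : ℝ) = 2 ^ 2 by norm_num, Real.log_pow]; norm_num
      have := Real.log_two_lt_d9
      linarith
    have h3 : (J : ℝ) * Real.log 4 ≤ J * 2 := mul_le_mul_of_nonneg_left h2 hJr.le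
    linarith
  -- the scales
  set R : ℕ → ℝ := fun j => Real.exp (b / 4 ^ j) with hR
  have hbJ : Real.sqrt L ≤ b / 4 ^ J := by
    rw [le_div_iff₀ (by positivity), hb, le_div_iff₀ (by positivity)]
    have e1 : Real.sqrt L = L ^ (1 / 2 : ℝ) := Real.sqrt_eq_rpow L
    have e2 : L = L ^ (1 / 2 : ℝ) * L ^ (1 / 4 : ℝ) * L ^ (1 / 4 : ℝ) := by
      rw [← Real.rpow_add hLpos, ← Real.rpow_add hLpos]
      norm_num
    have hq : 0 ≤ L ^ (1 / 4 : ℝ) := by positivity
    have hh : 0 ≤ L ^ (1 / 2 : ℝ) := by positivity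
    calc Real.sqrt L * 4 ^ J * (100 * Real.log L)
        ≤ L ^ (1 / 2 : ℝ) * L ^ (1 / 4 : ℝ) * L ^ (1 / 4 : ℝ) := by
          rw [e1]
          gcongr
      _ = L := e2.symm
  have hbj : ∀ j ≤ J, Real.sqrt L ≤ b / 4 ^ j := by
    intro j hj
    refine hbJ.trans ?_
    apply div_le_div_of_nonneg_left hbpos.le (by positivity)
    exact pow_le_pow_right₀ (by norm_num) hj
  have hlogR : ∀ j, Real.log (R j) = b / 4 ^ j := fun j => Real.log_exp _
  have hRz : ∀ j ≤ J, (z : ℝ) ^ 16 ≤ R j := by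
    intro j hj
    have e1 : (z : ℝ) ^ 16 = Real.exp (16 * Real.log z) := by
      rw [show (16 : ℝ) * Real.log z = Real.log ((z : ℝ) ^ 16) by rw [Real.log_pow]; norm_num,
        Real.exp_log (by positivity)]
    rw [e1]
    apply Real.exp_le_exp.2
    have := hbj j hj
    linarith
  have hRquart : ∀ j, R j ^ (1 / 4 : ℝ) = R (j + 1) := by
    intro j
    show Real.exp (b / 4 ^ j) ^ (1 / 4 : ℝ) = Real.exp (b / 4 ^ (j + 1))
    rw [← Real.exp_mul]
    congr 1
    rw [pow_succ]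
    field_simp
  have hR0 : R 0 = Real.exp b := by
    show Real.exp (b / 4 ^ 0) = Real.exp b
    rw [pow_zero, div_one]
  have hRle : ∀ j, R j ≤ Real.exp b := by
    intro j
    apply Real.exp_le_exp.2
    exact div_le_self hbpos.le (one_le_pow₀ (by norm_num))
  have hPz : ∀ p ∈ P, p.Prime ∧ z < p := fun p hp => ⟨((hP p).1 hp).1, ((hP p).1 hp).2.1⟩
  set V : ℕ → ℝ := fun j => ∑ T ∈ P.powerset, (open Classical in
        if R (j + 1) < (∏ p ∈ T, (p : ℝ)) ∧ (∏ p ∈ T, (p : ℝ)) ≤ R j then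
        1 / (∏ p ∈ T, (p : ℝ)) else 0) with hV
  have hVc : ∀ j < J, c * (Real.log (R j) / Real.log z) ≤ V j := by
    intro j hj
    have h1 := hlo z (R j) P hzN (hRz j hj.le)
      (g4.trans (Real.exp_le_exp.2 (hbj j hj.le)))
      (fun p hp hzp hpR => (hP p).2 ⟨hp, hzp, hpR.trans (hRle j)⟩) hPz
    rw [hRquart j] at h1
    exact h1
  have hV1 : ∀ j < J, 1 ≤ V j := by
    intro j hj
    refine le_trans ?_ (hVc j hj)
    rw [hlogR, ← mul_div_assoc, le_div_iff₀ hlogz0, one_mul]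
    have := mul_le_mul_of_nonneg_left (hbj j hj.le) hc.le
    linarith
  obtain ⟨u, u1, u2, u3, u4, u5, u6, u7, u8⟩ := hUAB P J R V c C (Real.log z) hJpos hc hC hlogz0
    (fun p hp => (hPz p hp).1.one_lt.le)
    (by
      show 1 ≤ Real.exp (b / 4 ^ J)
      exact Real.one_le_exp (by positivity))
    (by
      intro j _
      apply Real.exp_lt_exp.2
      apply div_lt_div_of_pos_left hbpos (by positivity)
      exact pow_lt_pow_right₀ (by norm_num) (Nat.lt_succ_self j))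
    (fun j _ => rfl) hVc hV1
    (by
      intro j hj x hx
      refine hup z (R j) P hzN ?_ hPz x hx
      refine le_trans ?_ (hRz j hj.le)
      have h1z : (1 : ℝ) ≤ z := by linarith
      calc (z : ℝ) = z ^ 1 := (pow_one _).symm
        _ ≤ z ^ 16 := pow_le_pow_right₀ h1z (by norm_num))
  refine ⟨u, u1, u2, u3, ?_, ?_, u6, ?_, ?_⟩
  · intro T hT hne
    refine le_trans ?_ (u4 T hT hne)
    apply Real.exp_le_exp.2
    refine le_trans ?_ hbJ
    exact div_le_self (Real.sqrt_nonneg L) (le_max_left _ _)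
  · intro T hT hne
    have := u5 T hT hne
    rw [hR0] at this
    exact this
  · refine u7.trans ?_
    rw [div_le_div_iff₀ (by positivity) hc]
    have : Real.log z ≤ 64 * J := by linarith
    nlinarith
  · intro x hx
    refine (u8 x hx).trans ?_
    exact div_le_div_of_nonneg_right (le_max_right _ _) (Nat.cast_nonneg x)

end Pool.LGP
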