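import Pool.Agent.Work.MP_b0c12c_gaps.Interface
import Pool.Agent.Work.MP_b0c12c_nt_helper41.Mert

/-! # Block VLO (helper4): the rough square free mass of one scale -/

set_option autoImplicit false

namespace Pool.LGP

open Finset

theorem p_VLO (h1 : Stmt_PRD) (h2 : Stmt_PSM) (h3 : Stmt_MKV) : Stmt_VLO := by
  classical
  obtain ⟨c, C, hc, hC, hP1⟩ := h1
  obtain ⟨R1, hP2⟩ := h2
  refine ⟨c / 64, |R1| + Real.exp 64, by positivity, ?_⟩
  intro z R P hz hzR hR hPin hPout
  have hR1 : R1 ≤ R := by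
    have := le_abs_self R1
    have := Real.exp_pos 64
    linarith
  have hR64 : Real.exp 64 ≤ R := by
    have := abs_nonneg R1
    linarith
  have hR0 : 0 < R := lt_of_lt_of_le (Real.exp_pos _) hR64
  have hlR : 64 ≤ Real.log R := (Real.le_log_iff_exp_le hR0).2 hR64
  have hz1 : (2 : ℝ) ≤ z := by exact_mod_cast hz
  have hlz : 0 < Real.log z := Real.log_pos (by linarith)
  -- powers of `R`
  set r8 : ℝ := R ^ (1 / 8 : ℝ) with hr8
  set r4 : ℝ := R ^ (1 / 4 : ℝ) with hr4
  set r2 : ℝ := R ^ (1 / 2 : ℝ) with hr2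
  have l8 : Real.log r8 = Real.log R / 8 := by rw [hr8, Real.log_rpow hR0]; ring
  have l4 : Real.log r4 = Real.log R / 4 := by rw [hr4, Real.log_rpow hR0]; ring
  have l2 : Real.log r2 = Real.log R / 2 := by rw [hr2, Real.log_rpow hR0]; ring
  have p8 : 0 < r8 := Real.rpow_pos_of_pos hR0 _
  have p4 : 0 < r4 := Real.rpow_pos_of_pos hR0 _
  have p2 : 0 < r2 := Real.rpow_pos_of_pos hR0 _
  have h84 : r8 ≤ r4 := by
    rw [← Real.log_le_log_iff p8 p4, l8, l4]; linarith
  have hr22 : r2 * r2 = R := by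
    rw [hr2, ← Real.rpow_add hR0]; norm_num
  have h8one : 1 < r8 := by
    rw [← Real.log_pos_iff p8.le, l8]; linarith
  have h2one : 1 < r2 := by
    rw [← Real.log_pos_iff p2.le, l2]; linarith
  -- `m = floor r8`
  set m : ℕ := ⌊r8⌋₊ with hm
  have hmle : (m : ℝ) ≤ r8 := Nat.floor_le p8.le
  have hzm2 : (z : ℝ) ^ 2 ≤ r8 := by
    rw [← Real.log_le_log_iff (by positivity) p8, l8, Real.log_pow]
    have h5 := Real.log_le_log (by positivity) hzR
    rw [Real.log_pow] at h5
    push_cast at h5 ⊢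
    linarith
  have hzm : z ≤ m := by
    rw [hm]; apply Nat.le_floor
    nlinarith
  have hm1 : 1 ≤ m := by omega
  have hmR : Real.log R / 16 ≤ Real.log m := by
    have h5 : r8 < m + 1 := Nat.lt_floor_add_one _
    have h6 : Real.log r8 ≤ 2 * Real.log m := by
      have h7 : (1 : ℝ) ≤ m := by exact_mod_cast hm1
      have h8 : (2 : ℝ) ≤ m := by exact_mod_cast (le_trans hz hzm)
      have h9 : r8 ≤ (m : ℝ) ^ 2 := by nlinarith
      have := Real.log_le_log p8 h9
      rw [Real.log_pow] at this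
      exact_mod_cast this
    rw [l8] at h6; linarith
  -- the two sets of primes
  set A : Finset ℕ := (Ioc ⌊r4⌋₊ ⌊r2⌋₊).filter Nat.Prime with hA
  set B : Finset ℕ := (Ioc z m).filter Nat.Prime with hB
  have hAS : 1 / 2 ≤ ∑ p ∈ A, 1 / (p : ℝ) := hP2 R hR1
  have hBprod := (hP1 z m hz hzm).1
  have hBG : ∑ p ∈ B, Real.log p / p ≤ Real.log R / 8 + 6 := by
    have h5 := Pool.Agent.Work.MP_b0c12c_nt_helper41.FF_le hm1
    have h6 : ∑ p ∈ B, Real.log p / p ≤ Pool.Agent.Work.MP_b0c12c_nt_helper41.FF m := by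
      unfold Pool.Agent.Work.MP_b0c12c_nt_helper41.FF
      apply sum_le_sum_of_subset_of_nonneg
      · intro p hp
        rw [hB, mem_filter, mem_Ioc] at hp
        rw [mem_filter, mem_Icc]
        exact ⟨⟨hp.2.one_lt.le, hp.1.2⟩, hp.2⟩
      · intro p _ _
        positivity
    have h7 : Real.log m ≤ Real.log R / 8 := by
      rw [← l8]; exact Real.log_le_log (by exact_mod_cast hm1) hmle
    linarith
  have hM := h3 B r2 (Real.log R / 8 + 6)
    (fun p hp => by
      rw [hB, mem_filter] at hp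
      exact hp.2.one_lt.le) h2one hBG (by rw [l2]; linarith)
  -- the injection
  have hAmem : ∀ p ∈ A, p.Prime ∧ r4 < (p : ℝ) ∧ (p : ℝ) ≤ r2 := by
    intro p hp
    rw [hA, mem_filter, mem_Ioc] at hp
    exact ⟨hp.2, (Nat.floor_lt p4.le).1 hp.1.1, (Nat.le_floor_iff p2.le).1 hp.1.2⟩
  have hBmem : ∀ p ∈ B, p.Prime ∧ z < p ∧ (p : ℝ) ≤ r8 := by
    intro p hp
    rw [hB, mem_filter, mem_Ioc] at hp
    exact ⟨hp.2, hp.1.1, (Nat.le_floor_iff p8.le).1 hp.1.2⟩
  have hAB : ∀ p ∈ A, ∀ q ∈ B, q < p := by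
    intro p hp q hq
    have h5 := (hAmem p hp).2.1
    have h6 := (hBmem q hq).2.2
    have : (q : ℝ) < p := by linarith
    exact_mod_cast this
  have hrR : r2 ≤ R := by
    rw [← hr22]; nlinarith
  have hAP : A ⊆ P := by
    intro p hp
    obtain ⟨a1, a2, a3⟩ := hAmem p hp
    apply hPin p a1
    · have h5 : (z : ℝ) < p := by
        have : (z : ℝ) ≤ m := by exact_mod_cast hzm
        linarith
      exact_mod_cast h5
    · linarith
  have hBP : B ⊆ P := by
    intro p hp
    obtain ⟨a1, a2, a3⟩ := hBmem p hp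
    apply hPin p a1 a2
    have h5 : r4 ≤ r2 := by
      rw [← Real.log_le_log_iff p4 p2, l4, l2]; linarith
    linarith
  set f : Finset ℕ → ℝ := fun T => if (∏ p ∈ T, (p : ℝ)) ≤ r2 then 1 / (∏ p ∈ T, (p : ℝ)) else 0
    with hf
  set g : Finset ℕ → ℝ := fun T => if r4 < (∏ p ∈ T, (p : ℝ)) ∧ (∏ p ∈ T, (p : ℝ)) ≤ R then
        1 / (∏ p ∈ T, (p : ℝ)) else 0 with hg
  have hprodpos : ∀ T : Finset ℕ, (∀ p ∈ T, 1 ≤ p) → 1 ≤ ∏ p ∈ T, (p : ℝ) := by
    intro T hT
    calc (1 : ℝ) = ∏ p ∈ T, (1 : ℝ) := by rw [prod_const_one]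
      _ ≤ ∏ p ∈ T, (p : ℝ) := by
          apply prod_le_prod (fun _ _ => zero_le_one)
          intro p hp
          exact_mod_cast hT p hp
  have hnn : ∀ T : Finset ℕ, 0 ≤ ∏ p ∈ T, (p : ℝ) := by
    intro T; exact prod_nonneg fun p _ => Nat.cast_nonneg p
  have hg0 : ∀ T, 0 ≤ g T := by
    intro T; rw [hg]; dsimp only
    split_ifs
    · exact div_nonneg zero_le_one (hnn T)
    · exact le_rfl
  have hBone : ∀ T ∈ B.powerset, 1 ≤ ∏ p ∈ T, (p : ℝ) := by
    intro T hT
    apply hprodpos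
    intro p hp
    exact (hBmem p (mem_powerset.1 hT hp)).1.one_lt.le
  have hinj : Set.InjOn (fun x : ℕ × Finset ℕ => insert x.1 x.2) ↑(A ×ˢ B.powerset) := by
    rintro ⟨p, T⟩ hx ⟨q, U⟩ hy hxy
    rw [mem_coe, mem_product] at hx hy
    have hpA : p ∈ A := hx.1
    have hqA : q ∈ A := hy.1
    have hTB : T ⊆ B := mem_powerset.1 hx.2
    have hUB : U ⊆ B := mem_powerset.1 hy.2
    have hxy' : insert p T = insert q U := hxy
    have hpT : p ∉ T := fun h => lt_irrefl _ (hAB p hpA p (hTB h))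
    have hqU : q ∉ U := fun h => lt_irrefl _ (hAB q hqA q (hUB h))
    have hpq : p = q := by
      have h5 : p ∈ insert q U := by rw [← hxy']; exact mem_insert_self _ _
      rcases mem_insert.1 h5 with h6 | h6
      · exact h6
      · exact absurd (hAB p hpA p (hUB h6)) (lt_irrefl _)
    subst hpq
    have hTU : T = U := by
      rw [← erase_insert hpT, ← erase_insert hqU, hxy']
    rw [hTU]
  have hsum : ∑ x ∈ A ×ˢ B.powerset, g (insert x.1 x.2) ≤ ∑ T ∈ P.powerset, g T := by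
    rw [← sum_image (f := g) hinj]
    apply sum_le_sum_of_subset_of_nonneg
    · intro T hT
      rw [mem_image] at hT
      obtain ⟨⟨p, U⟩, hx, hxT⟩ := hT
      rw [mem_product] at hx
      rw [mem_powerset, ← hxT]
      exact insert_subset (hAP hx.1) ((mem_powerset.1 hx.2).trans hBP)
    · intro T _ _; exact hg0 T
  have hterm : ∀ x ∈ A ×ˢ B.powerset, (1 / (x.1 : ℝ)) * f x.2 ≤ g (insert x.1 x.2) := by
    rintro ⟨p, T⟩ hx
    rw [mem_product] at hx
    have hpA : p ∈ A := hx.1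
    have hTB : T ⊆ B := mem_powerset.1 hx.2
    have hpT : p ∉ T := fun h => lt_irrefl _ (hAB p hpA p (hTB h))
    obtain ⟨a1, a2, a3⟩ := hAmem p hpA
    have hp0 : (0 : ℝ) < p := lt_trans p4 a2
    have h1T := hBone T hx.2
    show (1 / (p : ℝ)) * f T ≤ g (insert p T)
    rw [hf]; dsimp only
    split_ifs with h5
    · rw [hg]; dsimp only
      rw [prod_insert hpT, if_pos]
      · rw [one_div_mul_one_div]
      · constructor
        · nlinarith
        · calc (p : ℝ) * ∏ p ∈ T, (p : ℝ) ≤ r2 * r2 := by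
                apply mul_le_mul a3 h5 (by linarith) p2.le
            _ = R := hr22
    · rw [mul_zero]; exact hg0 _
  have hfin : (∑ p ∈ A, 1 / (p : ℝ)) * (∑ T ∈ B.powerset, f T) ≤ ∑ T ∈ P.powerset, g T := by
    refine le_trans ?_ hsum
    rw [Finset.sum_mul_sum, ← Finset.sum_product']
    exact sum_le_sum hterm
  have hfB : (∏ p ∈ B, (1 + 1 / (p : ℝ))) / 2 ≤ ∑ T ∈ B.powerset, f T := by
    convert hM using 1
  refine le_trans ?_ (hfin.trans (le_of_eq ?_))
  · have h5 : c * (Real.log m / Real.log z) / 2 ≤ ∑ T ∈ B.powerset, f T := by linarith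
    have h6 : c * (Real.log R / 16 / Real.log z) ≤ c * (Real.log m / Real.log z) := by
      apply mul_le_mul_of_nonneg_left _ hc.le
      exact div_le_div_of_nonneg_right hmR hlz.le
    have h7 : 0 ≤ c * (Real.log R / 16 / Real.log z) := by
      have : 0 ≤ Real.log R := by linarith
      positivity
    calc c / 64 * (Real.log R / Real.log z) = 1 / 2 * (c * (Real.log R / 16 / Real.log z) / 2) := by
          ring
      _ ≤ (∑ p ∈ A, 1 / (p : ℝ)) * (∑ T ∈ B.powerset, f T) := by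
          apply mul_le_mul hAS (by linarith) (by positivity) (by linarith)
  · apply sum_congr rfl
    intro T _
    rw [hg]

end Pool.LGP
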