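import Pool.Agent.Work.MP_b0c12c_gaps.Interface

/-! # Large gaps between primes: block WTF (helper60) -/

set_option autoImplicit false

namespace Pool.LGP

open Finset Filter

theorem p_WTF : Stmt_WTF := by
  intro π ι _ _ _ _ S ρ
  classical
  have key : (S.szn ρ : ℝ) = ∏ h, S.wt (fib ρ h) := by
    unfold Sys.szn Sys.wt fib
    push_cast
    have e1 : ∀ h : ι, ∏ x ∈ univ.filter (fun x => ρ x = some h), (S.pr x : ℝ) =
        ∏ x : π, if ρ x = some h then (S.pr x : ℝ) else 1 := by
      intro h
      rw [Finset.prod_filter]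
    rw [Finset.prod_congr rfl (fun h _ => e1 h), Finset.prod_comm]
    apply Finset.prod_congr rfl
    intro x _
    cases hx : ρ x with
    | none => simp [Sys.zl]
    | some k =>
      simp only [Sys.zl, Option.some.injEq]
      rw [Finset.prod_ite_eq]
      simp
  refine ⟨key, ?_⟩
  intro u
  rw [key, ← Finset.prod_pow, ← Finset.prod_mul_distrib]
  apply Finset.prod_congr rfl
  intro h _
  unfold gg Sys.qq
  by_cases hT : fib ρ h = ∅
  · rw [hT]
    simp [Sys.wt]
  · rw [if_neg hT, if_neg hT]
    ring

end Pool.LGP
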