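import Mathlib

/-! # Large gaps between primes: definitions (helper11, note 2716)

A configuration is a map `ρ : π → Option ι`: it labels some of the primes `pr x` (`x : π`) by
shifts `h : ι`. -/

set_option autoImplicit false

namespace Pool.LGP

open Finset

/-- A finite family of primes `pr x` and of linear forms `N h y = W * y + v h`. -/
structure Sys (π ι : Type) where
  pr : π → ℕ
  W : ℕ
  v : ι → ℕ

variable {π ι : Type}

/-- The linear form with label `h`. -/
def Sys.N (S : Sys π ι) (h : ι) (y : ℕ) : ℕ := S.W * y + S.v h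

/-- Distinct primes, prime to `W`, each dividing at most one value `N h y`. -/
structure Sys.Good (S : Sys π ι) : Prop where
  prime : ∀ x, (S.pr x).Prime
  inj : Function.Injective S.pr
  cop : ∀ x, (S.pr x).Coprime S.W
  excl : ∀ x h h' y, h ≠ h' → S.pr x ∣ S.N h y → ¬ S.pr x ∣ S.N h' y

/-- Local factor. -/
def Sys.loc (S : Sys π ι) (x : π) : Option ι → ℕ → ℝ
  | none, _ => 1
  | some h, y => if S.pr x ∣ S.N h y then 1 - (S.pr x : ℝ) else 1

/-- Local mean of a product of two local factors. -/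
def Sys.gl [DecidableEq ι] (S : Sys π ι) (x : π) : Option ι → Option ι → ℝ
  | none, none => 1
  | some h, some h' => if h = h' then (S.pr x : ℝ) - 1 else -1
  | _, _ => 0

/-- Local size. -/
def Sys.zl (S : Sys π ι) (x : π) : Option ι → ℕ
  | none => 1
  | some _ => S.pr x

/-- Local error weight. -/
def Sys.el (S : Sys π ι) (x : π) : Option ι → ℝ
  | none => 1
  | some _ => (S.pr x : ℝ) + 1

/-- Local row sum, `k` is the number of labels. -/
def Sys.rl (S : Sys π ι) (k : ℕ) (x : π) : Option ι → ℝ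
  | none => 1
  | some _ => (S.pr x : ℝ) - 2 + k

/-- `1` for an active prime, `0` otherwise. -/
def al : Option ι → ℕ
  | none => 0
  | some _ => 1

section

variable [Fintype π]

def Sys.psi (S : Sys π ι) (ρ : π → Option ι) (y : ℕ) : ℝ := ∏ x, S.loc x (ρ x) y

def Sys.Gm [DecidableEq ι] (S : Sys π ι) (ρ σ : π → Option ι) : ℝ := ∏ x, S.gl x (ρ x) (σ x)

/-- The size `|ρ|`, a natural number. -/
def Sys.szn (S : Sys π ι) (ρ : π → Option ι) : ℕ := ∏ x, S.zl x (ρ x)

def Sys.ez (S : Sys π ι) (ρ : π → Option ι) : ℝ := ∏ x, S.el x (ρ x)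

def Sys.row (S : Sys π ι) (k : ℕ) (ρ : π → Option ι) : ℝ := ∏ x, S.rl k x (ρ x)

/-- The number of active primes. -/
def act (ρ : π → Option ι) : ℕ := ∑ x, al (ρ x)

/-- The set of primes with label `h`. -/
def fib [DecidableEq ι] (ρ : π → Option ι) (h : ι) : Finset π :=
  univ.filter (fun x => ρ x = some h)

end

/-- The product of the primes in `T`. -/
def Sys.wt (S : Sys π ι) (T : Finset π) : ℝ := ∏ x ∈ T, (S.pr x : ℝ)

/-- The coefficient of one shift. -/
noncomputable def gg (u : Finset π → ℝ) (T : Finset π) : ℝ :=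
  open Classical in if T = ∅ then 1 else - u T

/-- The mass of one shift. -/
noncomputable def Sys.qq (S : Sys π ι) (u : Finset π → ℝ) (T : Finset π) : ℝ :=
  open Classical in if T = ∅ then 1 else u T ^ 2 * S.wt T

section

variable [Fintype π] [Fintype ι] [DecidableEq ι]

/-- The coefficients of `F`. -/
noncomputable def Sys.aa (S : Sys π ι) (u : Finset π → ℝ) (D : ℝ) (ρ : π → Option ι) : ℝ :=
  open Classical in if (S.szn ρ : ℝ) ≤ D then ∏ h, gg u (fib ρ h) else 0

/-- Erase the label `m`. -/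
def er (m : ι) (ρ : π → Option ι) : π → Option ι := fun x => if ρ x = some m then none else ρ x

/-- Coefficients pushed forward along `er m`. -/
noncomputable def push [DecidableEq π] (m : ι) (a : (π → Option ι) → ℝ) (σ : π → Option ι) : ℝ :=
  ∑ ρ, if er m ρ = σ then a ρ else 0

/-- `Σ_T q(T) = 1 + A`. -/
noncomputable def Sys.Q1 (S : Sys π ι) (u : Finset π → ℝ) : ℝ := ∑ T, S.qq u T

end

/-- The properties of the one dimensional weight `u`. -/
structure Uok [Fintype π] [DecidableEq π] (S : Sys π ι) (u : Finset π → ℝ) (a b C K : ℝ) :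
    Prop where
  nonneg : ∀ T, 0 ≤ u T
  empty : u ∅ = 0
  mass : ∑ T, u T = 1
  lo : ∀ T, u T ≠ 0 → a ≤ S.wt T
  hi : ∀ T, u T ≠ 0 → S.wt T ≤ b
  le_one : ∀ T, u T * S.wt T ≤ 1
  cost : ∑ T, u T ^ 2 * S.wt T * Real.log (S.wt T) ≤ C
  div : ∀ x, ∑ T, (if x ∈ T then u T else 0) ≤ K / S.pr x

end Pool.LGP
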