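import Pool.Agent.Work.MP_b0c12c_gaps.Interface

/-! # Large gaps between primes: the last step, common to Theorems A and B (helper47) -/

set_option autoImplicit false

namespace Pool.LGP

open Finset Filter

/-- If the shifts of `[1, H]` which survive the residue class `v` modulo the primes up to `L / 8`
are at most `κ L`, then there is a gap of length at least `H` below `X = exp L`. -/
theorem fin_core (h1 : Stmt_SC) (h3 : Stmt_GAP) :
    ∃ κ : ℝ, 0 < κ ∧ ∀ᶠ L : ℝ in atTop, ∀ H v X : ℕ, Real.log X = L → (H : ℝ) ≤ L ^ 2 →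
      (∀ A : Finset ℕ, A ⊆ Icc 1 H → (∀ h ∈ A, ∀ p : ℕ, p.Prime → p ≤ ⌊L / 8⌋₊ → ¬ p ∣ v + h) →
        (A.card : ℝ) ≤ κ * L) →
      ∃ n, Nat.nth Nat.Prime (n + 1) ≤ X ∧
        (H : ℝ) ≤ (Nat.nth Nat.Prime (n + 1) : ℝ) - Nat.nth Nat.Prime n := by
  classical
  obtain ⟨κ, L₀, hκ, hSC⟩ := h1
  refine ⟨κ, hκ, ?_⟩
  have hlog : ∀ᶠ L : ℝ in atTop, 1 ≤ Real.log L :=
    Real.tendsto_log_atTop.eventually_ge_atTop 1
  have hexp : ∀ᶠ L : ℝ in atTop, (12 : ℝ) ≤ Real.exp (L / 5) :=
    (Real.tendsto_exp_atTop.comp (tendsto_id.atTop_div_const (by norm_num))).eventually_ge_atTop 12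
  have hsq : ∀ᶠ L : ℝ in atTop, L ^ 2 ≤ Real.exp (4 / 5 * L) := by
    filter_upwards [(tendsto_id.const_mul_atTop (show (0 : ℝ) < 2 / 5 by norm_num)).eventually
      ((Real.tendsto_exp_div_pow_atTop 1).eventually_ge_atTop (5 / 2)), eventually_gt_atTop 0]
      with L hL hL0
    simp only [id, pow_one] at hL
    have h5 : L ≤ Real.exp (2 / 5 * L) := by
      rw [le_div_iff₀ (by positivity)] at hL
      linarith
    calc L ^ 2 ≤ Real.exp (2 / 5 * L) ^ 2 := by gcongr
      _ = Real.exp (4 / 5 * L) := by rw [← Real.exp_nat_mul]; ring_nf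
  filter_upwards [eventually_ge_atTop L₀, eventually_ge_atTop 16, hlog, hexp, hsq] with
    L hL0 hL16 hl1 hL12 hLsq
  intro H v X hX hH hA
  have hLpos : 0 < L := by linarith
  set w := ⌊L / 8⌋₊ with hw
  set W := primorial w with hW
  set A := (Icc 1 H).filter (fun h => ∀ p : ℕ, p.Prime → p ≤ w → ¬ p ∣ v + h) with hAdef
  have hWpos : 0 < W := primorial_pos w
  have hwL : (w : ℝ) ≤ L / 8 := Nat.floor_le (by positivity)
  have hpW : ∀ p : ℕ, p.Prime → p ≤ w → p ∣ W := by
    intro p hp hpw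
    rw [hW, primorial]
    exact dvd_prod_of_mem _ (mem_filter.2 ⟨mem_range.2 (by omega), hp⟩)
  have hWp : ∀ p : ℕ, p.Prime → p ∣ W → p ≤ w := by
    intro p hp hpW'
    rw [hW, primorial] at hpW'
    obtain ⟨q, hq, hpq⟩ := (hp.prime.dvd_finsetProd_iff _).1 hpW'
    have hq' := mem_filter.1 hq
    have : p = q := (Nat.prime_dvd_prime_iff_eq hp hq'.2).1 hpq
    have := mem_range.1 hq'.1
    omega
  have hWexp : (W : ℝ) ≤ Real.exp (L / 5) := by
    have h4 : (W : ℝ) ≤ 4 ^ w := by exact_mod_cast primorial_le_four_pow w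
    have h5 : (4 : ℝ) = Real.exp (Real.log 4) := (Real.exp_log (by norm_num)).symm
    have h6 : Real.log 4 ≤ 1.4 := by
      rw [show (4 : ℝ) = 2 ^ 2 by norm_num, Real.log_pow]
      have := Real.log_two_lt_d9
      push_cast
      linarith
    calc (W : ℝ) ≤ 4 ^ w := h4
      _ = Real.exp (w * Real.log 4) := by
        rw [Real.exp_nat_mul, Real.exp_log (by norm_num)]
      _ ≤ Real.exp (L / 5) := by
        apply Real.exp_le_exp.2
        have : (0 : ℝ) ≤ w := by positivity
        nlinarith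
  have hcard : (A.card : ℝ) ≤ κ * L := hA A (filter_subset _ _) (fun h hh => (mem_filter.1 hh).2)
  set Y := ⌈Real.exp (3 / 5 * L)⌉₊ with hY
  have hYge : Real.exp (3 / 5 * L) ≤ Y := Nat.le_ceil _
  have hexp1 : (1 : ℝ) ≤ Real.exp (3 / 5 * L) := Real.one_le_exp (by positivity)
  have hYle : (Y : ℝ) ≤ 2 * Real.exp (3 / 5 * L) := by
    have := Nat.ceil_lt_add_one (Real.exp_pos (3 / 5 * L)).le
    linarith
  obtain ⟨y, hy, hyA⟩ := hSC L W (v % W) Y A hL0 (by
    intro p hp hpd
    have h7 : (p : ℝ) ≤ w := by exact_mod_cast hWp p hp hpd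
    have h8 : (1 : ℝ) ≤ L ^ 2 := by nlinarith
    nlinarith) (by
    intro h hh
    have h9 : h ≤ H := (mem_Icc.1 (mem_filter.1 hh).1).2
    have : (h : ℝ) ≤ H := by exact_mod_cast h9
    linarith) hcard hYge
  rw [mem_Ioc] at hy
  have hvW : v % W < W := Nat.mod_lt _ hWpos
  have hYbig : ∀ p : ℕ, (p : ℝ) < Real.exp (3 / 5 * L) → ∀ h : ℕ, p < W * y + v % W + h := by
    intro p hp h
    have h10 : (p : ℝ) < Y := by linarith
    have h11 : p < Y := by exact_mod_cast h10
    have h11' : y ≤ W * y := Nat.le_mul_of_pos_left _ hWpos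
    omega
  refine h3 (W * y + v % W) H X ?_ ?_ ?_
  · have h12 : (2 : ℝ) < Real.exp (3 / 5 * L) := by
      have : Real.exp (L / 5) ≤ Real.exp (3 / 5 * L) := Real.exp_le_exp.2 (by linarith)
      linarith
    have := hYbig 2 (by exact_mod_cast h12) 0
    omega
  · have hXpos : (0 : ℝ) < X := by
      rcases Nat.eq_zero_or_pos X with h0 | h0
      · rw [h0] at hX
        simp at hX
        linarith
      · exact_mod_cast h0
    have hXe : (X : ℝ) = Real.exp L := by rw [← hX, Real.exp_log hXpos]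
    have h13 : (2 * ((W : ℝ) * y + ((v % W : ℕ) : ℝ) + H) : ℝ) ≤ X := by
      have e1 : (y : ℝ) ≤ 2 * Y := by exact_mod_cast hy.2
      have e2 : ((v % W : ℕ) : ℝ) ≤ W := by exact_mod_cast hvW.le
      have e3 : (W : ℝ) * y ≤ 4 * Real.exp (4 / 5 * L) := by
        calc (W : ℝ) * y ≤ Real.exp (L / 5) * (2 * (2 * Real.exp (3 / 5 * L))) := by
              gcongr
              linarith
          _ = 4 * Real.exp (4 / 5 * L) := by
            rw [show (4 / 5 * L : ℝ) = L / 5 + 3 / 5 * L by ring, Real.exp_add]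
            ring
      have e4 : (W : ℝ) ≤ Real.exp (4 / 5 * L) :=
        hWexp.trans (Real.exp_le_exp.2 (by linarith))
      have e5 : Real.exp L = Real.exp (L / 5) * Real.exp (4 / 5 * L) := by
        rw [← Real.exp_add]
        ring_nf
      rw [hXe, e5]
      have e6 : 0 < Real.exp (4 / 5 * L) := Real.exp_pos _
      nlinarith
    exact_mod_cast h13
  · intro n hn hnp
    rw [mem_Ioc] at hn
    obtain ⟨h, rfl⟩ : ∃ h, n = W * y + v % W + h := ⟨n - (W * y + v % W), by omega⟩
    have hh : h ∈ Icc 1 H := mem_Icc.2 ⟨by omega, by omega⟩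
    have hfin : ∀ p : ℕ, p.Prime → (p : ℝ) < Real.exp (3 / 5 * L) →
        ¬ p ∣ W * y + v % W + h := by
      intro p hp hpe hpd
      have h14 := hYbig p hpe h
      rcases (Nat.dvd_prime hnp).1 hpd with h15 | h15
      · exact hp.one_lt.ne' h15
      · omega
    by_cases hhA : h ∈ A
    · obtain ⟨p, hp, _, hple, hpd⟩ := hyA h hhA
      refine hfin p hp (lt_of_le_of_lt hple ?_) hpd
      apply Real.exp_lt_exp.2
      rw [div_lt_iff₀ (by positivity)]
      nlinarith
    · have : ∃ p : ℕ, p.Prime ∧ p ≤ w ∧ p ∣ v + h := by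
        by_contra hcon
        push Not at hcon
        exact hhA (mem_filter.2 ⟨hh, hcon⟩)
      obtain ⟨p, hp, hpw, hpd⟩ := this
      refine hfin p hp ?_ ?_
      · have h16 : (p : ℝ) ≤ w := by exact_mod_cast hpw
        have h17 := Real.add_one_le_exp (3 / 5 * L)
        linarith
      · have h18 : W * y + v % W + h ≡ v + h [MOD p] := by
          have h19 : W * y ≡ 0 [MOD p] :=
            (Nat.modEq_zero_iff_dvd.2 ((hpW p hp hpw).mul_right y))
          have h20 : v % W ≡ v [MOD p] := (Nat.mod_modEq v W).of_dvd (hpW p hp hpw)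
          have := (h19.add h20).add (Nat.ModEq.refl h)
          simpa using this
        exact (Nat.modEq_zero_iff_dvd.1 (h18.trans (Nat.modEq_zero_iff_dvd.2 hpd)))

end Pool.LGP
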