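import Mathlib
import Pool.Agent.Work.MP_b0c12c_nt_helper41.Mert

/-! # First step (Erdős–Rankin), part a: greedy choice, CRT, products over primes (helper85) -/

set_option autoImplicit false

open Finset

namespace Pool.Agent.Work.MP_b0c12c_gaps.FS

open Pool.Agent.Work.MP_b0c12c_nt_helper41

/-- greedy choice of residue classes -/
theorem greedy (P : Finset ℕ) (hP : ∀ p ∈ P, 0 < p) (T : Finset ℕ) :
    ∃ a : ℕ → ℕ, ((T.filter fun h => ∀ p ∈ P, ¬ p ∣ a p + h).card : ℝ) ≤
      T.card * ∏ p ∈ P, (1 - 1 / (p : ℝ)) := by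
  classical
  induction P using Finset.induction_on with
  | empty => exact ⟨fun _ => 0, by simp⟩
  | insert q P hq ih =>
    obtain ⟨a, ha⟩ := ih (fun p hp => hP p (mem_insert_of_mem hp))
    set T' := T.filter fun h => ∀ p ∈ P, ¬ p ∣ a p + h with hT'
    have hq0 : 0 < q := hP q (mem_insert_self _ _)
    -- a popular class
    have hsum : ∑ r ∈ range q, (T'.filter fun h => h % q = r).card = T'.card := by
      rw [← Finset.card_eq_sum_card_fiberwise]
      intro h _
      simp [Nat.mod_lt _ hq0]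
    have hex : ∃ r ∈ range q, (T'.card : ℝ) / q ≤ ((T'.filter fun h => h % q = r).card : ℝ) := by
      by_contra hcon
      push Not at hcon
      have h1 : ∑ r ∈ range q, ((T'.filter fun h => h % q = r).card : ℝ)
          < ∑ r ∈ range q, (T'.card : ℝ) / q :=
        Finset.sum_lt_sum_of_nonempty (by simpa using hq0.ne') hcon
      rw [Finset.sum_const, card_range, nsmul_eq_mul] at h1
      have h2 : ((∑ r ∈ range q, (T'.filter fun h => h % q = r).card : ℕ) : ℝ) = T'.card := by
        rw [hsum]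
      push_cast at h2
      rw [h2, mul_div_cancel₀ _ (by positivity)] at h1
      exact lt_irrefl _ h1
    obtain ⟨r, hr, hr2⟩ := hex
    rw [mem_range] at hr
    refine ⟨fun p => if p = q then q - r else a p, ?_⟩
    have hsub : (T.filter fun h => ∀ p ∈ insert q P, ¬ p ∣ (if p = q then q - r else a p) + h) ⊆
        T'.filter fun h => ¬ h % q = r := by
      intro h hh
      simp only [mem_filter, mem_insert, forall_eq_or_imp, if_true, hT'] at hh ⊢
      refine ⟨⟨hh.1, fun p hp => ?_⟩, fun hhr => ?_⟩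
      · have h1 := hh.2.2 p hp
        have h2 : p ≠ q := fun e => hq (e ▸ hp)
        rwa [if_neg h2] at h1
      · apply hh.2.1
        have h3 : h = q * (h / q) + r := by
          conv_lhs => rw [← Nat.div_add_mod h q]
          rw [hhr]
        rw [h3]
        refine ⟨h / q + 1, ?_⟩
        have : q - r + (q * (h / q) + r) = q * (h / q) + (q - r + r) := by ring
        rw [this, Nat.sub_add_cancel hr.le]
        ring
    have hcard : (((T'.filter fun h => ¬ h % q = r).card : ℕ) : ℝ) ≤ T'.card * (1 - 1 / (q : ℝ)) := by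
      have h1 : (T'.filter fun h => h % q = r).card + (T'.filter fun h => ¬ h % q = r).card
          = T'.card := Finset.card_filter_add_card_filter_not _
      have h2 : (((T'.filter fun h => h % q = r).card : ℕ) : ℝ)
          + ((T'.filter fun h => ¬ h % q = r).card : ℕ) = T'.card := by exact_mod_cast h1
      have h3 : (T'.card : ℝ) * (1 - 1 / (q : ℝ)) = T'.card - T'.card / q := by ring
      rw [h3]
      linarith
    have hprod : (0 : ℝ) ≤ 1 - 1 / (q : ℝ) := by
      have : (1 : ℝ) ≤ q := by exact_mod_cast hq0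
      rw [sub_nonneg, div_le_one (by linarith)]
      exact this
    calc _ ≤ (((T'.filter fun h => ¬ h % q = r).card : ℕ) : ℝ) := by
            exact_mod_cast Finset.card_le_card hsub
      _ ≤ T'.card * (1 - 1 / (q : ℝ)) := hcard
      _ ≤ (T.card * ∏ p ∈ P, (1 - 1 / (p : ℝ))) * (1 - 1 / (q : ℝ)) :=
          mul_le_mul_of_nonneg_right ha hprod
      _ = _ := by rw [Finset.prod_insert hq]; ring

/-- simultaneous congruences for primes -/
theorem crt (P : Finset ℕ) (hP : ∀ p ∈ P, p.Prime) (a : ℕ → ℕ) :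
    ∃ v : ℕ, v < ∏ p ∈ P, p ∧ ∀ p ∈ P, ∀ h : ℕ, p ∣ v + h ↔ p ∣ a p + h := by
  have hs : ∀ i ∈ P, (fun p : ℕ => p) i ≠ 0 := fun i hi => (hP i hi).ne_zero
  have pp : Set.Pairwise (P : Set ℕ) (Function.onFun Nat.Coprime (fun p : ℕ => p)) := by
    intro p hp q hq hpq
    exact (Nat.coprime_primes (hP p hp) (hP q hq)).2 hpq
  refine ⟨Nat.chineseRemainderOfFinset a (fun p => p) P hs pp,
    Nat.chineseRemainderOfFinset_lt_prod a (fun p => p) hs pp, fun p hp h => ?_⟩
  have h1 := (Nat.chineseRemainderOfFinset a (fun p => p) P hs pp).2 p hp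
  exact (Nat.ModEq.add_right h h1).dvd_iff dvd_rfl

/-- sum of reciprocals of primes from above and below -/
theorem sum_inv : ∃ C : ℝ, 0 < C ∧ ∀ y : ℕ, 2 ≤ y →
    |∑ p ∈ (Icc 1 y).filter Nat.Prime, 1 / (p : ℝ) - Real.log (Real.log y)| ≤ C := by
  obtain ⟨C, hC, h⟩ := mertens2
  refine ⟨C / Real.log 2 + |Real.log (Real.log 2)| + 1, by positivity, fun y hy => ?_⟩
  have h1 := h 2 y le_rfl hy
  have h2 : ∑ p ∈ (Icc 1 y).filter Nat.Prime, 1 / (p : ℝ)
      = 1 / 2 + ∑ p ∈ (Ioc 2 y).filter Nat.Prime, 1 / (p : ℝ) := by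
    have e : (Icc 1 y).filter Nat.Prime = insert 2 ((Ioc 2 y).filter Nat.Prime) := by
      ext p
      simp only [mem_filter, mem_Icc, mem_insert, mem_Ioc]
      constructor
      · rintro ⟨⟨ha, hb⟩, hc⟩
        have := hc.two_le
        rcases eq_or_lt_of_le this with h3 | h3
        · exact Or.inl h3.symm
        · exact Or.inr ⟨⟨h3, hb⟩, hc⟩
      · rintro (rfl | ⟨⟨ha, hb⟩, hc⟩)
        · exact ⟨⟨by norm_num, hy⟩, Nat.prime_two⟩
        · exact ⟨⟨by omega, hb⟩, hc⟩
    rw [e, Finset.sum_insert (by simp)]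
    norm_num
  rw [h2]
  push_cast at h1
  have h3 := abs_le.1 h1
  have h4 := neg_abs_le (Real.log (Real.log 2))
  have h5 := le_abs_self (Real.log (Real.log 2))
  have h6 : 0 ≤ C / Real.log 2 := by positivity
  rw [abs_le]
  constructor <;> linarith [h3.1, h3.2]

end Pool.Agent.Work.MP_b0c12c_gaps.FS
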