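import Pool.Agent.Work.MP_b0c12c_gaps.FSa

/-! # First step (Erdős–Rankin), part b: Rankin's bound for smooth numbers (helper85) -/

set_option autoImplicit false

open Finset

namespace Pool.Agent.Work.MP_b0c12c_gaps.FS

open Pool.Agent.Work.MP_b0c12c_nt_helper41

/-- `n ↦ n^(-σ)` -/
noncomputable def pw (σ : ℝ) : ℕ →* ℝ where
  toFun n := (n : ℝ) ^ (-σ)
  map_one' := by simp
  map_mul' a b := by
    push_cast
    rw [Real.mul_rpow (Nat.cast_nonneg a) (Nat.cast_nonneg b)]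

theorem pw_lt_one {σ : ℝ} (hσ : 0 < σ) {p : ℕ} (hp : p.Prime) : ‖pw σ p‖ < 1 := by
  have h1 : (1 : ℝ) < p := by exact_mod_cast hp.one_lt
  change ‖(p : ℝ) ^ (-σ)‖ < 1
  rw [Real.norm_of_nonneg (Real.rpow_nonneg (by linarith) _)]
  exact Real.rpow_lt_one_of_one_lt_of_neg h1 (by linarith)

theorem rankin0 (σ : ℝ) (hσ : 0 < σ) (y H : ℕ) :
    (((Icc 1 H).filter fun n => n ∈ Nat.smoothNumbers (y + 1)).card : ℝ) ≤
      (H : ℝ) ^ σ * ∏ p ∈ Nat.primesBelow (y + 1), (1 - (p : ℝ) ^ (-σ))⁻¹ := by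
  classical
  set S := (Icc 1 H).filter fun n => n ∈ Nat.smoothNumbers (y + 1) with hS
  have hlt : ∀ {p : ℕ}, p.Prime → ‖(pw σ) p‖ < 1 := fun {p} hp => pw_lt_one hσ hp
  have hsum := (EulerProduct.summable_and_hasSum_smoothNumbers_prod_primesBelow_geometric
    (f := pw σ) hlt (y + 1)).2
  have h1 : ∑ n ∈ S, (n : ℝ) ^ (-σ) ≤ ∏ p ∈ Nat.primesBelow (y + 1), (1 - (p : ℝ) ^ (-σ))⁻¹ := by
    have h2 : ∑ m ∈ S.subtype (· ∈ Nat.smoothNumbers (y + 1)), pw σ m ≤
        ∏ p ∈ Nat.primesBelow (y + 1), (1 - pw σ p)⁻¹ := by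
      refine sum_le_hasSum _ (fun m _ => ?_) hsum
      exact Real.rpow_nonneg (Nat.cast_nonneg _) _
    have h3 := Finset.sum_subtype_of_mem (fun n : ℕ => pw σ n)
      (s := S) (p := (· ∈ Nat.smoothNumbers (y + 1))) (fun n hn => (mem_filter.1 hn).2)
    rw [h3] at h2
    exact h2
  have h4 : (S.card : ℝ) ≤ ∑ n ∈ S, (H : ℝ) ^ σ * (n : ℝ) ^ (-σ) := by
    have : (S.card : ℝ) = ∑ n ∈ S, (1 : ℝ) := by simp
    rw [this]
    refine Finset.sum_le_sum fun n hn => ?_
    rw [hS, mem_filter, mem_Icc] at hn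
    have hn0 : (0 : ℝ) < n := by exact_mod_cast hn.1.1
    have hnH : (n : ℝ) ≤ H := by exact_mod_cast hn.1.2
    rw [Real.rpow_neg hn0.le, ← div_eq_mul_inv, le_div_iff₀ (Real.rpow_pos_of_pos hn0 _), one_mul]
    exact Real.rpow_le_rpow hn0.le hnH hσ.le
  rw [← Finset.mul_sum] at h4
  exact h4.trans (mul_le_mul_of_nonneg_left h1 (Real.rpow_nonneg (Nat.cast_nonneg _) _))

theorem inv_le_exp {x : ℝ} (h1 : x ≤ 3 / 4) (h0 : 0 ≤ x) : (1 - x)⁻¹ ≤ Real.exp (4 * x) := by
  have hpos : 0 < 1 - x := by linarith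
  have h2 := Real.one_sub_inv_le_log_of_pos hpos
  have h3 : (1 - x)⁻¹ - 1 ≤ 4 * x := by
    have : (1 - x)⁻¹ - 1 = x / (1 - x) := by field_simp; ring
    rw [this, div_le_iff₀ hpos]
    nlinarith
  rw [← Real.exp_log (inv_pos.2 hpos), Real.log_inv]
  exact Real.exp_le_exp.2 (by linarith)

theorem rankin : ∃ C : ℝ, 0 < C ∧ ∀ (y H : ℕ) (D : ℝ), 2 ≤ y → 0 ≤ D → D ≤ 1 / 2 →
    (((Icc 1 H).filter fun n => n ∈ Nat.smoothNumbers (y + 1)).card : ℝ) ≤
      (H : ℝ) ^ (1 - D) * Real.exp (4 * (Real.log (Real.log y) + C + C * Real.exp (D * Real.log y))) := by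
  obtain ⟨C1, hC1, h1⟩ := sum_inv
  obtain ⟨C2, hC2, h2⟩ := mertens1
  have hl2 : 0 < Real.log 2 := Real.log_pos (by norm_num)
  set C := C1 + (1 + C2 / Real.log 2) with hC
  refine ⟨C, by positivity, fun y H D hy hD0 hD => ?_⟩
  have hσ : 0 < 1 - D := by linarith
  refine (rankin0 (1 - D) hσ y H).trans ?_
  refine mul_le_mul_of_nonneg_left ?_ (Real.rpow_nonneg (Nat.cast_nonneg _) _)
  have hset : Nat.primesBelow (y + 1) = (Icc 1 y).filter Nat.Prime := by
    ext p
    simp only [Nat.mem_primesBelow, mem_filter, mem_Icc]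
    constructor
    · rintro ⟨a, b⟩; exact ⟨⟨b.one_lt.le, by omega⟩, b⟩
    · rintro ⟨⟨a, b⟩, c⟩; exact ⟨by omega, c⟩
  rw [hset]
  set P := (Icc 1 y).filter Nat.Prime with hP
  have hly : 0 < Real.log y := Real.log_pos (by exact_mod_cast (by omega : 1 < y))
  have hly2 : Real.log 2 ≤ Real.log y := Real.log_le_log (by norm_num) (by exact_mod_cast hy)
  set E := Real.exp (D * Real.log y) with hE
  have hE1 : 1 ≤ E := Real.one_le_exp (by positivity)
  have hterm : ∀ p ∈ P, (p : ℝ) ^ (-(1 - D)) ≤ 1 / p + (E - 1) / Real.log y * (Real.log p / p) := by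
    intro p hp
    rw [hP, mem_filter, mem_Icc] at hp
    have hp1 : (1 : ℝ) ≤ p := by exact_mod_cast hp.1.1
    have hp0 : (0 : ℝ) < p := by linarith
    have hlp : 0 ≤ Real.log p := Real.log_nonneg hp1
    have hlpy : Real.log p ≤ Real.log y := Real.log_le_log hp0 (by exact_mod_cast hp.1.2)
    have e1 : (p : ℝ) ^ (-(1 - D)) = 1 / p * Real.exp (D * Real.log p) := by
      have e0 : (1 : ℝ) / p = Real.exp (-Real.log p) := by
        rw [Real.exp_neg, Real.exp_log hp0, one_div]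
      rw [Real.rpow_def_of_pos hp0, e0, ← Real.exp_add]
      congr 1; ring
    set s := Real.log p / Real.log y with hs
    have hs0 : 0 ≤ s := by positivity
    have hs1 : s ≤ 1 := (div_le_one hly).2 hlpy
    have hconv : Real.exp (D * Real.log p) ≤ 1 + s * (E - 1) := by
      have h := convexOn_exp.2 (Set.mem_univ (0 : ℝ)) (Set.mem_univ (D * Real.log y))
        (sub_nonneg.2 hs1) hs0 (by ring)
      simp only [smul_eq_mul, mul_zero, zero_add, Real.exp_zero, mul_one] at h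
      have e2 : s * (D * Real.log y) = D * Real.log p := by
        rw [hs]; field_simp
      rw [e2] at h
      rw [hE]
      linarith
    rw [e1]
    have h3 : 1 / (p : ℝ) * Real.exp (D * Real.log p) ≤ 1 / p * (1 + s * (E - 1)) :=
      mul_le_mul_of_nonneg_left hconv (by positivity)
    have h4 : 1 / (p : ℝ) * (1 + s * (E - 1)) = 1 / p + (E - 1) / Real.log y * (Real.log p / p) := by
      rw [hs]; ring
    linarith
  have hsum : ∑ p ∈ P, (p : ℝ) ^ (-(1 - D)) ≤ Real.log (Real.log y) + C + C * E := by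
    have h3 := Finset.sum_le_sum hterm
    rw [Finset.sum_add_distrib, ← Finset.mul_sum] at h3
    have h4 := (abs_le.1 (h1 y hy)).2
    have h5 := (abs_le.1 (h2 y (by omega))).2
    have h6 : ∑ p ∈ P, Real.log p / p ≤ Real.log y + C2 := by
      have : ∑ p ∈ P, Real.log p / p = FF y := rfl
      rw [this]; linarith
    have h7 : (E - 1) / Real.log y * ∑ p ∈ P, Real.log p / p ≤ C * E := by
      have h8 : (E - 1) / Real.log y * ∑ p ∈ P, Real.log p / p
          ≤ (E - 1) / Real.log y * (Real.log y + C2) :=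
        mul_le_mul_of_nonneg_left h6 (div_nonneg (by linarith) hly.le)
      have h9 : (E - 1) / Real.log y * (Real.log y + C2) = (E - 1) * (1 + C2 / Real.log y) := by
        field_simp
      have h10 : C2 / Real.log y ≤ C2 / Real.log 2 :=
        div_le_div_of_nonneg_left hC2.le hl2 hly2
      have h11 : (E - 1) * (1 + C2 / Real.log y) ≤ E * C := by
        refine mul_le_mul (by linarith) ?_ (by positivity) (by linarith)
        rw [hC]; linarith
      linarith [mul_comm E C]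
    have hCC : C1 ≤ C := by rw [hC]; have : 0 ≤ C2 / Real.log 2 := by positivity
                            linarith
    linarith
  have hprod : ∏ p ∈ P, (1 - (p : ℝ) ^ (-(1 - D)))⁻¹ ≤ ∏ p ∈ P, Real.exp (4 * (p : ℝ) ^ (-(1 - D))) := by
    refine Finset.prod_le_prod (fun p hp => ?_) (fun p hp => ?_)
    · rw [hP, mem_filter] at hp
      have h3 := pw_lt_one hσ hp.2
      change ‖(p : ℝ) ^ (-(1 - D))‖ < 1 at h3
      rw [Real.norm_eq_abs] at h3
      have h4 := (abs_lt.1 h3).2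
      exact inv_nonneg.2 (by linarith)
    · rw [hP, mem_filter] at hp
      have hp2 : (2 : ℝ) ≤ p := by exact_mod_cast hp.2.two_le
      refine inv_le_exp ?_ (Real.rpow_nonneg (Nat.cast_nonneg _) _)
      have h3 : (p : ℝ) ^ (-(1 - D)) ≤ (2 : ℝ) ^ (-(1 - D)) := by
        rw [Real.rpow_neg (by linarith), Real.rpow_neg (by norm_num)]
        exact inv_anti₀ (by positivity) (Real.rpow_le_rpow (by norm_num) hp2 (by linarith))
      have h4 : (2 : ℝ) ^ (-(1 - D)) ≤ (2 : ℝ) ^ (-(1 / 2 : ℝ)) :=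
        Real.rpow_le_rpow_of_exponent_le (by norm_num) (by linarith)
      have h5 : (2 : ℝ) ^ (-(1 / 2 : ℝ)) ≤ 3 / 4 := by
        rw [Real.rpow_neg (by norm_num), ← Real.sqrt_eq_rpow]
        have : (4 / 3 : ℝ) ≤ Real.sqrt 2 := Real.le_sqrt_of_sq_le (by norm_num)
        calc (Real.sqrt 2)⁻¹ ≤ (4 / 3 : ℝ)⁻¹ := inv_anti₀ (by norm_num) this
          _ = 3 / 4 := by norm_num
      linarith
  refine hprod.trans ?_
  rw [← Real.exp_sum, ← Finset.mul_sum]
  exact Real.exp_le_exp.2 (by linarith)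

end Pool.Agent.Work.MP_b0c12c_gaps.FS
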