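import Pool.Agent.Work.MP_b0c12c_gaps.B_ACT
import Pool.Agent.Work.MP_b0c12c_gaps.B_BBD
import Pool.Agent.Work.MP_b0c12c_gaps.B_BST
import Pool.Agent.Work.MP_b0c12c_gaps.B_BUP
import Pool.Agent.Work.MP_b0c12c_gaps.B_CHB
import Pool.Agent.Work.MP_b0c12c_gaps.B_CNT
import Pool.Agent.Work.MP_b0c12c_gaps.B_CORE
import Pool.Agent.Work.MP_b0c12c_gaps.B_CRT
import Pool.Agent.Work.MP_b0c12c_gaps.B_ERR
import Pool.Agent.Work.MP_b0c12c_gaps.B_EXP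
import Pool.Agent.Work.MP_b0c12c_gaps.B_FINA
import Pool.Agent.Work.MP_b0c12c_gaps.B_FINB
import Pool.Agent.Work.MP_b0c12c_gaps.B_GAP
import Pool.Agent.Work.MP_b0c12c_gaps.B_GRM
import Pool.Agent.Work.MP_b0c12c_gaps.B_GSH
import Pool.Agent.Work.MP_b0c12c_gaps.B_INJ
import Pool.Agent.Work.MP_b0c12c_gaps.B_L2
import Pool.Agent.Work.MP_b0c12c_gaps.B_MKV
import Pool.Agent.Work.MP_b0c12c_gaps.B_NCO
import Pool.Agent.Work.MP_b0c12c_gaps.B_NUM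
import Pool.Agent.Work.MP_b0c12c_gaps.B_PEZ
import Pool.Agent.Work.MP_b0c12c_gaps.B_PRD
import Pool.Agent.Work.MP_b0c12c_gaps.B_PSM
import Pool.Agent.Work.MP_b0c12c_gaps.B_QLO
import Pool.Agent.Work.MP_b0c12c_gaps.B_QSM
import Pool.Agent.Work.MP_b0c12c_gaps.B_RGH
import Pool.Agent.Work.MP_b0c12c_gaps.B_ROW
import Pool.Agent.Work.MP_b0c12c_gaps.B_SC
import Pool.Agent.Work.MP_b0c12c_gaps.B_STG
import Pool.Agent.Work.MP_b0c12c_gaps.B_TAI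
import Pool.Agent.Work.MP_b0c12c_gaps.B_TRF
import Pool.Agent.Work.MP_b0c12c_gaps.B_UAB
import Pool.Agent.Work.MP_b0c12c_gaps.B_UEX
import Pool.Agent.Work.MP_b0c12c_gaps.B_VLO
import Pool.Agent.Work.MP_b0c12c_gaps.B_VUP
import Pool.Agent.Work.MP_b0c12c_gaps.B_WTF

/-! # Composition of all blocks: Theorems A and B (helper4) -/

set_option autoImplicit false

namespace Pool.LGP

theorem cnt : Stmt_CNT := p_CNT p_CRT
theorem l2 : Stmt_L2 := p_L2 (p_GRM (p_EXP cnt)) (p_GSH p_ROW) p_NUM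
theorem tai : Stmt_TAI := p_TAI p_INJ p_WTF p_QSM
theorem bbd : Stmt_BBD := p_BBD p_BST p_ACT
theorem qlo : Stmt_QLO := p_QLO p_NCO tai p_QSM p_WTF
theorem bup : Stmt_BUP := p_BUP bbd tai p_INJ p_WTF p_QSM
theorem err : Stmt_ERR := p_ERR p_INJ p_WTF p_NUM p_ACT
theorem core : Stmt_CORE := p_CORE l2 p_RGH p_PEZ qlo bup err bbd p_ACT p_QSM
theorem uex : Stmt_UEX := p_UEX (p_VLO p_PRD p_PSM p_MKV) (p_VUP p_PRD) p_UAB
theorem sc : Stmt_SC := p_SC core uex p_TRF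
theorem finA : Stmt_FINA := p_FINA sc p_CHB p_GAP
theorem finB : Stmt_FINB := p_FINB sc p_STG p_GAP

end Pool.LGP
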