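import Pool.Agent.Work.MP_b0c12c_gaps.B_ACT
import Pool.Agent.Work.MP_b0c12c_gaps.B_BBD
import Pool.Agent.Work.MP_b0c12c_gaps.B_BST
import Pool.Agent.Work.MP_b0c12c_gaps.B_BUP
import Pool.Agent.Work.MP_b0c12c_gaps.B_CNT
import Pool.Agent.Work.MP_b0c12c_gaps.B_CORE
import Pool.Agent.Work.MP_b0c12c_gaps.B_CRT
import Pool.Agent.Work.MP_b0c12c_gaps.B_ERR
import Pool.Agent.Work.MP_b0c12c_gaps.B_EXP
import Pool.Agent.Work.MP_b0c12c_gaps.B_FINC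
import Pool.Agent.Work.MP_b0c12c_gaps.B_GRM
import Pool.Agent.Work.MP_b0c12c_gaps.B_GSH
import Pool.Agent.Work.MP_b0c12c_gaps.B_INJ
import Pool.Agent.Work.MP_b0c12c_gaps.B_L2
import Pool.Agent.Work.MP_b0c12c_gaps.B_MKV
import Pool.Agent.Work.MP_b0c12c_gaps.B_NCO
import Pool.Agent.Work.MP_b0c12c_gaps.B_NUM
import Pool.Agent.Work.MP_b0c12c_gaps.B_PEZ
import Pool.Agent.Work.MP_b0c12c_gaps.B_PRD
import Pool.Agent.Work.MP_b0c12c_gaps.B_PSM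
import Pool.Agent.Work.MP_b0c12c_gaps.B_QLO
import Pool.Agent.Work.MP_b0c12c_gaps.B_QSM
import Pool.Agent.Work.MP_b0c12c_gaps.B_RGH
import Pool.Agent.Work.MP_b0c12c_gaps.B_ROW
import Pool.Agent.Work.MP_b0c12c_gaps.B_SCE
import Pool.Agent.Work.MP_b0c12c_gaps.B_STG
import Pool.Agent.Work.MP_b0c12c_gaps.B_TAI
import Pool.Agent.Work.MP_b0c12c_gaps.B_TRF
import Pool.Agent.Work.MP_b0c12c_gaps.B_UAB
import Pool.Agent.Work.MP_b0c12c_gaps.B_UEXM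
import Pool.Agent.Work.MP_b0c12c_gaps.B_VLO
import Pool.Agent.Work.MP_b0c12c_gaps.B_VUP
import Pool.Agent.Work.MP_b0c12c_gaps.B_WTF

/-!
# Large gaps between primes: assembly (helper54)
-/

set_option autoImplicit false

namespace Pool.LGP

theorem f_TRF : Stmt_TRF := p_TRF

theorem f_PRD : Stmt_PRD := p_PRD

theorem f_PSM : Stmt_PSM := p_PSM

theorem f_MKV : Stmt_MKV := p_MKV

theorem f_VLO : Stmt_VLO := p_VLO f_PRD f_PSM f_MKV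

theorem f_VUP : Stmt_VUP := p_VUP f_PRD

theorem f_UAB : Stmt_UAB := p_UAB

theorem f_UEXM : Stmt_UEXM := p_UEXM f_VLO f_VUP f_UAB

theorem f_CRT : Stmt_CRT := p_CRT

theorem f_CNT : Stmt_CNT := p_CNT f_CRT

theorem f_EXP : Stmt_EXP := p_EXP f_CNT

theorem f_GRM : Stmt_GRM := p_GRM f_EXP

theorem f_ROW : Stmt_ROW := p_ROW

theorem f_GSH : Stmt_GSH := p_GSH f_ROW

theorem f_NUM : Stmt_NUM := p_NUM

theorem f_L2 : Stmt_L2 := p_L2 f_GRM f_GSH f_NUM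

theorem f_RGH : Stmt_RGH := p_RGH

theorem f_PEZ : Stmt_PEZ := p_PEZ

theorem f_NCO : Stmt_NCO := p_NCO

theorem f_INJ : Stmt_INJ := p_INJ

theorem f_WTF : Stmt_WTF := p_WTF

theorem f_QSM : Stmt_QSM := p_QSM

theorem f_TAI : Stmt_TAI := p_TAI f_INJ f_WTF f_QSM

theorem f_QLO : Stmt_QLO := p_QLO f_NCO f_TAI f_QSM f_WTF

theorem f_BST : Stmt_BST := p_BST

theorem f_ACT : Stmt_ACT := p_ACT

theorem f_BBD : Stmt_BBD := p_BBD f_BST f_ACT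

theorem f_BUP : Stmt_BUP := p_BUP f_BBD f_TAI f_INJ f_WTF f_QSM

theorem f_ERR : Stmt_ERR := p_ERR f_INJ f_WTF f_NUM f_ACT

theorem f_CORE : Stmt_CORE := p_CORE f_L2 f_RGH f_PEZ f_QLO f_BUP f_ERR f_BBD f_ACT f_QSM

theorem f_SCE : Stmt_SCE := p_SCE f_TRF f_UEXM f_CORE

theorem f_STG : Stmt_STG := p_STG

theorem f_FINC : Stmt_FINC := p_FINC f_SCE f_STG

end Pool.LGP

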