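import Pool.Agent.Work.MP_b0c12c_gaps.Defs

/-! # Large gaps between primes: statements of the blocks (helper11, note 2716)

Block `X` lives in `B_X.lean` (import this file, namespace `Pool.LGP`) and proves
`theorem p_X : Stmt_X` or `theorem p_X (h1 : Stmt_Y) ... : Stmt_X` with the statements of the
column `uses` as hypotheses, in that order. -/

set_option autoImplicit false

namespace Pool.LGP

open Finset Filter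

/-- Indicator of divisibility. -/
def Sys.il {π ι : Type} (S : Sys π ι) (x : π) : Option ι → ℕ → ℝ
  | none, _ => 1
  | some h, y => if S.pr x ∣ S.N h y then 1 else 0

/-! ## Part 1: means over `(Y, 2Y]` -/

/-- CRT: the congruences of a configuration are one congruence modulo `|ρ|`. -/
def Stmt_CRT : Prop :=
  ∀ (π ι : Type) [Fintype π] (S : Sys π ι), S.Good → ∀ ρ : π → Option ι,
    ∃ c : ℕ, ∀ y, (∀ x h, ρ x = some h → S.pr x ∣ S.N h y) ↔ y ≡ c [MOD S.szn ρ]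

/-- CNT: counting in `(Y, 2Y]`. -/
def Stmt_CNT : Prop :=
  ∀ (π ι : Type) [Fintype π] (S : Sys π ι), S.Good → ∀ (ρ : π → Option ι) (Y : ℕ),
    |∑ y ∈ Ioc Y (2 * Y), ∏ x, S.il x (ρ x) y - (Y : ℝ) / S.szn ρ| ≤ 1

/-- EXP: products of local functions. -/
def Stmt_EXP : Prop :=
  ∀ (π ι : Type) [Fintype π] [DecidableEq π] [Fintype ι] (S : Sys π ι), S.Good →
    ∀ (α : π → ℝ) (β : π → ι → ℝ) (Y : ℕ),
    |∑ y ∈ Ioc Y (2 * Y), ∏ x, (α x + ∑ h, β x h * S.il x (some h) y) -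
      Y * ∏ x, (α x + ∑ h, β x h / S.pr x)| ≤ ∏ x, (|α x| + ∑ h, |β x h|)

/-- GRM: the Gram matrix of the `psi`. -/
def Stmt_GRM : Prop :=
  ∀ (π ι : Type) [Fintype π] [DecidableEq π] [Fintype ι] [DecidableEq ι] (S : Sys π ι), S.Good →
    ∀ (ρ σ : π → Option ι) (Y : ℕ),
    |∑ y ∈ Ioc Y (2 * Y), S.psi ρ y * S.psi σ y - Y * S.Gm ρ σ| ≤ S.ez ρ * S.ez σ

/-- ROW: row sums of the Gram matrix. -/
def Stmt_ROW : Prop :=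
  ∀ (π ι : Type) [Fintype π] [DecidableEq π] [Fintype ι] [DecidableEq ι] (S : Sys π ι), S.Good →
    ∀ ρ : π → Option ι, ∑ σ, |S.Gm ρ σ| = S.row (Fintype.card ι) ρ

/-- GSH: Gershgorin (Schur test). -/
def Stmt_GSH : Prop :=
  ∀ (π ι : Type) [Fintype π] [DecidableEq π] [Fintype ι] [DecidableEq ι] (S : Sys π ι), S.Good →
    ∀ a : (π → Option ι) → ℝ,
    ∑ ρ, ∑ σ, a ρ * a σ * S.Gm ρ σ ≤ ∑ ρ, a ρ ^ 2 * S.row (Fintype.card ι) ρ ∧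
    ∑ ρ, a ρ ^ 2 * (2 * S.Gm ρ ρ - S.row (Fintype.card ι) ρ) ≤ ∑ ρ, ∑ σ, a ρ * a σ * S.Gm ρ σ

/-- NUM: with few active primes, all large, the three weights are comparable to `|ρ|`. -/
def Stmt_NUM : Prop :=
  ∀ (π ι : Type) [Fintype π] [DecidableEq ι] (S : Sys π ι), S.Good → ∀ (k : ℕ) (z : ℝ),
    3 ≤ z → (∀ x, z ≤ S.pr x) → ∀ ρ : π → Option ι, 8 * (act ρ : ℝ) * (k + 1) ≤ z →
    S.row k ρ ≤ 2 * S.szn ρ ∧ (S.szn ρ : ℝ) / 2 ≤ 2 * S.Gm ρ ρ - S.row k ρ ∧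
      S.ez ρ ≤ 2 * S.szn ρ

/-- ACT: the number of active primes. -/
def Stmt_ACT : Prop :=
  ∀ (π ι : Type) [Fintype π] (S : Sys π ι) (D : ℝ),
    (∀ x, (3 : ℝ) ≤ S.pr x) → ∀ ρ : π → Option ι, (S.szn ρ : ℝ) ≤ D → (act ρ : ℝ) ≤ Real.log D

/-- L2: mean squares over `(Y, 2Y]`. -/
def Stmt_L2 : Prop :=
  ∀ (π ι : Type) [Fintype π] [DecidableEq π] [Fintype ι] [DecidableEq ι] (S : Sys π ι), S.Good →
    ∀ (z : ℝ), 3 ≤ z → (∀ x, z ≤ S.pr x) → ∀ a : (π → Option ι) → ℝ,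
    (∀ ρ, a ρ ≠ 0 → 8 * (act ρ : ℝ) * (Fintype.card ι + 1) ≤ z) → ∀ Y : ℕ,
    ∑ y ∈ Ioc Y (2 * Y), (∑ ρ, a ρ * S.psi ρ y) ^ 2 ≤
      2 * Y * ∑ ρ, a ρ ^ 2 * S.szn ρ + (∑ ρ, |a ρ| * S.ez ρ) ^ 2 ∧
    Y / 2 * ∑ ρ, a ρ ^ 2 * S.szn ρ - (∑ ρ, |a ρ| * S.ez ρ) ^ 2 ≤
      ∑ y ∈ Ioc Y (2 * Y), (∑ ρ, a ρ * S.psi ρ y) ^ 2

/-! ## Part 2: the rough identity and the coefficients -/

/-- RGH: if no prime divides `N m y`, the label `m` can be erased. -/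
def Stmt_RGH : Prop :=
  ∀ (π ι : Type) [Fintype π] [DecidableEq π] [Fintype ι] [DecidableEq ι] (S : Sys π ι)
    (a : (π → Option ι) → ℝ) (m : ι) (y : ℕ), (∀ x, ¬ S.pr x ∣ S.N m y) →
    ∑ ρ, a ρ * S.psi ρ y = ∑ σ, push m a σ * S.psi σ y

/-- PEZ: pushing forward does not increase the error weight. -/
def Stmt_PEZ : Prop :=
  ∀ (π ι : Type) [Fintype π] [DecidableEq π] [Fintype ι] [DecidableEq ι] (S : Sys π ι)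
    (a : (π → Option ι) → ℝ) (m : ι),
    ∑ σ, |push m a σ| * S.ez σ ≤ ∑ ρ, |a ρ| * S.ez ρ

/-- WTF: sizes are products over the fibres. -/
def Stmt_WTF : Prop :=
  ∀ (π ι : Type) [Fintype π] [DecidableEq π] [Fintype ι] [DecidableEq ι] (S : Sys π ι)
    (ρ : π → Option ι), (S.szn ρ : ℝ) = ∏ h, S.wt (fib ρ h) ∧
    ∀ u : Finset π → ℝ, (∏ h, gg u (fib ρ h)) ^ 2 * S.szn ρ = ∏ h, S.qq u (fib ρ h)

/-- BST: the pushed coefficients of `aa`. -/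
def Stmt_BST : Prop :=
  ∀ (π ι : Type) [Fintype π] [DecidableEq π] [Fintype ι] [DecidableEq ι] (S : Sys π ι)
    (u : Finset π → ℝ) (D : ℝ) (m : ι) (σ : π → Option ι),
    ((∃ x, σ x = some m) → push m (S.aa u D) σ = 0) ∧
    ((∀ x, σ x ≠ some m) → push m (S.aa u D) σ =
      (∏ h ∈ univ.erase m, gg u (fib σ h)) *
        ∑ T : Finset π, open Classical in
          if (∀ x ∈ T, σ x = none) ∧ (S.szn σ : ℝ) * S.wt T ≤ D then gg u T else 0)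

/-- BBD: bound for the pushed coefficients. -/
def Stmt_BBD : Prop :=
  ∀ (π ι : Type) [Fintype π] [DecidableEq π] [Fintype ι] [DecidableEq ι] (S : Sys π ι)
    (u : Finset π → ℝ) (a b C K D z : ℝ), Uok S u a b C K → 3 ≤ z → (∀ x, z ≤ S.pr x) →
    0 ≤ K → 1 ≤ b → b ≤ D → ∀ (m : ι) (σ : π → Option ι),
    |push m (S.aa u D) σ| ≤ (∏ h, |gg u (fib σ h)|) *
      (Real.log D * K / z + open Classical in if D / b < S.szn σ then 1 else 0) ∧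
    (push m (S.aa u D) σ ≠ 0 → (S.szn σ : ℝ) ≤ D)

/-! ## Part 3: sums over configurations -/

/-- INJ: configurations are among the tuples of sets. -/
def Stmt_INJ : Prop :=
  ∀ (π ι : Type) [Fintype π] [DecidableEq π] [Fintype ι] [DecidableEq ι]
    (f : Finset π → ℝ), (∀ T, 0 ≤ f T) →
    ∑ ρ : π → Option ι, ∏ h, f (fib ρ h) ≤ (∑ T, f T) ^ Fintype.card ι

/-- NCO: the tuples of sets which are not pairwise disjoint. -/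
def Stmt_NCO : Prop :=
  ∀ (π ι : Type) [Fintype π] [DecidableEq π] [Fintype ι] [DecidableEq ι]
    (f : Finset π → ℝ), (∀ T, 0 ≤ f T) → 1 ≤ ∑ T, f T →
    (∑ T, f T) ^ Fintype.card ι *
      (1 - (Fintype.card ι : ℝ) ^ 2 * ∑ x, (∑ T, if x ∈ T then f T else 0) ^ 2) ≤
    ∑ ρ : π → Option ι, ∏ h, f (fib ρ h)

/-- QSM: properties of the mass `qq`. -/
def Stmt_QSM : Prop :=
  ∀ (π ι : Type) [Fintype π] [DecidableEq π] (S : Sys π ι)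
    (u : Finset π → ℝ) (a b C K : ℝ), Uok S u a b C K → (∀ x, 0 < S.pr x) →
    (∀ T, 0 ≤ S.qq u T) ∧ 1 ≤ S.Q1 u ∧
      ∀ x, ∑ T, (if x ∈ T then S.qq u T else 0) ≤ K / S.pr x

/-- TAI: the tail (Chernoff). -/
def Stmt_TAI : Prop :=
  ∀ (π ι : Type) [Fintype π] [DecidableEq π] [Fintype ι] [DecidableEq ι] (S : Sys π ι)
    (u : Finset π → ℝ) (a b C K D : ℝ), Uok S u a b C K → (∀ x, 0 < S.pr x) →
    1 < b → 1 ≤ D → 0 ≤ C → (Fintype.card ι : ℝ) * Real.exp 2 * C ≤ Real.log D / 2 →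
    ∑ ρ : π → Option ι, (open Classical in if D < S.szn ρ then ∏ h, S.qq u (fib ρ h) else 0) ≤
      Real.exp (-(Real.log D / Real.log b)) * S.Q1 u ^ Fintype.card ι

/-- QLO: lower bound for the main quadratic form. -/
def Stmt_QLO : Prop :=
  ∀ (π ι : Type) [Fintype π] [DecidableEq π] [Fintype ι] [DecidableEq ι] (S : Sys π ι), S.Good →
    ∀ (u : Finset π → ℝ) (a b C K D z : ℝ), Uok S u a b C K → 3 ≤ z → (∀ x, z ≤ S.pr x) →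
    0 ≤ K → 0 ≤ C → 1 < b → 1 ≤ D →
    (Fintype.card ι : ℝ) * Real.exp 2 * C ≤ Real.log D / 2 →
    Real.exp (-(Real.log D / Real.log b)) ≤ 1 / 4 →
    16 * (Fintype.card ι : ℝ) ^ 2 * K ^ 2 ≤ z →
    S.Q1 u ^ Fintype.card ι / 2 ≤ ∑ ρ, S.aa u D ρ ^ 2 * S.szn ρ

/-- BUP: upper bound for the pushed quadratic forms. -/
def Stmt_BUP : Prop :=
  ∀ (π ι : Type) [Fintype π] [DecidableEq π] [Fintype ι] [DecidableEq ι] (S : Sys π ι),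
    ∀ (u : Finset π → ℝ) (a b C K D z : ℝ), Uok S u a b C K → 3 ≤ z → (∀ x, z ≤ S.pr x) →
    0 ≤ K → 0 ≤ C → 1 < b → b ≤ D →
    (Fintype.card ι : ℝ) * Real.exp 2 * C ≤ Real.log (D / b) / 2 → ∀ m : ι,
    ∑ σ, push m (S.aa u D) σ ^ 2 * S.szn σ ≤
      2 * ((Real.log D * K / z) ^ 2 + Real.exp (-(Real.log (D / b) / Real.log b))) *
        S.Q1 u ^ Fintype.card ι

/-- ERR: the error weight of the coefficients. -/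
def Stmt_ERR : Prop :=
  ∀ (π ι : Type) [Fintype π] [DecidableEq π] [Fintype ι] [DecidableEq ι] (S : Sys π ι), S.Good →
    ∀ (u : Finset π → ℝ) (a b C K D z s : ℝ), Uok S u a b C K → 3 ≤ z → (∀ x, z ≤ S.pr x) →
    0 < s → 1 ≤ a → 1 ≤ D → (Fintype.card ι : ℝ) ≤ a ^ s →
    8 * Real.log D * (Fintype.card ι + 1) ≤ z →
    ∑ ρ, |S.aa u D ρ| * S.ez ρ ≤ 2 * Real.exp 1 * D ^ (1 + s)

/-- CORE: some `y` in `(Y, 2Y]` gives every shift a prime factor from the family. -/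
def Stmt_CORE : Prop :=
  ∀ (π ι : Type) [Fintype π] [DecidableEq π] [Fintype ι] [DecidableEq ι] (S : Sys π ι), S.Good →
    ∀ (u : Finset π → ℝ) (a b C K D z s : ℝ) (Y : ℕ), Uok S u a b C K → 3 ≤ z →
    (∀ x, z ≤ S.pr x) → 0 ≤ K → 0 ≤ C → 0 < s → 1 ≤ a → 1 < b → b ≤ D →
    8 * Real.log D * (Fintype.card ι + 1) ≤ z →
    16 * (Fintype.card ι : ℝ) ^ 2 * K ^ 2 ≤ z →
    (Fintype.card ι : ℝ) * Real.exp 2 * C ≤ Real.log (D / b) / 2 →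
    (Fintype.card ι : ℝ) *
      ((Real.log D * K / z) ^ 2 + Real.exp (-(Real.log (D / b) / Real.log b))) ≤ 1 / 32 →
    (Fintype.card ι : ℝ) ≤ a ^ s →
    8 * ((Fintype.card ι : ℝ) + 1) * (2 * Real.exp 1 * D ^ (1 + s)) ^ 2 < Y →
    ∃ y ∈ Ioc Y (2 * Y), ∀ h, ∃ x, S.pr x ∣ S.N h y

/-! ## Part 4: the one dimensional weight -/

/-- PRD: Mertens product up to constants. -/
def Stmt_PRD : Prop :=
  ∃ c C : ℝ, 0 < c ∧ 0 < C ∧ ∀ z R : ℕ, 2 ≤ z → z ≤ R →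
    c * (Real.log R / Real.log z) ≤ ∏ p ∈ (Ioc z R).filter Nat.Prime, (1 + 1 / (p : ℝ)) ∧
    ∏ p ∈ (Ioc z R).filter Nat.Prime, (1 + 1 / (p : ℝ)) ≤ C * (Real.log R / Real.log z)

/-- PSM: many primes between the fourth root and the square root. -/
def Stmt_PSM : Prop :=
  ∃ R₀ : ℝ, ∀ R : ℝ, R₀ ≤ R →
    1 / 2 ≤ ∑ p ∈ (Ioc ⌊R ^ (1 / 4 : ℝ)⌋₊ ⌊R ^ (1 / 2 : ℝ)⌋₊).filter Nat.Prime, 1 / (p : ℝ)

/-- MKV: Markov's inequality for random square free numbers. -/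
def Stmt_MKV : Prop :=
  ∀ (P : Finset ℕ) (R G : ℝ), (∀ p ∈ P, 1 ≤ p) → 1 < R →
    ∑ p ∈ P, Real.log p / p ≤ G → 2 * G ≤ Real.log R →
    (∏ p ∈ P, (1 + 1 / (p : ℝ))) / 2 ≤
      ∑ T ∈ P.powerset, (open Classical in if (∏ p ∈ T, (p : ℝ)) ≤ R then
        1 / (∏ p ∈ T, (p : ℝ)) else 0)

/-- VLO: lower bound for the rough square free mass of one scale. -/
def Stmt_VLO : Prop :=
  ∃ c R₀ : ℝ, 0 < c ∧ ∀ (z : ℕ) (R : ℝ) (P : Finset ℕ), 2 ≤ z → (z : ℝ) ^ 16 ≤ R → R₀ ≤ R →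
    (∀ p : ℕ, p.Prime → z < p → (p : ℝ) ≤ R → p ∈ P) → (∀ p ∈ P, p.Prime ∧ z < p) →
    c * (Real.log R / Real.log z) ≤
      ∑ T ∈ P.powerset, (open Classical in
        if R ^ (1 / 4 : ℝ) < (∏ p ∈ T, (p : ℝ)) ∧ (∏ p ∈ T, (p : ℝ)) ≤ R then
        1 / (∏ p ∈ T, (p : ℝ)) else 0)

/-- VUP: upper bound for the mass of the multiples of `x`. -/
def Stmt_VUP : Prop :=
  ∃ C : ℝ, 0 < C ∧ ∀ (z : ℕ) (R : ℝ) (P : Finset ℕ), 2 ≤ z → (z : ℝ) ≤ R →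
    (∀ p ∈ P, p.Prime ∧ z < p) → ∀ x ∈ P,
    ∑ T ∈ P.powerset, (open Classical in
        if x ∈ T ∧ (∏ p ∈ T, (p : ℝ)) ≤ R then 1 / (∏ p ∈ T, (p : ℝ)) else 0) ≤
      C / x * (Real.log R / Real.log z)

/-- UAB: the weight from the masses of the scales `(R (j+1), R j]`. -/
def Stmt_UAB : Prop :=
  ∀ (P : Finset ℕ) (J : ℕ) (R V : ℕ → ℝ) (c C ℓ : ℝ), 0 < J → 0 < c → 0 < C → 0 < ℓ →
    (∀ p ∈ P, 1 ≤ p) → 1 ≤ R J → (∀ j < J, R (j + 1) < R j) →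
    (∀ j < J, V j = ∑ T ∈ P.powerset, (open Classical in
        if R (j + 1) < (∏ p ∈ T, (p : ℝ)) ∧ (∏ p ∈ T, (p : ℝ)) ≤ R j then
        1 / (∏ p ∈ T, (p : ℝ)) else 0)) →
    (∀ j < J, c * (Real.log (R j) / ℓ) ≤ V j) → (∀ j < J, 1 ≤ V j) →
    (∀ j < J, ∀ x ∈ P, ∑ T ∈ P.powerset, (open Classical in
        if x ∈ T ∧ (∏ p ∈ T, (p : ℝ)) ≤ R j then 1 / (∏ p ∈ T, (p : ℝ)) else 0) ≤
      C / x * (Real.log (R j) / ℓ)) →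
    ∃ u : Finset ℕ → ℝ, (∀ T, 0 ≤ u T) ∧ u ∅ = 0 ∧ ∑ T ∈ P.powerset, u T = 1 ∧
      (∀ T ∈ P.powerset, u T ≠ 0 → R J ≤ ∏ p ∈ T, (p : ℝ)) ∧
      (∀ T ∈ P.powerset, u T ≠ 0 → ∏ p ∈ T, (p : ℝ) ≤ R 0) ∧
      (∀ T ∈ P.powerset, u T * ∏ p ∈ T, (p : ℝ) ≤ 1) ∧
      ∑ T ∈ P.powerset, u T ^ 2 * (∏ p ∈ T, (p : ℝ)) * Real.log (∏ p ∈ T, (p : ℝ)) ≤
        ℓ / (c * J) ∧
      ∀ x ∈ P, ∑ T ∈ P.powerset, (if x ∈ T then u T else 0) ≤ (C / c) / x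

/-- UEX: existence of the weight. -/
def Stmt_UEX : Prop :=
  ∃ C K L₀ : ℝ, 0 < C ∧ 1 ≤ K ∧ ∀ L : ℝ, L₀ ≤ L → ∀ P : Finset ℕ,
    (∀ p : ℕ, p ∈ P ↔ p.Prime ∧ ⌈L ^ 3⌉₊ < p ∧ (p : ℝ) ≤ Real.exp (L / (100 * Real.log L))) →
    ∃ u : Finset ℕ → ℝ, (∀ T, 0 ≤ u T) ∧ u ∅ = 0 ∧ ∑ T ∈ P.powerset, u T = 1 ∧
      (∀ T ∈ P.powerset, u T ≠ 0 → Real.exp (Real.sqrt L / K) ≤ ∏ p ∈ T, (p : ℝ)) ∧
      (∀ T ∈ P.powerset, u T ≠ 0 → ∏ p ∈ T, (p : ℝ) ≤ Real.exp (L / (100 * Real.log L))) ∧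
      (∀ T ∈ P.powerset, u T * ∏ p ∈ T, (p : ℝ) ≤ 1) ∧
      ∑ T ∈ P.powerset, u T ^ 2 * (∏ p ∈ T, (p : ℝ)) * Real.log (∏ p ∈ T, (p : ℝ)) ≤ C ∧
      ∀ x ∈ P, ∑ T ∈ P.powerset, (if x ∈ T then u T else 0) ≤ K / x

/-- TRF: transfer of the weight to the index type `P`. -/
def Stmt_TRF : Prop :=
  ∀ (P : Finset ℕ) (ι : Type) (S : Sys P ι), (∀ x : P, S.pr x = (x : ℕ)) →
    ∀ (u : Finset ℕ → ℝ) (a b C K : ℝ), (∀ T, 0 ≤ u T) → u ∅ = 0 → ∑ T ∈ P.powerset, u T = 1 →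
      (∀ T ∈ P.powerset, u T ≠ 0 → a ≤ ∏ p ∈ T, (p : ℝ)) →
      (∀ T ∈ P.powerset, u T ≠ 0 → ∏ p ∈ T, (p : ℝ) ≤ b) →
      (∀ T ∈ P.powerset, u T * ∏ p ∈ T, (p : ℝ) ≤ 1) →
      ∑ T ∈ P.powerset, u T ^ 2 * (∏ p ∈ T, (p : ℝ)) * Real.log (∏ p ∈ T, (p : ℝ)) ≤ C →
      (∀ x ∈ P, ∑ T ∈ P.powerset, (if x ∈ T then u T else 0) ≤ K / x) →
      Uok S (fun T => u (T.map (Function.Embedding.subtype _))) a b C K

/-- SC: kappa L prescribed shifts can be made composite. -/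
def Stmt_SC : Prop :=
  ∃ κ L₀ : ℝ, 0 < κ ∧ ∀ (L : ℝ) (W v Y : ℕ) (H : Finset ℕ), L₀ ≤ L →
    (∀ p : ℕ, p.Prime → p ∣ W → (p : ℝ) ≤ L ^ 3) → (∀ h ∈ H, (h : ℝ) ≤ L ^ 2) →
    (H.card : ℝ) ≤ κ * L → Real.exp (3 / 5 * L) ≤ Y →
    ∃ y ∈ Ioc Y (2 * Y), ∀ h ∈ H, ∃ p : ℕ, p.Prime ∧ L ^ 3 < (p : ℝ) ∧
      (p : ℝ) ≤ Real.exp (L / (100 * Real.log L)) ∧ p ∣ W * y + v + h

/-! ## Part 5: Theorem A -/

/-- CHB: Chebyshev's upper bound. -/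
def Stmt_CHB : Prop :=
  ∃ C : ℝ, 0 < C ∧ ∀ x : ℝ, 2 ≤ x → (Nat.primeCounting ⌊x⌋₊ : ℝ) ≤ C * (x / Real.log x)

/-- GAP: an interval without primes gives a gap. -/
def Stmt_GAP : Prop :=
  ∀ a H X : ℕ, 2 ≤ a → 2 * (a + H) ≤ X → (∀ n ∈ Ioc a (a + H), ¬ n.Prime) →
    ∃ n, Nat.nth Nat.Prime (n + 1) ≤ X ∧
      (H : ℝ) ≤ (Nat.nth Nat.Prime (n + 1) : ℝ) - Nat.nth Nat.Prime n

/-- FINA: Theorem A. -/
def Stmt_FINA : Prop :=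
  ∃ c : ℝ, 0 < c ∧ ∀ᶠ X : ℕ in atTop, ∃ n, Nat.nth Nat.Prime (n + 1) ≤ X ∧
    c * Real.log X * Real.log (Real.log X) ≤
      (Nat.nth Nat.Prime (n + 1) : ℝ) - Nat.nth Nat.Prime n

/-! ## Part 6: Theorem B (the Erdos-Rankin residues) -/

/-- GRE: greedy choice of residues. -/
def Stmt_GRE : Prop :=
  ∀ (A Q : Finset ℕ), (∀ q ∈ Q, 0 < q) → ∃ r : ℕ → ℕ,
    ((A.filter (fun n => ∀ q ∈ Q, ¬ n ≡ r q [MOD q])).card : ℝ) ≤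
      A.card * ∏ q ∈ Q, (1 - 1 / (q : ℝ))

/-- PRM: Mertens upper bound for the sieve product. -/
def Stmt_PRM : Prop :=
  ∃ C : ℝ, 0 < C ∧ ∀ y : ℝ, 2 ≤ y →
    ∏ p ∈ (Icc 1 ⌊y⌋₊).filter Nat.Prime, (1 - 1 / (p : ℝ)) ≤ C / Real.log y

/-- The smoothness bound of Erdos and Rankin. -/
noncomputable def yy (w : ℕ) : ℝ :=
  Real.exp (Real.log w * Real.log (Real.log (Real.log w)) / (8 * Real.log (Real.log w)))

/-- RNK: Rankin's bound for smooth numbers. -/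
def Stmt_RNK : Prop :=
  ∀ᶠ w : ℕ in atTop, ∀ (H : ℕ) (A : Finset ℕ), w ≤ H → A ⊆ Icc 1 H →
    (∀ n ∈ A, ∀ p : ℕ, p.Prime → p ∣ n → (p : ℝ) ≤ yy w) →
    (A.card : ℝ) ≤ H / Real.log w ^ 3

/-- SRV: integers without prime factor in `(yy w, w]`. -/
def Stmt_SRV : Prop :=
  ∃ C : ℝ, 0 < C ∧ ∀ᶠ w : ℕ in atTop, ∀ (H : ℕ) (A : Finset ℕ), w ≤ H →
    (H : ℝ) ≤ w * Real.log w ^ 3 → A ⊆ Icc 1 H →
    (∀ n ∈ A, ∀ p : ℕ, p.Prime → yy w < p → p ≤ w → ¬ p ∣ n) →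
    (A.card : ℝ) ≤ C * (H * Real.log (Real.log w) / Real.log w)

/-- STG: the first stage. -/
def Stmt_STG : Prop :=
  ∃ C : ℝ, 0 < C ∧ ∀ᶠ w : ℕ in atTop, ∀ H : ℕ, w ≤ H → (H : ℝ) ≤ w * Real.log w ^ 2 →
    ∃ v : ℕ, ∀ A : Finset ℕ, A ⊆ Icc 1 H → (∀ h ∈ A, ∀ p : ℕ, p.Prime → p ≤ w → ¬ p ∣ v + h) →
      (A.card : ℝ) ≤ C * (H * Real.log (Real.log w) ^ 2 /
        (Real.log w ^ 2 * Real.log (Real.log (Real.log w))))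

/-- FINB: Theorem B. -/
def Stmt_FINB : Prop :=
  ∃ c : ℝ, 0 < c ∧ ∀ᶠ X : ℕ in atTop, ∃ n, Nat.nth Nat.Prime (n + 1) ≤ X ∧
    c * Real.log X * Real.log (Real.log X) ^ 2 * Real.log (Real.log (Real.log (Real.log X))) /
      Real.log (Real.log (Real.log X)) ^ 2 ≤
      (Nat.nth Nat.Prime (n + 1) : ℝ) - Nat.nth Nat.Prime n

end Pool.LGP
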