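import Pool.Agent.Work.MP_b0c12c_gaps.Interface

/-! # Large gaps between primes in every short interval (helper54)

Localised form of Theorem B: parameters `M`, `η`, `ε` instead of constants. -/

set_option autoImplicit false

namespace Pool.LGP

open Finset Filter

/-- UEXM: existence of the weight, `UEX` with `M` instead of `100`. -/
def Stmt_UEXM : Prop :=
  ∀ M : ℝ, 1 ≤ M → ∃ C K L₀ : ℝ, 0 < C ∧ 1 ≤ K ∧ ∀ L : ℝ, L₀ ≤ L → ∀ P : Finset ℕ,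
    (∀ p : ℕ, p ∈ P ↔ p.Prime ∧ ⌈L ^ 3⌉₊ < p ∧ (p : ℝ) ≤ Real.exp (L / (M * Real.log L))) →
    ∃ u : Finset ℕ → ℝ, (∀ T, 0 ≤ u T) ∧ u ∅ = 0 ∧ ∑ T ∈ P.powerset, u T = 1 ∧
      (∀ T ∈ P.powerset, u T ≠ 0 → Real.exp (Real.sqrt L / K) ≤ ∏ p ∈ T, (p : ℝ)) ∧
      (∀ T ∈ P.powerset, u T ≠ 0 → ∏ p ∈ T, (p : ℝ) ≤ Real.exp (L / (M * Real.log L))) ∧
      (∀ T ∈ P.powerset, u T * ∏ p ∈ T, (p : ℝ) ≤ 1) ∧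
      ∑ T ∈ P.powerset, u T ^ 2 * (∏ p ∈ T, (p : ℝ)) * Real.log (∏ p ∈ T, (p : ℝ)) ≤ C ∧
      ∀ x ∈ P, ∑ T ∈ P.powerset, (if x ∈ T then u T else 0) ≤ K / x

/-- SCE: prescribed shifts can be made composite, for `Y ≥ exp (η L)`. -/
def Stmt_SCE : Prop :=
  ∀ η : ℝ, 0 < η → ∃ κ L₀ : ℝ, 0 < κ ∧ ∀ (L : ℝ) (W v Y : ℕ) (H : Finset ℕ), L₀ ≤ L →
    (∀ p : ℕ, p.Prime → p ∣ W → (p : ℝ) ≤ L ^ 3) → (∀ h ∈ H, (h : ℝ) ≤ L ^ 2) →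
    (H.card : ℝ) ≤ κ * L → Real.exp (η * L) ≤ Y →
    ∃ y ∈ Ioc Y (2 * Y), ∀ h ∈ H, ∃ p : ℕ, p.Prime ∧
      (p : ℝ) ≤ Real.exp (L / Real.log L) ∧ p ∣ W * y + v + h

/-- FINC: every interval `(x, x + x ^ ε]` contains a long run of composite numbers. -/
def Stmt_FINC : Prop :=
  ∀ ε : ℝ, 0 < ε → ∃ c : ℝ, 0 < c ∧ ∀ᶠ x : ℕ in atTop, ∃ a H : ℕ, x ≤ a ∧
    ((a + H : ℕ) : ℝ) ≤ x + (x : ℝ) ^ ε ∧ (∀ n ∈ Ioc a (a + H), ¬ n.Prime) ∧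
    c * Real.log x * Real.log (Real.log x) ^ 2 * Real.log (Real.log (Real.log (Real.log x))) /
      Real.log (Real.log (Real.log x)) ^ 2 ≤ H

end Pool.LGP
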