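import Mathlib

/-! # Large gaps between primes, the residue classes: statements (helper3)

Blocks: SMOOTH, GREEDY, MULT, PRODS, SPLIT, PRIM, RANKIN, MERT. -/

set_option autoImplicit false

namespace Pool.Gap.Rk

open Finset

/-- the primes up to `y` -/
abbrev PR (y : ℕ) : Finset ℕ := (Icc 1 y).filter Nat.Prime

open Classical in
/-- the `y`-smooth numbers up to `N` -/
noncomputable def SM (y N : ℕ) : Finset ℕ :=
  (Icc 1 N).filter fun n => ∀ p, p.Prime → p ∣ n → p ≤ y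

/-- the survivors: the shifts `h ≤ H` such that `v + h` has no prime factor up to `w` -/
def surv (v w H : ℕ) : Finset ℕ := (Icc 1 H).filter fun h => ∀ p ∈ PR w, ¬ p ∣ v + h

/-- SMOOTH: Rankin's bound for smooth numbers. -/
def Stmt_SMOOTH : Prop := ∃ C : ℝ, 1 ≤ C ∧ ∀ (y N : ℕ) (δ : ℝ), 2 ≤ y → 1 ≤ N → 0 < δ →
  δ ≤ 1 / 4 → ((SM y N).card : ℝ) ≤ N * Real.exp (-(δ * Real.log N) + Real.log (Real.log y) +
    C * Real.exp (δ * Real.log y))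

/-- GREEDY: greedy choice of residue classes.  Induction on `Q`: if `v₁` is good for `Q` and
`T` is the set of survivors, choose the class `a mod p` with the most elements of `T` and
`v ≡ v₁ mod M * ∏ Q`, `p ∣ v + a` (Chinese remainder theorem). -/
def Stmt_GREEDY : Prop := ∀ (S Q : Finset ℕ) (M v₀ : ℕ), (∀ p ∈ Q, p.Prime) → M ≠ 0 →
  (∀ p ∈ Q, ¬ p ∣ M) → ∃ v, v ≡ v₀ [MOD M] ∧
    ((S.filter fun h => ∀ p ∈ Q, ¬ p ∣ v + h).card : ℝ) ≤ S.card * ∏ p ∈ Q, (1 - 1 / (p : ℝ))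

open Classical in
/-- MULT: multiples of primes larger than `w`.  `h = m * q`, `m ≤ H / w`, `q ≤ H / m`, and
`π(n) ≤ 5 n / log n` (`Pool.Agent.Work.MP_484fb8_nt.pi_upper` in MP_484fb8_nt/Cheb.lean). -/
def Stmt_MULT : Prop := ∃ C : ℝ, 0 < C ∧ ∀ w H : ℕ, 2 ≤ w → w ≤ H →
  (((Icc 1 H).filter fun h => ∃ q, q.Prime ∧ w < q ∧ q ∣ h).card : ℝ) ≤
    C * (H / Real.log w) * (1 + Real.log (H / w))

/-- PRODS: Mertens' product (from `Pool.Agent.Work.MP_3a3367_nt_log.stmt_MER`). -/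
def Stmt_PRODS : Prop := ∃ C : ℝ, 0 < C ∧ ∀ y : ℕ, 2 ≤ y →
  ∏ p ∈ PR y, (1 - 1 / (p : ℝ)) ≤ C / Real.log y

/-- SPLIT: `v ≡ 0` modulo the primes in `(y, w]` (then the survivors are `y`-smooth or have a
prime factor `> w`), greedy classes modulo the primes up to `y`.
Uses GREEDY, MULT, PRODS (in this order). -/
def Stmt_SPLIT : Prop := ∃ C : ℝ, 0 < C ∧ ∀ y w H : ℕ, 2 ≤ y → y ≤ w → w ≤ H → ∃ v,
  ((surv v w H).card : ℝ) ≤ C / Real.log y *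
    ((SM y H).card + H / Real.log w * (1 + Real.log (H / w)))

/-- PRIM: the classes `0`, for Theorem A.  For `H < w ^ 2` the survivors are `1` and primes. -/
def Stmt_PRIM : Prop := ∀ κ : ℝ, 0 < κ → ∃ c : ℝ, 0 < c ∧ ∃ w₀ : ℕ, ∀ w : ℕ, w₀ ≤ w →
  ((surv 0 w ⌊c * w * Real.log w⌋₊).card : ℝ) ≤ κ * w

/-- RANKIN: the residue classes for Theorem B.  Uses SMOOTH, SPLIT (in this order). -/
def Stmt_RANKIN : Prop := ∀ κ : ℝ, 0 < κ → ∃ c : ℝ, 0 < c ∧ ∃ w₀ : ℕ, ∀ w : ℕ, w₀ ≤ w → ∃ v : ℕ,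
  ((surv v w ⌊c * w * (Real.log w) ^ 2 * Real.log (Real.log (Real.log w)) /
    (Real.log (Real.log w)) ^ 2⌋₊).card : ℝ) ≤ κ * w

open Classical in
/-- MERT: the rough squarefree numbers: lower bound for the logarithmic density.
`log R ≤ ∑_{n ≤ R} 1 / n ≤ ∏_{p ≤ z} (1 - 1 / p)⁻¹ * 2 * ∑ 1 / r`. -/
def Stmt_MERT : Prop := ∃ c : ℝ, 0 < c ∧ ∀ z R : ℕ, 2 ≤ z → 1 ≤ R →
  c * Real.log R / Real.log z ≤ ∑ r ∈ (Icc 1 R).filter (fun r => Squarefree r ∧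
    ∀ p, p.Prime → p ∣ r → z < p), 1 / (r : ℝ)

end Pool.Gap.Rk
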