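import Pool.Agent.Work.MP_b0c12c_gaps.RankinI

/-! # Large gaps between primes, the residue classes: block GREEDY -/

set_option autoImplicit false

namespace Pool.Gap.Rk

open Finset

theorem GREEDY_class (T : Finset ℕ) (p : ℕ) (hp : 0 < p) :
    ∃ c : ℕ, (T.card : ℝ) / p ≤ ((T.filter fun h => p ∣ c + h).card : ℝ) := by
  have hp' : (0 : ℝ) < p := by exact_mod_cast hp
  obtain ⟨c, -, hc⟩ := Finset.exists_le_card_fiber_of_nsmul_le_card_of_maps_to
    (s := T) (t := range p) (f := fun h => (p - h % p) % p) (b := (T.card : ℝ) / p)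
    (fun h _ => Finset.mem_range.2 (Nat.mod_lt _ hp)) ⟨0, Finset.mem_range.2 hp⟩ (by
      rw [Finset.card_range, nsmul_eq_mul, mul_div_cancel₀ _ hp'.ne'])
  refine ⟨c, hc.trans ?_⟩
  have : (T.filter fun h => (p - h % p) % p = c).card ≤ (T.filter fun h => p ∣ c + h).card := by
    refine Finset.card_le_card fun h hh => ?_
    rw [Finset.mem_filter] at hh ⊢
    refine ⟨hh.1, ?_⟩
    rw [← hh.2, Nat.dvd_iff_mod_eq_zero, Nat.mod_add_mod, Nat.add_mod]
    have h1 : h % p < p := Nat.mod_lt _ hp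
    rcases Nat.eq_zero_or_pos (h % p) with h0 | h0
    · rw [h0]; simp
    · have h2 : (p - h % p) % p = p - h % p := Nat.mod_eq_of_lt (by omega)
      rw [h2]
      have h3 : p - h % p + h % p = p := by omega
      rw [h3, Nat.mod_self]
  exact_mod_cast this

theorem blk_GREEDY : Stmt_GREEDY := by
  intro S Q M v₀ hQ hM hQM
  induction Q using Finset.induction_on with
  | empty => exact ⟨v₀, Nat.ModEq.refl _, by simp⟩
  | insert p Q hpQ ih =>
    obtain ⟨v₁, hv₁, hc₁⟩ := ih (fun q hq => hQ q (Finset.mem_insert_of_mem hq))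
      (fun q hq => hQM q (Finset.mem_insert_of_mem hq))
    have hp : p.Prime := hQ p (Finset.mem_insert_self _ _)
    have hpM : ¬ p ∣ M := hQM p (Finset.mem_insert_self _ _)
    set T := S.filter fun h => ∀ q ∈ Q, ¬ q ∣ v₁ + h with hT
    obtain ⟨c, hc⟩ := GREEDY_class T p hp.pos
    have hco : Nat.Coprime (M * ∏ q ∈ Q, q) p := by
      refine Nat.Coprime.mul_left ?_ ?_
      · exact ((Nat.Prime.coprime_iff_not_dvd hp).2 hpM).symm
      · refine Nat.Coprime.prod_left fun q hq => ?_
        refine (Nat.coprime_primes (hQ q (Finset.mem_insert_of_mem hq)) hp).2 ?_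
        rintro rfl
        exact hpQ hq
    obtain ⟨v, hv1, hv2⟩ := Nat.chineseRemainder hco v₁ c
    refine ⟨v, ?_, ?_⟩
    · exact (hv1.of_dvd (Dvd.intro _ rfl)).trans hv₁
    · have hset : (S.filter fun h => ∀ q ∈ insert p Q, ¬ q ∣ v + h)
          = T.filter fun h => ¬ p ∣ c + h := by
        ext h
        simp only [hT, Finset.mem_filter, Finset.mem_insert, forall_eq_or_imp, and_assoc]
        have e1 : p ∣ v + h ↔ p ∣ c + h := (hv2.add_right h).dvd_iff dvd_rfl
        have e2 : ∀ q ∈ Q, (q ∣ v + h ↔ q ∣ v₁ + h) := fun q hq => by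
          have : v ≡ v₁ [MOD q] :=
            hv1.of_dvd ((Finset.dvd_prod_of_mem (fun q => q) hq).trans (Dvd.intro_left _ rfl))
          exact (this.add_right h).dvd_iff dvd_rfl
        constructor
        · rintro ⟨h1, h2, h3⟩
          exact ⟨h1, fun q hq => by rw [← e2 q hq]; exact h3 q hq, by rwa [← e1]⟩
        · rintro ⟨h1, h2, h3⟩
          exact ⟨h1, by rwa [e1], fun q hq => by rw [e2 q hq]; exact h2 q hq⟩
      have hcard : ((T.filter fun h => ¬ p ∣ c + h).card : ℝ) ≤ T.card * (1 - 1 / (p : ℝ)) := by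
        have h1 := Finset.card_filter_add_card_filter_not (s := T) (fun h => p ∣ c + h)
        have h2 : ((T.filter fun h => p ∣ c + h).card : ℝ)
            + ((T.filter fun h => ¬ p ∣ c + h).card : ℝ) = T.card := by exact_mod_cast h1
        have h3 : (T.card : ℝ) * (1 - 1 / (p : ℝ)) = T.card - T.card / p := by ring
        rw [h3]
        linarith
      rw [hset, Finset.prod_insert hpQ]
      have hp2 : (2 : ℝ) ≤ p := by exact_mod_cast hp.two_le
      have hp1 : 0 ≤ 1 - 1 / (p : ℝ) := by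
        rw [sub_nonneg, div_le_one (by linarith)]
        linarith
      calc ((T.filter fun h => ¬ p ∣ c + h).card : ℝ) ≤ T.card * (1 - 1 / (p : ℝ)) := hcard
        _ ≤ (S.card * ∏ q ∈ Q, (1 - 1 / (q : ℝ))) * (1 - 1 / (p : ℝ)) :=
            mul_le_mul_of_nonneg_right hc₁ hp1
        _ = S.card * ((1 - 1 / (p : ℝ)) * ∏ q ∈ Q, (1 - 1 / (q : ℝ))) := by ring

end Pool.Gap.Rk
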