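import Pool.Agent.Work.MP_3a3367_nt_log.MER
import Pool.Agent.Work.MP_b0c12c_gaps.RankinI

/-! # Blocks PRODS and MERT (helper3) -/

set_option autoImplicit false

namespace Pool.Gap.Rk

open Finset

namespace Prods

theorem UP_eq (y : ℕ) : Pool.Agent.Work.MP_3a3367_nt_log.UP ∅ (y : ℝ) = PR y := by
  rw [Pool.Agent.Work.MP_3a3367_nt_log.MERaux.UP_eq, Nat.floor_natCast]

theorem mem_PR {y p : ℕ} : p ∈ PR y ↔ p ≤ y ∧ p.Prime := by
  rw [mem_filter, mem_Icc]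
  exact ⟨fun h => ⟨h.1.2, h.2⟩, fun h => ⟨⟨h.2.one_lt.le, h.1⟩, h.2⟩⟩

theorem sum_sq (R : ℕ) : ∑ b ∈ Icc 1 R, 1 / (b : ℝ) ^ 2 ≤ 2 := by
  rcases Nat.eq_zero_or_pos R with h | h
  · subst h; simp
  · have h1 := Pool.Agent.Work.MP_3a3367_nt_log.MERaux.sum_sq R h
    have h2 : Icc 1 R = insert 1 (Ioc 1 R) := by
      ext n
      rw [mem_insert, mem_Icc, mem_Ioc]
      omega
    rw [h2, sum_insert (by simp)]
    have h3 : 0 ≤ 1 / (R : ℝ) := by positivity
    have h4 : 1 / (((1 : ℕ) : ℝ)) ^ 2 = 1 := by norm_num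
    rw [h4]
    linarith

/-- the decomposition `n = b ^ 2 * ∏ A * r` -/
theorem decomp (z n : ℕ) (hn : 1 ≤ n) : ∃ (b : ℕ) (A : Finset ℕ) (r : ℕ),
    1 ≤ b ∧ A ⊆ PR z ∧ 1 ≤ r ∧ Squarefree r ∧ (∀ p, p.Prime → p ∣ r → z < p) ∧
    b ^ 2 * (∏ p ∈ A, p) * r = n := by
  obtain ⟨a, b, ha, hb, hab, hs⟩ := Nat.sq_mul_squarefree_of_pos hn
  refine ⟨b, a.primeFactors.filter (· ≤ z), ∏ p ∈ a.primeFactors.filter (fun p => ¬ p ≤ z), p,
    hb, ?_, ?_, ?_, ?_, ?_⟩
  · intro p hp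
    rw [mem_filter] at hp
    exact mem_PR.2 ⟨hp.2, Nat.prime_of_mem_primeFactors hp.1⟩
  · exact Nat.one_le_iff_ne_zero.2 (prod_ne_zero_iff.2 fun p hp =>
      (Nat.prime_of_mem_primeFactors (mem_filter.1 hp).1).ne_zero)
  · refine hs.squarefree_of_dvd ?_
    have h1 : ∏ p ∈ a.primeFactors.filter (fun p => ¬ p ≤ z), p ∣ ∏ p ∈ a.primeFactors, p :=
      prod_dvd_prod_of_subset _ _ _ (filter_subset _ _)
    rwa [Nat.prod_primeFactors_of_squarefree hs] at h1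
  · intro p hp hd
    obtain ⟨q, hq, hpq⟩ := (Prime.dvd_finsetProd_iff hp.prime _).1 hd
    rw [mem_filter] at hq
    rw [(Nat.prime_dvd_prime_iff_eq hp (Nat.prime_of_mem_primeFactors hq.1)).1 hpq]
    exact not_le.1 hq.2
  · rw [mul_assoc, prod_filter_mul_prod_filter_not, Nat.prod_primeFactors_of_squarefree hs]
    exact hab

end Prods

open Prods

theorem blk_PRODS : Stmt_PRODS := by
  obtain ⟨C, c, hC, hc, hM⟩ := Pool.Agent.Work.MP_3a3367_nt_log.stmt_MER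
  refine ⟨C, by linarith, fun y hy => ?_⟩
  have h := (hM y (by exact_mod_cast hy)).2.2.2.2.1
  rw [UP_eq] at h
  exact h

theorem blk_MERT : Stmt_MERT := by
  classical
  obtain ⟨C, c, hC, hc, hM⟩ := Pool.Agent.Work.MP_3a3367_nt_log.stmt_MER
  refine ⟨c / 2, by positivity, fun z R hz hR => ?_⟩
  have hz2 : (2 : ℝ) ≤ z := by exact_mod_cast hz
  have hlz : 0 < Real.log z := Real.log_pos (by linarith)
  have hV := (hM z hz2).2.2.2.1
  rw [UP_eq] at hV
  unfold Pool.Agent.Work.MP_3a3367_nt_log.VV at hV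
  set S : Finset ℕ := (Icc 1 R).filter (fun r => Squarefree r ∧ ∀ p, p.Prime → p ∣ r → z < p)
    with hS
  -- the product of `1 + 1 / p`
  have hp : (∏ p ∈ PR z, (1 + 1 / (p : ℝ))) * ∏ p ∈ PR z, (1 - 1 / (p : ℝ)) ≤ 1 := by
    rw [← prod_mul_distrib]
    refine prod_le_one (fun p hp => ?_) (fun p hp => ?_)
    · have hp2 : (2 : ℝ) ≤ p := by exact_mod_cast (mem_PR.1 hp).2.two_le
      have h1 : 1 / (p : ℝ) ≤ 1 := by rw [div_le_one (by linarith)]; linarith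
      have h2 : 0 < 1 / (p : ℝ) := by positivity
      exact mul_nonneg (by linarith) (by linarith)
    · nlinarith [sq_nonneg (1 / (p : ℝ))]
  -- the injection
  choose! b A r hb hA hr hsq hrough heq using fun n (hn : n ∈ Icc 1 R) =>
    decomp z n (mem_Icc.1 hn).1
  have hle : ∀ n ∈ Icc 1 R, b n ∈ Icc 1 R ∧ r n ∈ S := by
    intro n hn
    have hn' := mem_Icc.1 hn
    have hAp : 1 ≤ ∏ p ∈ A n, p := Nat.one_le_iff_ne_zero.2 (prod_ne_zero_iff.2 fun p hp =>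
      (mem_PR.1 (hA n hn hp)).2.ne_zero)
    have h1 := heq n hn
    have hbn := hb n hn
    have hrn := hr n hn
    have h2 : b n ≤ n := by
      calc b n ≤ b n ^ 2 := Nat.le_self_pow (by norm_num) _
        _ = b n ^ 2 * 1 * 1 := by ring
        _ ≤ b n ^ 2 * (∏ p ∈ A n, p) * r n := by gcongr
        _ = n := h1
    have h3 : r n ≤ n := by
      calc r n = 1 * 1 * r n := by ring
        _ ≤ b n ^ 2 * (∏ p ∈ A n, p) * r n := by
          gcongr
          exact Nat.one_le_pow _ _ hbn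
        _ = n := h1
    refine ⟨mem_Icc.2 ⟨hbn, by omega⟩, ?_⟩
    rw [hS, mem_filter, mem_Icc]
    exact ⟨⟨hrn, by omega⟩, hsq n hn, hrough n hn⟩
  let f : ℕ × Finset ℕ × ℕ → ℝ := fun x =>
    1 / (x.1 : ℝ) ^ 2 * ((∏ p ∈ x.2.1, 1 / (p : ℝ)) * (1 / (x.2.2 : ℝ)))
  let g : ℕ → ℕ × Finset ℕ × ℕ := fun n => (b n, A n, r n)
  have hginj : Set.InjOn g (Icc 1 R : Finset ℕ) := by
    intro n hn m hm h
    have h1 : b n = b m := congrArg Prod.fst h
    have h2 : A n = A m := congrArg (fun x => x.2.1) h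
    have h3 : r n = r m := congrArg (fun x => x.2.2) h
    rw [← heq n hn, ← heq m hm, h1, h2, h3]
  have hfg : ∀ n ∈ Icc 1 R, f (g n) = 1 / (n : ℝ) := by
    intro n hn
    have h1 : ((b n : ℝ) ^ 2 * (∏ p ∈ A n, (p : ℝ)) * r n) = n := by
      have h0 : ((b n ^ 2 * (∏ p ∈ A n, p) * r n : ℕ) : ℝ) = (n : ℝ) := by rw [heq n hn]
      rw [Nat.cast_mul, Nat.cast_mul, Nat.cast_pow, Nat.cast_prod] at h0
      exact h0
    simp only [f, g]
    rw [← h1, prod_div_distrib, prod_const_one]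
    rw [div_mul_div_comm, div_mul_div_comm]
    ring_nf
  have hsum : ∑ n ∈ Icc 1 R, 1 / (n : ℝ) ≤
      (∑ b ∈ Icc 1 R, 1 / (b : ℝ) ^ 2) *
        ((∏ p ∈ PR z, (1 + 1 / (p : ℝ))) * ∑ r ∈ S, 1 / (r : ℝ)) := by
    have h1 : ∑ n ∈ Icc 1 R, 1 / (n : ℝ) = ∑ x ∈ (Icc 1 R).image g, f x := by
      rw [sum_image hginj]
      exact (sum_congr rfl hfg).symm
    rw [h1]
    have h2 : ∑ x ∈ (Icc 1 R).image g, f x ≤
        ∑ x ∈ (Icc 1 R) ×ˢ ((PR z).powerset ×ˢ S), f x := by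
      refine sum_le_sum_of_subset_of_nonneg ?_ (fun x _ _ => by positivity)
      intro x hx
      obtain ⟨n, hn, rfl⟩ := mem_image.1 hx
      rw [mem_product, mem_product, mem_powerset]
      exact ⟨(hle n hn).1, hA n hn, (hle n hn).2⟩
    refine h2.trans (le_of_eq ?_)
    rw [sum_product, sum_mul]
    refine sum_congr rfl fun b _ => ?_
    rw [sum_product]
    simp only [f]
    rw [prod_one_add, sum_mul, mul_sum]
    refine sum_congr rfl fun A _ => ?_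
    rw [mul_sum, mul_sum]
  have hlog : Real.log R ≤ ∑ n ∈ Icc 1 R, 1 / (n : ℝ) := by
    have h1 := log_add_one_le_harmonic R
    rw [harmonic_eq_sum_Icc] at h1
    push_cast at h1
    have h2 : Real.log R ≤ Real.log ((R : ℝ) + 1) :=
      Real.log_le_log (by exact_mod_cast hR) (by linarith)
    simp only [one_div]
    linarith
  have hSpos : 0 ≤ ∑ r ∈ S, 1 / (r : ℝ) := sum_nonneg fun r _ => by positivity
  have hP1 : 0 < ∏ p ∈ PR z, (1 + 1 / (p : ℝ)) := prod_pos fun p _ => by positivity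
  have hPle : ∏ p ∈ PR z, (1 + 1 / (p : ℝ)) ≤ Real.log z / c := by
    rw [le_div_iff₀ hc]
    have h1 : c = c / Real.log z * Real.log z := by field_simp
    have h2 : (∏ p ∈ PR z, (1 + 1 / (p : ℝ))) * (c / Real.log z) ≤ 1 :=
      (mul_le_mul_of_nonneg_left hV hP1.le).trans hp
    calc (∏ p ∈ PR z, (1 + 1 / (p : ℝ))) * c =
        (∏ p ∈ PR z, (1 + 1 / (p : ℝ))) * (c / Real.log z) * Real.log z := by
          field_simp
      _ ≤ 1 * Real.log z := by gcongr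
      _ = Real.log z := one_mul _
  have hfin : Real.log R ≤ 2 * (Real.log z / c * ∑ r ∈ S, 1 / (r : ℝ)) := by
    refine (hlog.trans hsum).trans ?_
    have h1 := sum_sq R
    gcongr
  rw [div_mul_eq_mul_div, div_div, div_le_iff₀ (by positivity)]
  have : 2 * (Real.log z / c * ∑ r ∈ S, 1 / (r : ℝ)) * c = (∑ r ∈ S, 1 / (r : ℝ)) * (2 * Real.log z) := by
    field_simp
  nlinarith

end Pool.Gap.Rk
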