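import Pool.Agent.Work.MP_b0c12c_gaps.RankinI

/-! # Block RANKIN (helper3) -/

set_option autoImplicit false

namespace Pool.Gap.Rk

open Finset Filter

namespace Rankin

theorem ev_log (K : ℝ) : ∀ᶠ x : ℝ in atTop, K ≤ Real.log x :=
  Real.tendsto_log_atTop.eventually_ge_atTop K

theorem ev_loglog (K : ℝ) : ∀ᶠ x : ℝ in atTop, K ≤ Real.log (Real.log x) :=
  (Real.tendsto_log_atTop.comp Real.tendsto_log_atTop).eventually_ge_atTop K

theorem ev_small (K : ℝ) : ∀ᶠ x : ℝ in atTop, K * Real.log x ≤ x := by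
  rcases le_or_gt K 0 with hK | hK
  · filter_upwards [eventually_ge_atTop (1 : ℝ)] with x hx
    have : 0 ≤ Real.log x := Real.log_nonneg hx
    nlinarith
  · have h := Real.isLittleO_log_id_atTop.bound (by positivity : (0 : ℝ) < 1 / K)
    filter_upwards [h, eventually_ge_atTop (1 : ℝ)] with x h1 hx
    have h2 : 0 ≤ Real.log x := Real.log_nonneg hx
    rw [Real.norm_eq_abs, Real.norm_eq_abs, abs_of_nonneg h2, id, abs_of_nonneg (by linarith)] at h1
    rw [div_mul_eq_mul_div, one_mul, le_div_iff₀ hK] at h1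
    linarith

/-- the numerical inequality at the end -/
theorem final_ineq {C c w l l2 l3 ly H SMc : ℝ} (hC : 0 < C) (hc0 : 0 < c) (hw : 0 < w)
    (hl : 0 < l) (hl2 : 2 ≤ l2) (hl3 : 0 < l3) (hly : l * l3 / (16 * l2) ≤ ly)
    (hH : H ≤ c * w * l ^ 2 * l3 / l2 ^ 2) (hH0 : 0 ≤ H) (hS : SMc ≤ H / l) {g : ℝ}
    (hg : g ≤ 2 * l2) (_hg0 : 0 ≤ g) :
    C / ly * (SMc + H / l * (1 + g)) ≤ 48 * C * c * w := by
  have hl20 : 0 < l2 := by linarith
  have hly0 : 0 < ly := lt_of_lt_of_le (by positivity) hly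
  have h1 : SMc + H / l * (1 + g) ≤ H / l * (3 * l2) := by
    have : H / l * (1 + g) + H / l ≤ H / l * (3 * l2) := by
      have h2 : 0 ≤ H / l := by positivity
      nlinarith
    linarith
  have h2 : H / l * (3 * l2) ≤ 3 * c * w * l * l3 / l2 := by
    have : H / l * (3 * l2) ≤ (c * w * l ^ 2 * l3 / l2 ^ 2) / l * (3 * l2) := by gcongr
    refine this.trans (le_of_eq ?_)
    field_simp
  have h3 : C / ly ≤ C / (l * l3 / (16 * l2)) := by gcongr
  calc C / ly * (SMc + H / l * (1 + g)) ≤ C / ly * (3 * c * w * l * l3 / l2) := by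
        gcongr
        exact h1.trans h2
    _ ≤ C / (l * l3 / (16 * l2)) * (3 * c * w * l * l3 / l2) := by gcongr
    _ = 48 * C * c * w := by field_simp; ring

end Rankin

open Rankin

theorem blk_RANKIN (hS : Stmt_SMOOTH) (hP : Stmt_SPLIT) : Stmt_RANKIN := by
  obtain ⟨D, hD1, hD⟩ := hS
  obtain ⟨C, hC0, hC⟩ := hP
  intro κ hκ
  set c : ℝ := min 1 (κ / (48 * C)) with hc
  have hc0 : 0 < c := lt_min one_pos (by positivity)
  have hc1 : c ≤ 1 := min_le_left _ _
  have hcκ : 48 * C * c ≤ κ := by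
    have : c ≤ κ / (48 * C) := min_le_right _ _
    rw [le_div_iff₀ (by positivity)] at this
    linarith
  -- the conditions on `x = log w`
  have hev : ∀ᶠ x : ℝ in atTop, 2 ≤ Real.log x ∧ 4 * D + 1 ≤ Real.log x ∧
      2 * Real.log (4 * D) + 1 ≤ Real.log (Real.log x) ∧ (64 + 2 / c) * Real.log x ≤ x ∧
      1 ≤ Real.log (Real.log x) ∧ 32 * Real.log x ≤ x := by
    filter_upwards [ev_log 2, ev_log (4 * D + 1), ev_loglog (2 * Real.log (4 * D) + 1),
      ev_small (64 + 2 / c), ev_loglog 1, ev_small 32] with x h1 h2 h3 h4 h5 h6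
    exact ⟨h1, h2, h3, h4, h5, h6⟩
  have hev2 : ∀ᶠ w : ℕ in atTop, 2 ≤ Real.log (Real.log w) ∧ 4 * D + 1 ≤ Real.log (Real.log w) ∧
      2 * Real.log (4 * D) + 1 ≤ Real.log (Real.log (Real.log w)) ∧
      (64 + 2 / c) * Real.log (Real.log w) ≤ Real.log w ∧
      1 ≤ Real.log (Real.log (Real.log w)) ∧ 32 * Real.log (Real.log w) ≤ Real.log w ∧
      2 ≤ w := by
    have h := (Real.tendsto_log_atTop.comp tendsto_natCast_atTop_atTop).eventually hev
    filter_upwards [h, eventually_ge_atTop 2] with w h1 h2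
    exact ⟨h1.1, h1.2.1, h1.2.2.1, h1.2.2.2.1, h1.2.2.2.2.1, h1.2.2.2.2.2, h2⟩
  obtain ⟨w₀, hw₀⟩ := eventually_atTop.1 hev2
  refine ⟨c, hc0, w₀, fun w hw => ?_⟩
  obtain ⟨a1, a2, a3, a4, a5, a6, a7⟩ := hw₀ w hw
  set l : ℝ := Real.log w with hl
  set l2 : ℝ := Real.log l with hl2
  set l3 : ℝ := Real.log l2 with hl3
  have hw2 : (2 : ℝ) ≤ w := by exact_mod_cast a7
  have hw0 : (0 : ℝ) < w := by linarith
  have hl2pos : 0 < l2 := by linarith
  have hlpos : 0 < l := by nlinarith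
  have hl3pos : 0 < l3 := by linarith
  have hl2l : l2 ≤ l := by nlinarith
  have hl3l2 : l3 ≤ l2 := by
    have := Real.log_le_sub_one_of_pos hl2pos
    linarith
  set y : ℕ := ⌊Real.exp (l * l3 / (8 * l2))⌋₊ with hy
  set H : ℕ := ⌊c * w * l ^ 2 * l3 / l2 ^ 2⌋₊ with hH
  -- the size of `y`
  have hq : 4 ≤ l * l3 / (8 * l2) := by
    rw [le_div_iff₀ (by positivity)]
    nlinarith
  have hqe : 4 + 1 ≤ Real.exp (l * l3 / (8 * l2)) := by
    have := Real.add_one_le_exp (l * l3 / (8 * l2))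
    linarith
  have hy2 : 2 ≤ y := Nat.le_floor (by push_cast; linarith)
  have hy2' : (2 : ℝ) ≤ y := by exact_mod_cast hy2
  have hyle : (y : ℝ) ≤ Real.exp (l * l3 / (8 * l2)) := Nat.floor_le (Real.exp_pos _).le
  have hly_up : Real.log y ≤ l * l3 / (8 * l2) := by
    rw [Real.log_le_iff_le_exp (by linarith)]
    exact hyle
  have hly_lo : l * l3 / (16 * l2) ≤ Real.log y := by
    rw [Real.le_log_iff_exp_le (by linarith)]
    have h1 : Real.exp (l * l3 / (8 * l2)) < y + 1 := Nat.lt_floor_add_one _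
    have h2 : l * l3 / (8 * l2) = l * l3 / (16 * l2) + l * l3 / (16 * l2) := by
      field_simp; ring
    have h3 : 2 ≤ l * l3 / (16 * l2) := by
      rw [le_div_iff₀ (by positivity)]
      nlinarith
    have h4 := Real.add_one_le_exp (l * l3 / (16 * l2))
    have h5 : Real.exp (l * l3 / (8 * l2)) =
        Real.exp (l * l3 / (16 * l2)) * Real.exp (l * l3 / (16 * l2)) := by
      rw [← Real.exp_add, ← h2]
    rw [h5] at h1
    nlinarith [Real.exp_pos (l * l3 / (16 * l2))]
  have hlypos : 0 < Real.log y := lt_of_lt_of_le (by positivity) hly_lo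
  have hyw : y ≤ w := by
    have h1 : Real.log y ≤ Real.log w := by
      refine hly_up.trans ?_
      rw [div_le_iff₀ (by positivity)]
      nlinarith
    have h2 := (Real.log_le_log_iff (by linarith) hw0).1 h1
    exact_mod_cast h2
  -- the size of `H`
  have hX0 : 0 ≤ c * w * l ^ 2 * l3 / l2 ^ 2 := by positivity
  have hHle : (H : ℝ) ≤ c * w * l ^ 2 * l3 / l2 ^ 2 := Nat.floor_le hX0
  have hwH : w ≤ H := by
    apply Nat.le_floor
    rw [le_div_iff₀ (by positivity)]
    have h1 : l2 ^ 2 ≤ c * l ^ 2 * l3 := by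
      have h2 : (2 / c) * l2 ≤ l := by
        have : 0 ≤ 64 * l2 := by positivity
        linarith
      have h3 : 2 * l2 ≤ c * l := by
        rw [div_mul_eq_mul_div, div_le_iff₀ hc0] at h2
        linarith
      have h4 : l2 * l2 ≤ (c * l) * l := by
        have := mul_le_mul (show l2 ≤ c * l by linarith) hl2l hl2pos.le (by positivity)
        exact this
      have h5 : (c * l) * l * 1 ≤ (c * l) * l * l3 := by gcongr
      nlinarith
    calc (w : ℝ) * l2 ^ 2 ≤ w * (c * l ^ 2 * l3) := by gcongr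
      _ = c * w * l ^ 2 * l3 := by ring
  have hH0 : (0 : ℝ) < H := by
    have : (w : ℝ) ≤ H := by exact_mod_cast hwH
    linarith
  have hH1 : 1 ≤ H := by omega
  -- the smooth numbers
  have hD4 : 0 < 4 * D := by linarith
  set T : ℝ := Real.log (l2 / (4 * D)) with hT
  have hTeq : T = l3 - Real.log (4 * D) := by
    rw [hT, Real.log_div hl2pos.ne' hD4.ne']
  have hT0 : 0 < T := Real.log_pos (by rw [one_lt_div hD4]; linarith)
  have hlog4D : 0 ≤ Real.log (4 * D) := Real.log_nonneg (by linarith)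
  have hT3 : l3 / 2 ≤ T := by rw [hTeq]; linarith
  have hTle : T ≤ l3 := by rw [hTeq]; linarith
  have hexpT : Real.exp T = l2 / (4 * D) := Real.exp_log (by positivity)
  set δ : ℝ := T / Real.log y with hδ
  have hδ0 : 0 < δ := by positivity
  have hδy : δ * Real.log y = T := by rw [hδ]; field_simp
  have hδ1 : δ ≤ 1 / 4 := by
    rw [hδ, div_le_iff₀ hlypos]
    have h1 : l3 ≤ 1 / 4 * (l * l3 / (16 * l2)) := by
      have h2 : 1 / 4 * (l * l3 / (16 * l2)) = l * l3 / (64 * l2) := by field_simp; ring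
      rw [h2, le_div_iff₀ (by positivity)]
      have h3 : 64 * l2 ≤ l := by
        have : 0 ≤ 2 / c * l2 := by positivity
        linarith
      nlinarith
    linarith
  have hSM := hD y H δ hy2 hH1 hδ0 hδ1
  rw [hδy, hexpT] at hSM
  have hlH : l ≤ Real.log H := Real.log_le_log hw0 (by exact_mod_cast hwH)
  have hexp : -(δ * Real.log H) + Real.log (Real.log y) + D * (l2 / (4 * D)) ≤ -l2 := by
    have h1 : 4 * l2 ≤ δ * Real.log H := by
      have h2 : 4 * l2 ≤ δ * l := by
        rw [hδ, div_mul_eq_mul_div, le_div_iff₀ hlypos]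
        calc 4 * l2 * Real.log y ≤ 4 * l2 * (l * l3 / (8 * l2)) := by gcongr
          _ = l3 / 2 * l := by field_simp; ring
          _ ≤ T * l := by gcongr
      exact h2.trans (by gcongr)
    have h3 : Real.log (Real.log y) ≤ l2 := by
      apply Real.log_le_log hlypos
      exact Real.log_le_log (by linarith) (by exact_mod_cast hyw)
    have h4 : D * (l2 / (4 * D)) = l2 / 4 := by field_simp
    rw [h4]
    linarith
  have hSM2 : ((SM y H).card : ℝ) ≤ H / l := by
    refine hSM.trans ?_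
    have h1 : Real.exp (-l2) = 1 / l := by
      rw [Real.exp_neg, Real.exp_log hlpos, one_div]
    calc (H : ℝ) * Real.exp (-(δ * Real.log H) + Real.log (Real.log y) + D * (l2 / (4 * D))) ≤
        H * Real.exp (-l2) := by gcongr
      _ = H / l := by rw [h1, mul_one_div]
  -- the quotient `H / w`
  have hHw : (H : ℝ) / w ≤ l ^ 2 := by
    rw [div_le_iff₀ hw0]
    refine hHle.trans ?_
    rw [div_le_iff₀ (by positivity)]
    have h1 : l3 ≤ l2 ^ 2 := by nlinarith
    have h2 : c * w * l ^ 2 * l3 ≤ 1 * w * l ^ 2 * l2 ^ 2 := by gcongr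
    linarith
  have hg0 : 0 ≤ Real.log ((H : ℝ) / w) :=
    Real.log_nonneg (by rw [one_le_div hw0]; exact_mod_cast hwH)
  have hg : Real.log ((H : ℝ) / w) ≤ 2 * l2 := by
    calc Real.log ((H : ℝ) / w) ≤ Real.log (l ^ 2) :=
          Real.log_le_log (by positivity) hHw
      _ = 2 * l2 := by rw [Real.log_pow]; push_cast; rfl
  obtain ⟨v, hv⟩ := hC y w H hy2 hyw hwH
  refine ⟨v, hv.trans ?_⟩
  have h := final_ineq (C := C) (c := c) (w := w) (H := H) hC0 hc0 hw0 hlpos a1 hl3pos hly_lo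
    hHle hH0.le hSM2 hg hg0
  refine h.trans ?_
  gcongr

end Pool.Gap.Rk
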