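import Pool.Agent.Work.MP_3a3367_nt_log.MER
import Pool.Agent.Work.MP_b0c12c_gaps.RankinI

/-! # Block SMOOTH: Rankin's bound for smooth numbers (helper3) -/

set_option autoImplicit false

namespace Pool.Gap.Rk

open Finset

namespace Smooth

theorem mem_SM {y N n : ℕ} (h : n ∈ SM y N) :
    1 ≤ n ∧ n ≤ N ∧ ∀ p, p.Prime → p ∣ n → p ≤ y := by
  classical
  unfold SM at h
  rw [mem_filter, mem_Icc] at h
  exact ⟨h.1.1, h.1.2, h.2⟩

theorem mem_smooth {y N n : ℕ} (h : n ∈ SM y N) : n ∈ Nat.smoothNumbers (y + 1) := by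
  rw [Nat.mem_smoothNumbers']
  intro p hp hd
  exact Nat.lt_succ_of_le ((mem_SM h).2.2 p hp hd)

theorem five_thirds : (5 / 3 : ℝ) ≤ (2 : ℝ) ^ (3 / 4 : ℝ) := by
  have h : ((5 / 3 : ℝ) ^ (4 : ℝ)) ≤ ((2 : ℝ) ^ (3 / 4 : ℝ)) ^ (4 : ℝ) := by
    rw [← Real.rpow_mul (by norm_num)]
    norm_num
  exact (Real.rpow_le_rpow_iff (by norm_num) (by positivity) (by norm_num)).1 h

theorem prime_rpow {p : ℕ} (hp : p.Prime) {σ : ℝ} (hσ : 3 / 4 ≤ σ) :
    0 < (p : ℝ) ^ (-σ) ∧ (p : ℝ) ^ (-σ) ≤ 3 / 5 := by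
  have hp2 : (2 : ℝ) ≤ p := by exact_mod_cast hp.two_le
  refine ⟨Real.rpow_pos_of_pos (by linarith) _, ?_⟩
  rw [Real.rpow_neg (by linarith)]
  have h1 : (5 / 3 : ℝ) ≤ (p : ℝ) ^ σ := by
    calc (5 / 3 : ℝ) ≤ (2 : ℝ) ^ (3 / 4 : ℝ) := five_thirds
      _ ≤ (p : ℝ) ^ (3 / 4 : ℝ) := Real.rpow_le_rpow (by norm_num) hp2 (by norm_num)
      _ ≤ (p : ℝ) ^ σ := Real.rpow_le_rpow_of_exponent_le (by linarith) hσ
  calc ((p : ℝ) ^ σ)⁻¹ ≤ (5 / 3 : ℝ)⁻¹ := by gcongr
    _ = 3 / 5 := by norm_num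

/-- one Euler factor -/
theorem factor_le {x : ℝ} (_h0 : 0 < x) (h1 : x ≤ 3 / 5) :
    (1 - x)⁻¹ ≤ Real.exp (x + 5 / 2 * x ^ 2) := by
  have h2 : 0 < 1 - x := by linarith
  rw [← Real.log_le_iff_le_exp (by positivity), Real.log_inv]
  have h3 := Real.one_sub_inv_le_log_of_pos h2
  have h4 : (1 - x)⁻¹ - 1 ≤ x + 5 / 2 * x ^ 2 := by
    rw [sub_le_iff_le_add, inv_le_iff_one_le_mul₀ h2]
    nlinarith [mul_nonneg (sq_nonneg x) (by linarith : (0 : ℝ) ≤ 3 / 5 - x)]
  linarith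

/-- the monoid homomorphism `n ↦ n ^ (-σ)` -/
noncomputable def pw (σ : ℝ) : ℕ →* ℝ where
  toFun := fun n => (n : ℝ) ^ (-σ)
  map_one' := by simp
  map_mul' := fun m n => by
    rw [Nat.cast_mul, Real.mul_rpow (Nat.cast_nonneg m) (Nat.cast_nonneg n)]

theorem count_le (y N : ℕ) {σ : ℝ} (hσ : 3 / 4 ≤ σ) :
    ((SM y N).card : ℝ) ≤ (N : ℝ) ^ σ *
      Real.exp (∑ p ∈ PR y, ((p : ℝ) ^ (-σ) + 5 / 2 * ((p : ℝ) ^ (-σ)) ^ 2)) := by
  have hσ0 : 0 < σ := by linarith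
  have hf : ∀ {p : ℕ}, p.Prime → ‖pw σ p‖ < 1 := by
    intro p hp
    show ‖(p : ℝ) ^ (-σ)‖ < 1
    obtain ⟨h1, h2⟩ := prime_rpow hp hσ
    rw [Real.norm_eq_abs, abs_of_pos h1]
    linarith
  obtain ⟨hs, hS⟩ := EulerProduct.summable_and_hasSum_smoothNumbers_prod_primesBelow_geometric
    hf (y + 1)
  have hpos : ∀ n : ℕ, 0 ≤ pw σ n := fun n => Real.rpow_nonneg (Nat.cast_nonneg n) _
  -- the finite sum is at most the product
  have h1 : ∑ n ∈ SM y N, pw σ n ≤ ∏ p ∈ (y + 1).primesBelow, (1 - pw σ p)⁻¹ := by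
    rw [← hS.tsum_eq]
    have h2 : ∑ n ∈ SM y N, pw σ n = ∑ n ∈ (SM y N).attach.map
        ⟨fun n => (⟨n.1, mem_smooth n.2⟩ : Nat.smoothNumbers (y + 1)), fun a b hab => by
          have := congrArg Subtype.val hab
          exact Subtype.ext this⟩, pw σ n := by
      rw [sum_map]
      simp only [Function.Embedding.coeFn_mk]
      exact (sum_attach (SM y N) (fun n => pw σ n)).symm
    rw [h2]
    exact hS.summable.sum_le_tsum _ (fun n _ => hpos _)
  have h3 : ∏ p ∈ (y + 1).primesBelow, (1 - pw σ p)⁻¹ ≤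
      Real.exp (∑ p ∈ PR y, ((p : ℝ) ^ (-σ) + 5 / 2 * ((p : ℝ) ^ (-σ)) ^ 2)) := by
    have he : (y + 1).primesBelow = PR y := by
      ext p
      rw [Nat.mem_primesBelow, mem_filter, mem_Icc]
      constructor
      · rintro ⟨h1, h2⟩
        exact ⟨⟨h2.one_lt.le, by omega⟩, h2⟩
      · rintro ⟨h1, h2⟩
        exact ⟨by omega, h2⟩
    rw [he, Real.exp_sum]
    refine prod_le_prod (fun p hp => ?_) (fun p hp => ?_)
    · obtain ⟨h1, h2⟩ := prime_rpow (mem_filter.1 hp).2 hσ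
      have : 0 < 1 - pw σ p := by
        show 0 < 1 - (p : ℝ) ^ (-σ)
        linarith
      positivity
    · obtain ⟨h1, h2⟩ := prime_rpow (mem_filter.1 hp).2 hσ
      exact factor_le h1 h2
  -- Rankin's trick
  have h4 : ((SM y N).card : ℝ) ≤ (N : ℝ) ^ σ * ∑ n ∈ SM y N, pw σ n := by
    rw [mul_sum, card_eq_sum_ones, Nat.cast_sum]
    refine sum_le_sum fun n hn => ?_
    obtain ⟨hn1, hn2, -⟩ := mem_SM hn
    have hn0 : (0 : ℝ) < n := by exact_mod_cast hn1
    have hnN : (n : ℝ) ≤ N := by exact_mod_cast hn2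
    show ((1 : ℕ) : ℝ) ≤ (N : ℝ) ^ σ * (n : ℝ) ^ (-σ)
    rw [Nat.cast_one, Real.rpow_neg hn0.le, ← div_eq_mul_inv, one_le_div (by positivity)]
    exact Real.rpow_le_rpow hn0.le hnN hσ0.le
  refine h4.trans ?_
  exact mul_le_mul_of_nonneg_left (h1.trans h3) (by positivity)

end Smooth

open Smooth

theorem blk_SMOOTH : Stmt_SMOOTH := by
  obtain ⟨C1, c1, hC1, hc1, hM⟩ := Pool.Agent.Work.MP_3a3367_nt_log.stmt_MER
  obtain ⟨C2, hC2, hM2⟩ := Pool.Agent.Work.MP_b0c12c_nt_helper41.mertens2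
  have hsum : Summable (fun n : ℕ => 1 / (n : ℝ) ^ (3 / 2 : ℝ)) :=
    Real.summable_one_div_nat_rpow.2 (by norm_num)
  set C0 : ℝ := ∑' n : ℕ, 1 / (n : ℝ) ^ (3 / 2 : ℝ) with hC0
  have hC00 : 0 ≤ C0 := tsum_nonneg fun n => by positivity
  have hl2 : 0 < Real.log 2 := Real.log_pos (by norm_num)
  -- the sum of the reciprocals of the primes
  obtain ⟨D, hD0, hD⟩ : ∃ D : ℝ, 0 ≤ D ∧ ∀ y : ℕ, 2 ≤ y →
      ∑ p ∈ PR y, 1 / (p : ℝ) ≤ Real.log (Real.log y) + D := by
    refine ⟨|C2 / Real.log 2 - Real.log (Real.log 2) + 1|, abs_nonneg _, fun y hy => ?_⟩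
    have h1 := (abs_le.1 (hM2 2 y le_rfl hy)).2
    have h2 : PR y ⊆ insert 2 ((Ioc 2 y).filter Nat.Prime) := by
      intro p hp
      rw [mem_filter, mem_Icc] at hp
      rw [mem_insert, mem_filter, mem_Ioc]
      rcases Nat.lt_or_ge 2 p with h | h
      · exact Or.inr ⟨⟨h, hp.1.2⟩, hp.2⟩
      · left
        have := hp.2.two_le
        omega
    have h3 : ∑ p ∈ PR y, 1 / (p : ℝ) ≤
        ∑ p ∈ insert 2 ((Ioc 2 y).filter Nat.Prime), 1 / (p : ℝ) :=
      sum_le_sum_of_subset_of_nonneg h2 fun p _ _ => by positivity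
    rw [sum_insert (by simp)] at h3
    push_cast at h1 h3
    have h4 := le_abs_self (C2 / Real.log 2 - Real.log (Real.log 2) + 1)
    linarith
  refine ⟨D + (1 + C1 / Real.log 2) + 1 + 5 / 2 * C0, ?_, fun y N δ hy hN hδ0 hδ1 => ?_⟩
  · have : 0 ≤ C1 / Real.log 2 := div_nonneg (by linarith) hl2.le
    linarith
  have hy2 : (2 : ℝ) ≤ y := by exact_mod_cast hy
  have hly2 : Real.log 2 ≤ Real.log y := Real.log_le_log (by norm_num) hy2
  have hly : 0 < Real.log y := hl2.trans_le hly2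
  have hN0 : (0 : ℝ) < N := by exact_mod_cast hN
  have hσ : 3 / 4 ≤ 1 - δ := by linarith
  refine (count_le y N hσ).trans ?_
  set T : ℝ := δ * Real.log y with hT
  have hT0 : 0 < T := by positivity
  have hE1 : 1 ≤ Real.exp T := Real.one_le_exp hT0.le
  -- the first sum
  have hs1 : ∑ p ∈ PR y, (p : ℝ) ^ (-(1 - δ)) ≤
      Real.log (Real.log y) + D + (1 + C1 / Real.log 2) * Real.exp T := by
    have h1 : ∀ p ∈ PR y, (p : ℝ) ^ (-(1 - δ)) ≤
        1 / (p : ℝ) + (Real.exp T - 1) / Real.log y * (Real.log p / p) := by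
      intro p hp
      rw [mem_filter, mem_Icc] at hp
      have hp0 : (0 : ℝ) < p := by exact_mod_cast hp.2.pos
      have hp1 : (1 : ℝ) ≤ p := by exact_mod_cast hp.2.one_lt.le
      have hpy : (p : ℝ) ≤ y := by exact_mod_cast hp.1.2
      have hlp : 0 ≤ Real.log p := Real.log_nonneg hp1
      have hlpy : Real.log p ≤ Real.log y := Real.log_le_log hp0 hpy
      have h2 : (p : ℝ) ^ (-(1 - δ)) = 1 / p * Real.exp (δ * Real.log p) := by
        rw [neg_sub, sub_eq_add_neg, Real.rpow_add hp0, Real.rpow_neg_one,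
          Real.rpow_def_of_pos hp0, mul_comm (Real.log p) δ, one_div, mul_comm]
      have h3 : Real.exp (δ * Real.log p) ≤
          1 + (Real.exp T - 1) / Real.log y * Real.log p := by
        have hc := convexOn_exp.2 (Set.mem_univ (0 : ℝ)) (Set.mem_univ T)
          (sub_nonneg.2 ((div_le_one hly).2 hlpy)) (by positivity : 0 ≤ Real.log p / Real.log y)
          (by ring)
        have e1 : (1 - Real.log p / Real.log y) • (0 : ℝ) + (Real.log p / Real.log y) • T =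
            δ * Real.log p := by
          rw [hT, smul_zero, zero_add, smul_eq_mul]
          field_simp
        rw [e1] at hc
        refine hc.trans (le_of_eq ?_)
        rw [Real.exp_zero, smul_eq_mul, smul_eq_mul]
        ring
      rw [h2]
      calc 1 / (p : ℝ) * Real.exp (δ * Real.log p) ≤
          1 / p * (1 + (Real.exp T - 1) / Real.log y * Real.log p) := by gcongr
        _ = 1 / (p : ℝ) + (Real.exp T - 1) / Real.log y * (Real.log p / p) := by ring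
    refine (sum_le_sum h1).trans ?_
    rw [sum_add_distrib, ← mul_sum]
    have h4 := hD y hy
    have h5 := (hM y hy2).1
    have h6 : Pool.Agent.Work.MP_3a3367_nt_log.UP ∅ (y : ℝ) = PR y := by
      rw [Pool.Agent.Work.MP_3a3367_nt_log.MERaux.UP_eq, Nat.floor_natCast]
    rw [h6] at h5
    have h7 : (Real.exp T - 1) / Real.log y * ∑ p ∈ PR y, Real.log p / p ≤
        (1 + C1 / Real.log 2) * Real.exp T := by
      have h8 : (Real.exp T - 1) / Real.log y * ∑ p ∈ PR y, Real.log p / p ≤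
          (Real.exp T - 1) / Real.log y * (Real.log y + C1) := by
        refine mul_le_mul_of_nonneg_left h5 ?_
        exact div_nonneg (by linarith) hly.le
      refine h8.trans ?_
      have h9 : (Real.exp T - 1) / Real.log y * (Real.log y + C1) =
          (Real.exp T - 1) * (1 + C1 / Real.log y) := by
        field_simp
      rw [h9, mul_comm (1 + C1 / Real.log 2)]
      have h10 : C1 / Real.log y ≤ C1 / Real.log 2 := by
        apply div_le_div_of_nonneg_left (by linarith) hl2 hly2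
      have h11 : 0 ≤ C1 / Real.log y := div_nonneg (by linarith) hly.le
      exact mul_le_mul (by linarith) (by linarith) (by linarith) (by linarith)
    linarith
  -- the second sum
  have hs2 : ∑ p ∈ PR y, ((p : ℝ) ^ (-(1 - δ))) ^ 2 ≤ C0 := by
    have h1 : ∀ p ∈ PR y, ((p : ℝ) ^ (-(1 - δ))) ^ 2 ≤ 1 / (p : ℝ) ^ (3 / 2 : ℝ) := by
      intro p hp
      rw [mem_filter, mem_Icc] at hp
      have hp0 : (0 : ℝ) < p := by exact_mod_cast hp.2.pos
      have hp1 : (1 : ℝ) ≤ p := by exact_mod_cast hp.2.one_lt.le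
      rw [← Real.rpow_natCast, ← Real.rpow_mul hp0.le, one_div, ← Real.rpow_neg hp0.le]
      apply Real.rpow_le_rpow_of_exponent_le hp1
      push_cast
      linarith
    refine (sum_le_sum h1).trans ?_
    exact hsum.sum_le_tsum _ (fun n _ => by positivity)
  have hN1 : (N : ℝ) ^ (1 - δ) = N * Real.exp (-(δ * Real.log N)) := by
    rw [sub_eq_add_neg, Real.rpow_add hN0, Real.rpow_one, Real.rpow_def_of_pos hN0]
    ring_nf
  rw [hN1, mul_assoc, ← Real.exp_add]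
  refine mul_le_mul_of_nonneg_left (Real.exp_le_exp.2 ?_) hN0.le
  rw [sum_add_distrib, ← mul_sum]
  have hf : D + 5 / 2 * C0 ≤ (D + 5 / 2 * C0) * Real.exp T := by
    nlinarith [mul_nonneg (by positivity : 0 ≤ D + 5 / 2 * C0) (sub_nonneg.2 hE1)]
  nlinarith

end Pool.Gap.Rk
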