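import Pool.Agent.Work.MP_b0c12c_gaps.RankinI

/-! # Large gaps between primes, the residue classes: block SPLIT -/

set_option autoImplicit false

namespace Pool.Gap.Rk

open Finset

theorem blk_SPLIT (hG : Stmt_GREEDY) (hM : Stmt_MULT) (hP : Stmt_PRODS) : Stmt_SPLIT := by
  classical
  obtain ⟨C₁, hC₁, hM⟩ := hM
  obtain ⟨C₂, hC₂, hP⟩ := hP
  refine ⟨C₂ * (1 + C₁), by positivity, fun y w H hy hyw hwH => ?_⟩
  set B : Finset ℕ := (PR w).filter fun p => y < p with hB
  set S : Finset ℕ := (Icc 1 H).filter fun h => ∀ p ∈ B, ¬ p ∣ h with hS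
  have hBp : ∀ p ∈ B, p.Prime := fun p hp => by
    simp only [hB, PR, Finset.mem_filter] at hp
    exact hp.1.2
  have hM0 : ∏ p ∈ B, p ≠ 0 := Finset.prod_ne_zero_iff.2 fun p hp => (hBp p hp).ne_zero
  have hQp : ∀ p ∈ PR y, p.Prime := fun p hp => (Finset.mem_filter.1 hp).2
  have hQM : ∀ p ∈ PR y, ¬ p ∣ ∏ q ∈ B, q := by
    intro p hp hd
    obtain ⟨q, hq, hpq⟩ := (Nat.Prime.prime (hQp p hp)).exists_mem_finset_dvd hd
    have : p = q := (Nat.prime_dvd_prime_iff_eq (hQp p hp) (hBp q hq)).1 hpq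
    subst this
    have h1 : p ≤ y := (Finset.mem_Icc.1 (Finset.mem_filter.1 hp).1).2
    have h2 : y < p := (Finset.mem_filter.1 hq).2
    omega
  obtain ⟨v, hv, hcard⟩ := hG S (PR y) (∏ p ∈ B, p) 0 hQp hM0 hQM
  refine ⟨v, ?_⟩
  have hsub : surv v w H ⊆ S.filter fun h => ∀ p ∈ PR y, ¬ p ∣ v + h := by
    intro h hh
    rw [surv, Finset.mem_filter] at hh
    rw [Finset.mem_filter, hS, Finset.mem_filter]
    refine ⟨⟨hh.1, fun p hp hd => ?_⟩, fun p hp => hh.2 p ?_⟩
    · have hpw : p ∈ PR w := (Finset.mem_filter.1 hp).1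
      apply hh.2 p hpw
      have : v ≡ 0 [MOD p] := hv.of_dvd (Finset.dvd_prod_of_mem (fun q => q) hp)
      exact dvd_add ((Nat.modEq_zero_iff_dvd).1 this) hd
    · simp only [PR, Finset.mem_filter, Finset.mem_Icc] at hp ⊢
      exact ⟨⟨hp.1.1, hp.1.2.trans hyw⟩, hp.2⟩
  have hScard : (S.card : ℝ) ≤ (SM y H).card + C₁ * (H / Real.log w) * (1 + Real.log (H / w)) := by
    have h1 : S ⊆ SM y H ∪ (Icc 1 H).filter fun h => ∃ q, q.Prime ∧ w < q ∧ q ∣ h := by
      intro h hh
      rw [hS, Finset.mem_filter] at hh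
      rw [Finset.mem_union]
      by_cases hq : ∃ q, q.Prime ∧ w < q ∧ q ∣ h
      · right
        exact Finset.mem_filter.2 ⟨hh.1, hq⟩
      · left
        push Not at hq
        refine Finset.mem_filter.2 ⟨hh.1, fun p hp hd => ?_⟩
        by_contra hcon
        have hpw : p ≤ w := by
          by_contra hlt
          exact hq p hp (by omega) hd
        refine hh.2 p ?_ hd
        simp only [hB, PR, Finset.mem_filter, Finset.mem_Icc]
        exact ⟨⟨⟨hp.one_lt.le, hpw⟩, hp⟩, by omega⟩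
    have h2 := (Finset.card_le_card h1).trans (Finset.card_union_le _ _)
    have h3 := hM w H (hy.trans hyw) hwH
    have h4 : (S.card : ℝ) ≤ (SM y H).card +
        (((Icc 1 H).filter fun h => ∃ q, q.Prime ∧ w < q ∧ q ∣ h).card : ℝ) := by exact_mod_cast h2
    linarith
  have hlogy : 0 < Real.log y := Real.log_pos (by exact_mod_cast (by omega : 1 < y))
  have hlogw : 0 < Real.log w := Real.log_pos (by exact_mod_cast (by omega : 1 < w))
  have hw0 : (0 : ℝ) < w := by exact_mod_cast (by omega : 0 < w)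
  have hHw : 0 ≤ Real.log ((H : ℝ) / w) := by
    apply Real.log_nonneg
    rw [le_div_iff₀ hw0, one_mul]
    exact_mod_cast hwH
  have hX : 0 ≤ (H : ℝ) / Real.log w * (1 + Real.log (H / w)) := by positivity
  have hS0 : (0 : ℝ) ≤ S.card := Nat.cast_nonneg _
  calc ((surv v w H).card : ℝ)
      ≤ ((S.filter fun h => ∀ p ∈ PR y, ¬ p ∣ v + h).card : ℝ) := by
        exact_mod_cast Finset.card_le_card hsub
    _ ≤ S.card * ∏ p ∈ PR y, (1 - 1 / (p : ℝ)) := hcard
    _ ≤ S.card * (C₂ / Real.log y) := mul_le_mul_of_nonneg_left (hP y hy) hS0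
    _ ≤ ((SM y H).card + C₁ * (H / Real.log w) * (1 + Real.log (H / w))) * (C₂ / Real.log y) :=
        mul_le_mul_of_nonneg_right hScard (by positivity)
    _ ≤ C₂ * (1 + C₁) / Real.log y *
        ((SM y H).card + H / Real.log w * (1 + Real.log (H / w))) := by
        have e : C₂ * (1 + C₁) / Real.log y *
            ((SM y H).card + H / Real.log w * (1 + Real.log (H / w)))
            - ((SM y H).card + C₁ * (H / Real.log w) * (1 + Real.log (H / w))) * (C₂ / Real.log y)
            = C₂ / Real.log y * (C₁ * (SM y H).card + H / Real.log w * (1 + Real.log (H / w))) := by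
          ring
        have : 0 ≤ C₂ / Real.log y *
            (C₁ * (SM y H).card + H / Real.log w * (1 + Real.log (H / w))) := by positivity
        linarith

end Pool.Gap.Rk
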